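import Mathlib
import Pool.Agent.Lib.MR2.Defs

/-!
# PROJECT OX (MP_bf4c7f_nt): products of three primes in all but polylogarithmically many of
Oppermann's intervals.  Exact statements of the rows.  helper31.

Text: `/team-store/tt6_bf4c7f_threeprimes.md`.
`riemannZeta₁ s = (s - 1) ζ(s)` is entire (Mathlib).  `nt n t = n^{-it}`, `g T t = exp(-(t/T)^2)`,
`Q H v t` (library `MRL`), `AF a Y t = Σ_{Y < m ≤ 2Y} a(m) m^{-1-it}` (library `MRF`).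
-/

set_option autoImplicit false

namespace Pool.Agent.OX

open Finset Pool.Agent.MRL Pool.Agent.MRF

noncomputable section

/-! ### the zeta function near the line 1 -/

/-- ROW ZAP: approximate formula (Euler–Maclaurin, first order). -/
def ZAP : Prop := ∃ C : ℝ, 0 < C ∧ ∀ (s : ℂ) (M : ℕ), 1 / 2 ≤ s.re → s.re ≤ 3 → s ≠ 1 → 1 ≤ M →
  ‖riemannZeta s - (∑ n ∈ Icc 1 M, (n : ℂ) ^ (-s) + (M : ℂ) ^ (1 - s) / (s - 1))‖ ≤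
    C * ‖s‖ * (M : ℝ) ^ (-s.re)

/-- ROW GR: growth to the left of the line 1 (from Vinogradov's mean value theorem). -/
def GR : Prop := ∃ C : ℝ, 0 < C ∧ ∀ s : ℂ, 10 ≤ |s.im| →
  1 - (Real.log |s.im|) ^ (-(9 / 10 : ℝ)) ≤ s.re → s.re ≤ 3 →
  ‖riemannZeta s‖ ≤ C * Real.log |s.im|

/-- ROW ZF: zero-free region and the logarithmic derivative in it. -/
def ZF : Prop := ∃ c C : ℝ, 0 < c ∧ 0 < C ∧ ∀ s : ℂ,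
  1 - c / (Real.log (3 + |s.im|)) ^ (19 / 20 : ℝ) ≤ s.re → s.re ≤ 3 →
  riemannZeta₁ s ≠ 0 ∧ ‖logDeriv riemannZeta₁ s‖ ≤ C * (Real.log (3 + |s.im|)) ^ 2

/-- ROW ZG: the logarithmic derivative to the right of a rectangle without zeros. -/
def ZG : Prop := ∃ C : ℝ, 0 < C ∧ ∀ X δ t₀ : ℝ, 3 ≤ X → 1 / Real.log X ≤ δ → δ ≤ 1 / 16 →
  |t₀| ≤ X → (∀ s : ℂ, 1 - 2 * δ < s.re → |s.im - t₀| ≤ 1 → riemannZeta₁ s ≠ 0) →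
  ∀ s : ℂ, s.im = t₀ → 1 - δ ≤ s.re → s.re ≤ 3 →
    ‖logDeriv riemannZeta₁ s‖ ≤ C * (Real.log X) ^ 2

/-! ### the long prime polynomial -/

/-- the primes `√y < s ≤ y^2`. -/
def SP (y : ℝ) : Finset ℕ := (Icc 1 ⌊y ^ 2⌋₊).filter (fun s : ℕ => s.Prime ∧ √y < (s : ℝ))

/-- the sum over the primes `√y < s ≤ y^2` with the weight `(log s) exp(-(log (s/y))^2/4)`. -/
def Sy (y t : ℝ) : ℂ :=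
  ∑ s ∈ SP y, ((Real.log s * Real.exp (-(Real.log ((s : ℝ) / y)) ^ 2 / 4) / s : ℝ) : ℂ) * nt s t

/-- the main term of `Sy`. -/
def my (y t : ℝ) : ℂ :=
  ((2 * √Real.pi * Real.exp (-t ^ 2) : ℝ) : ℂ) *
    Complex.exp (-((t * Real.log y : ℝ) : ℂ) * Complex.I)

/-- the error term. -/
def Ey (y t : ℝ) : ℂ := Sy y t - my y t

/-- ROW PG: Gaussian Perron formula, line moved to `Re = 1 - δ`. -/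
def PG : Prop := ∃ C : ℝ, 0 < C ∧ ∀ y V δ B t : ℝ, 3 ≤ y → 1 ≤ V → 0 < δ → δ ≤ 1 / 16 →
  1 ≤ B → (∀ s : ℂ, 1 - δ ≤ s.re → s.re ≤ 3 → |s.im - t| ≤ V →
    riemannZeta₁ s ≠ 0 ∧ ‖logDeriv riemannZeta₁ s‖ ≤ B) →
  ‖Ey y t‖ ≤ C * (B * y ^ (-δ) + (B + Real.log y) * Real.exp (-V ^ 2 / 2))

/-- ROW PP: pointwise bound. -/
def PP : Prop := ∃ c C : ℝ, 0 < c ∧ 0 < C ∧ ∀ y t : ℝ, 3 ≤ y →
  ‖Ey y t‖ ≤ C * (Real.log y + Real.log (3 + |t|)) ^ 3 *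
    Real.exp (-(c * Real.log y / (Real.log (3 + |t| + Real.log y)) ^ (19 / 20 : ℝ)))

/-- ROW SZD: sparse zero density near the line 1. -/
def SZD : Prop := ∀ ε : ℝ, 0 < ε → ∃ θ κ C : ℝ, 0 < θ ∧ θ ≤ 1 ∧ 0 < κ ∧ κ ≤ 1 / 16 ∧ 1 ≤ C ∧
  ∀ T σ : ℝ, C ≤ T → 1 - κ ≤ σ → σ ≤ 1 → ∀ Z : Finset ℂ,
  (∀ ρ ∈ Z, riemannZeta ρ = 0 ∧ σ ≤ ρ.re ∧ T ≤ |ρ.im| ∧ |ρ.im| ≤ 8 * T) →
  (∀ ρ ∈ Z, ∀ ρ' ∈ Z, ρ ≠ ρ' → 1 ≤ |ρ.im - ρ'.im|) → (Z.card : ℝ) ≤ T ^ θ →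
  (Z.card : ℝ) ≤ T ^ (ε * (1 - σ)) * (Real.log T) ^ C

/-- ROW SQ: the error term is small in mean square on sparse sets of unit intervals. -/
def SQ : Prop := ∃ θ : ℝ, 0 < θ ∧ θ ≤ 1 ∧ ∀ B : ℝ, ∃ C X₀ : ℝ, 0 < C ∧ ∀ X y : ℝ, X₀ ≤ X →
  √X / 2 ≤ y → y ≤ X ^ 2 → ∀ (R : Finset ℤ) (τ : ℤ → ℝ), (∀ i ∈ R, |(i : ℝ)| ≤ 2 * X) →
  (∀ T : ℝ, Real.exp (√(Real.log X)) ≤ T → T ≤ X →
    ((R.filter (fun i : ℤ => |(i : ℝ)| ≤ 2 * T)).card : ℝ) ≤ T ^ θ) →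
  (∀ i ∈ R, τ i ∈ Set.Icc (i : ℝ) (i + 1)) →
  ∑ i ∈ R, ‖Ey y (τ i)‖ ^ 2 ≤ C * (Real.log X) ^ (-B)

/-- ROW ME: mean square over everything. -/
def ME : Prop := ∃ C : ℝ, 0 < C ∧ ∀ y T : ℝ, 3 ≤ y → 1 ≤ T → T ≤ 4 * y →
  ∫ t : ℝ, ‖Ey y t‖ ^ 2 * g T t ≤ C * (Real.log y) ^ 4

/-! ### sparse shifts -/

/-- ROW CNT: integers `q ∈ (Q, 2Q]` with `θ q` near an integer. -/
def CNT : Prop := ∃ C : ℝ, 0 < C ∧ ∀ θ η Q : ℝ, 0 < η → η < 1 / 8 → 1 / η ≤ Q →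
  ∀ S : Finset ℕ,
  (∀ q ∈ S, Q < q ∧ (q : ℝ) ≤ 2 * Q ∧ ∃ m : ℤ, |(m : ℝ) - θ * q| ≤ η) →
  (S.card : ℝ) ≤ C * (η * Q) ∨
    ∃ (a : ℤ) (b : ℕ), 1 ≤ b ∧ (b : ℝ) ≤ 1 / (4 * η) ∧ |θ - a / b| ≤ η / Q ∧
      (S.card : ℝ) ≤ Q / b + 1

/-- ROW RD: mean square of a Dirichlet polynomial times a sum over well spaced points. -/
def RD : Prop := ∃ C : ℝ, 0 < C ∧ ∀ (N T Q L Δ : ℝ) (J : Finset ℝ) (c : ℝ → ℂ) (a : ℕ → ℂ),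
  1 ≤ L → 1 ≤ N → 1 ≤ T → 1 ≤ Q → (∀ x ∈ J, N ≤ x ∧ x ≤ 4 * N) →
  (∀ x ∈ J, ∀ x' ∈ J, x ≠ x' → Δ ≤ |x - x'|) → (∀ x, ‖c x‖ ≤ 1) → (∀ q, ‖a q‖ ≤ 1) →
  128 * L * Q < T → T ≤ Q ^ 2 → 128 * N * L < T * Δ → T ≤ Real.exp (L ^ 2) →
  ∫ t : ℝ, ‖AF a Q t *
      ∑ x ∈ J, c x * Complex.exp (((t * Real.log x : ℝ) : ℂ) * Complex.I)‖ ^ 2 * g T t ≤
    C * ((J.card : ℝ) ^ 2 * L + J.card * (T / Q) ^ 2)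

/-! ### the main term -/

/-- ROW LB: lower bounds for sums over primes (Chebyshev). -/
def LB : Prop := ∃ c : ℝ, 0 < c ∧
  (∃ v₀ : ℕ, ∀ v : ℕ, v₀ ≤ v → c / v ≤ ∑ p ∈ W 1 v, 1 / (p : ℝ)) ∧
  (∃ Q₀ : ℝ, ∀ Q : ℝ, Q₀ ≤ Q → ∃ Q' : ℝ, (Q' = Q ∨ Q' = 2 * Q) ∧
    c / Real.log Q ≤ ∑ q ∈ (Ioc ⌊Q'⌋₊ ⌊2 * Q'⌋₊).filter Nat.Prime, 1 / (q : ℝ))

/-- the prime indicator as coefficients. -/
def pr (n : ℕ) : ℂ := if n.Prime then 1 else 0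

/-- the smooth sum over `n = p q s` near `x`. -/
def Wx (v : ℕ) (Q y T x : ℝ) : ℝ :=
  ∑ p ∈ W 1 v, ∑ q ∈ (Ioc ⌊Q⌋₊ ⌊2 * Q⌋₊).filter Nat.Prime,
    ∑ s ∈ SP y, Real.log s * Real.exp (-(Real.log ((s : ℝ) / y)) ^ 2 / 4) / (p * q * s) *
        Real.exp (-(T * Real.log (p * q * s / x)) ^ 2 / 4)

/-- ROW MT: Perron formula for `Wx` and its main term. -/
def MT : Prop := ∃ c : ℝ, 0 < c ∧ ∀ (v : ℕ) (Q y T x : ℝ), 1 ≤ Q → 3 ≤ y → 1 ≤ T → 0 < x →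
  Real.exp (-3) ≤ x / (Real.exp v * Q * y) → x / (Real.exp v * Q * y) ≤ Real.exp 3 →
  √Real.pi * T * Wx v Q y T x +
    ‖∫ t : ℝ, MRL.Q 1 v t * AF pr Q t * Ey y t *
      Complex.exp (((t * Real.log x : ℝ) : ℂ) * Complex.I) * (g T t : ℂ)‖ ≥
  c * (∑ p ∈ W 1 v, 1 / (p : ℝ)) *
    ∑ q ∈ (Ioc ⌊Q⌋₊ ⌊2 * Q⌋₊).filter Nat.Prime, 1 / (q : ℝ)

/-! ### the theorem -/

/-- the interval `(y, y + h)` contains a product of three primes `p q s`, `p ≤ Z`, `q, s ≥ w`. -/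
def Has3 (y h Z w : ℝ) : Prop := ∃ p q s : ℕ, p.Prime ∧ q.Prime ∧ s.Prime ∧ (p : ℝ) ≤ Z ∧
  w ≤ q ∧ w ≤ s ∧ y < (p * q * s : ℕ) ∧ ((p * q * s : ℕ) : ℝ) < y + h

/-- ROW CORE: few well spaced bad points. -/
def CORE : Prop := ∀ K : ℝ, 0 ≤ K → ∃ C : ℝ, 0 < C ∧ ∃ N₀ : ℝ, ∀ N : ℝ, N₀ ≤ N →
  ∀ Y : Finset ℝ, (∀ y ∈ Y, N ≤ y ∧ y ≤ 3 * N) →
  (∀ y ∈ Y, ∀ y' ∈ Y, y ≠ y' → √N / (Real.log N) ^ (K + 1) ≤ |y - y'|) →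
  (∀ y ∈ Y, ¬ Has3 y (√N / (Real.log N) ^ K) ((Real.log N) ^ C) (√N / (Real.log N) ^ C)) →
  (Y.card : ℝ) ≤ (Real.log N) ^ C

/-- ROW FIN: the theorem (`result`). -/
def Final3 : Prop := ∀ K : ℝ, 0 ≤ K → ∃ C : ℝ, 0 < C ∧ ∃ X₀ : ℕ, ∀ X : ℕ, X₀ ≤ X →
  ({x : ℕ | 1 < x ∧ x ≤ X ∧ ¬ ∀ y : ℝ, (x : ℝ) ^ 2 - x ≤ y →
      y + x / (Real.log x) ^ K ≤ (x : ℝ) ^ 2 + x →
      ∃ p q s : ℕ, p.Prime ∧ q.Prime ∧ s.Prime ∧ (p : ℝ) ≤ (Real.log x) ^ C ∧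
        x / (Real.log x) ^ C ≤ q ∧ x / (Real.log x) ^ C ≤ s ∧
        y < (p * q * s : ℕ) ∧ ((p * q * s : ℕ) : ℝ) < y + x / (Real.log x) ^ K}.ncard : ℝ) ≤
    (Real.log X) ^ C

end

end Pool.Agent.OX
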