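import Mathlib
import Pool.Agent.Lib.OX.Defs

/-!
# PROJECT OX (MP_bf4c7f_nt): statements of the sub-rows.  helper31.
-/

set_option autoImplicit false

namespace Pool.Agent.OX

open Finset Pool.Agent.MRL Pool.Agent.MRF

noncomputable section

/-! ### sparse zero density -/

/-- coefficients of `(Σ_{m ≤ U} μ(m) m^{-s}) (Σ_{n ≤ U} n^{-s})`. -/
def bU (U k : ℕ) : ℂ :=
  ∑ m ∈ k.divisors.filter (fun m => m ≤ U ∧ k / m ≤ U), ((ArithmeticFunction.moebius m : ℤ) : ℂ)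

/-- ROW SZ1: a zero near the line 1 makes a short Dirichlet polynomial large. -/
def SZ1 : Prop := ∀ ε : ℝ, 0 < ε → ε ≤ 1 / 2 → ∃ κ C : ℝ, 0 < κ ∧ κ ≤ 1 / 16 ∧ 1 ≤ C ∧
  ∀ (T : ℝ) (ρ : ℂ), C ≤ T → riemannZeta ρ = 0 → 1 - κ ≤ ρ.re → T ≤ |ρ.im| → |ρ.im| ≤ 8 * T →
  1 / 2 ≤ ‖∑ k ∈ Ioc ⌊T ^ ε⌋₊ (⌊T ^ ε⌋₊ ^ 2), bU ⌊T ^ ε⌋₊ k * (k : ℂ) ^ (-ρ)‖

/-- ROW SZ2: Halász–Montgomery for points with different real parts. -/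
def SZ2 : Prop := ∀ A : ℝ, 1 ≤ A → ∃ η C : ℝ, 0 < η ∧ 0 < C ∧ ∀ (K : ℕ) (σ : ℝ) (Z : Finset ℂ)
  (S : Finset ℕ) (a : ℕ → ℂ), 3 ≤ K → 1 / 2 ≤ σ → (∀ ρ ∈ Z, σ ≤ ρ.re ∧ ρ.re ≤ 1) →
  (∀ ρ ∈ Z, ∀ ρ' ∈ Z, ρ ≠ ρ' → 1 ≤ |ρ.im - ρ'.im|) →
  (∀ ρ ∈ Z, ∀ ρ' ∈ Z, |ρ.im - ρ'.im| ≤ (K : ℝ) ^ A) → (∀ k ∈ S, K ≤ k ∧ k ≤ 2 * K) →
  ∑ ρ ∈ Z, ‖∑ k ∈ S, a k * (k : ℂ) ^ (-ρ)‖ ^ 2 ≤
    C * (K + Z.card * (K : ℝ) ^ (1 - η)) * (K : ℝ) ^ (-(2 * σ)) * ∑ k ∈ S, ‖a k‖ ^ 2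

/-! ### the mean square on sparse sets -/

/-- ROW SQL: small heights. -/
def SQL : Prop := ∀ B : ℝ, ∃ C X₀ : ℝ, 0 < C ∧ ∀ X y : ℝ, X₀ ≤ X →
  √X / 2 ≤ y → y ≤ X ^ 2 → ∀ (R : Finset ℤ) (τ : ℤ → ℝ),
  (∀ i ∈ R, |(i : ℝ)| ≤ 2 * Real.exp (√(Real.log X))) →
  (∀ i ∈ R, τ i ∈ Set.Icc (i : ℝ) (i + 1)) →
  ∑ i ∈ R, ‖Ey y (τ i)‖ ^ 2 ≤ C * (Real.log X) ^ (-B)

/-- ROW SQH: one dyadic range of heights. -/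
def SQH : Prop := ∃ θ : ℝ, 0 < θ ∧ θ ≤ 1 ∧ ∀ B : ℝ, ∃ C X₀ : ℝ, 0 < C ∧ ∀ X y T : ℝ, X₀ ≤ X →
  √X / 2 ≤ y → y ≤ X ^ 2 → Real.exp (√(Real.log X)) ≤ T → T ≤ X →
  ∀ (R : Finset ℤ) (τ : ℤ → ℝ), (∀ i ∈ R, T ≤ |(i : ℝ)| ∧ |(i : ℝ)| ≤ 2 * T) →
  (R.card : ℝ) ≤ T ^ θ → (∀ i ∈ R, τ i ∈ Set.Icc (i : ℝ) (i + 1)) →
  ∑ i ∈ R, ‖Ey y (τ i)‖ ^ 2 ≤ C * (Real.log X) ^ (-B)

/-! ### assembly -/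

/-- the index of the short prime window: `e^v ≈ (log N)^A`. -/
def vP (A N : ℝ) : ℕ := ⌈A * Real.log (Real.log N)⌉₊

/-- the height. -/
def TP (K N : ℝ) : ℝ := √N * (Real.log N) ^ (K + 3)

/-- the length of the polynomial grouped with the shifts. -/
def QP (K A N : ℝ) : ℝ := √N / (Real.log N) ^ (A + K + 4)

/-- the length of the long prime polynomial. -/
def yP (A N Q : ℝ) : ℝ := N / (Real.exp (vP A N) * Q)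

/-- ROW BADI: a bad interval makes the error integral large. -/
def BADI : Prop := ∀ K A : ℝ, 0 ≤ K → 1 ≤ A → ∃ c N₀ : ℝ, 0 < c ∧ ∀ N Q : ℝ, N₀ ≤ N →
  (Q = QP K A N ∨ Q = 2 * QP K A N) → ∀ y₀ : ℝ, N ≤ y₀ → y₀ ≤ 3 * N →
  ¬ Has3 y₀ (√N / (Real.log N) ^ K) ((Real.log N) ^ (A + 1))
    (√N / (Real.log N) ^ (A + K + 5)) →
  c * (∑ p ∈ W 1 (vP A N), 1 / (p : ℝ)) *
      (∑ q ∈ (Ioc ⌊Q⌋₊ ⌊2 * Q⌋₊).filter Nat.Prime, 1 / (q : ℝ)) ≤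
    ‖∫ t : ℝ, MRL.Q 1 (vP A N) t * AF pr Q t * Ey (yP A N Q) t *
      Complex.exp (((t * Real.log (y₀ + √N / (2 * (Real.log N) ^ K)) : ℝ) : ℂ) * Complex.I) *
      (g (TP K N) t : ℂ)‖

/-- ROW INT: the integral of the error term against few well spaced shifts. -/
def INT : Prop := ∀ K : ℝ, 0 ≤ K → ∃ A C N₀ : ℝ, 1 ≤ A ∧ 0 < C ∧ ∀ N Q : ℝ, N₀ ≤ N →
  (Q = QP K A N ∨ Q = 2 * QP K A N) → ∀ (J : Finset ℝ) (c : ℝ → ℂ),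
  (∀ x ∈ J, N ≤ x ∧ x ≤ 4 * N) →
  (∀ x ∈ J, ∀ x' ∈ J, x ≠ x' → √N / (Real.log N) ^ (K + 1) ≤ |x - x'|) → (∀ x, ‖c x‖ ≤ 1) →
  ∫ t : ℝ, ‖MRL.Q 1 (vP A N) t * (AF pr Q t *
      ∑ x ∈ J, c x * Complex.exp (((t * Real.log x : ℝ) : ℂ) * Complex.I)) *
      Ey (yP A N Q) t‖ * g (TP K N) t ≤
    C * (J.card * (Real.log N) ^ (-(3 : ℝ)) + √(J.card) * (Real.log N) ^ C)

end

end Pool.Agent.OX
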