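import Mathlib
import Pool.Agent.Lib.OX.Defs2
import Pool.Agent.Lib.MRL.Basics

/-!
# PROJECT OX: basic facts (continuity, bounds, integrability, monotonicity of `Has3`).  helper31.
-/

set_option autoImplicit false

namespace Pool.Agent.OX

open Finset MeasureTheory Pool.Agent.MRL Pool.Agent.MRF

/-- `x^{it}`. -/
noncomputable def xt (x t : ℝ) : ℂ := Complex.exp (((t * Real.log x : ℝ) : ℂ) * Complex.I)

theorem norm_xt (x t : ℝ) : ‖xt x t‖ = 1 := Complex.norm_exp_ofReal_mul_I _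

theorem continuous_xt (x : ℝ) : Continuous (xt x) := by
  unfold xt
  fun_prop

theorem norm_pr_le (n : ℕ) : ‖pr n‖ ≤ 1 := by
  unfold pr
  split_ifs <;> simp

theorem AF_pr (Q t : ℝ) : AF pr Q t =
    ∑ q ∈ (Ioc ⌊Q⌋₊ ⌊2 * Q⌋₊).filter Nat.Prime, (((1 / (q : ℝ) : ℝ) : ℂ)) * nt q t := by
  unfold AF pr
  rw [Finset.sum_filter]
  refine Finset.sum_congr rfl fun q _ => ?_
  split_ifs <;> simp

theorem norm_AF_pr_le (Q t : ℝ) : ‖AF pr Q t‖ ≤
    ∑ q ∈ (Ioc ⌊Q⌋₊ ⌊2 * Q⌋₊).filter Nat.Prime, 1 / (q : ℝ) := by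
  rw [AF_pr]
  refine (norm_sum_le _ _).trans (Finset.sum_le_sum fun q _ => ?_)
  rw [norm_mul, MRF.norm_nt, mul_one, Complex.norm_real, Real.norm_eq_abs,
    abs_of_nonneg (by positivity)]

theorem continuous_Sy (y : ℝ) : Continuous (Sy y) := by
  unfold Sy
  exact continuous_finsetSum _ fun s _ => continuous_const.mul (MRF.continuous_nt s)

theorem continuous_my (y : ℝ) : Continuous (my y) := by
  unfold my
  fun_prop

theorem continuous_Ey (y : ℝ) : Continuous (Ey y) := (continuous_Sy y).sub (continuous_my y)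

theorem norm_Sy_le (y t : ℝ) : ‖Sy y t‖ ≤ ∑ s ∈ SP y, Real.log s / s := by
  unfold Sy
  refine (norm_sum_le _ _).trans (Finset.sum_le_sum fun s hs => ?_)
  have hs1 : 1 ≤ s := (Finset.mem_Icc.1 (Finset.mem_filter.1 hs).1).1
  have hl : 0 ≤ Real.log s := Real.log_nonneg (by exact_mod_cast hs1)
  rw [norm_mul, MRF.norm_nt, mul_one, Complex.norm_real, Real.norm_eq_abs, abs_of_nonneg
    (by positivity)]
  refine div_le_div_of_nonneg_right ?_ (by positivity)
  refine mul_le_of_le_one_right hl ?_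
  rw [Real.exp_le_one_iff]
  have := sq_nonneg (Real.log ((s : ℝ) / y))
  linarith

theorem norm_my_le (y t : ℝ) : ‖my y t‖ ≤ 4 := by
  unfold my
  rw [← Complex.ofReal_neg, norm_mul, Complex.norm_exp_ofReal_mul_I, mul_one, Complex.norm_real,
    Real.norm_eq_abs, abs_of_nonneg (by positivity)]
  have h1 : √Real.pi ≤ 2 := by
    rw [Real.sqrt_le_left (by norm_num)]
    linarith [Real.pi_lt_four]
  have h2 : Real.exp (-t ^ 2) ≤ 1 := by
    rw [Real.exp_le_one_iff]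
    nlinarith [sq_nonneg t]
  have h3 : 0 ≤ √Real.pi := Real.sqrt_nonneg _
  have h4 : 0 ≤ Real.exp (-t ^ 2) := (Real.exp_pos _).le
  nlinarith

/-- a crude bound for `Ey`. -/
theorem norm_Ey_le (y t : ℝ) : ‖Ey y t‖ ≤ ∑ s ∈ SP y, Real.log s / s + 4 :=
  (norm_sub_le _ _).trans (add_le_add (norm_Sy_le y t) (norm_my_le y t))

/-- A bounded continuous function times the Gaussian weight is integrable. -/
theorem integrable_mul_g {T : ℝ} (hT : 0 < T) {f : ℝ → ℂ} (hf : Continuous f) {B : ℝ}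
    (hB : ∀ t, ‖f t‖ ≤ B) : Integrable (fun t => f t * (g T t : ℂ)) := by
  have h : Integrable (fun t => (g T t : ℂ)) := (MRL.Bas.integrable_g hT).ofReal
  exact h.bdd_mul (c := B) hf.aestronglyMeasurable (Filter.Eventually.of_forall hB)

theorem norm_mul_g (T t : ℝ) (z : ℂ) : ‖z * (g T t : ℂ)‖ = ‖z‖ * g T t := by
  rw [norm_mul, Complex.norm_real, Real.norm_eq_abs, abs_of_nonneg (MRL.Bas.g_nonneg T t)]

theorem Has3.mono {y h Z w Z' w' : ℝ} (hZ : Z ≤ Z') (hw : w' ≤ w) (H : Has3 y h Z w) :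
    Has3 y h Z' w' := by
  obtain ⟨p, q, s, h1, h2, h3, h4, h5, h6, h7, h8⟩ := H
  exact ⟨p, q, s, h1, h2, h3, h4.trans hZ, hw.trans h5, hw.trans h6, h7, h8⟩

end Pool.Agent.OX
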