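import Mathlib
import Pool.Agent.Lib.OX.Bas

/-!
# PROJECT OX, row BADI: a bad interval makes the error integral large.  helper50.
-/

set_option autoImplicit false

namespace Pool.Agent.OX

open Finset MeasureTheory Pool.Agent.MRL Pool.Agent.MRF

namespace BADI

noncomputable section

/-- numbers off the interval are far from its centre on the logarithmic scale -/
theorem far {N x h n : ℝ} (_hN : 0 < N) (hx : 0 < x) (hx4 : x ≤ 4 * N) (hh : 0 < h) (hhN : h ≤ N)
    (hn : 0 < n) (hd : h / 2 ≤ |n - x|) : h / (16 * N) ≤ |Real.log (n / x)| := by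
  rcases le_total x n with hle | hle
  · rw [abs_of_nonneg (sub_nonneg.2 hle)] at hd
    have h1 : x + h / 2 ≤ n := by linarith
    have h2 : 1 ≤ n / x := by
      rw [le_div_iff₀ hx]
      linarith
    rw [abs_of_nonneg (Real.log_nonneg h2)]
    have h3 := Real.one_sub_inv_le_log_of_pos (show 0 < n / x by positivity)
    refine le_trans ?_ h3
    rw [inv_div]
    have h4 : x / n ≤ x / (x + h / 2) := by
      apply div_le_div_of_nonneg_left hx.le (by positivity) h1
    have h5 : h / (16 * N) ≤ 1 - x / (x + h / 2) := by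
      have h6 : 1 - x / (x + h / 2) = h / (2 * x + h) := by
        field_simp
        ring
      rw [h6]
      apply div_le_div_of_nonneg_left hh.le (by positivity)
      linarith
    linarith
  · rw [abs_sub_comm, abs_of_nonneg (sub_nonneg.2 hle)] at hd
    have h1 : n ≤ x - h / 2 := by linarith
    have h2 : n / x ≤ 1 := by
      rw [div_le_one hx]
      exact hle
    rw [abs_of_nonpos (Real.log_nonpos (by positivity) h2)]
    have h3 := Real.log_le_sub_one_of_pos (show 0 < n / x by positivity)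
    have h4 : n / x ≤ 1 - h / (2 * x) := by
      rw [div_le_iff₀ hx]
      have : (1 - h / (2 * x)) * x = x - h / 2 := by
        field_simp
      rw [this]
      exact h1
    have h5 : h / (16 * N) ≤ h / (2 * x) := by
      apply div_le_div_of_nonneg_left hh.le (by positivity)
      linarith
    linarith

/-- the sum over the long primes, crudely -/
theorem sum_SP_le {y : ℝ} (hy : 0 ≤ y) : ∑ s ∈ SP y, Real.log s / s ≤ y ^ 2 := by
  have h1 : ∑ s ∈ SP y, Real.log s / s ≤ ∑ s ∈ SP y, (1 : ℝ) := by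
    refine Finset.sum_le_sum fun s hs => ?_
    have hs1 : 1 ≤ s := (Finset.mem_Icc.1 (Finset.mem_filter.1 hs).1).1
    have hs0 : (0 : ℝ) < s := by exact_mod_cast hs1
    rw [div_le_one hs0]
    have := Real.log_le_sub_one_of_pos hs0
    linarith
  refine h1.trans ?_
  rw [Finset.sum_const, nsmul_eq_mul, mul_one]
  have h2 : (SP y).card ≤ ⌊y ^ 2⌋₊ := by
    refine (Finset.card_filter_le _ _).trans ?_
    rw [Nat.card_Icc]
    omega
  have h3 : ((SP y).card : ℝ) ≤ (⌊y ^ 2⌋₊ : ℝ) := by exact_mod_cast h2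
  exact h3.trans (Nat.floor_le (by positivity))

/-- if all the products are far from `x` then `Wx` is tiny -/
theorem Wx_le {v : ℕ} {Q y T x E : ℝ} (hy : 0 ≤ y)
    (h : ∀ p ∈ W 1 v, ∀ q ∈ (Ioc ⌊Q⌋₊ ⌊2 * Q⌋₊).filter Nat.Prime, ∀ s ∈ SP y,
      Real.exp (-(T * Real.log (p * q * s / x)) ^ 2 / 4) ≤ E) (hE : 0 ≤ E) :
    Wx v Q y T x ≤ (∑ p ∈ W 1 v, 1 / (p : ℝ)) *
      (∑ q ∈ (Ioc ⌊Q⌋₊ ⌊2 * Q⌋₊).filter Nat.Prime, 1 / (q : ℝ)) * (y ^ 2 * E) := by
  have key : Wx v Q y T x ≤ ∑ p ∈ W 1 v, ∑ q ∈ (Ioc ⌊Q⌋₊ ⌊2 * Q⌋₊).filter Nat.Prime,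
      1 / (p : ℝ) * (1 / (q : ℝ)) * (y ^ 2 * E) := by
    unfold Wx
    refine Finset.sum_le_sum fun p hp => Finset.sum_le_sum fun q hq => ?_
    have h1 : ∑ s ∈ SP y, Real.log s * Real.exp (-(Real.log ((s : ℝ) / y)) ^ 2 / 4) /
        (p * q * s) * Real.exp (-(T * Real.log (p * q * s / x)) ^ 2 / 4) ≤
        ∑ s ∈ SP y, 1 / (p : ℝ) * (1 / (q : ℝ)) * E * (Real.log s / s) := by
      refine Finset.sum_le_sum fun s hs => ?_
      have hs1 : 1 ≤ s := (Finset.mem_Icc.1 (Finset.mem_filter.1 hs).1).1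
      have hl : 0 ≤ Real.log s := Real.log_nonneg (by exact_mod_cast hs1)
      have e1 : Real.exp (-(Real.log ((s : ℝ) / y)) ^ 2 / 4) ≤ 1 := by
        rw [Real.exp_le_one_iff]
        have := sq_nonneg (Real.log ((s : ℝ) / y))
        linarith
      have e2 := h p hp q hq s hs
      have hs0 : (0 : ℝ) < s := by exact_mod_cast hs1
      have hp0 : (0 : ℝ) ≤ p := Nat.cast_nonneg p
      have hq0 : (0 : ℝ) ≤ q := Nat.cast_nonneg q
      have e3 : Real.log s * Real.exp (-(Real.log ((s : ℝ) / y)) ^ 2 / 4) / (p * q * s) ≤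
          Real.log s / (p * q * s) := by
        refine div_le_div_of_nonneg_right ?_ (by positivity)
        exact mul_le_of_le_one_right hl e1
      calc Real.log s * Real.exp (-(Real.log ((s : ℝ) / y)) ^ 2 / 4) / (p * q * s) *
            Real.exp (-(T * Real.log (p * q * s / x)) ^ 2 / 4)
          ≤ Real.log s / (p * q * s) * E :=
            mul_le_mul e3 e2 (Real.exp_pos _).le (by positivity)
        _ = 1 / (p : ℝ) * (1 / (q : ℝ)) * E * (Real.log s / s) := by
            rw [div_mul_div_comm, mul_comm (p : ℝ) q]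
            simp only [div_eq_mul_inv, mul_inv]
            ring
    refine h1.trans ?_
    rw [← Finset.mul_sum]
    have h2 := sum_SP_le hy
    have h3 : 0 ≤ 1 / (p : ℝ) * (1 / (q : ℝ)) * E := by positivity
    calc 1 / (p : ℝ) * (1 / (q : ℝ)) * E * ∑ s ∈ SP y, Real.log s / s
        ≤ 1 / (p : ℝ) * (1 / (q : ℝ)) * E * y ^ 2 := mul_le_mul_of_nonneg_left h2 h3
      _ = _ := by ring
  refine key.trans (le_of_eq ?_)
  rw [Finset.sum_mul_sum, Finset.sum_mul]
  refine Finset.sum_congr rfl fun p _ => ?_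
  rw [Finset.sum_mul]

/-- the conditions on a large `N` -/
theorem large (K A c : ℝ) (hc : 0 < c) : ∃ N₀ : ℝ, ∀ N : ℝ, N₀ ≤ N → 1 ≤ N ∧ 8 ≤ Real.log N ∧
    (Real.log N) ^ (A + K + 4) ≤ √N ∧
    4 * Real.exp (3 * Real.log N - (Real.log N) ^ 6 / 1024) ≤ c := by
  have h1 : ∀ᶠ N : ℝ in Filter.atTop, 1 ≤ N := Filter.eventually_ge_atTop 1
  have h2 : ∀ᶠ N : ℝ in Filter.atTop, 8 ≤ Real.log N :=
    Real.tendsto_log_atTop.eventually_ge_atTop 8
  have h3 : ∀ᶠ N : ℝ in Filter.atTop, (Real.log N) ^ (A + K + 4) ≤ √N := by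
    have h := (isLittleO_log_rpow_rpow_atTop (A + K + 4) (by norm_num : (0 : ℝ) < 1 / 2)).bound
      (show (0 : ℝ) < 1 by norm_num)
    filter_upwards [h, h1, h2] with N hN hN1 hN2
    rw [one_mul, Real.norm_of_nonneg (by positivity), Real.norm_of_nonneg (by positivity)] at hN
    rwa [Real.sqrt_eq_rpow]
  have h4 : Filter.Tendsto (fun L : ℝ => 4 * Real.exp (3 * L - L ^ 6 / 1024)) Filter.atTop
      (nhds 0) := by
    have h5 : Filter.Tendsto (fun L : ℝ => 3 * L - L ^ 6 / 1024) Filter.atTop Filter.atBot := by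
      have h6 : Filter.Tendsto (fun L : ℝ => -L) Filter.atTop Filter.atBot :=
        Filter.tendsto_neg_atTop_atBot
      refine Filter.tendsto_atBot_mono' _ ?_ h6
      filter_upwards [Filter.eventually_ge_atTop (6 : ℝ)] with L hL
      have h7 : (6 : ℝ) ^ 5 ≤ L ^ 5 := pow_le_pow_left₀ (by norm_num) hL 5
      have h8 : L ^ 6 = L ^ 5 * L := by ring
      rw [h8]
      nlinarith
    have h6 := (Real.tendsto_exp_atBot.comp h5).const_mul 4
    simpa using h6
  have h5 : ∀ᶠ N : ℝ in Filter.atTop,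
      4 * Real.exp (3 * Real.log N - (Real.log N) ^ 6 / 1024) ≤ c := by
    have h6 : ∀ᶠ L : ℝ in Filter.atTop, 4 * Real.exp (3 * L - L ^ 6 / 1024) < c :=
      h4.eventually (gt_mem_nhds hc)
    filter_upwards [Real.tendsto_log_atTop.eventually h6] with N hN using hN.le
  obtain ⟨N₀, hN₀⟩ := Filter.eventually_atTop.1 (h1.and (h2.and (h3.and h5)))
  exact ⟨N₀, hN₀⟩

end

end BADI

open BADI in
/-- ROW BADI. -/
theorem badi (hM : MT) : BADI := by
  obtain ⟨c, hc, hMT⟩ := hM
  intro K A hK hA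
  obtain ⟨N₀, hN₀⟩ := large K A c hc
  refine ⟨c / 2, N₀, by positivity, ?_⟩
  intro N Q hN hQ y₀ hy1 hy2 hbad
  obtain ⟨hN1, hL8, hsq, hE⟩ := hN₀ N hN
  set L : ℝ := Real.log N with hL
  have hL0 : 0 < L := by linarith
  have hN0 : 0 < N := by linarith
  have hs0 : 0 < √N := Real.sqrt_pos.2 hN0
  have hss : √N * √N = N := Real.mul_self_sqrt hN0.le
  have hL1 : 1 ≤ L := by linarith
  -- the window
  obtain ⟨v, hv⟩ : ∃ v : ℕ, v = vP A N := ⟨_, rfl⟩
  have hAl : 0 ≤ A * Real.log L := mul_nonneg (by linarith) (Real.log_nonneg hL1)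
  have hv1 : L ^ A ≤ Real.exp v := by
    rw [hv, Real.rpow_def_of_pos hL0]
    refine Real.exp_le_exp.2 ?_
    rw [mul_comm]
    exact Nat.le_ceil _
  have hv2 : Real.exp v ≤ Real.exp 1 * L ^ A := by
    rw [hv, Real.rpow_def_of_pos hL0, ← Real.exp_add]
    refine Real.exp_le_exp.2 ?_
    have := (Nat.ceil_lt_add_one hAl).le
    unfold vP
    rw [← hL]
    linarith [mul_comm A (Real.log L)]
  have he : Real.exp 1 < 2.7182818286 := Real.exp_one_lt_d9
  -- `Q`
  obtain ⟨Q0, hQ0⟩ : ∃ Q0 : ℝ, Q0 = QP K A N := ⟨_, rfl⟩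
  have hQ0e : Q0 = √N / L ^ (A + K + 4) := hQ0
  have hP : 0 < L ^ (A + K + 4) := Real.rpow_pos_of_pos hL0 _
  have hQ01 : 1 ≤ Q0 := by
    rw [hQ0e, le_div_iff₀ hP, one_mul]
    exact hsq
  have hQ1 : Q0 ≤ Q ∧ Q ≤ 2 * Q0 := by
    rw [hQ0]
    rcases hQ with h | h <;> rw [h]
    · exact ⟨le_rfl, by rw [← hQ0]; linarith⟩
    · exact ⟨by rw [← hQ0]; linarith, le_rfl⟩
  have hQpos : 0 < Q := by linarith
  -- `y`
  obtain ⟨y, hy⟩ : ∃ y : ℝ, y = yP A N Q := ⟨_, rfl⟩
  have hye : y = N / (Real.exp v * Q) := by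
    rw [hy, hv]
    rfl
  have hypos : 0 < y := by
    rw [hye]
    positivity
  have hmul : Real.exp v * Q * y = N := by
    rw [hye]
    field_simp
  have hLA : 0 < L ^ A := Real.rpow_pos_of_pos hL0 _
  have hsplit : L ^ (A + K + 4) = L ^ A * L ^ (K + 4) := by
    rw [← Real.rpow_add hL0]
    congr 1
    ring
  have hK4 : 0 < L ^ (K + 4) := Real.rpow_pos_of_pos hL0 _
  have hylow : √N * L ^ (K + 4) / (2 * Real.exp 1) ≤ y := by
    rw [hye, div_le_div_iff₀ (by positivity) (by positivity)]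
    have h1 : Real.exp v * Q ≤ (Real.exp 1 * L ^ A) * (2 * (√N / (L ^ A * L ^ (K + 4)))) := by
      rw [← hsplit, ← hQ0e]
      exact mul_le_mul hv2 hQ1.2 hQpos.le (by positivity)
    calc √N * L ^ (K + 4) * (Real.exp v * Q)
        ≤ √N * L ^ (K + 4) * ((Real.exp 1 * L ^ A) * (2 * (√N / (L ^ A * L ^ (K + 4))))) :=
          mul_le_mul_of_nonneg_left h1 (by positivity)
      _ = (√N * √N) * (2 * Real.exp 1) := by field_simp
      _ = _ := by rw [hss]
  have hyup : y ≤ √N * L ^ (K + 4) := by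
    rw [hye, div_le_iff₀ (by positivity)]
    have h1 : L ^ A * (√N / (L ^ A * L ^ (K + 4))) ≤ Real.exp v * Q := by
      rw [← hsplit, ← hQ0e]
      exact mul_le_mul hv1 hQ1.1 (by linarith) (by positivity)
    calc N = √N * √N := hss.symm
      _ = √N * L ^ (K + 4) * (L ^ A * (√N / (L ^ A * L ^ (K + 4)))) := by
          field_simp
      _ ≤ _ := mul_le_mul_of_nonneg_left h1 (by positivity)
  have hK4s : L ^ (K + 4) ≤ √N :=
    (Real.rpow_le_rpow_of_exponent_le hL1 (by linarith)).trans hsq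
  have hK4L : (4096 : ℝ) ≤ L ^ (K + 4) := by
    have h1 : L ^ (4 : ℝ) ≤ L ^ (K + 4) := Real.rpow_le_rpow_of_exponent_le hL1 (by linarith)
    have h2 : L ^ (4 : ℝ) = L ^ (4 : ℕ) := by
      rw [← Real.rpow_natCast]
      norm_num
    have h3 : (4096 : ℝ) ≤ L ^ (4 : ℕ) := by
      calc (4096 : ℝ) = 8 ^ 4 := by norm_num
        _ ≤ _ := pow_le_pow_left₀ (by norm_num) hL8 4
    rw [h2] at h1
    exact h3.trans h1
  have hs4 : (4096 : ℝ) ≤ √N := hK4L.trans hK4s
  have hy3 : 3 ≤ y := by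
    refine le_trans ?_ hylow
    rw [le_div_iff₀ (by positivity)]
    have h1 : (4096 : ℝ) * 4096 ≤ √N * L ^ (K + 4) := mul_le_mul hs4 hK4L (by norm_num) hs0.le
    linarith
  have hyN : y ≤ N := by
    exact (hyup.trans (mul_le_mul_of_nonneg_left hK4s hs0.le)).trans hss.le
  -- `T`
  obtain ⟨T, hT⟩ : ∃ T : ℝ, T = TP K N := ⟨_, rfl⟩
  have hTe : T = √N * L ^ (K + 3) := hT
  have hK3 : 1 ≤ L ^ (K + 3) := Real.one_le_rpow hL1 (by linarith)
  have hT1 : 1 ≤ T := by
    rw [hTe]
    nlinarith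
  have hTN : T ≤ N := by
    rw [hTe]
    have h1 : L ^ (K + 3) ≤ √N :=
      (Real.rpow_le_rpow_of_exponent_le hL1 (by linarith)).trans hK4s
    exact (mul_le_mul_of_nonneg_left h1 hs0.le).trans hss.le
  -- `h`, `x`
  have hLK : 0 < L ^ K := Real.rpow_pos_of_pos hL0 _
  have hLK1 : 1 ≤ L ^ K := Real.one_le_rpow hL1 hK
  obtain ⟨h, hh⟩ : ∃ h : ℝ, h = √N / L ^ K := ⟨_, rfl⟩
  have hh0 : 0 < h := by
    rw [hh]
    positivity
  have hhN : h ≤ N := by
    rw [hh, div_le_iff₀ hLK]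
    have h1 : N * 1 ≤ N * L ^ K := mul_le_mul_of_nonneg_left hLK1 hN0.le
    have h2 : √N * 1 ≤ √N * √N := mul_le_mul_of_nonneg_left (by linarith) hs0.le
    rw [hss] at h2
    linarith
  obtain ⟨x, hx⟩ : ∃ x : ℝ, x = y₀ + √N / (2 * L ^ K) := ⟨_, rfl⟩
  have hxh : x = y₀ + h / 2 := by
    rw [hx, hh]
    congr 1
    field_simp
  have hx0 : 0 < x := by linarith
  have hx4 : x ≤ 4 * N := by linarith
  have hxN : N ≤ x := by linarith
  have hxr : x / (Real.exp v * Q * y) = x / N := by rw [hmul]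
  have hr1 : 1 ≤ x / N := by
    rw [le_div_iff₀ hN0]
    linarith
  have hr2 : x / N ≤ 4 := by
    rw [div_le_iff₀ hN0]
    exact hx4
  have hmt := hMT v Q y T x (by linarith) hy3 hT1 hx0 (by
      rw [hxr]
      refine le_trans ?_ hr1
      rw [Real.exp_le_one_iff]
      norm_num) (by
      rw [hxr]
      refine hr2.trans ?_
      have h1 := Real.add_one_le_exp (3 : ℝ)
      linarith)
  -- the terms of `Wx` are tiny
  have hTh : T * (h / (16 * N)) = L ^ 3 / 16 := by
    have h1 : L ^ (K + 3) = L ^ K * L ^ (3 : ℕ) := by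
      rw [Real.rpow_add hL0, ← Real.rpow_natCast L 3]
      norm_num
    rw [hTe, hh, h1]
    calc √N * (L ^ K * L ^ 3) * (√N / L ^ K / (16 * N))
        = (√N * √N) * (L ^ 3 / (16 * N)) := by field_simp
      _ = _ := by
          rw [hss]
          field_simp
  have hterm : ∀ p ∈ W 1 v, ∀ q ∈ (Ioc ⌊Q⌋₊ ⌊2 * Q⌋₊).filter Nat.Prime, ∀ s ∈ SP y,
      Real.exp (-(T * Real.log (p * q * s / x)) ^ 2 / 4) ≤ Real.exp (-(L ^ 6 / 1024)) := by
    intro p hp q hq s hs
    have hpp : p.Prime := (Finset.mem_filter.1 hp).2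
    have hqp : q.Prime := (Finset.mem_filter.1 hq).2
    have hsp : s.Prime := (Finset.mem_filter.1 hs).2.1
    have hp0 : (0 : ℝ) < p := by exact_mod_cast hpp.pos
    have hq0 : (0 : ℝ) < q := by exact_mod_cast hqp.pos
    have hs0' : (0 : ℝ) < s := by exact_mod_cast hsp.pos
    have hpup : (p : ℝ) ≤ Real.exp 1 * Real.exp v := by
      have h1 := (Finset.mem_Ioc.1 (Finset.mem_filter.1 hp).1).2
      have h2 : (p : ℝ) ≤ (⌊Real.exp (((v : ℝ) + 1) / (1 : ℕ))⌋₊ : ℝ) := by exact_mod_cast h1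
      refine h2.trans ((Nat.floor_le (Real.exp_pos _).le).trans (le_of_eq ?_))
      rw [← Real.exp_add]
      congr 1
      push_cast
      ring
    have hqlo : Q < q := by
      have h1 := (Finset.mem_Ioc.1 (Finset.mem_filter.1 hq).1).1
      exact (Nat.floor_lt hQpos.le).1 h1
    have hqup : (q : ℝ) ≤ 2 * Q := by
      have h1 := (Finset.mem_Ioc.1 (Finset.mem_filter.1 hq).1).2
      exact (Nat.le_floor_iff (by positivity)).1 h1
    have hn0 : (0 : ℝ) < p * q * s := by positivity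
    have hdist : h / 2 ≤ |(p : ℝ) * q * s - x| := by
      by_contra hcon
      have hcon' := abs_lt.1 (not_le.1 hcon)
      have hlow : y₀ < (p : ℝ) * q * s := by linarith [hcon'.1]
      have hupp : (p : ℝ) * q * s < y₀ + h := by linarith [hcon'.2]
      apply hbad
      refine ⟨p, q, s, hpp, hqp, hsp, ?_, ?_, ?_, ?_, ?_⟩
      · -- p small
        refine hpup.trans ?_
        have h1 : Real.exp 1 * Real.exp v ≤ Real.exp 1 * (Real.exp 1 * L ^ A) :=
          mul_le_mul_of_nonneg_left hv2 (Real.exp_pos _).le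
        refine h1.trans ?_
        rw [Real.rpow_add hL0, Real.rpow_one]
        have h2 : Real.exp 1 * Real.exp 1 ≤ L := by
          have h3 : Real.exp 1 * Real.exp 1 ≤ 2.7182818286 * 2.7182818286 :=
            mul_le_mul he.le he.le (Real.exp_pos _).le (by norm_num)
          norm_num at h3
          linarith
        calc Real.exp 1 * (Real.exp 1 * L ^ A) = (Real.exp 1 * Real.exp 1) * L ^ A := by ring
          _ ≤ L * L ^ A := mul_le_mul_of_nonneg_right h2 hLA.le
          _ = _ := by ring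
      · -- q large
        refine le_trans ?_ (hQ1.1.trans hqlo.le)
        rw [hQ0e]
        apply div_le_div_of_nonneg_left hs0.le hP
        exact Real.rpow_le_rpow_of_exponent_le hL1 (by linarith)
      · -- s large
        have h1 : N < (Real.exp 1 * Real.exp v) * (2 * Q) * s := by
          calc N ≤ y₀ := hy1
            _ < (p : ℝ) * q * s := hlow
            _ ≤ (Real.exp 1 * Real.exp v) * (2 * Q) * s := by
                refine mul_le_mul_of_nonneg_right ?_ hs0'.le
                exact mul_le_mul hpup hqup hq0.le (by positivity)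
        have h2 : y < 2 * Real.exp 1 * s := by
          have h3 : N < (Real.exp v * Q) * (2 * Real.exp 1 * s) := by
            refine h1.trans_le (le_of_eq ?_)
            ring
          have h4 : (Real.exp v * Q) * y < (Real.exp v * Q) * (2 * Real.exp 1 * s) := by
            rw [hmul]
            exact h3
          exact lt_of_mul_lt_mul_left h4 (by positivity)
        have h3 : √N * L ^ (K + 4) < (2 * Real.exp 1 * s) * (2 * Real.exp 1) := by
          have h4 := hylow.trans_lt h2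
          rwa [div_lt_iff₀ (by positivity)] at h4
        have h4 : (2 * Real.exp 1) * (2 * Real.exp 1) ≤ 4096 := by
          nlinarith [Real.exp_pos 1]
        have h5 : √N * L ^ (K + 4) < 4096 * s := by
          refine h3.trans_le ?_
          calc (2 * Real.exp 1 * s) * (2 * Real.exp 1)
              = ((2 * Real.exp 1) * (2 * Real.exp 1)) * s := by ring
            _ ≤ 4096 * s := mul_le_mul_of_nonneg_right h4 hs0'.le
        have h6 : √N < s := by
          have h7 : √N * 4096 ≤ √N * L ^ (K + 4) := mul_le_mul_of_nonneg_left hK4L hs0.le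
          linarith
        refine le_trans ?_ h6.le
        rw [div_le_iff₀ (Real.rpow_pos_of_pos hL0 _)]
        have h8 : 1 ≤ L ^ (A + K + 5) := Real.one_le_rpow hL1 (by linarith)
        exact le_mul_of_one_le_right hs0.le h8
      · push_cast
        exact hlow
      · push_cast
        rw [← hh]
        exact hupp
    have hfar := far hN0 hx0 hx4 hh0 hhN hn0 hdist
    refine Real.exp_le_exp.2 ?_
    have h1 : L ^ 3 / 16 ≤ |T * Real.log (p * q * s / x)| := by
      rw [abs_mul, abs_of_nonneg (by linarith : (0 : ℝ) ≤ T), ← hTh]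
      exact mul_le_mul_of_nonneg_left hfar (by linarith)
    have h2 : (L ^ 3 / 16) ^ 2 ≤ (T * Real.log (p * q * s / x)) ^ 2 := by
      rw [← sq_abs (T * Real.log (p * q * s / x))]
      exact pow_le_pow_left₀ (by positivity) h1 2
    have h3 : (L ^ 3 / 16) ^ 2 = L ^ 6 / 256 := by ring
    rw [h3] at h2
    linarith
  have hW := Wx_le (v := v) (Q := Q) (T := T) (x := x) hypos.le hterm (Real.exp_pos _).le
  obtain ⟨Sp, hSp⟩ : ∃ Sp : ℝ, Sp = ∑ p ∈ W 1 v, 1 / (p : ℝ) := ⟨_, rfl⟩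
  obtain ⟨Sq, hSq⟩ : ∃ Sq : ℝ, Sq = ∑ q ∈ (Ioc ⌊Q⌋₊ ⌊2 * Q⌋₊).filter Nat.Prime, 1 / (q : ℝ) :=
    ⟨_, rfl⟩
  rw [← hSp, ← hSq] at hW hmt
  have hSp0 : 0 ≤ Sp := by
    rw [hSp]
    exact Finset.sum_nonneg fun p _ => by positivity
  have hSq0 : 0 ≤ Sq := by
    rw [hSq]
    exact Finset.sum_nonneg fun p _ => by positivity
  have hsmall : √Real.pi * T * (y ^ 2 * Real.exp (-(L ^ 6 / 1024))) ≤ c / 2 := by
    have h1 : √Real.pi ≤ 2 := by
      rw [Real.sqrt_le_left (by norm_num)]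
      linarith [Real.pi_lt_four]
    have h2 : Real.exp (3 * L) = N ^ 3 := by
      have h3 : Real.exp L = N := by
        rw [hL]
        exact Real.exp_log hN0
      have h4 : Real.exp (3 * L) = Real.exp L ^ 3 := by
        rw [← Real.exp_nat_mul]
        norm_num
      rw [h4, h3]
    have h3 : Real.exp (3 * L - L ^ 6 / 1024) = N ^ 3 * Real.exp (-(L ^ 6 / 1024)) := by
      rw [← h2, ← Real.exp_add]
      congr 1
    rw [h3] at hE
    have h4 : T * y ^ 2 ≤ N ^ 3 := by
      have h5 : y ^ 2 ≤ N ^ 2 := pow_le_pow_left₀ hypos.le hyN 2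
      calc T * y ^ 2 ≤ N * N ^ 2 := mul_le_mul hTN h5 (by positivity) hN0.le
        _ = N ^ 3 := by ring
    have h5 : √Real.pi * (T * y ^ 2) ≤ 2 * N ^ 3 :=
      mul_le_mul h1 h4 (by positivity) (by norm_num)
    calc √Real.pi * T * (y ^ 2 * Real.exp (-(L ^ 6 / 1024)))
        = (√Real.pi * (T * y ^ 2)) * Real.exp (-(L ^ 6 / 1024)) := by ring
      _ ≤ 2 * N ^ 3 * Real.exp (-(L ^ 6 / 1024)) :=
          mul_le_mul_of_nonneg_right h5 (Real.exp_pos _).le
      _ ≤ c / 2 := by linarith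
  have hfin : √Real.pi * T * Wx v Q y T x ≤ c / 2 * Sp * Sq := by
    calc √Real.pi * T * Wx v Q y T x
        ≤ √Real.pi * T * (Sp * Sq * (y ^ 2 * Real.exp (-(L ^ 6 / 1024)))) :=
          mul_le_mul_of_nonneg_left hW (by positivity)
      _ = Sp * Sq * (√Real.pi * T * (y ^ 2 * Real.exp (-(L ^ 6 / 1024)))) := by ring
      _ ≤ Sp * Sq * (c / 2) := mul_le_mul_of_nonneg_left hsmall (by positivity)
      _ = _ := by ring
  rw [← hv, ← hy, ← hT, ← hSp, ← hSq, ← hx]
  linarith

end Pool.Agent.OX
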