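import Pool.Agent.Lib.OX.Bas

/-!
# PROJECT OX: row MT, Perron formula for `Wx` and its main term.  helper27.
-/

set_option autoImplicit false

namespace Pool.Agent.OX

open Finset MeasureTheory Pool.Agent.MRL Pool.Agent.MRF

/-- `e^{-itu}`. -/
noncomputable def eu (u t : ℝ) : ℂ := Complex.exp (-((t * u : ℝ) : ℂ) * Complex.I)

theorem norm_eu (u t : ℝ) : ‖eu u t‖ = 1 := by
  unfold eu
  rw [← Complex.ofReal_neg]
  exact Complex.norm_exp_ofReal_mul_I _

theorem continuous_eu (u : ℝ) : Continuous (eu u) := by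
  unfold eu
  fun_prop

theorem eu_mul (u v t : ℝ) : eu u t * eu v t = eu (u + v) t := by
  unfold eu
  rw [← Complex.exp_add]
  congr 1
  push_cast
  ring

theorem nt_eq_eu (n : ℕ) (t : ℝ) : nt n t = eu (Real.log n) t := rfl

theorem xt_eq_eu (x t : ℝ) : xt x t = eu (-Real.log x) t := by
  unfold xt eu
  congr 1
  push_cast
  ring

theorem integral_eu_gauss {b : ℝ} (hb : 0 < b) (u : ℝ) :
    ∫ t : ℝ, eu u t * ((Real.exp (-b * t ^ 2) : ℝ) : ℂ) =
      ((√(Real.pi / b) * Real.exp (-u ^ 2 / (4 * b)) : ℝ) : ℂ) := by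
  have h := fourierIntegral_gaussian (b := (b : ℂ)) (by simpa using hb) (-(u : ℂ))
  have e1 : (fun t : ℝ => eu u t * ((Real.exp (-b * t ^ 2) : ℝ) : ℂ)) =
      fun t : ℝ => Complex.exp (Complex.I * -(u : ℂ) * t) * Complex.exp (-(b : ℂ) * t ^ 2) := by
    funext t
    unfold eu
    push_cast
    congr 2
    ring
  rw [e1, h]
  push_cast
  congr 1
  · rw [← Complex.ofReal_div, Real.sqrt_eq_rpow, Complex.ofReal_cpow (by positivity)]
    norm_num
  · congr 1
    ring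

theorem integral_eu_g {T : ℝ} (hT : 0 < T) (u : ℝ) :
    ∫ t : ℝ, eu u t * (g T t : ℂ) = ((√Real.pi * T * Real.exp (-(T * u) ^ 2 / 4) : ℝ) : ℂ) := by
  have h := integral_eu_gauss (b := 1 / T ^ 2) (by positivity) u
  have e1 : (fun t : ℝ => eu u t * (g T t : ℂ)) =
      fun t : ℝ => eu u t * ((Real.exp (-(1 / T ^ 2) * t ^ 2) : ℝ) : ℂ) := by
    funext t
    rw [MRL.Bas.g_eq]
  rw [e1, h]
  congr 1
  congr 1
  · rw [show Real.pi / (1 / T ^ 2) = Real.pi * T ^ 2 by field_simp, Real.sqrt_mul Real.pi_nonneg,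
      Real.sqrt_sq hT.le]
  · congr 1
    field_simp

theorem triple_mul (A B C : Finset ℕ) (f h k : ℕ → ℂ) (X Y : ℂ) :
    (∑ p ∈ A, f p) * (∑ q ∈ B, h q) * (∑ s ∈ C, k s) * X * Y =
      ∑ p ∈ A, ∑ q ∈ B, ∑ s ∈ C, f p * h q * k s * X * Y := by
  rw [Finset.sum_mul_sum, Finset.sum_mul, Finset.sum_mul, Finset.sum_mul]
  refine Finset.sum_congr rfl fun p _ => ?_
  rw [Finset.sum_mul, Finset.sum_mul, Finset.sum_mul]
  refine Finset.sum_congr rfl fun q _ => ?_
  rw [Finset.mul_sum, Finset.sum_mul, Finset.sum_mul]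

theorem double_mul (A B : Finset ℕ) (f h : ℕ → ℂ) (M X Y : ℂ) :
    (∑ p ∈ A, f p) * (∑ q ∈ B, h q) * M * X * Y =
      ∑ p ∈ A, ∑ q ∈ B, f p * h q * M * X * Y := by
  rw [Finset.sum_mul_sum, Finset.sum_mul, Finset.sum_mul, Finset.sum_mul]
  refine Finset.sum_congr rfl fun p _ => ?_
  rw [Finset.sum_mul, Finset.sum_mul, Finset.sum_mul]

theorem W_bounds {v p : ℕ} (hp : p ∈ W 1 v) : 0 < p ∧ Real.exp v < p ∧ (p : ℝ) ≤ Real.exp (v + 1) := by
  unfold W at hp
  rw [Finset.mem_filter, Finset.mem_Ioc] at hp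
  obtain ⟨⟨h1, h2⟩, h3⟩ := hp
  rw [Nat.floor_lt (Real.exp_pos _).le] at h1
  rw [Nat.le_floor_iff (Real.exp_pos _).le] at h2
  simp only [Nat.cast_one, div_one] at h1 h2
  exact ⟨h3.pos, h1, h2⟩

theorem Q_bounds {Q : ℝ} {q : ℕ} (hQ : 1 ≤ Q) (hq : q ∈ (Ioc ⌊Q⌋₊ ⌊2 * Q⌋₊).filter Nat.Prime) :
    0 < q ∧ Q < q ∧ (q : ℝ) ≤ 2 * Q := by
  rw [Finset.mem_filter, Finset.mem_Ioc] at hq
  obtain ⟨⟨h1, h2⟩, h3⟩ := hq
  rw [Nat.floor_lt (by linarith)] at h1
  rw [Nat.le_floor_iff (by linarith)] at h2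
  exact ⟨h3.pos, h1, h2⟩

theorem SP_pos {y : ℝ} {s : ℕ} (hs : s ∈ SP y) : 0 < s :=
  (Finset.mem_Icc.1 (Finset.mem_filter.1 hs).1).1

/-- the left side of the Perron formula. -/
theorem integral_F (v : ℕ) (Q y T x : ℝ) (hQ : 1 ≤ Q) (hT : 0 < T) (hx : 0 < x) :
    ∫ t : ℝ, MRL.Q 1 v t * AF pr Q t * Sy y t * xt x t * (g T t : ℂ) =
      ((√Real.pi * T * Wx v Q y T x : ℝ) : ℂ) := by
  have hF : ∀ t : ℝ, MRL.Q 1 v t * AF pr Q t * Sy y t * xt x t * (g T t : ℂ) =
      ∑ p ∈ W 1 v, ∑ q ∈ (Ioc ⌊Q⌋₊ ⌊2 * Q⌋₊).filter Nat.Prime, ∑ s ∈ SP y,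
        ((Real.log s * Real.exp (-(Real.log ((s : ℝ) / y)) ^ 2 / 4) / (p * q * s) : ℝ) : ℂ) *
          (eu (Real.log (p * q * s / x)) t * (g T t : ℂ)) := by
    intro t
    rw [AF_pr]
    unfold MRL.Q Sy
    rw [triple_mul]
    refine Finset.sum_congr rfl fun p hp => ?_
    refine Finset.sum_congr rfl fun q hq => ?_
    refine Finset.sum_congr rfl fun s hs => ?_
    have hp' : (p : ℝ) ≠ 0 := by exact_mod_cast (W_bounds hp).1.ne'
    have hq' : (q : ℝ) ≠ 0 := by exact_mod_cast (Q_bounds hQ hq).1.ne'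
    have hs' : (s : ℝ) ≠ 0 := by exact_mod_cast (SP_pos hs).ne'
    have e1 : eu (Real.log (p * q * s / x)) t = nt p t * nt q t * nt s t * xt x t := by
      rw [nt_eq_eu, nt_eq_eu, nt_eq_eu, xt_eq_eu, eu_mul, eu_mul, eu_mul,
        Real.log_div (by positivity) hx.ne', Real.log_mul (by positivity) hs', Real.log_mul hp' hq']
      rfl
    have e2 : ((Real.log s * Real.exp (-(Real.log ((s : ℝ) / y)) ^ 2 / 4) / (p * q * s) : ℝ) : ℂ) =
        ((1 / (p : ℝ) : ℝ) : ℂ) * ((1 / (q : ℝ) : ℝ) : ℂ) *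
          ((Real.log s * Real.exp (-(Real.log ((s : ℝ) / y)) ^ 2 / 4) / s : ℝ) : ℂ) := by
      rw [← Complex.ofReal_mul, ← Complex.ofReal_mul]
      congr 1
      field_simp
    rw [e1, e2]
    ring
  have hi : ∀ u : ℝ, Integrable (fun t => eu u t * (g T t : ℂ)) := fun u =>
    integrable_mul_g hT (continuous_eu u) (B := 1) (fun t => (norm_eu u t).le)
  simp_rw [hF]
  rw [integral_finsetSum _ fun p _ => integrable_finsetSum _ fun q _ => integrable_finsetSum _ fun s _ =>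
    (hi _).const_mul _]
  unfold Wx
  rw [Finset.mul_sum, Complex.ofReal_sum]
  refine Finset.sum_congr rfl fun p _ => ?_
  rw [integral_finsetSum _ fun q _ => integrable_finsetSum _ fun s _ => (hi _).const_mul _,
    Finset.mul_sum, Complex.ofReal_sum]
  refine Finset.sum_congr rfl fun q _ => ?_
  rw [integral_finsetSum _ fun s _ => (hi _).const_mul _, Finset.mul_sum, Complex.ofReal_sum]
  refine Finset.sum_congr rfl fun s _ => ?_
  rw [integral_const_mul, integral_eu_g hT, ← Complex.ofReal_mul]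
  congr 1
  ring

/-- the main term. -/
theorem integral_M (v : ℕ) (Q y T x : ℝ) (hQ : 1 ≤ Q) (hy : 0 < y) (hT : 0 < T) (hx : 0 < x) :
    ∫ t : ℝ, MRL.Q 1 v t * AF pr Q t * my y t * xt x t * (g T t : ℂ) =
      ((∑ p ∈ W 1 v, ∑ q ∈ (Ioc ⌊Q⌋₊ ⌊2 * Q⌋₊).filter Nat.Prime, 1 / (p : ℝ) * (1 / (q : ℝ)) *
        (2 * √Real.pi * (√(Real.pi / (1 + 1 / T ^ 2)) *
          Real.exp (-(Real.log (p * q * y / x)) ^ 2 / (4 * (1 + 1 / T ^ 2))))) : ℝ) : ℂ) := by
  have hb : 0 < 1 + 1 / T ^ 2 := by positivity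
  have hM : ∀ t : ℝ, MRL.Q 1 v t * AF pr Q t * my y t * xt x t * (g T t : ℂ) =
      ∑ p ∈ W 1 v, ∑ q ∈ (Ioc ⌊Q⌋₊ ⌊2 * Q⌋₊).filter Nat.Prime,
        ((1 / (p : ℝ) * (1 / (q : ℝ)) * (2 * √Real.pi) : ℝ) : ℂ) *
          (eu (Real.log (p * q * y / x)) t * ((Real.exp (-(1 + 1 / T ^ 2) * t ^ 2) : ℝ) : ℂ)) := by
    intro t
    rw [AF_pr]
    unfold MRL.Q
    rw [double_mul]
    refine Finset.sum_congr rfl fun p hp => ?_
    refine Finset.sum_congr rfl fun q hq => ?_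
    have hp' : (p : ℝ) ≠ 0 := by exact_mod_cast (W_bounds hp).1.ne'
    have hq' : (q : ℝ) ≠ 0 := by exact_mod_cast (Q_bounds hQ hq).1.ne'
    have e1 : eu (Real.log (p * q * y / x)) t = nt p t * nt q t * eu (Real.log y) t * xt x t := by
      rw [nt_eq_eu, nt_eq_eu, xt_eq_eu, eu_mul, eu_mul, eu_mul,
        Real.log_div (by positivity) hx.ne', Real.log_mul (by positivity) hy.ne', Real.log_mul hp' hq']
      rfl
    have e2 : Real.exp (-(1 + 1 / T ^ 2) * t ^ 2) = Real.exp (-t ^ 2) * g T t := by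
      rw [MRL.Bas.g_eq, ← Real.exp_add]
      congr 1
      ring
    have e3 : my y t = ((2 * √Real.pi * Real.exp (-t ^ 2) : ℝ) : ℂ) * eu (Real.log y) t := rfl
    rw [e1, e2, e3]
    push_cast
    ring
  have hi : ∀ u : ℝ, Integrable (fun t => eu u t * ((Real.exp (-(1 + 1 / T ^ 2) * t ^ 2) : ℝ) : ℂ)) := by
    intro u
    have h : Integrable (fun t : ℝ => ((Real.exp (-(1 + 1 / T ^ 2) * t ^ 2) : ℝ) : ℂ)) :=
      (integrable_exp_neg_mul_sq hb).ofReal
    exact h.bdd_mul (c := 1) (continuous_eu u).aestronglyMeasurable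
      (Filter.Eventually.of_forall fun t => (norm_eu u t).le)
  simp_rw [hM]
  rw [integral_finsetSum _ fun p _ => integrable_finsetSum _ fun q _ => (hi _).const_mul _,
    Complex.ofReal_sum]
  refine Finset.sum_congr rfl fun p _ => ?_
  rw [integral_finsetSum _ fun q _ => (hi _).const_mul _, Complex.ofReal_sum]
  refine Finset.sum_congr rfl fun q _ => ?_
  rw [integral_const_mul, integral_eu_gauss hb, ← Complex.ofReal_mul]
  congr 1
  ring

theorem Wx_nonneg (v : ℕ) (Q y T x : ℝ) : 0 ≤ Wx v Q y T x := by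
  unfold Wx
  refine Finset.sum_nonneg fun p _ => Finset.sum_nonneg fun q _ => Finset.sum_nonneg fun s hs => ?_
  have hl : 0 ≤ Real.log s := Real.log_nonneg (by exact_mod_cast SP_pos hs)
  positivity

theorem mt : MT := by
  refine ⟨Real.exp (-(25 / 4)), Real.exp_pos _, ?_⟩
  intro v Q y T x hQ hy hT hx h1 h2
  have hT0 : 0 < T := by linarith
  have hy0 : 0 < y := by linarith
  have hF := integral_F v Q y T x hQ hT0 hx
  have hM := integral_M v Q y T x hQ hy0 hT0 hx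
  obtain ⟨S, hS⟩ : ∃ S, S = ∑ p ∈ W 1 v, ∑ q ∈ (Ioc ⌊Q⌋₊ ⌊2 * Q⌋₊).filter Nat.Prime,
      1 / (p : ℝ) * (1 / (q : ℝ)) * (2 * √Real.pi * (√(Real.pi / (1 + 1 / T ^ 2)) *
          Real.exp (-(Real.log (p * q * y / x)) ^ 2 / (4 * (1 + 1 / T ^ 2))))) := ⟨_, rfl⟩
  rw [← hS] at hM
  have hcont1 : Continuous (fun t => MRL.Q 1 v t * AF pr Q t) := by
    refine (MRL.Bas.continuous_Q 1 v).mul ?_
    have : AF pr Q = fun t => ∑ q ∈ (Ioc ⌊Q⌋₊ ⌊2 * Q⌋₊).filter Nat.Prime,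
        (((1 / (q : ℝ) : ℝ) : ℂ)) * nt q t := by
      funext t
      exact AF_pr Q t
    rw [this]
    exact continuous_finsetSum _ fun s _ => continuous_const.mul (MRF.continuous_nt s)
  have hE : ∫ t : ℝ, MRL.Q 1 v t * AF pr Q t * Ey y t * xt x t * (g T t : ℂ) =
      ((√Real.pi * T * Wx v Q y T x : ℝ) : ℂ) - (S : ℂ) := by
    rw [← hF, ← hM, ← integral_sub]
    · congr 1
      funext t
      unfold Ey
      ring
    · refine integrable_mul_g hT0 ((hcont1.mul (continuous_Sy y)).mul (continuous_xt x))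
        (B := (∑ p ∈ W 1 v, 1 / (p : ℝ)) * (∑ q ∈ (Ioc ⌊Q⌋₊ ⌊2 * Q⌋₊).filter Nat.Prime, 1 / (q : ℝ)) *
          (∑ s ∈ SP y, Real.log s / s)) ?_
      intro t
      rw [norm_mul, norm_xt, mul_one, norm_mul, norm_mul]
      gcongr
      · exact MRL.Bas.norm_Q_le 1 v t
      · exact norm_AF_pr_le Q t
      · exact norm_Sy_le y t
    · refine integrable_mul_g hT0 ((hcont1.mul (continuous_my y)).mul (continuous_xt x))
        (B := (∑ p ∈ W 1 v, 1 / (p : ℝ)) * (∑ q ∈ (Ioc ⌊Q⌋₊ ⌊2 * Q⌋₊).filter Nat.Prime, 1 / (q : ℝ)) * 4) ?_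
      intro t
      rw [norm_mul, norm_xt, mul_one, norm_mul, norm_mul]
      gcongr
      · exact MRL.Bas.norm_Q_le 1 v t
      · exact norm_AF_pr_le Q t
      · exact norm_my_le y t
  have hE2 : ‖∫ t : ℝ, MRL.Q 1 v t * AF pr Q t * Ey y t *
      Complex.exp (((t * Real.log x : ℝ) : ℂ) * Complex.I) * (g T t : ℂ)‖ ≥
      S - √Real.pi * T * Wx v Q y T x := by
    have : (fun t : ℝ => MRL.Q 1 v t * AF pr Q t * Ey y t *
      Complex.exp (((t * Real.log x : ℝ) : ℂ) * Complex.I) * (g T t : ℂ)) =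
      fun t : ℝ => MRL.Q 1 v t * AF pr Q t * Ey y t * xt x t * (g T t : ℂ) := rfl
    rw [this, hE, ← Complex.ofReal_sub, Complex.norm_real, Real.norm_eq_abs]
    have := neg_abs_le (√Real.pi * T * Wx v Q y T x - S)
    linarith
  have hS2 : Real.exp (-(25 / 4)) * (∑ p ∈ W 1 v, 1 / (p : ℝ)) *
      ∑ q ∈ (Ioc ⌊Q⌋₊ ⌊2 * Q⌋₊).filter Nat.Prime, 1 / (q : ℝ) ≤ S := by
    rw [hS, mul_assoc, Finset.sum_mul_sum, Finset.mul_sum]
    refine Finset.sum_le_sum fun p hp => ?_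
    rw [Finset.mul_sum]
    refine Finset.sum_le_sum fun q hq => ?_
    obtain ⟨p0, p1, p2⟩ := W_bounds hp
    obtain ⟨q0, q1, q2⟩ := Q_bounds hQ hq
    have hp' : (0 : ℝ) < p := by exact_mod_cast p0
    have hq' : (0 : ℝ) < q := by exact_mod_cast q0
    have hT2 : 1 / T ^ 2 ≤ 1 := by
      rw [div_le_one (by positivity)]
      nlinarith
    have hT3 : 0 < 1 / T ^ 2 := by positivity
    have hpi : (1 : ℝ) ≤ √Real.pi := by
      rw [Real.one_le_sqrt]
      linarith [Real.pi_gt_three]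
    have hpi2 : (1 : ℝ) ≤ √(Real.pi / (1 + 1 / T ^ 2)) := by
      rw [Real.one_le_sqrt, le_div_iff₀ (by positivity)]
      linarith [Real.pi_gt_three]
    have hlog : (Real.log (p * q * y / x)) ^ 2 ≤ 25 := by
      have hlx : Real.log (p * q * y / x) = Real.log (p / Real.exp v) + Real.log (q / Q) -
          Real.log (x / (Real.exp v * Q * y)) := by
        have hQ' : Q ≠ 0 := by positivity
        rw [Real.log_div (by positivity) hx.ne', Real.log_mul (by positivity) hy0.ne',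
          Real.log_mul hp'.ne' hq'.ne', Real.log_div hp'.ne' (Real.exp_pos _).ne', Real.log_div hq'.ne' hQ',
          Real.log_div hx.ne' (by positivity), Real.log_mul (by positivity) hy0.ne',
          Real.log_mul (Real.exp_pos _).ne' hQ']
        ring
      have a1 : 0 ≤ Real.log (p / Real.exp v) :=
        Real.log_nonneg (by rw [one_le_div (Real.exp_pos _)]; exact p1.le)
      have a2 : Real.log (p / Real.exp v) ≤ 1 := by
        rw [Real.log_le_iff_le_exp (by positivity), div_le_iff₀ (Real.exp_pos _), ← Real.exp_add]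
        rwa [add_comm]
      have a3 : 0 ≤ Real.log (q / Q) := Real.log_nonneg (by rw [one_le_div (by linarith)]; exact q1.le)
      have a4 : Real.log (q / Q) ≤ 1 := by
        have hQ0 : 0 < Q := by linarith
        have : Real.log (q / Q) ≤ q / Q - 1 := Real.log_le_sub_one_of_pos (by positivity)
        have h3 : q / Q ≤ 2 := by
          rw [div_le_iff₀ hQ0]
          exact q2
        linarith
      have a5 : -3 ≤ Real.log (x / (Real.exp v * Q * y)) := by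
        rw [Real.le_log_iff_exp_le (by positivity)]
        exact h1
      have a6 : Real.log (x / (Real.exp v * Q * y)) ≤ 3 := by
        rw [Real.log_le_iff_le_exp (by positivity)]
        exact h2
      rw [hlx]
      nlinarith
    have hexp : Real.exp (-(25 / 4)) ≤
        Real.exp (-(Real.log (p * q * y / x)) ^ 2 / (4 * (1 + 1 / T ^ 2))) := by
      rw [Real.exp_le_exp, le_div_iff₀ (by positivity)]
      nlinarith
    have hk : Real.exp (-(25 / 4)) ≤ 2 * √Real.pi * (√(Real.pi / (1 + 1 / T ^ 2)) *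
          Real.exp (-(Real.log (p * q * y / x)) ^ 2 / (4 * (1 + 1 / T ^ 2)))) := by
      calc Real.exp (-(25 / 4)) = 1 * (1 * Real.exp (-(25 / 4))) := by ring
        _ ≤ 2 * √Real.pi * (√(Real.pi / (1 + 1 / T ^ 2)) *
          Real.exp (-(Real.log (p * q * y / x)) ^ 2 / (4 * (1 + 1 / T ^ 2)))) := by
          gcongr
          linarith
    calc Real.exp (-(25 / 4)) * (1 / (p : ℝ) * (1 / (q : ℝ)))
        = 1 / (p : ℝ) * (1 / (q : ℝ)) * Real.exp (-(25 / 4)) := by ring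
      _ ≤ _ := by gcongr
  linarith

end Pool.Agent.OX
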