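import Mathlib
import Pool.Agent.Lib.OX.Bas

/-!
# PROJECT OX, row CORE: few well spaced bad points.  helper31.
-/

set_option autoImplicit false

namespace Pool.Agent.OX

open Finset MeasureTheory Filter Pool.Agent.MRL Pool.Agent.MRF

namespace CORE1

/-- the unimodular coefficient. -/
noncomputable def uc (z : ℂ) : ℂ := if z = 0 then 1 else (starRingEnd ℂ) z / ‖z‖

theorem norm_uc (z : ℂ) : ‖uc z‖ = 1 := by
  unfold uc
  split_ifs with h
  · simp
  · rw [norm_div, Complex.norm_conj, Complex.norm_real, norm_norm]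
    exact div_self (norm_ne_zero_iff.2 h)

theorem uc_mul (z : ℂ) : uc z * z = (‖z‖ : ℂ) := by
  unfold uc
  split_ifs with h
  · simp [h]
  · have h1 : (‖z‖ : ℂ) ≠ 0 := by exact_mod_cast norm_ne_zero_iff.2 h
    rw [div_mul_eq_mul_div, div_eq_iff h1, mul_comm, Complex.mul_conj, Complex.normSq_eq_norm_sq]
    push_cast
    ring

/-- the integral of the error term at `x`. -/
noncomputable def Er (A K N Q x : ℝ) : ℂ :=
  ∫ t : ℝ, MRL.Q 1 (vP A N) t * AF pr Q t * Ey (yP A N Q) t *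
      Complex.exp (((t * Real.log x : ℝ) : ℂ) * Complex.I) * (g (TP K N) t : ℂ)

theorem sum_Er {A K N Q : ℝ} (hT : 0 < TP K N) (J : Finset ℝ) :
    ∑ x ∈ J, ‖Er A K N Q x‖ ≤
    ∫ t : ℝ, ‖MRL.Q 1 (vP A N) t * (AF pr Q t *
      ∑ x ∈ J, uc (Er A K N Q x) * Complex.exp (((t * Real.log x : ℝ) : ℂ) * Complex.I)) *
      Ey (yP A N Q) t‖ * g (TP K N) t := by
  set v := vP A N
  set y := yP A N Q
  set T := TP K N
  have hcont : ∀ x : ℝ, Continuous (fun t : ℝ => MRL.Q 1 v t * AF pr Q t * Ey y t *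
      Complex.exp (((t * Real.log x : ℝ) : ℂ) * Complex.I)) := by
    intro x
    exact (((MRL.Bas.continuous_Q 1 v).mul (MRF.continuous_AF pr Q)).mul (continuous_Ey y)).mul
      (continuous_xt x)
  set B : ℝ := (∑ p ∈ W 1 v, 1 / (p : ℝ)) *
    (∑ q ∈ (Ioc ⌊Q⌋₊ ⌊2 * Q⌋₊).filter Nat.Prime, 1 / (q : ℝ)) *
    (∑ s ∈ SP y, Real.log s / s + 4) with hB
  have hbd : ∀ x t : ℝ, ‖MRL.Q 1 v t * AF pr Q t * Ey y t *
      Complex.exp (((t * Real.log x : ℝ) : ℂ) * Complex.I)‖ ≤ B := by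
    intro x t
    have h1 : ‖Complex.exp (((t * Real.log x : ℝ) : ℂ) * Complex.I)‖ = 1 := norm_xt x t
    rw [norm_mul, h1, mul_one, norm_mul, norm_mul]
    refine mul_le_mul (mul_le_mul (MRL.Bas.norm_Q_le 1 v t) (norm_AF_pr_le Q t) (norm_nonneg _)
      (Finset.sum_nonneg fun p _ => by positivity)) (norm_Ey_le y t) (norm_nonneg _) ?_
    exact mul_nonneg (Finset.sum_nonneg fun p _ => by positivity)
      (Finset.sum_nonneg fun p _ => by positivity)
  have hint : ∀ x : ℝ, Integrable (fun t : ℝ => MRL.Q 1 v t * AF pr Q t * Ey y t *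
      Complex.exp (((t * Real.log x : ℝ) : ℂ) * Complex.I) * (g T t : ℂ)) :=
    fun x => integrable_mul_g hT (hcont x) (hbd x)
  have h1 : ((∑ x ∈ J, ‖Er A K N Q x‖ : ℝ) : ℂ) = ∫ t : ℝ, ∑ x ∈ J, uc (Er A K N Q x) *
      (MRL.Q 1 v t * AF pr Q t * Ey y t *
      Complex.exp (((t * Real.log x : ℝ) : ℂ) * Complex.I) * (g T t : ℂ)) := by
    rw [integral_finsetSum _ (fun x _ => (hint x).const_mul _), Complex.ofReal_sum]
    refine Finset.sum_congr rfl fun x _ => ?_
    rw [integral_const_mul, ← uc_mul]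
    rfl
  have h2 : ∑ x ∈ J, ‖Er A K N Q x‖ = ‖∫ t : ℝ, ∑ x ∈ J, uc (Er A K N Q x) *
      (MRL.Q 1 v t * AF pr Q t * Ey y t *
      Complex.exp (((t * Real.log x : ℝ) : ℂ) * Complex.I) * (g T t : ℂ))‖ := by
    rw [← h1, Complex.norm_real, Real.norm_eq_abs, abs_of_nonneg
      (Finset.sum_nonneg fun x _ => norm_nonneg _)]
  rw [h2]
  refine (norm_integral_le_integral_norm _).trans (le_of_eq ?_)
  refine integral_congr_ae (Filter.Eventually.of_forall fun t => ?_)
  simp only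
  rw [← norm_mul_g]
  congr 1
  rw [Finset.mul_sum, Finset.mul_sum, Finset.sum_mul, Finset.sum_mul]
  refine Finset.sum_congr rfl fun x _ => ?_
  ring

end CORE1

open CORE1 in
/-- **Row CORE.** -/
theorem core (hB : BADI) (hI : INT) (hL : LB) : CORE := by
  classical
  intro K hK
  obtain ⟨A, C1, N1, hA, hC1, hI⟩ := hI K hK
  obtain ⟨c1, N2, hc1, hB⟩ := hB K A hK hA
  obtain ⟨c2, hc2, ⟨v0, hv0⟩, ⟨Q0, hQ0⟩⟩ := hL
  -- the exponent
  set C : ℝ := max (A + K + 5) (2 * C1 + 5) with hC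
  have hCA : A + K + 5 ≤ C := le_max_left _ _
  have hCC : 2 * C1 + 5 ≤ C := le_max_right _ _
  refine ⟨C, by linarith, ?_⟩
  -- eventual facts
  have hlog : Tendsto (fun N : ℝ => Real.log N) atTop atTop := Real.tendsto_log_atTop
  have hllog : Tendsto (fun N : ℝ => Real.log (Real.log N)) atTop atTop := hlog.comp hlog
  have e1 : ∀ᶠ N : ℝ in atTop, (v0 : ℝ) ≤ A * Real.log (Real.log N) :=
    (hllog.const_mul_atTop (by linarith : (0 : ℝ) < A)).eventually_ge_atTop _
  have e2 : ∀ᶠ N : ℝ in atTop, 1 ≤ A * Real.log (Real.log N) :=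
    (hllog.const_mul_atTop (by linarith : (0 : ℝ) < A)).eventually_ge_atTop _
  have e3 : ∀ᶠ N : ℝ in atTop, 2 * A * Real.log (Real.log N) ≤ Real.log N := by
    have h := (Real.isLittleO_log_id_atTop.comp_tendsto hlog)
    have h2 := h.bound (show (0 : ℝ) < 1 / (2 * A) by positivity)
    filter_upwards [h2, hlog.eventually_ge_atTop 1, hllog.eventually_ge_atTop 0] with N hN h1 h3
    simp only [Function.comp_apply, id, Real.norm_eq_abs] at hN
    rw [abs_of_nonneg h3, abs_of_nonneg (by linarith)] at hN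
    rw [div_mul_eq_mul_div, one_mul, le_div_iff₀ (by linarith)] at hN
    linarith
  have e4 : ∀ᶠ N : ℝ in atTop, max Q0 2 ≤ QP K A N := by
    have h := (isLittleO_log_rpow_rpow_atTop (s := 1 / 4) (A + K + 4)
      (by norm_num)).bound (show (0 : ℝ) < 1 by norm_num)
    filter_upwards [h, eventually_ge_atTop 1, hlog.eventually_ge_atTop 1,
      (tendsto_rpow_atTop (show (0 : ℝ) < 1 / 4 by norm_num)).eventually_ge_atTop (max Q0 2)]
      with N hN h1 h2 h3
    rw [one_mul, Real.norm_eq_abs, Real.norm_eq_abs, abs_of_nonneg (by positivity),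
      abs_of_nonneg (by positivity)] at hN
    unfold QP
    rw [le_div_iff₀ (by positivity)]
    calc max Q0 2 * Real.log N ^ (A + K + 4) ≤ N ^ (1 / 4 : ℝ) * N ^ (1 / 4 : ℝ) :=
          mul_le_mul h3 hN (by positivity) (by positivity)
      _ = √N := by
          rw [← Real.rpow_add (by linarith), Real.sqrt_eq_rpow]
          norm_num
  -- constants
  set c3 : ℝ := c1 * c2 ^ 2 / 2 with hc3
  have hc3' : 0 < c3 := by positivity
  have e5 : ∀ᶠ N : ℝ in atTop, 2 * C1 / c3 ≤ Real.log N := hlog.eventually_ge_atTop _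
  have e6 : ∀ᶠ N : ℝ in atTop, (2 * C1 / c3) ^ 2 ≤ Real.log N := hlog.eventually_ge_atTop _
  obtain ⟨N0, hN0⟩ := (((((e1.and e2).and e3).and e4).and e5).and (e6.and
    ((hlog.eventually_ge_atTop 3).and ((eventually_ge_atTop (max N1 N2)).and
      (eventually_ge_atTop (4 : ℝ)))))).exists_forall_of_atTop
  refine ⟨N0, fun N hN Y hY1 hY2 hY3 => ?_⟩
  obtain ⟨⟨⟨⟨⟨f1, f2⟩, f3⟩, f4⟩, f5⟩, ⟨f6, ⟨f7, ⟨f8, f9⟩⟩⟩⟩ := hN0 N hN
  set L := Real.log N with hLdef
  have hN1 : N1 ≤ N := (le_max_left _ _).trans f8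
  have hN2 : N2 ≤ N := (le_max_right _ _).trans f8
  have hNpos : 0 < N := by linarith
  have hLpos : 0 < L := by linarith
  have hL1 : 1 ≤ L := by linarith
  have hTpos : 0 < TP K N := by
    unfold TP
    have : 0 < √N := Real.sqrt_pos.2 hNpos
    positivity
  -- the choice of Q
  have hQP2 : 2 ≤ QP K A N := (le_max_right _ _).trans f4
  have hQPle : QP K A N ≤ √N := by
    unfold QP
    refine div_le_self (Real.sqrt_nonneg _) (Real.one_le_rpow hL1 (by linarith))
  obtain ⟨Q, hQ, hQb⟩ := hQ0 (QP K A N) ((le_max_left _ _).trans f4)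
  have hlogQ : Real.log (QP K A N) ≤ L := by
    refine Real.log_le_log (by linarith) (hQPle.trans ?_)
    rw [Real.sqrt_le_left (by linarith)]
    nlinarith
  have hlogQ0 : 0 < Real.log (QP K A N) := Real.log_pos (by linarith)
  -- the lower bounds
  set S1 : ℝ := ∑ p ∈ W 1 (vP A N), 1 / (p : ℝ) with hS1
  set S2 : ℝ := ∑ q ∈ (Ioc ⌊Q⌋₊ ⌊2 * Q⌋₊).filter Nat.Prime, 1 / (q : ℝ) with hS2
  have hvle : ((vP A N : ℕ) : ℝ) ≤ L := by
    have h1 : ((vP A N : ℕ) : ℝ) ≤ A * Real.log L + 1 := (Nat.ceil_lt_add_one (by linarith)).le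
    linarith
  have hvge : A * Real.log L ≤ ((vP A N : ℕ) : ℝ) := Nat.le_ceil _
  have hvpos : 0 < ((vP A N : ℕ) : ℝ) := by linarith
  have hS1' : c2 / L ≤ S1 := by
    refine le_trans ?_ (hv0 (vP A N) (by exact_mod_cast f1.trans hvge))
    exact div_le_div_of_nonneg_left hc2.le hvpos hvle
  have hS2' : c2 / L ≤ S2 := by
    refine le_trans ?_ hQb
    exact div_le_div_of_nonneg_left hc2.le hlogQ0 hlogQ
  have hSS : c2 ^ 2 / L ^ 2 ≤ S1 * S2 := by
    have h1 : c2 ^ 2 / L ^ 2 = (c2 / L) * (c2 / L) := by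
      field_simp
    rw [h1]
    exact mul_le_mul hS1' hS2' (by positivity) ((by positivity : (0 : ℝ) ≤ c2 / L).trans hS1')
  -- the shifted points
  set d : ℝ := √N / (2 * L ^ K) with hd
  have hLK : 1 ≤ L ^ K := Real.one_le_rpow hL1 hK
  have hd0 : 0 ≤ d := by positivity
  have hdN : d ≤ N := by
    have h1 : √N ≤ N := by
      rw [Real.sqrt_le_left (by linarith)]
      nlinarith
    refine le_trans ?_ h1
    exact div_le_self (Real.sqrt_nonneg _) (by linarith)
  set J : Finset ℝ := Y.image (fun y => y + d) with hJ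
  have hJcard : J.card = Y.card :=
    Finset.card_image_of_injective _ (add_left_injective d)
  have hJ1 : ∀ x ∈ J, N ≤ x ∧ x ≤ 4 * N := by
    intro x hx
    obtain ⟨y, hy, rfl⟩ := Finset.mem_image.1 hx
    have := hY1 y hy
    exact ⟨by linarith [this.1], by linarith [this.2]⟩
  have hJ2 : ∀ x ∈ J, ∀ x' ∈ J, x ≠ x' → √N / L ^ (K + 1) ≤ |x - x'| := by
    intro x hx x' hx' hne
    obtain ⟨y, hy, rfl⟩ := Finset.mem_image.1 hx
    obtain ⟨y', hy', rfl⟩ := Finset.mem_image.1 hx'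
    have hne' : y ≠ y' := fun h => hne (by rw [h])
    have := hY2 y hy y' hy' hne'
    rwa [show y + d - (y' + d) = y - y' by ring]
  have hbad : ∀ x ∈ J, c1 * S1 * S2 ≤ ‖Er A K N Q x‖ := by
    intro x hx
    obtain ⟨y, hy, rfl⟩ := Finset.mem_image.1 hx
    have h1 := hY1 y hy
    refine hB N Q hN2 hQ y h1.1 h1.2 fun hH => hY3 y hy (hH.mono ?_ ?_)
    · exact Real.rpow_le_rpow_of_exponent_le hL1 (by linarith)
    · refine div_le_div_of_nonneg_left (Real.sqrt_nonneg _) (by positivity) ?_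
      exact Real.rpow_le_rpow_of_exponent_le hL1 (by linarith)
  have hsum : (J.card : ℝ) * (c1 * S1 * S2) ≤ ∑ x ∈ J, ‖Er A K N Q x‖ := by
    have h1 := Finset.card_nsmul_le_sum J (fun x => ‖Er A K N Q x‖) (c1 * S1 * S2) hbad
    rwa [nsmul_eq_mul] at h1
  have hmain := (hsum.trans (sum_Er hTpos J)).trans
    (hI N Q hN1 hQ J (fun x => uc (Er A K N Q x)) hJ1 hJ2 (fun x => (norm_uc _).le))
  rw [← hLdef, hJcard] at hmain
  -- conclusion
  set j : ℝ := (Y.card : ℝ) with hj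
  have hj0 : 0 ≤ j := by positivity
  have h1 : j * (c1 * (c2 ^ 2 / L ^ 2)) ≤ C1 * (j * L ^ (-(3 : ℝ)) + √j * L ^ C1) := by
    refine le_trans (mul_le_mul_of_nonneg_left ?_ hj0) hmain
    rw [mul_assoc]
    exact mul_le_mul_of_nonneg_left hSS hc1.le
  have h3 : L ^ (-(3 : ℝ)) = 1 / (L ^ 2 * L) := by
    rw [Real.rpow_neg hLpos.le, show (3 : ℝ) = ((3 : ℕ) : ℝ) by norm_num, Real.rpow_natCast]
    rw [one_div]
    congr 1
  have h4 : C1 * (j * L ^ (-(3 : ℝ))) ≤ j * (c3 / L ^ 2) := by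
    rw [h3]
    have h5 : C1 * (j * (1 / (L ^ 2 * L))) = j * (C1 / L / L ^ 2) := by
      field_simp
    rw [h5]
    refine mul_le_mul_of_nonneg_left (div_le_div_of_nonneg_right ?_ (by positivity)) hj0
    rw [div_le_iff₀ hLpos]
    have h6 : 2 * C1 ≤ L * c3 := by
      rwa [div_le_iff₀ hc3'] at f5
    nlinarith
  have h7 : j * (c3 / L ^ 2) ≤ C1 * (√j * L ^ C1) := by
    have h8 : j * (c1 * (c2 ^ 2 / L ^ 2)) = j * (c3 / L ^ 2) + j * (c3 / L ^ 2) := by
      rw [hc3]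
      ring
    rw [h8, mul_add] at h1
    linarith
  have h9 : √j ≤ C1 / c3 * L ^ (C1 + 2) := by
    rcases hj0.eq_or_lt with h0 | h0
    · rw [← h0, Real.sqrt_zero]
      positivity
    · have hs : 0 < √j := Real.sqrt_pos.2 h0
      have hss : √j * √j = j := Real.mul_self_sqrt hj0
      have h10 : √j * c3 ≤ C1 * L ^ C1 * L ^ 2 := by
        have h11 : √j * (√j * c3) ≤ √j * (C1 * L ^ C1 * L ^ 2) := by
          have h12 := mul_le_mul_of_nonneg_right h7 (by positivity : (0 : ℝ) ≤ L ^ 2)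
          have h13 : j * (c3 / L ^ 2) * L ^ 2 = √j * (√j * c3) := by
            rw [← mul_assoc, hss]
            field_simp
          rw [h13] at h12
          refine h12.trans (le_of_eq ?_)
          ring
        exact le_of_mul_le_mul_left h11 hs
      rw [div_mul_eq_mul_div, le_div_iff₀ hc3']
      refine h10.trans (le_of_eq ?_)
      rw [Real.rpow_add hLpos, Real.rpow_two]
      ring
  have h10 : j ≤ (C1 / c3 * L ^ (C1 + 2)) ^ 2 := by
    have hss : √j ^ 2 = j := Real.sq_sqrt hj0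
    rw [← hss]
    exact pow_le_pow_left₀ (Real.sqrt_nonneg _) h9 2
  refine h10.trans ?_
  have h11 : (C1 / c3 * L ^ (C1 + 2)) ^ 2 ≤ L * (L ^ (C1 + 2)) ^ 2 := by
    rw [mul_pow]
    refine mul_le_mul_of_nonneg_right (le_trans ?_ f6) (by positivity)
    refine pow_le_pow_left₀ (by positivity) ?_ 2
    rw [mul_div_assoc]
    have : 0 < C1 / c3 := by positivity
    linarith
  refine h11.trans ?_
  have h12 : L * (L ^ (C1 + 2)) ^ 2 = L ^ (2 * C1 + 5) := by
    rw [← Real.rpow_natCast (L ^ (C1 + 2)) 2, ← Real.rpow_mul hLpos.le]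
    nth_rewrite 1 [← Real.rpow_one L]
    rw [← Real.rpow_add hLpos]
    congr 1
    push_cast
    ring
  rw [h12]
  exact Real.rpow_le_rpow_of_exponent_le hL1 hCC

end Pool.Agent.OX
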