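import Mathlib
import Pool.Agent.Lib.OX.Defs2

/-!
# PROJECT OX (MP_bf4c7f_nt): row SQH (one dyadic range of heights).  helper99.
-/

set_option autoImplicit false

namespace Pool.Agent.OX

open Finset

namespace SQHr

/-- a maximal 1-separated subset. -/
theorem exists_sep (Z0 : Finset ℂ) : ∃ Z : Finset ℂ, Z ⊆ Z0 ∧
    (∀ ρ ∈ Z, ∀ ρ' ∈ Z, ρ ≠ ρ' → 1 ≤ |ρ.im - ρ'.im|) ∧ ∀ z ∈ Z0, ∃ z' ∈ Z, |z.im - z'.im| < 1 := by
  classical
  set F := Z0.powerset.filter (fun Z : Finset ℂ => ∀ ρ ∈ Z, ∀ ρ' ∈ Z, ρ ≠ ρ' →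
    1 ≤ |ρ.im - ρ'.im|) with hF
  have hne : F.Nonempty := ⟨∅, by simp [hF]⟩
  obtain ⟨Z, hZ, hmax⟩ := F.exists_max_image Finset.card hne
  rw [hF, Finset.mem_filter, Finset.mem_powerset] at hZ
  refine ⟨Z, hZ.1, hZ.2, fun z hz => ?_⟩
  by_contra hcon
  push Not at hcon
  have hzZ : z ∉ Z := fun h => by
    have := hcon z h
    simp at this
    linarith
  have hins : insert z Z ∈ F := by
    rw [hF, Finset.mem_filter, Finset.mem_powerset]
    refine ⟨Finset.insert_subset hz hZ.1, ?_⟩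
    intro ρ hρ ρ' hρ' hn
    rw [Finset.mem_insert] at hρ hρ'
    rcases hρ with rfl | hρ
    · rcases hρ' with rfl | hρ'
      · exact absurd rfl hn
      · exact hcon ρ' hρ'
    · rcases hρ' with rfl | hρ'
      · rw [abs_sub_comm]
        exact hcon ρ hρ
      · exact hZ.2 ρ hρ ρ' hρ' hn
  have h1 := hmax _ hins
  rw [Finset.card_insert_of_notMem hzZ] at h1
  omega

/-- integers near a real number. -/
theorem card_near (S : Finset ℤ) (a D : ℝ) (hD : 0 ≤ D) (h : ∀ i ∈ S, |(i : ℝ) - a| ≤ D) :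
    (S.card : ℝ) ≤ 2 * D + 1 := by
  have hsub : S ⊆ Finset.Icc ⌈a - D⌉ ⌊a + D⌋ := by
    intro i hi
    have h1 := abs_le.1 (h i hi)
    rw [Finset.mem_Icc]
    exact ⟨Int.ceil_le.2 (by linarith [h1.1]), Int.le_floor.2 (by linarith [h1.2])⟩
  have h1 := Finset.card_le_card hsub
  rw [Int.card_Icc] at h1
  have h2 : (S.card : ℝ) ≤ ((⌊a + D⌋ + 1 - ⌈a - D⌉).toNat : ℝ) := by exact_mod_cast h1
  refine h2.trans ?_
  have h3 : (((⌊a + D⌋ + 1 - ⌈a - D⌉).toNat : ℤ) : ℝ) = ((max (⌊a + D⌋ + 1 - ⌈a - D⌉) 0 : ℤ) : ℝ) := by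
    rw [Int.toNat_eq_max]
  have h4 : ((⌊a + D⌋ + 1 - ⌈a - D⌉).toNat : ℝ) = ((max (⌊a + D⌋ + 1 - ⌈a - D⌉) 0 : ℤ) : ℝ) := by
    rw [← h3]
    norm_cast
  rw [h4]
  push_cast
  refine max_le ?_ (by linarith)
  have h5 := Int.floor_le (a + D)
  have h6 := Int.le_ceil (a - D)
  linarith

/-- counting cells by separated zeros. -/
theorem count (R : Finset ℤ) (V M : ℝ) (hV : 0 ≤ V) (f : ℤ → ℂ)
    (hf : ∀ i ∈ R, |(f i).im - i| ≤ V + 3)
    (hM : ∀ Z : Finset ℂ, Z ⊆ R.image f →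
      (∀ ρ ∈ Z, ∀ ρ' ∈ Z, ρ ≠ ρ' → 1 ≤ |ρ.im - ρ'.im|) → (Z.card : ℝ) ≤ M) :
    (R.card : ℝ) ≤ (2 * V + 9) * M := by
  classical
  obtain ⟨Z, hZ1, hZ2, hZ3⟩ := exists_sep (R.image f)
  have hch : ∀ i : ℤ, ∃ z : ℂ, i ∈ R → z ∈ Z ∧ |(f i).im - z.im| < 1 := by
    intro i
    by_cases hi : i ∈ R
    · obtain ⟨z, hz, hz'⟩ := hZ3 (f i) (Finset.mem_image_of_mem f hi)
      exact ⟨z, fun _ => ⟨hz, hz'⟩⟩
    · exact ⟨0, fun h => absurd h hi⟩
  choose z hz using hch
  have h1 : R.card = ∑ w ∈ Z, (R.filter (fun i => z i = w)).card :=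
    Finset.card_eq_sum_card_fiberwise (fun i hi => (hz i hi).1)
  have h2 : ∀ w ∈ Z, ((R.filter (fun i => z i = w)).card : ℝ) ≤ 2 * V + 9 := by
    intro w _
    have := card_near (R.filter (fun i => z i = w)) w.im (V + 4) (by linarith) (fun i hi => by
      rw [Finset.mem_filter] at hi
      have h3 := abs_le.1 (hf i hi.1)
      have h4 := abs_lt.1 (hz i hi.1).2
      rw [hi.2] at h4
      rw [abs_le]
      constructor <;> linarith [h3.1, h3.2, h4.1, h4.2])
    linarith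
  rw [h1]
  push_cast
  refine (Finset.sum_le_sum h2).trans ?_
  rw [Finset.sum_const, nsmul_eq_mul, mul_comm]
  exact mul_le_mul_of_nonneg_left (hM Z hZ1 hZ2) (by linarith)

/-- one cell. -/
theorem cell {CG CP : ℝ} (hCG : 0 < CG) (hCP : 0 < CP)
    (hG : ∀ X δ t₀ : ℝ, 3 ≤ X → 1 / Real.log X ≤ δ → δ ≤ 1 / 16 →
      |t₀| ≤ X → (∀ s : ℂ, 1 - 2 * δ < s.re → |s.im - t₀| ≤ 1 → riemannZeta₁ s ≠ 0) →
      ∀ s : ℂ, s.im = t₀ → 1 - δ ≤ s.re → s.re ≤ 3 →
        ‖logDeriv riemannZeta₁ s‖ ≤ CG * (Real.log X) ^ 2)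
    (hP : ∀ y V δ B t : ℝ, 3 ≤ y → 1 ≤ V → 0 < δ → δ ≤ 1 / 16 →
      1 ≤ B → (∀ s : ℂ, 1 - δ ≤ s.re → s.re ≤ 3 → |s.im - t| ≤ V →
        riemannZeta₁ s ≠ 0 ∧ ‖logDeriv riemannZeta₁ s‖ ≤ B) →
      ‖Ey y t‖ ≤ CP * (B * y ^ (-δ) + (B + Real.log y) * Real.exp (-V ^ 2 / 2)))
    {X y T δ τ : ℝ} {i : ℤ} (hL : 4 ≤ Real.log X) (hX0 : 0 < X) (hy1 : √X / 2 ≤ y)
    (hy2 : y ≤ X ^ 2) (hTX : T ≤ X) (hi : |(i : ℝ)| ≤ 2 * T)
    (hτ : τ ∈ Set.Icc (i : ℝ) (i + 1)) (hδ : 1 / Real.log X ≤ δ) (hδ' : δ ≤ 1 / 16)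
    (hz : ∀ s : ℂ, 1 - 2 * δ < s.re → |s.im - i| ≤ Real.log X + 3 → riemannZeta₁ s ≠ 0) :
    ‖Ey y τ‖ ^ 2 ≤ (3 * CP * (9 * CG + 11)) ^ 2 * (Real.log X) ^ 4 * X ^ (-δ) := by
  set L := Real.log X with hLd
  have hL0 : 0 < L := by linarith
  have hXe : X = Real.exp L := (Real.exp_log hX0).symm
  have hX36 : 36 ≤ X := by
    rw [hXe]
    have h1 : Real.exp 4 ≤ Real.exp L := Real.exp_le_exp.2 hL
    have h2 : (36 : ℝ) ≤ Real.exp 4 := by
      have h3 : (2.7 : ℝ) < Real.exp 1 := by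
        have := Real.exp_one_gt_d9
        linarith
      have h4 : Real.exp 4 = (Real.exp 1) ^ 4 := by
        rw [← Real.exp_nat_mul]
        norm_num
      rw [h4]
      have h5 : (2.7 : ℝ) ^ 4 ≤ (Real.exp 1) ^ 4 := pow_le_pow_left₀ (by norm_num) h3.le 4
      norm_num at h5
      linarith
    linarith
  have hLX : L ≤ X := by
    have := Real.add_one_le_exp L
    rw [← hXe] at this
    linarith
  have hs6 : 6 ≤ √X := by
    rw [show (6 : ℝ) = √36 by rw [show (36 : ℝ) = 6 ^ 2 by norm_num]; simp]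
    exact Real.sqrt_le_sqrt hX36
  have hy3 : 3 ≤ y := by linarith
  have hδ0 : 0 < δ := lt_of_lt_of_le (by positivity) hδ
  have hτ' : |τ - i| ≤ 1 := by
    rw [abs_le]
    constructor <;> linarith [hτ.1, hτ.2]
  -- the bound for the logarithmic derivative
  have hlog8 : Real.log (8 * X) ≤ 3 * L := by
    have h1 : 8 * X ≤ X ^ 3 := by nlinarith [hX36, sq_nonneg X]
    have h2 := Real.log_le_log (by positivity) h1
    rw [Real.log_pow] at h2
    push_cast at h2
    exact h2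
  have hlog8' : L ≤ Real.log (8 * X) := Real.log_le_log hX0 (by linarith)
  have hB : ∀ s : ℂ, 1 - δ ≤ s.re → s.re ≤ 3 → |s.im - τ| ≤ L →
      riemannZeta₁ s ≠ 0 ∧ ‖logDeriv riemannZeta₁ s‖ ≤ 9 * (CG + 1) * L ^ 2 := by
    intro s hs1 hs3 hsτ
    have hsi : |s.im - i| ≤ L + 1 := by
      have := abs_sub_le s.im τ i
      linarith
    refine ⟨hz s (by linarith) (by linarith), ?_⟩
    have hsim : |s.im| ≤ 8 * X := by
      have h1 : |s.im| ≤ |s.im - i| + |(i : ℝ)| := by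
        have := abs_sub_le s.im i 0
        simpa using this
      linarith
    have h1 := hG (8 * X) δ s.im (by linarith) ?_ hδ' hsim ?_ s rfl hs1 hs3
    · refine h1.trans ?_
      have h2 : (Real.log (8 * X)) ^ 2 ≤ (3 * L) ^ 2 :=
        pow_le_pow_left₀ (by linarith) hlog8 2
      have h3 : CG * (Real.log (8 * X)) ^ 2 ≤ CG * (3 * L) ^ 2 :=
        mul_le_mul_of_nonneg_left h2 hCG.le
      nlinarith [sq_nonneg L]
    · refine le_trans ?_ hδ
      exact one_div_le_one_div_of_le hL0 hlog8'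
    · intro s' hs' hs'im
      refine hz s' hs' ?_
      have := abs_sub_le s'.im s.im i
      linarith
  have hP1 := hP y L δ (9 * (CG + 1) * L ^ 2) τ hy3 (by linarith) hδ0 hδ'
    (by nlinarith [mul_pos hCG hL0, mul_pos (mul_pos hCG hL0) hL0]) hB
  have hlogy : Real.log y ≤ 2 * L ^ 2 := by
    have h1 := Real.log_le_log (by linarith) hy2
    rw [Real.log_pow] at h1
    push_cast at h1
    nlinarith
  -- the powers
  have hpy : y ^ (-δ) ≤ 2 * X ^ (-(δ / 2)) := by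
    have h1 : y ^ (-δ) ≤ (√X / 2) ^ (-δ) :=
      Real.rpow_le_rpow_of_nonpos (by positivity) hy1 (by linarith)
    refine h1.trans ?_
    rw [Real.div_rpow (Real.sqrt_nonneg _) (by norm_num), Real.sqrt_eq_rpow,
      ← Real.rpow_mul hX0.le]
    have h2 : (1 / 2 : ℝ) * (-δ) = -(δ / 2) := by ring
    rw [h2]
    have h3 : (2 : ℝ) ^ (-δ) ≥ 1 / 2 := by
      have h4 : (2 : ℝ) ^ (-1 : ℝ) ≤ (2 : ℝ) ^ (-δ) :=
        Real.rpow_le_rpow_of_exponent_le (by norm_num) (by linarith)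
      rw [Real.rpow_neg_one] at h4
      linarith
    have h5 : 0 < X ^ (-(δ / 2)) := Real.rpow_pos_of_pos hX0 _
    rw [div_le_iff₀ (by positivity)]
    nlinarith
  have hpe : Real.exp (-L ^ 2 / 2) ≤ X ^ (-(δ / 2)) := by
    rw [Real.rpow_def_of_pos hX0, ← hLd]
    refine Real.exp_le_exp.2 ?_
    nlinarith [mul_pos hδ0 hL0]
  have hpos : 0 < X ^ (-(δ / 2)) := Real.rpow_pos_of_pos hX0 _
  have hfin : ‖Ey y τ‖ ≤ 3 * CP * (9 * CG + 11) * L ^ 2 * X ^ (-(δ / 2)) := by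
    refine hP1.trans ?_
    have h1 : 9 * (CG + 1) * L ^ 2 * y ^ (-δ) ≤
        9 * (CG + 1) * L ^ 2 * (2 * X ^ (-(δ / 2))) :=
      mul_le_mul_of_nonneg_left hpy (by positivity)
    have h2 : (9 * (CG + 1) * L ^ 2 + Real.log y) * Real.exp (-L ^ 2 / 2) ≤
        ((9 * CG + 11) * L ^ 2) * X ^ (-(δ / 2)) := by
      refine mul_le_mul (by nlinarith) hpe (Real.exp_pos _).le (by positivity)
    have h3 : 9 * (CG + 1) * L ^ 2 * y ^ (-δ) +
        (9 * (CG + 1) * L ^ 2 + Real.log y) * Real.exp (-L ^ 2 / 2) ≤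
        3 * (9 * CG + 11) * L ^ 2 * X ^ (-(δ / 2)) := by
      have h4 : 0 ≤ L ^ 2 * X ^ (-(δ / 2)) := by positivity
      nlinarith
    calc CP * (9 * (CG + 1) * L ^ 2 * y ^ (-δ) +
        (9 * (CG + 1) * L ^ 2 + Real.log y) * Real.exp (-L ^ 2 / 2))
        ≤ CP * (3 * (9 * CG + 11) * L ^ 2 * X ^ (-(δ / 2))) :=
          mul_le_mul_of_nonneg_left h3 hCP.le
      _ = _ := by ring
  calc ‖Ey y τ‖ ^ 2 ≤ (3 * CP * (9 * CG + 11) * L ^ 2 * X ^ (-(δ / 2))) ^ 2 :=
        pow_le_pow_left₀ (norm_nonneg _) hfin 2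
    _ = (3 * CP * (9 * CG + 11)) ^ 2 * L ^ 4 * (X ^ (-(δ / 2)) * X ^ (-(δ / 2))) := by ring
    _ = _ := by
      rw [← Real.rpow_add hX0]
      congr 2
      ring

theorem zeta_zero {s : ℂ} (h : riemannZeta₁ s = 0) (h1 : s ≠ 1) : riemannZeta s = 0 := by
  rw [riemannZeta_eq_inv_sub_mul h1, h, mul_zero]

theorem zeta1_ne {s : ℂ} (h : 1 ≤ s.re) : riemannZeta₁ s ≠ 0 := by
  intro h0
  by_cases h1 : s = 1
  · rw [h1] at h0
    simp at h0
  · exact riemannZeta_ne_zero_of_one_le_re h (zeta_zero h0 h1)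

/-- the number of cells of one type. -/
theorem ncount {κ CD θD : ℝ} (hCD : 1 ≤ CD) (hθD : 0 < θD)
    (hD : ∀ T σ : ℝ, CD ≤ T → 1 - κ ≤ σ → σ ≤ 1 → ∀ Z : Finset ℂ,
      (∀ ρ ∈ Z, riemannZeta ρ = 0 ∧ σ ≤ ρ.re ∧ T ≤ |ρ.im| ∧ |ρ.im| ≤ 8 * T) →
      (∀ ρ ∈ Z, ∀ ρ' ∈ Z, ρ ≠ ρ' → 1 ≤ |ρ.im - ρ'.im|) → (Z.card : ℝ) ≤ T ^ θD →
      (Z.card : ℝ) ≤ T ^ ((1 / 20) * (1 - σ)) * (Real.log T) ^ CD)
    {X T δ θ : ℝ} (hL : 4 ≤ Real.log X) (hX0 : 0 < X) (hT1 : Real.log X + 7 + CD ≤ T / 2)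
    (hTX : T ≤ X) (hδ0 : 0 < δ) (h4 : 4 * δ ≤ κ) (R : Finset ℤ)
    (hR : ∀ i ∈ R, T ≤ |(i : ℝ)| ∧ |(i : ℝ)| ≤ 2 * T) (hcard : (R.card : ℝ) ≤ T ^ θ)
    (hθ : θ ≤ θD / 2)
    (hz : ∀ i ∈ R, ∃ s : ℂ, 1 - 4 * δ < s.re ∧ |s.im - i| ≤ Real.log X + 3 ∧
      riemannZeta₁ s = 0) :
    (R.card : ℝ) ≤ 11 * (Real.log X) ^ (1 + CD) * X ^ (δ / 5) := by
  classical
  set L := Real.log X with hLd
  have hL0 : 0 < L := by linarith
  have hch : ∀ i : ℤ, ∃ s : ℂ, i ∈ R → 1 - 4 * δ < s.re ∧ |s.im - i| ≤ L + 3 ∧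
      riemannZeta₁ s = 0 := by
    intro i
    by_cases hi : i ∈ R
    · obtain ⟨s, hs⟩ := hz i hi
      exact ⟨s, fun _ => hs⟩
    · exact ⟨0, fun h => absurd h hi⟩
  choose f hf using hch
  have hT24 : 24 ≤ T := by linarith
  have hT2 : 1 ≤ T / 2 := by linarith
  have hcount := count R L ((T / 2) ^ (δ / 5) * (Real.log (T / 2)) ^ CD) hL0.le f
    (fun i hi => (hf i hi).2.1) (fun Z hZ hsep => by
      have hZc : (Z.card : ℝ) ≤ T ^ θ := by
        refine le_trans ?_ hcard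
        exact_mod_cast (Finset.card_le_card hZ).trans Finset.card_image_le
      have hZc2 : (Z.card : ℝ) ≤ (T / 2) ^ θD := by
        refine hZc.trans ?_
        have h1 : T ^ θ ≤ T ^ (θD / 2) :=
          Real.rpow_le_rpow_of_exponent_le (by linarith) hθ
        refine h1.trans ?_
        have h2 : T ^ (θD / 2) = (√T) ^ θD := by
          rw [Real.sqrt_eq_rpow, ← Real.rpow_mul (by linarith)]
          congr 1
          ring
        rw [h2]
        refine Real.rpow_le_rpow (Real.sqrt_nonneg _) ?_ hθD.le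
        rw [Real.sqrt_le_left (by linarith)]
        nlinarith
      have h3 := hD (T / 2) (1 - 4 * δ) (by linarith) (by linarith) (by linarith) Z
        (fun ρ hρ => by
          obtain ⟨i, hi, rfl⟩ := Finset.mem_image.1 (hZ hρ)
          obtain ⟨hs1, hs2, hs3⟩ := hf i hi
          have hlow : T / 2 ≤ |(f i).im| := by
            have h5 : |(i : ℝ)| ≤ |(i : ℝ) - (f i).im| + |(f i).im| := by
              have := abs_sub_le (i : ℝ) (f i).im 0
              simpa using this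
            rw [abs_sub_comm] at h5
            have := (hR i hi).1
            linarith
          have hup : |(f i).im| ≤ 8 * (T / 2) := by
            have h5 : |(f i).im| ≤ |(f i).im - i| + |(i : ℝ)| := by
              have := abs_sub_le (f i).im (i : ℝ) 0
              simpa using this
            have := (hR i hi).2
            linarith
          refine ⟨zeta_zero hs3 ?_, by linarith, hlow, hup⟩
          intro h6
          rw [h6] at hlow
          simp at hlow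
          linarith) hsep hZc2
      have h6 : (1 / 20 : ℝ) * (1 - (1 - 4 * δ)) = δ / 5 := by ring
      rw [h6] at h3
      exact h3)
  refine hcount.trans ?_
  have hlogT : Real.log (T / 2) ≤ L := Real.log_le_log (by linarith) (by linarith)
  have hlogT0 : 0 ≤ Real.log (T / 2) := Real.log_nonneg hT2
  have h1 : (T / 2) ^ (δ / 5) ≤ X ^ (δ / 5) :=
    Real.rpow_le_rpow (by linarith) (by linarith) (by positivity)
  have h2 : (Real.log (T / 2)) ^ CD ≤ L ^ CD := Real.rpow_le_rpow hlogT0 hlogT (by linarith)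
  have h3 : (T / 2) ^ (δ / 5) * (Real.log (T / 2)) ^ CD ≤ X ^ (δ / 5) * L ^ CD :=
    mul_le_mul h1 h2 (Real.rpow_nonneg hlogT0 _) (Real.rpow_nonneg hX0.le _)
  have h5 : 0 ≤ X ^ (δ / 5) * L ^ CD :=
    mul_nonneg (Real.rpow_nonneg hX0.le _) (Real.rpow_nonneg hL0.le _)
  calc (2 * L + 9) * ((T / 2) ^ (δ / 5) * (Real.log (T / 2)) ^ CD)
      ≤ (2 * L + 9) * (X ^ (δ / 5) * L ^ CD) := mul_le_mul_of_nonneg_left h3 (by linarith)
    _ ≤ (11 * L) * (X ^ (δ / 5) * L ^ CD) := mul_le_mul_of_nonneg_right (by linarith) h5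
    _ = 11 * L ^ (1 + CD) * X ^ (δ / 5) := by
      rw [Real.rpow_add hL0, Real.rpow_one]
      ring

/-- final numerical limit. -/
theorem lim_aux (a b : ℝ) (hb : 0 < b) :
    ∀ᶠ L : ℝ in Filter.atTop, L ^ a * Real.exp (-(b * L ^ (1 / 20 : ℝ))) ≤ 1 := by
  have h1 := tendsto_rpow_mul_exp_neg_mul_atTop_nhds_zero (20 * a) b hb
  have h2 : Filter.Tendsto (fun L : ℝ => L ^ (1 / 20 : ℝ)) Filter.atTop Filter.atTop :=
    tendsto_rpow_atTop (by norm_num)
  have h3 := h1.comp h2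
  have h4 := h3.eventually (eventually_le_nhds (show (0 : ℝ) < 1 by norm_num))
  filter_upwards [h4, Filter.eventually_ge_atTop (0 : ℝ)] with L hL hL0
  simp only [Function.comp] at hL
  rw [← Real.rpow_mul hL0, show (1 / 20 : ℝ) * (20 * a) = a by ring] at hL
  rwa [show -(b * L ^ (1 / 20 : ℝ)) = -b * L ^ (1 / 20 : ℝ) by ring]

end SQHr

open SQHr in
/-- ROW SQH. -/
theorem sqh (hG : ZG) (hP : PG) (hF : ZF) (hD : SZD) : SQH := by
  classical
  obtain ⟨CG, hCG, hG⟩ := hG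
  obtain ⟨CP, hCP, hP⟩ := hP
  obtain ⟨cF, CF, hcF, hCF, hF⟩ := hF
  obtain ⟨θD, κ, CD, hθD, hθD1, hκ0, hκ, hCD, hD⟩ := hD (1 / 20) (by norm_num)
  set θ : ℝ := min (θD / 2) (κ / 32) with hθd
  have hθ0 : 0 < θ := lt_min (by linarith) (by linarith)
  have hθ1 : θ ≤ 1 := (min_le_left _ _).trans (by linarith)
  refine ⟨θ, hθ0, hθ1, fun B => ?_⟩
  set c0 : ℝ := cF / 8 with hc0
  have hc00 : 0 < c0 := by positivity
  set K : ℝ := (3 * CP * (9 * CG + 11)) ^ 2 with hK
  have hK0 : 0 < K := by positivity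
  -- the eventual conditions
  have hev1 : ∀ᶠ L : ℝ in Filter.atTop, max (1 / c0) (4 * c0 / κ) ≤ L ^ (1 / 20 : ℝ) :=
    (tendsto_rpow_atTop (by norm_num : (0 : ℝ) < 1 / 20)).eventually_ge_atTop _
  have hev2 := lim_aux (6 + CD + B) (4 / 5 * c0) (by positivity)
  obtain ⟨L0, hL0⟩ := Filter.eventually_atTop.1
    ((hev1.and hev2).and (Filter.eventually_ge_atTop (128 * (8 + CD))))
  refine ⟨11 * K * (κ / (4 * c0)), Real.exp (max L0 4), by positivity, ?_⟩
  intro X y T hX hy1 hy2 hT1 hTX R τ hR hcard hτ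
  have hX0 : 0 < X := lt_of_lt_of_le (Real.exp_pos _) hX
  set L := Real.log X with hLd
  have hLge : max L0 4 ≤ L := by
    rw [hLd, ← Real.log_exp (max L0 4)]
    exact Real.log_le_log (Real.exp_pos _) hX
  have hL4 : 4 ≤ L := (le_max_right _ _).trans hLge
  have hLpos : 0 < L := by linarith
  obtain ⟨⟨hc1, hc2⟩, hc3⟩ := hL0 L ((le_max_left _ _).trans hLge)
  have hXe : X = Real.exp L := (Real.exp_log hX0).symm
  -- T is large
  have hT2 : L + 7 + CD ≤ T / 2 := by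
    have h1 : (1 + √L / 2 + (√L / 2) ^ 2 / 2) ^ 2 ≤ Real.exp (√L) := by
      have h2 := Real.quadratic_le_exp_of_nonneg (show 0 ≤ √L / 2 by positivity)
      have h3 : Real.exp (√L) = (Real.exp (√L / 2)) ^ 2 := by
        rw [← Real.exp_nat_mul]
        congr 1
        push_cast
        ring
      rw [h3]
      exact pow_le_pow_left₀ (by positivity) h2 2
    have hsq : √L ^ 2 = L := Real.sq_sqrt hLpos.le
    have h4 : (L / 8) ^ 2 ≤ (1 + √L / 2 + (√L / 2) ^ 2 / 2) ^ 2 := by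
      refine pow_le_pow_left₀ (by positivity) ?_ 2
      have : (√L / 2) ^ 2 / 2 = L / 8 := by
        rw [div_pow, hsq]
        ring
      rw [this]
      have := Real.sqrt_nonneg L
      linarith
    have h5 : (L / 8) ^ 2 ≤ T := h4.trans (h1.trans hT1)
    nlinarith
  have hT24 : 24 ≤ T := by linarith
  -- 2 X + L + 6 ≤ X ^ 2
  have hXL : L + 1 ≤ X := by
    have := Real.add_one_le_exp L
    rw [← hXe] at this
    exact this
  have hX24 : 24 ≤ X := by linarith
  have hlog2 : Real.log (2 * X + L + 6) ≤ 2 * L := by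
    have h1 : 2 * X + L + 6 ≤ X ^ 2 := by nlinarith
    have h2 := Real.log_le_log (by positivity) h1
    rw [Real.log_pow] at h2
    push_cast at h2
    exact h2
  -- the sequence δ_j
  set d : ℕ → ℝ := fun j => κ / 4 * (1 / 2 : ℝ) ^ j with hd
  have hd0 : ∀ j, 0 < d j := fun j => by simp only [hd]; positivity
  have hdS : ∀ j, d j = 2 * d (j + 1) := fun j => by simp only [hd, pow_succ]; ring
  have hdle : ∀ j, 4 * d j ≤ κ := fun j => by
    simp only [hd]
    have : (1 / 2 : ℝ) ^ j ≤ 1 := pow_le_one₀ (by norm_num) (by norm_num)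
    nlinarith
  have hdanti : ∀ i j, i ≤ j → d j ≤ d i := fun i j hij => by
    simp only [hd]
    refine mul_le_mul_of_nonneg_left ?_ (by linarith)
    exact pow_le_pow_of_le_one (by norm_num) (by norm_num) hij
  set D : ℝ := cF / (2 * (2 * L) ^ (19 / 20 : ℝ)) with hDd
  have h2L : 0 < (2 * L) ^ (19 / 20 : ℝ) := Real.rpow_pos_of_pos (by linarith) _
  have hD0 : 0 < D := by positivity
  have hexJ : ∃ j, d j ≤ D := by
    have h1 : Filter.Tendsto d Filter.atTop (nhds 0) := by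
      have := (tendsto_pow_atTop_nhds_zero_of_lt_one (r := (1 / 2 : ℝ)) (by norm_num)
        (by norm_num)).const_mul (κ / 4)
      simpa [hd] using this
    have h2 := h1.eventually (eventually_le_nhds hD0)
    exact h2.exists
  set J := Nat.find hexJ with hJ
  have hJ1 : d J ≤ D := Nat.find_spec hexJ
  -- lower bound for d J
  have hL1920 : 0 < L ^ (19 / 20 : ℝ) := Real.rpow_pos_of_pos hLpos _
  have hL20 : L ^ (19 / 20 : ℝ) * L ^ (1 / 20 : ℝ) = L := by
    rw [← Real.rpow_add hLpos]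
    norm_num
  have hdJ : c0 / L ^ (19 / 20 : ℝ) ≤ d J := by
    rcases Nat.eq_zero_or_pos J with h0 | h0
    · have h1 : d J = κ / 4 := by rw [h0]; simp [hd]
      rw [h1, div_le_iff₀ hL1920]
      have h2 : L ^ (1 / 20 : ℝ) ≤ L ^ (19 / 20 : ℝ) :=
        Real.rpow_le_rpow_of_exponent_le (by linarith) (by norm_num)
      have h3 : 4 * c0 / κ ≤ L ^ (19 / 20 : ℝ) := ((le_max_right _ _).trans hc1).trans h2
      rw [div_le_iff₀ hκ0] at h3
      linarith
    · have h1 : ¬ d (J - 1) ≤ D := Nat.find_min hexJ (by omega)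
      have h2 := hdS (J - 1)
      rw [Nat.sub_add_cancel h0] at h2
      push Not at h1
      rw [h2] at h1
      have h3 : (2 * L) ^ (19 / 20 : ℝ) ≤ 2 * L ^ (19 / 20 : ℝ) := by
        rw [Real.mul_rpow (by norm_num) hLpos.le]
        refine mul_le_mul_of_nonneg_right ?_ hL1920.le
        have : (2 : ℝ) ^ (19 / 20 : ℝ) ≤ (2 : ℝ) ^ (1 : ℝ) :=
          Real.rpow_le_rpow_of_exponent_le (by norm_num) (by norm_num)
        simpa using this
      have h4 : cF / (2 * (2 * L ^ (19 / 20 : ℝ))) ≤ D :=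
        div_le_div_of_nonneg_left hcF.le (by positivity) (by linarith)
      have h5 : c0 / L ^ (19 / 20 : ℝ) = (cF / (2 * (2 * L ^ (19 / 20 : ℝ)))) / 2 := by
        rw [hc0]
        field_simp
        ring
      rw [h5]
      linarith
  have hdJ1 : 1 / L ≤ d J := by
    refine le_trans ?_ hdJ
    rw [div_le_div_iff₀ hLpos hL1920]
    have h1 : 1 / c0 ≤ L ^ (1 / 20 : ℝ) := (le_max_left _ _).trans hc1
    rw [div_le_iff₀ hc00] at h1
    have h2 : L ^ (19 / 20 : ℝ) * 1 ≤ L ^ (19 / 20 : ℝ) * (L ^ (1 / 20 : ℝ) * c0) :=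
      mul_le_mul_of_nonneg_left h1 hL1920.le
    rw [← mul_assoc, hL20] at h2
    linarith
  -- the property
  set P : ℤ → ℕ → Prop := fun i j => ∀ s : ℂ, 1 - 2 * d j < s.re →
    |s.im - i| ≤ L + 3 → riemannZeta₁ s ≠ 0 with hPd
  have hPJ : ∀ i ∈ R, P i J := by
    intro i hi s hs1 hs2
    rcases le_or_gt 1 s.re with h1 | h1
    · exact zeta1_ne h1
    refine (hF s ?_ (by linarith)).1
    have him : |s.im| ≤ 2 * X + L + 3 := by
      have h5 : |s.im| ≤ |s.im - i| + |(i : ℝ)| := by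
        have := abs_sub_le s.im (i : ℝ) 0
        simpa using this
      have := (hR i hi).2
      linarith
    have h2 : Real.log (3 + |s.im|) ≤ 2 * L := by
      refine le_trans (Real.log_le_log (by positivity) (by linarith)) hlog2
    have h3 : 0 < Real.log (3 + |s.im|) := Real.log_pos (by linarith [abs_nonneg s.im])
    have h4 : (Real.log (3 + |s.im|)) ^ (19 / 20 : ℝ) ≤ (2 * L) ^ (19 / 20 : ℝ) :=
      Real.rpow_le_rpow h3.le h2 (by norm_num)
    have h5 : cF / (2 * L) ^ (19 / 20 : ℝ) ≤ cF / (Real.log (3 + |s.im|)) ^ (19 / 20 : ℝ) :=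
      div_le_div_of_nonneg_left hcF.le (Real.rpow_pos_of_pos h3 _) h4
    have h6 : 2 * D = cF / (2 * L) ^ (19 / 20 : ℝ) := by
      rw [hDd]
      field_simp
    linarith
  set jj : ℤ → ℕ := fun i => sInf {j | P i j} with hjj
  have hjj1 : ∀ i ∈ R, P i (jj i) := fun i hi => Nat.sInf_mem (s := {j | P i j}) ⟨J, hPJ i hi⟩
  have hjj2 : ∀ i ∈ R, jj i ≤ J := fun i hi => Nat.sInf_le (hPJ i hi)
  -- one type
  have htype : ∀ j ∈ Finset.range (J + 1),
      ∑ i ∈ R.filter (fun i => jj i = j), ‖Ey y (τ i)‖ ^ 2 ≤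
        11 * K * L ^ (5 + CD) * Real.exp (-(4 / 5 * c0 * L ^ (1 / 20 : ℝ))) := by
    intro j hj
    have hjJ : j ≤ J := by
      rw [Finset.mem_range] at hj
      omega
    have hdj : d J ≤ d j := hdanti j J hjJ
    have hcell : ∀ i ∈ R.filter (fun i => jj i = j),
        ‖Ey y (τ i)‖ ^ 2 ≤ K * L ^ 4 * X ^ (-(d j)) := by
      intro i hi
      rw [Finset.mem_filter] at hi
      refine cell hCG hCP hG hP hL4 hX0 hy1 hy2 hTX (hR i hi.1).2 (hτ i hi.1)
        (hdJ1.trans hdj) (by linarith [hdle j]) ?_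
      have := hjj1 i hi.1
      rw [hi.2] at this
      exact this
    have hN : ((R.filter (fun i => jj i = j)).card : ℝ) ≤
        11 * L ^ (1 + CD) * X ^ (d j / 5) := by
      rcases Nat.eq_zero_or_pos j with h0 | h0
      · have h1 : ((R.filter (fun i => jj i = j)).card : ℝ) ≤ R.card := by
          exact_mod_cast Finset.card_filter_le _ _
        refine h1.trans (hcard.trans ?_)
        have h2 : T ^ θ ≤ X ^ θ := Real.rpow_le_rpow (by linarith) hTX hθ0.le
        have h3 : X ^ θ ≤ X ^ (d j / 5) := by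
          refine Real.rpow_le_rpow_of_exponent_le (by linarith) ?_
          rw [h0]
          simp only [hd, pow_zero, mul_one]
          have := min_le_right (θD / 2) (κ / 32)
          rw [← hθd] at this
          linarith
        have h4 : 1 ≤ 11 * L ^ (1 + CD) := by
          have := Real.one_le_rpow (show 1 ≤ L by linarith) (show 0 ≤ 1 + CD by linarith)
          linarith
        have h5 : 0 < X ^ (d j / 5) := Real.rpow_pos_of_pos hX0 _
        nlinarith
      · refine ncount hCD hθD hD hL4 hX0 hT2 hTX (hd0 j) (hdle j) _ ?_ ?_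
          (min_le_left (θD / 2) (κ / 32)) ?_
        · intro i hi
          exact hR i (Finset.mem_filter.1 hi).1
        · refine le_trans ?_ hcard
          exact_mod_cast Finset.card_filter_le _ _
        · intro i hi
          rw [Finset.mem_filter] at hi
          have h1 : j - 1 < jj i := by omega
          have h2 : j - 1 ∉ {j | P i j} := Nat.notMem_of_lt_sInf h1
          change ¬ P i (j - 1) at h2
          simp only [hPd] at h2
          push Not at h2
          obtain ⟨s, hs1, hs2, hs3⟩ := h2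
          refine ⟨s, ?_, hs2, hs3⟩
          have h3 := hdS (j - 1)
          rw [Nat.sub_add_cancel h0] at h3
          linarith
    have hXp : 0 < X ^ (-(d j)) := Real.rpow_pos_of_pos hX0 _
    calc ∑ i ∈ R.filter (fun i => jj i = j), ‖Ey y (τ i)‖ ^ 2
        ≤ ∑ i ∈ R.filter (fun i => jj i = j), K * L ^ 4 * X ^ (-(d j)) :=
          Finset.sum_le_sum hcell
      _ = ((R.filter (fun i => jj i = j)).card : ℝ) * (K * L ^ 4 * X ^ (-(d j))) := by
          rw [Finset.sum_const, nsmul_eq_mul]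
      _ ≤ (11 * L ^ (1 + CD) * X ^ (d j / 5)) * (K * L ^ 4 * X ^ (-(d j))) :=
          mul_le_mul_of_nonneg_right hN (by positivity)
      _ = 11 * K * (L ^ (1 + CD) * L ^ 4) * (X ^ (d j / 5) * X ^ (-(d j))) := by ring
      _ = 11 * K * L ^ (5 + CD) * Real.exp (-(4 / 5 * d j * L)) := by
          rw [← Real.rpow_add hX0, ← Real.rpow_natCast L 4, ← Real.rpow_add hLpos,
            Real.rpow_def_of_pos hX0, ← hLd]
          congr 2
          · congr 1
            push_cast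
            ring
          · ring
      _ ≤ _ := by
          refine mul_le_mul_of_nonneg_left ?_ (by positivity)
          refine Real.exp_le_exp.2 ?_
          have h1 : c0 * L ^ (1 / 20 : ℝ) ≤ d j * L := by
            have h2 : c0 / L ^ (19 / 20 : ℝ) * L ≤ d j * L :=
              mul_le_mul_of_nonneg_right (hdJ.trans hdj) hLpos.le
            have h3 : c0 / L ^ (19 / 20 : ℝ) * L = c0 * L ^ (1 / 20 : ℝ) := by
              rw [div_mul_eq_mul_div, div_eq_iff hL1920.ne']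
              rw [mul_assoc, mul_comm (L ^ (1 / 20 : ℝ)), hL20]
            linarith
          linarith
  -- the number of types
  have hJn : ((J + 1 : ℕ) : ℝ) ≤ κ / (4 * c0) * L := by
    have h1 : ((J + 1 : ℕ) : ℝ) ≤ 2 ^ J := by
      exact_mod_cast Nat.lt_two_pow_self
    refine h1.trans ?_
    have h2 : c0 / L ^ (19 / 20 : ℝ) * 2 ^ J ≤ κ / 4 := by
      have h3 : d J * 2 ^ J = κ / 4 := by
        simp only [hd]
        rw [mul_assoc, ← mul_pow]
        norm_num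
      have h4 : c0 / L ^ (19 / 20 : ℝ) * 2 ^ J ≤ d J * 2 ^ J :=
        mul_le_mul_of_nonneg_right hdJ (by positivity)
      linarith
    have h5 : (2 : ℝ) ^ J ≤ κ / (4 * c0) * L ^ (19 / 20 : ℝ) := by
      rw [div_mul_eq_mul_div, div_le_iff₀ hL1920] at h2
      rw [div_mul_eq_mul_div, le_div_iff₀ (by positivity)]
      linarith
    have h6 : L ^ (19 / 20 : ℝ) ≤ L := by
      have := Real.rpow_le_rpow_of_exponent_le (show 1 ≤ L by linarith)
        (show (19 / 20 : ℝ) ≤ 1 by norm_num)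
      simpa using this
    exact h5.trans (mul_le_mul_of_nonneg_left h6 (by positivity))
  -- the sum
  rw [← Finset.sum_fiberwise_of_maps_to (s := R) (t := Finset.range (J + 1)) (g := jj)
    (fun i hi => Finset.mem_range.2 (by have := hjj2 i hi; omega))]
  refine (Finset.sum_le_sum htype).trans ?_
  rw [Finset.sum_const, nsmul_eq_mul, Finset.card_range]
  set E := Real.exp (-(4 / 5 * c0 * L ^ (1 / 20 : ℝ))) with hE
  have hE0 : 0 < E := Real.exp_pos _
  have hLB : 0 < L ^ (-B) := Real.rpow_pos_of_pos hLpos _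
  calc ((J + 1 : ℕ) : ℝ) * (11 * K * L ^ (5 + CD) * E)
      ≤ (κ / (4 * c0) * L) * (11 * K * L ^ (5 + CD) * E) :=
        mul_le_mul_of_nonneg_right hJn (by positivity)
    _ = 11 * K * (κ / (4 * c0)) * ((L ^ (6 + CD + B) * E) * L ^ (-B)) := by
        have h1 : L ^ (6 + CD + B) * L ^ (-B) = L * L ^ (5 + CD) := by
          rw [← Real.rpow_add hLpos]
          nth_rewrite 2 [← Real.rpow_one L]
          rw [← Real.rpow_add hLpos]
          congr 1
          ring
        calc (κ / (4 * c0) * L) * (11 * K * L ^ (5 + CD) * E)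
            = 11 * K * (κ / (4 * c0)) * ((L * L ^ (5 + CD)) * E) := by ring
          _ = _ := by
            rw [← h1]
            ring
    _ ≤ 11 * K * (κ / (4 * c0)) * (1 * L ^ (-B)) := by
        refine mul_le_mul_of_nonneg_left ?_ (by positivity)
        exact mul_le_mul_of_nonneg_right hc2 hLB.le
    _ = _ := by rw [one_mul]

end Pool.Agent.OX
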