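import Pool.Agent.Lib.OX.Defs2

/-!
# PROJECT OX, row SQL: mean square on sparse sets, small heights
-/

set_option autoImplicit false

namespace Pool.Agent.OX

open Finset Filter Topology Pool.Agent.MRL Pool.Agent.MRF

namespace SQL

/-- the final comparison -/
theorem decay (a c B : ℝ) (ha : 0 < a) (hc : 0 < c) : ∃ l₀ : ℝ, ∀ l : ℝ, l₀ ≤ l →
    a * Real.exp (√l) * l ^ (6 : ℕ) * Real.exp (-(2 * c * l ^ (21 / 40 : ℝ))) ≤ l ^ (-B) := by
  have h1 : Tendsto (fun l : ℝ => l ^ (1 / 40 : ℝ)) atTop atTop :=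
    tendsto_rpow_atTop (by norm_num)
  have h2 : ∀ᶠ l : ℝ in atTop, 1 / c ≤ l ^ (1 / 40 : ℝ) := h1.eventually_ge_atTop _
  have h3 : Tendsto (fun w : ℝ => w ^ ((6 + B) * (40 / 21)) * Real.exp (-c * w)) atTop (𝓝 0) :=
    tendsto_rpow_mul_exp_neg_mul_atTop_nhds_zero _ c hc
  have h4 : Tendsto (fun l : ℝ => l ^ (21 / 40 : ℝ)) atTop atTop :=
    tendsto_rpow_atTop (by norm_num)
  have h5 := (h3.comp h4).eventually_le_const (show (0 : ℝ) < 1 / a by positivity)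
  obtain ⟨l₀, hl₀⟩ := eventually_atTop.1 ((h2.and h5).and (eventually_ge_atTop (1 : ℝ)))
  refine ⟨l₀, fun l hl => ?_⟩
  obtain ⟨⟨e1, e2⟩, e3⟩ := hl₀ l hl
  have hl0 : 0 < l := by linarith
  simp only [Function.comp] at e2
  have f1 : √l ≤ c * l ^ (21 / 40 : ℝ) := by
    have g1 : l ^ (21 / 40 : ℝ) = √l * l ^ (1 / 40 : ℝ) := by
      rw [Real.sqrt_eq_rpow, ← Real.rpow_add hl0]
      norm_num
    rw [g1]
    have g2 : 1 ≤ c * l ^ (1 / 40 : ℝ) := by
      rw [div_le_iff₀ hc] at e1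
      linarith
    have g3 : 0 ≤ √l := Real.sqrt_nonneg l
    calc √l = √l * 1 := (mul_one _).symm
      _ ≤ √l * (c * l ^ (1 / 40 : ℝ)) := mul_le_mul_of_nonneg_left g2 g3
      _ = _ := by ring
  have f2 : (l ^ (21 / 40 : ℝ)) ^ ((6 + B) * (40 / 21)) = l ^ (6 + B) := by
    rw [← Real.rpow_mul hl0.le]
    congr 1
    ring
  rw [f2] at e2
  have f3 : Real.exp (√l) * Real.exp (-(2 * c * l ^ (21 / 40 : ℝ))) ≤
      Real.exp (-c * l ^ (21 / 40 : ℝ)) := by
    rw [← Real.exp_add]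
    refine Real.exp_le_exp.2 ?_
    linarith
  have f4 : l ^ (6 + B) = l ^ (6 : ℕ) * l ^ B := by
    rw [Real.rpow_add hl0]
    norm_num
  have hB : 0 < l ^ B := Real.rpow_pos_of_pos hl0 B
  rw [Real.rpow_neg hl0.le, ← one_div, le_div_iff₀ hB]
  rw [f4] at e2
  have e2' : a * (l ^ (6 : ℕ) * l ^ B * Real.exp (-c * l ^ (21 / 40 : ℝ))) ≤ 1 := by
    have := mul_le_mul_of_nonneg_left e2 ha.le
    rwa [mul_one_div_cancel ha.ne'] at this
  refine le_trans ?_ e2'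
  calc a * Real.exp (√l) * l ^ 6 * Real.exp (-(2 * c * l ^ (21 / 40 : ℝ))) * l ^ B =
      a * (l ^ 6 * l ^ B * (Real.exp (√l) * Real.exp (-(2 * c * l ^ (21 / 40 : ℝ))))) := by ring
    _ ≤ a * (l ^ 6 * l ^ B * Real.exp (-c * l ^ (21 / 40 : ℝ))) :=
      mul_le_mul_of_nonneg_left (mul_le_mul_of_nonneg_left f3 (by positivity)) ha.le

/-- the number of the cells -/
theorem card_le {M : ℝ} (hM : 1 ≤ M) (R : Finset ℤ) (hR : ∀ i ∈ R, |(i : ℝ)| ≤ 2 * M) :
    (R.card : ℝ) ≤ 5 * M := by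
  have h1 : R ⊆ Finset.Icc (-⌊2 * M⌋) ⌊2 * M⌋ := by
    intro i hi
    have h2 := abs_le.1 (hR i hi)
    rw [Finset.mem_Icc]
    constructor
    · have h3 : -i ≤ ⌊2 * M⌋ := Int.le_floor.2 (by push_cast; linarith [h2.1])
      linarith
    · exact Int.le_floor.2 h2.2
  have h2 := Finset.card_le_card h1
  rw [Int.card_Icc] at h2
  have h3 : (0 : ℤ) ≤ ⌊2 * M⌋ := Int.floor_nonneg.2 (by linarith)
  have h4 : (R.card : ℤ) ≤ ⌊2 * M⌋ + 1 - -⌊2 * M⌋ := by
    have h5 : ((⌊2 * M⌋ + 1 - -⌊2 * M⌋).toNat : ℤ) = ⌊2 * M⌋ + 1 - -⌊2 * M⌋ :=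
      Int.toNat_of_nonneg (by linarith)
    have h6 : (R.card : ℤ) ≤ ((⌊2 * M⌋ + 1 - -⌊2 * M⌋).toNat : ℤ) := by exact_mod_cast h2
    linarith
  have h5 : (R.card : ℝ) ≤ (⌊2 * M⌋ : ℝ) + 1 - -(⌊2 * M⌋ : ℝ) := by exact_mod_cast h4
  have h6 : (⌊2 * M⌋ : ℝ) ≤ 2 * M := Int.floor_le _
  linarith

end SQL

theorem sql (hP : PP) : SQL := by
  obtain ⟨c, C, hc, hC, hPP⟩ := hP
  intro B
  set c₁ : ℝ := c / 16 with hc₁
  have hc₁0 : 0 < c₁ := by positivity
  obtain ⟨l₀, hl₀⟩ := SQL.decay (5 * (C * 125) ^ 2) c₁ B (by positivity) hc₁0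
  -- eventually `4 + 2 exp √l + 2 l ≤ exp (3 √l)`
  obtain ⟨l₁, hl₁⟩ : ∃ l₁ : ℝ, ∀ l : ℝ, l₁ ≤ l →
      5 + 2 * Real.exp (√l) + 2 * l ≤ Real.exp (3 * √l) := by
    refine ⟨100, fun l hl => ?_⟩
    have hs : 10 ≤ √l := by
      rw [show (10 : ℝ) = √100 by rw [show (100 : ℝ) = 10 ^ 2 by norm_num]; simp]
      exact Real.sqrt_le_sqrt hl
    have hl0 : 0 ≤ l := by linarith
    have h1 : l = √l ^ 2 := (Real.sq_sqrt hl0).symm
    have h2 : √l + 1 ≤ Real.exp (√l) := Real.add_one_le_exp _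
    have h3 : Real.exp (3 * √l) = Real.exp (√l) ^ 3 := by
      rw [← Real.exp_nat_mul]
      norm_num
    rw [h3]
    set u := Real.exp (√l) with hu
    have hu11 : 11 ≤ u := by linarith
    have h4 : l ≤ u ^ 2 := by
      rw [h1]
      exact pow_le_pow_left₀ (by linarith) (by linarith) 2
    have h5 : 5 + 2 * u + 2 * u ^ 2 ≤ u ^ 3 := by nlinarith [sq_nonneg u]
    linarith
  refine ⟨1, Real.exp (max (max l₀ l₁) 100), one_pos, fun X y hX hy1 hy2 R τ hR hτ => ?_⟩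
  have hX0 : 0 < X := (Real.exp_pos _).trans_le hX
  set l : ℝ := Real.log X with hl
  have hlm : max (max l₀ l₁) 100 ≤ l := by
    rw [hl, Real.le_log_iff_exp_le hX0]
    exact hX
  have hl0 : l₀ ≤ l := ((le_max_left _ _).trans (le_max_left _ _)).trans hlm
  have hl1 : l₁ ≤ l := ((le_max_right _ _).trans (le_max_left _ _)).trans hlm
  have hl100 : 100 ≤ l := (le_max_right _ _).trans hlm
  have hs10 : 10 ≤ √l := by
    rw [show (10 : ℝ) = √100 by rw [show (100 : ℝ) = 10 ^ 2 by norm_num]; simp]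
    exact Real.sqrt_le_sqrt hl100
  have hsl : √l ^ 2 = l := Real.sq_sqrt (by linarith)
  have hXe : X = Real.exp l := by rw [hl, Real.exp_log hX0]
  have hsX : √X = Real.exp (l / 2) := by
    rw [hXe, Real.sqrt_eq_iff_mul_self_eq_of_pos (Real.exp_pos _), ← Real.exp_add]
    congr 1
    ring
  have hlog2 : Real.log 2 ≤ 1 := by
    have := Real.log_two_lt_d9
    linarith
  have hy0 : 0 < y := lt_of_lt_of_le (by rw [hsX]; positivity) hy1
  have hly1 : l / 4 ≤ Real.log y := by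
    have h1 : Real.log (√X / 2) ≤ Real.log y := Real.log_le_log (by rw [hsX]; positivity) hy1
    rw [hsX, Real.log_div (Real.exp_pos _).ne' two_ne_zero, Real.log_exp] at h1
    linarith
  have hly2 : Real.log y ≤ 2 * l := by
    have h1 : Real.log y ≤ Real.log (X ^ 2) := Real.log_le_log hy0 hy2
    rw [Real.log_pow] at h1
    exact_mod_cast h1
  have hy3 : 3 ≤ y := by
    have h1 : Real.exp 25 ≤ y := by
      rw [← Real.le_log_iff_exp_le hy0]
      linarith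
    have h2 := Real.add_one_le_exp (25 : ℝ)
    linarith
  -- the pointwise bound
  have hpt : ∀ i ∈ R, ‖Ey y (τ i)‖ ≤ C * 125 * l ^ 3 *
      Real.exp (-(c₁ * l ^ (21 / 40 : ℝ))) := by
    intro i hi
    have h1 := hPP y (τ i) hy3
    obtain ⟨h2, h3⟩ := hτ i hi
    have h4 := hR i hi
    have ht : |τ i| ≤ 2 * Real.exp (√l) + 1 := by
      have h5 := abs_le.1 h4
      rw [abs_le]
      constructor
      · linarith [h5.1]
      · linarith [h5.2]
    have hE : 3 + |τ i| + Real.log y ≤ Real.exp (3 * √l) := by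
      have := hl₁ l hl1
      linarith
    have habs := abs_nonneg (τ i)
    have hlyp : 0 ≤ Real.log y := by linarith
    have hL : Real.log (3 + |τ i| + Real.log y) ≤ 3 * √l := by
      rw [← Real.log_exp (3 * √l)]
      exact Real.log_le_log (by linarith) hE
    have hL0 : 0 < Real.log (3 + |τ i| + Real.log y) := Real.log_pos (by linarith)
    have hL' : Real.log (3 + |τ i|) ≤ 3 * √l := by
      refine le_trans (Real.log_le_log (by linarith) ?_) hL
      linarith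
    have hD : Real.log y + Real.log (3 + |τ i|) ≤ 5 * l := by
      have : 3 * √l ≤ 3 * l := by nlinarith
      linarith
    have hD0 : 0 ≤ Real.log y + Real.log (3 + |τ i|) := by
      have : 0 ≤ Real.log (3 + |τ i|) := Real.log_nonneg (by linarith)
      linarith
    have hM : (Real.log (3 + |τ i| + Real.log y)) ^ (19 / 20 : ℝ) ≤ 4 * l ^ (19 / 40 : ℝ) := by
      have g1 : (Real.log (3 + |τ i| + Real.log y)) ^ (19 / 20 : ℝ) ≤
          (4 * √l) ^ (19 / 20 : ℝ) :=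
        Real.rpow_le_rpow hL0.le (by linarith) (by norm_num)
      refine g1.trans ?_
      rw [Real.mul_rpow (by norm_num) (by positivity), Real.sqrt_eq_rpow,
        ← Real.rpow_mul (by linarith)]
      have g2 : (4 : ℝ) ^ (19 / 20 : ℝ) ≤ 4 := by
        calc (4 : ℝ) ^ (19 / 20 : ℝ) ≤ 4 ^ (1 : ℝ) :=
              Real.rpow_le_rpow_of_exponent_le (by norm_num) (by norm_num)
          _ = 4 := Real.rpow_one 4
      have g3 : (1 / 2 : ℝ) * (19 / 20) = 19 / 40 := by norm_num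
      rw [g3]
      exact mul_le_mul_of_nonneg_right g2 (by positivity)
    have hM0 : 0 < (Real.log (3 + |τ i| + Real.log y)) ^ (19 / 20 : ℝ) :=
      Real.rpow_pos_of_pos hL0 _
    have hexp : Real.exp (-(c * Real.log y /
        (Real.log (3 + |τ i| + Real.log y)) ^ (19 / 20 : ℝ))) ≤
        Real.exp (-(c₁ * l ^ (21 / 40 : ℝ))) := by
      refine Real.exp_le_exp.2 (neg_le_neg ?_)
      rw [le_div_iff₀ hM0]
      have g4 : l ^ (21 / 40 : ℝ) * l ^ (19 / 40 : ℝ) = l := by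
        rw [← Real.rpow_add (by linarith)]
        norm_num
      calc c₁ * l ^ (21 / 40 : ℝ) *
            (Real.log (3 + |τ i| + Real.log y)) ^ (19 / 20 : ℝ) ≤
            c₁ * l ^ (21 / 40 : ℝ) * (4 * l ^ (19 / 40 : ℝ)) :=
            mul_le_mul_of_nonneg_left hM (by positivity)
        _ = 4 * c₁ * (l ^ (21 / 40 : ℝ) * l ^ (19 / 40 : ℝ)) := by ring
        _ = c * (l / 4) := by rw [g4, hc₁]; ring
        _ ≤ c * Real.log y := mul_le_mul_of_nonneg_left hly1 hc.le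
    refine h1.trans ?_
    have h6 : (Real.log y + Real.log (3 + |τ i|)) ^ 3 ≤ (5 * l) ^ 3 :=
      pow_le_pow_left₀ hD0 hD 3
    calc C * (Real.log y + Real.log (3 + |τ i|)) ^ 3 *
          Real.exp (-(c * Real.log y /
            (Real.log (3 + |τ i| + Real.log y)) ^ (19 / 20 : ℝ))) ≤
          C * (5 * l) ^ 3 * Real.exp (-(c₁ * l ^ (21 / 40 : ℝ))) :=
          mul_le_mul (mul_le_mul_of_nonneg_left h6 hC.le) hexp (Real.exp_pos _).le
            (by positivity)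
      _ = _ := by ring
  -- summation
  have hl30 : 0 ≤ l ^ 3 := by positivity
  have hsq : ∀ i ∈ R, ‖Ey y (τ i)‖ ^ 2 ≤ (C * 125) ^ 2 * l ^ 6 *
      Real.exp (-(2 * c₁ * l ^ (21 / 40 : ℝ))) := by
    intro i hi
    have h1 := pow_le_pow_left₀ (norm_nonneg _) (hpt i hi) 2
    refine h1.trans (le_of_eq ?_)
    have h2 : Real.exp (-(2 * c₁ * l ^ (21 / 40 : ℝ))) =
        Real.exp (-(c₁ * l ^ (21 / 40 : ℝ))) ^ 2 := by
      rw [← Real.exp_nat_mul]
      congr 1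
      push_cast
      ring
    rw [h2]
    ring
  have hcard := SQL.card_le (Real.one_le_exp (Real.sqrt_nonneg l)) R hR
  rw [one_mul]
  refine le_trans ?_ (hl₀ l hl0)
  calc ∑ i ∈ R, ‖Ey y (τ i)‖ ^ 2 ≤ ∑ _i ∈ R, (C * 125) ^ 2 * l ^ 6 *
        Real.exp (-(2 * c₁ * l ^ (21 / 40 : ℝ))) := Finset.sum_le_sum hsq
    _ = R.card * ((C * 125) ^ 2 * l ^ 6 * Real.exp (-(2 * c₁ * l ^ (21 / 40 : ℝ)))) := by
        rw [Finset.sum_const, nsmul_eq_mul]
    _ ≤ 5 * Real.exp (√l) * ((C * 125) ^ 2 * l ^ 6 *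
        Real.exp (-(2 * c₁ * l ^ (21 / 40 : ℝ)))) :=
        mul_le_mul_of_nonneg_right hcard (by positivity)
    _ = _ := by ring

end Pool.Agent.OX
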