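import Pool.Agent.Lib.OX.Defs2
import Pool.Agent.Lib.MRL.Basics

/-!
# PROJECT OX (MP_bf4c7f_nt), row INT, part a: lemmas.  helper89.
-/

set_option autoImplicit false

namespace Pool.Agent.OX

open Finset MeasureTheory Pool.Agent.MRL Pool.Agent.MRF Pool.Agent.MR2

namespace INT

/-- integral over a set covered by unit intervals. -/
theorem int_cover {F : ℝ → ℝ} (hF : Continuous F) (hF0 : ∀ t, 0 ≤ F t) {B : ℝ} (R : Finset ℤ)
    (hR : ∀ τ : ℤ → ℝ, (∀ i ∈ R, τ i ∈ Set.Icc (i : ℝ) (i + 1)) → ∑ i ∈ R, F (τ i) ≤ B)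
    (E : Set ℝ) (hE : MeasurableSet E) (hcov : ∀ t ∈ E, ∃ i ∈ R, t ∈ Set.Icc (i : ℝ) (i + 1)) :
    IntegrableOn F E ∧ ∫ t in E, F t ≤ B := by
  have hmax : ∀ i : ℤ, ∃ x ∈ Set.Icc (i : ℝ) (i + 1),
      ∀ t ∈ Set.Icc (i : ℝ) (i + 1), F t ≤ F x := by
    intro i
    have h := isCompact_Icc.exists_isMaxOn (s := Set.Icc (i : ℝ) (i + 1))
      ⟨i, Set.left_mem_Icc.mpr (by linarith)⟩ hF.continuousOn
    obtain ⟨x, hx, hmax⟩ := h
    exact ⟨x, hx, fun t ht => hmax ht⟩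
  choose τ hτ hτmax using hmax
  set G : ℝ → ℝ := fun t => ∑ i ∈ R, (Set.Icc (i : ℝ) (i + 1)).indicator
    (fun _ => F (τ i)) t with hG
  have hG0 : ∀ t, 0 ≤ G t := fun t =>
    Finset.sum_nonneg fun i _ => Set.indicator_nonneg (fun _ _ => hF0 _) _
  have hGi : ∀ i ∈ R, Integrable ((Set.Icc (i : ℝ) (i + 1)).indicator
      (fun _ => F (τ i))) := by
    intro i _
    rw [integrable_indicator_iff measurableSet_Icc]
    exact integrableOn_const (by simp)
  have hGint : Integrable G := integrable_finsetSum _ hGi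
  have hpt : ∀ t ∈ E, F t ≤ G t := by
    intro t ht
    obtain ⟨i, hi, hti⟩ := hcov t ht
    calc F t ≤ F (τ i) := hτmax i t hti
      _ = (Set.Icc (i : ℝ) (i + 1)).indicator (fun _ => F (τ i)) t := by
          rw [Set.indicator_of_mem hti]
      _ ≤ G t := Finset.single_le_sum (f := fun i : ℤ => (Set.Icc (i : ℝ) (i + 1)).indicator
          (fun _ => F (τ i)) t)
          (fun i _ => Set.indicator_nonneg (fun _ _ => hF0 _) _) hi
  constructor
  · refine Integrable.mono' hGint.integrableOn hF.aestronglyMeasurable ?_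
    refine (ae_restrict_iff' hE).mpr (Filter.Eventually.of_forall fun t ht => ?_)
    rw [Real.norm_eq_abs, abs_of_nonneg (hF0 t)]
    exact hpt t ht
  calc ∫ t in E, F t ≤ ∫ t in E, G t := by
        refine integral_mono_of_nonneg ?_ hGint.integrableOn ?_
        · exact Filter.Eventually.of_forall fun t => hF0 t
        · exact (ae_restrict_iff' hE).mpr (Filter.Eventually.of_forall hpt)
    _ ≤ ∫ t, G t := setIntegral_le_integral hGint (Filter.Eventually.of_forall hG0)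
    _ = ∑ i ∈ R, F (τ i) := by
        rw [hG, integral_finsetSum _ hGi]
        refine Finset.sum_congr rfl fun i _ => ?_
        rw [integral_indicator measurableSet_Icc, setIntegral_const]
        simp
    _ ≤ B := hR τ fun i _ => hτ i

/-- a bounded continuous function times the weight is integrable. -/
theorem integrable_mul_g {f : ℝ → ℝ} (hf : Continuous f) {M : ℝ} (h0 : ∀ t, 0 ≤ f t)
    (hM : ∀ t, f t ≤ M) {T : ℝ} (hT : 0 < T) : Integrable (fun t => f t * g T t) := by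
  refine ((Bas.integrable_g hT).const_mul M).mono'
    (hf.mul (Bas.continuous_g T)).aestronglyMeasurable (Filter.Eventually.of_forall fun t => ?_)
  rw [Real.norm_eq_abs, abs_of_nonneg (mul_nonneg (h0 t) (Bas.g_nonneg T t))]
  exact mul_le_mul_of_nonneg_right (hM t) (Bas.g_nonneg T t)

/-- the half weight. -/
theorem half_weight {T : ℝ} (hT : 0 < T) :
    Integrable (fun t : ℝ => Real.exp (-(t / T) ^ 2 / 2)) ∧
      ∫ t : ℝ, Real.exp (-(t / T) ^ 2 / 2) ≤ 3 * T := by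
  have h1 : (fun t : ℝ => Real.exp (-(t / T) ^ 2 / 2)) =
      fun t : ℝ => Real.exp (-(1 / (2 * T ^ 2)) * t ^ 2) := by
    funext t
    congr 1
    rw [div_pow]
    field_simp
  rw [h1]
  constructor
  · exact integrable_exp_neg_mul_sq (b := 1 / (2 * T ^ 2)) (by positivity)
  · rw [integral_gaussian]
    have h2 : Real.pi / (1 / (2 * T ^ 2)) = (2 * Real.pi) * T ^ 2 := by
      field_simp
    rw [h2, Real.sqrt_mul (by positivity), Real.sqrt_sq hT.le]
    have h3 : √(2 * Real.pi) ≤ 3 := by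
      rw [Real.sqrt_le_left (by norm_num)]
      have := Real.pi_lt_d2
      linarith
    exact mul_le_mul_of_nonneg_right h3 hT.le

/-- good points, cells, and the tail. -/
theorem split {a b e : ℝ → ℝ} (ha : Continuous a) (hb : Continuous b) (he : Continuous e)
    (ha0 : ∀ t, 0 ≤ a t) (hb0 : ∀ t, 0 ≤ b t) (he0 : ∀ t, 0 ≤ e t)
    {Ma Mb Me : ℝ} (hMa : ∀ t, a t ≤ Ma) (hMb : ∀ t, b t ≤ Mb) (hMe : ∀ t, e t ≤ Me)
    {T L δ B : ℝ} (hT : 0 < T) (hL : 0 ≤ L) (hδ : 0 ≤ δ) (R : Finset ℤ)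
    (hbad : ∀ t, |t| ≤ T * L → ¬ a t ≤ δ → ∃ i ∈ R, t ∈ Set.Icc (i : ℝ) (i + 1))
    (hR : ∀ τ : ℤ → ℝ, (∀ i ∈ R, τ i ∈ Set.Icc (i : ℝ) (i + 1)) →
      ∑ i ∈ R, a (τ i) * b (τ i) * e (τ i) ≤ B) :
    ∫ t, a t * b t * e t * g T t ≤ δ * (∫ t, b t * e t * g T t) + B +
      Ma * Mb * Me * Real.exp (-(L ^ 2 / 2)) * (3 * T) := by
  classical
  have hMa0 : 0 ≤ Ma := (ha0 0).trans (hMa 0)
  have hMb0 : 0 ≤ Mb := (hb0 0).trans (hMb 0)
  have hMe0 : 0 ≤ Me := (he0 0).trans (hMe 0)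
  obtain ⟨F, hF⟩ : ∃ F : ℝ → ℝ, F = fun t => a t * b t * e t := ⟨_, rfl⟩
  have hFc : Continuous F := by
    rw [hF]
    exact (ha.mul hb).mul he
  have hF0 : ∀ t, 0 ≤ F t := by
    intro t
    rw [hF]
    exact mul_nonneg (mul_nonneg (ha0 t) (hb0 t)) (he0 t)
  obtain ⟨E, hE⟩ : ∃ E : Set ℝ, E = ⋃ i ∈ R, Set.Icc (i : ℝ) (i + 1) := ⟨_, rfl⟩
  have hEm : MeasurableSet E := by
    rw [hE]
    exact R.measurableSet_biUnion fun i _ => measurableSet_Icc
  have hcov : ∀ t ∈ E, ∃ i ∈ R, t ∈ Set.Icc (i : ℝ) (i + 1) := by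
    intro t ht
    rw [hE, Set.mem_iUnion₂] at ht
    obtain ⟨i, hi, h⟩ := ht
    exact ⟨i, hi, h⟩
  have hEI := int_cover hFc hF0 (B := B) R (by rw [hF]; exact hR) E hEm hcov
  have hbe : Integrable (fun t => b t * e t * g T t) :=
    integrable_mul_g (hb.mul he) (M := Mb * Me) (fun t => mul_nonneg (hb0 t) (he0 t))
      (fun t => mul_le_mul (hMb t) (hMe t) (he0 t) hMb0) hT
  have hHW := half_weight hT
  obtain ⟨K, hK⟩ : ∃ K : ℝ, K = Ma * Mb * Me * Real.exp (-(L ^ 2 / 2)) := ⟨_, rfl⟩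
  have hK0 : 0 ≤ K := by
    rw [hK]
    positivity
  have hpt : ∀ t, a t * b t * e t * g T t ≤ δ * (b t * e t * g T t) + E.indicator F t +
      K * Real.exp (-(t / T) ^ 2 / 2) := by
    intro t
    have hg0 := Bas.g_nonneg T t
    have hg1 := Bas.g_le_one T t
    have hFt : a t * b t * e t = F t := by rw [hF]
    have h1 : 0 ≤ δ * (b t * e t * g T t) :=
      mul_nonneg hδ (mul_nonneg (mul_nonneg (hb0 t) (he0 t)) hg0)
    have h2 : 0 ≤ E.indicator F t := Set.indicator_nonneg (fun t _ => hF0 t) t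
    have h3 : 0 ≤ K * Real.exp (-(t / T) ^ 2 / 2) := mul_nonneg hK0 (Real.exp_pos _).le
    by_cases hgood : a t ≤ δ
    · have h4 : a t * b t * e t * g T t ≤ δ * (b t * e t * g T t) := by
        have h5 : 0 ≤ b t * e t * g T t := mul_nonneg (mul_nonneg (hb0 t) (he0 t)) hg0
        nlinarith [mul_le_mul_of_nonneg_right hgood h5]
      linarith
    · by_cases hX : |t| ≤ T * L
      · have hmem : t ∈ E := by
          rw [hE, Set.mem_iUnion₂]
          obtain ⟨i, hi, h⟩ := hbad t hX hgood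
          exact ⟨i, hi, h⟩
        rw [Set.indicator_of_mem hmem]
        have h4 : a t * b t * e t * g T t ≤ F t := by
          rw [hFt]
          exact mul_le_of_le_one_right (hF0 t) hg1
        linarith
      · have h4 : L ≤ |t| / T := by
          rw [le_div_iff₀ hT, mul_comm]
          exact (not_le.mp hX).le
        have h5 : L ^ 2 ≤ (t / T) ^ 2 := by
          rw [← sq_abs (t / T), abs_div, abs_of_pos hT]
          gcongr
        have h6 : g T t ≤ Real.exp (-(L ^ 2 / 2)) * Real.exp (-(t / T) ^ 2 / 2) := by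
          unfold g
          rw [← Real.exp_add]
          apply Real.exp_le_exp.mpr
          linarith
        have h7 : a t * b t * e t ≤ Ma * Mb * Me :=
          mul_le_mul (mul_le_mul (hMa t) (hMb t) (hb0 t) hMa0) (hMe t) (he0 t)
            (mul_nonneg hMa0 hMb0)
        have h8 : a t * b t * e t * g T t ≤ K * Real.exp (-(t / T) ^ 2 / 2) := by
          rw [hK, mul_assoc (Ma * Mb * Me)]
          exact mul_le_mul h7 h6 hg0 (mul_nonneg (mul_nonneg hMa0 hMb0) hMe0)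
        linarith
  have hI1 : Integrable (fun t => δ * (b t * e t * g T t)) := hbe.const_mul δ
  have hI2 : Integrable (E.indicator F) := by
    rw [integrable_indicator_iff hEm]
    exact hEI.1
  have hI3 : Integrable (fun t : ℝ => K * Real.exp (-(t / T) ^ 2 / 2)) := hHW.1.const_mul K
  have hI4 : Integrable (fun t => a t * b t * e t * g T t) :=
    integrable_mul_g ((ha.mul hb).mul he) (M := Ma * Mb * Me)
      (fun t => mul_nonneg (mul_nonneg (ha0 t) (hb0 t)) (he0 t))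
      (fun t => mul_le_mul (mul_le_mul (hMa t) (hMb t) (hb0 t) hMa0) (hMe t) (he0 t)
            (mul_nonneg hMa0 hMb0)) hT
  calc ∫ t, a t * b t * e t * g T t
      ≤ ∫ t, (δ * (b t * e t * g T t) + E.indicator F t +
          K * Real.exp (-(t / T) ^ 2 / 2)) :=
        integral_mono hI4 ((hI1.add hI2).add hI3) hpt
    _ = δ * (∫ t, b t * e t * g T t) + (∫ t in E, F t) +
          K * ∫ t : ℝ, Real.exp (-(t / T) ^ 2 / 2) := by
        have hI5 : Integrable (fun t => δ * (b t * e t * g T t) + E.indicator F t) := hI1.add hI2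
        rw [integral_add hI5 hI3, integral_add hI1 hI2, integral_const_mul,
          integral_const_mul, integral_indicator hEm]
    _ ≤ _ := by
        rw [hK] at hK0 ⊢
        have h9 := mul_le_mul_of_nonneg_left hHW.2 hK0
        linarith [hEI.2]

/-- Cauchy-Schwarz with a parameter, integrals. -/
theorem csi {b e : ℝ → ℝ} (hb : Continuous b) (he : Continuous e)
    (hb0 : ∀ t, 0 ≤ b t) (he0 : ∀ t, 0 ≤ e t)
    {Mb Me : ℝ} (hMb : ∀ t, b t ≤ Mb) (hMe : ∀ t, e t ≤ Me)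
    {T μ : ℝ} (hT : 0 < T) (hμ : 0 < μ) :
    ∫ t, b t * e t * g T t ≤ (∫ t, b t ^ 2 * g T t) / μ + μ * ∫ t, e t ^ 2 * g T t := by
  have hMb0 : 0 ≤ Mb := (hb0 0).trans (hMb 0)
  have hMe0 : 0 ≤ Me := (he0 0).trans (hMe 0)
  have h1 : Integrable (fun t => b t ^ 2 * g T t) :=
    integrable_mul_g (hb.pow 2) (M := Mb ^ 2) (fun t => sq_nonneg _)
      (fun t => pow_le_pow_left₀ (hb0 t) (hMb t) 2) hT
  have h2 : Integrable (fun t => e t ^ 2 * g T t) :=
    integrable_mul_g (he.pow 2) (M := Me ^ 2) (fun t => sq_nonneg _)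
      (fun t => pow_le_pow_left₀ (he0 t) (hMe t) 2) hT
  have h3 : Integrable (fun t => b t * e t * g T t) :=
    integrable_mul_g (hb.mul he) (M := Mb * Me) (fun t => mul_nonneg (hb0 t) (he0 t))
      (fun t => mul_le_mul (hMb t) (hMe t) (he0 t) hMb0) hT
  have h4 : (∫ t, b t ^ 2 * g T t) / μ + μ * ∫ t, e t ^ 2 * g T t =
      ∫ t, ((b t ^ 2 * g T t) / μ + μ * (e t ^ 2 * g T t)) := by
    rw [integral_add (h1.div_const μ) (h2.const_mul μ), integral_div, integral_const_mul]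
  rw [h4]
  refine integral_mono h3 ((h1.div_const μ).add (h2.const_mul μ)) fun t => ?_
  have hg0 := Bas.g_nonneg T t
  have h5 : b t * e t ≤ b t ^ 2 / μ + μ * e t ^ 2 := by
    have h6 : b t ^ 2 / μ + μ * e t ^ 2 - b t * e t =
        ((b t - μ * e t / 2) ^ 2 + 3 / 4 * μ ^ 2 * e t ^ 2) / μ := by
      field_simp
      ring
    have h7 : 0 ≤ ((b t - μ * e t / 2) ^ 2 + 3 / 4 * μ ^ 2 * e t ^ 2) / μ := by positivity
    linarith
  have h8 := mul_le_mul_of_nonneg_right h5 hg0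
  calc b t * e t * g T t ≤ (b t ^ 2 / μ + μ * e t ^ 2) * g T t := h8
    _ = (b t ^ 2 * g T t) / μ + μ * (e t ^ 2 * g T t) := by ring

/-- Cauchy-Schwarz with a parameter, sums. -/
theorem css {ι : Type*} (R : Finset ι) (b e : ι → ℝ) {μ : ℝ} (hμ : 0 < μ) :
    ∑ i ∈ R, b i * e i ≤ (∑ i ∈ R, b i ^ 2) * μ + (∑ i ∈ R, e i ^ 2) / μ := by
  rw [Finset.sum_mul, Finset.sum_div, ← Finset.sum_add_distrib]
  refine Finset.sum_le_sum fun i _ => ?_
  have h6 : b i ^ 2 * μ + e i ^ 2 / μ - b i * e i =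
      ((e i - μ * b i / 2) ^ 2 + 3 / 4 * μ ^ 2 * b i ^ 2) / μ := by
    field_simp
    ring
  have h7 : 0 ≤ ((e i - μ * b i / 2) ^ 2 + 3 / 4 * μ ^ 2 * b i ^ 2) / μ := by positivity
  linarith

/-! ### crude bounds -/

theorem norm_Q_le (v : ℕ) (t : ℝ) : ‖MRL.Q 1 v t‖ ≤ 3 := by
  refine (Bas.norm_Q_le 1 v t).trans ?_
  have h1 : ∀ p ∈ W 1 v, 1 / (p : ℝ) ≤ Real.exp (-(v : ℝ)) := by
    intro p hp
    unfold W at hp
    rw [Finset.mem_filter, Finset.mem_Ioc] at hp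
    have h2 : Real.exp ((v : ℝ) / ((1 : ℕ) : ℝ)) < p := Nat.lt_of_floor_lt hp.1.1
    rw [Nat.cast_one, div_one] at h2
    rw [Real.exp_neg, one_div]
    exact inv_anti₀ (Real.exp_pos _) h2.le
  refine (Finset.sum_le_card_nsmul _ _ _ h1).trans ?_
  rw [nsmul_eq_mul]
  have h3 : ((W 1 v).card : ℝ) ≤ Real.exp ((v : ℝ) + 1) := by
    have h4 : (W 1 v).card ≤ ⌊Real.exp (((v : ℝ) + 1) / ((1 : ℕ) : ℝ))⌋₊ := by
      unfold W
      refine (Finset.card_filter_le _ _).trans ?_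
      rw [Nat.card_Ioc]
      omega
    have h5 : (⌊Real.exp (((v : ℝ) + 1) / ((1 : ℕ) : ℝ))⌋₊ : ℝ) ≤
        Real.exp (((v : ℝ) + 1) / ((1 : ℕ) : ℝ)) := Nat.floor_le (Real.exp_pos _).le
    have h6 : ((W 1 v).card : ℝ) ≤ (⌊Real.exp (((v : ℝ) + 1) / ((1 : ℕ) : ℝ))⌋₊ : ℝ) := by
      exact_mod_cast h4
    rw [Nat.cast_one, div_one] at h5 h6
    exact h6.trans h5
  calc ((W 1 v).card : ℝ) * Real.exp (-(v : ℝ))
      ≤ Real.exp ((v : ℝ) + 1) * Real.exp (-(v : ℝ)) := by gcongr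
    _ = Real.exp 1 := by
        rw [← Real.exp_add]
        congr 1
        ring
    _ ≤ 3 := by
        have := Real.exp_one_lt_d9
        linarith

theorem norm_pr_le (n : ℕ) : ‖pr n‖ ≤ 1 := by
  unfold pr
  split_ifs <;> simp

theorem norm_AF_le2 {a : ℕ → ℂ} (ha : ∀ n, ‖a n‖ ≤ 1) {Q : ℝ} (hQ : 1 ≤ Q) (t : ℝ) :
    ‖AF a Q t‖ ≤ 2 := by
  refine (norm_AF_le ha Q t).trans ?_
  have h1 : ∀ m ∈ Ioc ⌊Q⌋₊ ⌊2 * Q⌋₊, 1 / (m : ℝ) ≤ 1 / Q := by
    intro m hm
    rw [Finset.mem_Ioc] at hm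
    have h2 : Q < m := Nat.lt_of_floor_lt hm.1
    exact one_div_le_one_div_of_le (by linarith) h2.le
  refine (Finset.sum_le_card_nsmul _ _ _ h1).trans ?_
  rw [nsmul_eq_mul, Nat.card_Ioc]
  have h3 : ((⌊2 * Q⌋₊ - ⌊Q⌋₊ : ℕ) : ℝ) ≤ 2 * Q := by
    have h4 : ((⌊2 * Q⌋₊ - ⌊Q⌋₊ : ℕ) : ℝ) ≤ (⌊2 * Q⌋₊ : ℝ) := by
      exact_mod_cast Nat.sub_le _ _
    exact h4.trans (Nat.floor_le (by linarith))
  calc ((⌊2 * Q⌋₊ - ⌊Q⌋₊ : ℕ) : ℝ) * (1 / Q) ≤ 2 * Q * (1 / Q) := by gcongr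
    _ = 2 := by field_simp

theorem continuous_Ey (y : ℝ) : Continuous (Ey y) := by
  unfold Ey Sy my
  refine Continuous.sub ?_ ?_
  · exact continuous_finsetSum _ fun m _ => continuous_const.mul (continuous_nt m)
  · fun_prop

theorem norm_Ey_le (y t : ℝ) : ‖Ey y t‖ ≤ y ^ 2 + 4 := by
  unfold Ey
  refine (norm_sub_le _ _).trans (add_le_add ?_ ?_)
  · unfold Sy
    have h1 : ∀ s ∈ SP y, ‖((Real.log s * Real.exp (-(Real.log ((s : ℝ) / y)) ^ 2 / 4) / s : ℝ) : ℂ)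
        * nt s t‖ ≤ 1 := by
      intro s hs
      unfold SP at hs
      rw [Finset.mem_filter, Finset.mem_Icc] at hs
      have hs1 : (1 : ℝ) ≤ s := by exact_mod_cast hs.1.1
      have hl0 : 0 ≤ Real.log s := Real.log_nonneg hs1
      have hl1 : Real.log s ≤ s := (Real.log_le_self (by linarith))
      have he : Real.exp (-(Real.log ((s : ℝ) / y)) ^ 2 / 4) ≤ 1 := by
        rw [Real.exp_le_one_iff]
        have := sq_nonneg (Real.log ((s : ℝ) / y))
        linarith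
      rw [norm_mul, norm_nt, mul_one, Complex.norm_real, Real.norm_eq_abs, abs_of_nonneg
        (by positivity), div_le_one (by linarith)]
      calc Real.log s * Real.exp (-(Real.log ((s : ℝ) / y)) ^ 2 / 4) ≤ Real.log s * 1 := by gcongr
        _ ≤ s := by linarith
    refine (norm_sum_le _ _).trans ((Finset.sum_le_card_nsmul _ _ _ h1).trans ?_)
    rw [nsmul_eq_mul, mul_one]
    have h2 : (SP y).card ≤ ⌊y ^ 2⌋₊ := by
      unfold SP
      refine (Finset.card_filter_le _ _).trans ?_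
      rw [Nat.card_Icc]
      omega
    have h3 : (⌊y ^ 2⌋₊ : ℝ) ≤ y ^ 2 := Nat.floor_le (by positivity)
    have h4 : ((SP y).card : ℝ) ≤ (⌊y ^ 2⌋₊ : ℝ) := by exact_mod_cast h2
    exact h4.trans h3
  · unfold my
    have h1 : Complex.exp (-((t * Real.log y : ℝ) : ℂ) * Complex.I) =
        Complex.exp (((-(t * Real.log y) : ℝ) : ℂ) * Complex.I) := by push_cast; rfl
    rw [norm_mul, h1, Complex.norm_exp_ofReal_mul_I, mul_one, Complex.norm_real,
      Real.norm_eq_abs, abs_of_nonneg (by positivity)]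
    have h2 : √Real.pi ≤ 2 := by
      rw [Real.sqrt_le_left (by norm_num)]
      have := Real.pi_lt_d2
      linarith
    have h3 : Real.exp (-t ^ 2) ≤ 1 := by
      rw [Real.exp_le_one_iff]
      have := sq_nonneg t
      linarith
    calc 2 * √Real.pi * Real.exp (-t ^ 2) ≤ 2 * 2 * 1 := by gcongr
      _ = 4 := by norm_num

/-! ### parameters -/

/-- all elementary inequalities between the parameters. -/
theorem num {K A : ℝ} (hK : 0 ≤ K) (hA : 1 ≤ A) {N Q : ℝ} (h1 : 129 ≤ Real.log N)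
    (h2 : (Real.log N) ^ (4 * (A + K + 5)) ≤ √N)
    (hQ : Q = QP K A N ∨ Q = 2 * QP K A N) :
    0 < N ∧ 1 ≤ TP K N ∧ 1 ≤ Q ∧ 128 * Real.log N * Q < TP K N ∧ TP K N ≤ Q ^ 2 ∧
    128 * N * Real.log N < TP K N * (√N / (Real.log N) ^ (K + 1)) ∧
    √N ≤ TP K N * Real.log N ∧ TP K N * Real.log N ≤ N ∧ TP K N ≤ N ∧
    √(TP K N * Real.log N) ≤ Q ∧
    Q ≤ TP K N * Real.log N ∧ TP K N / Q ≤ (Real.log N) ^ (A + 2 * K + 7) ∧
    3 ≤ yP A N Q ∧ TP K N ≤ 4 * yP A N Q ∧ yP A N Q ≤ TP K N * Real.log N ∧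
    √(TP K N * Real.log N) / 2 ≤ yP A N Q ∧ yP A N Q ≤ (TP K N * Real.log N) ^ 2 := by
  have hN0 : 0 < N := by
    by_contra h
    have h3 : √N = 0 := Real.sqrt_eq_zero_of_nonpos (not_lt.mp h)
    rw [h3] at h2
    have h4 : 0 < (Real.log N) ^ (4 * (A + K + 5)) := Real.rpow_pos_of_pos (by linarith) _
    linarith
  obtain ⟨L, hL⟩ : ∃ L : ℝ, L = Real.log N := ⟨_, rfl⟩
  obtain ⟨s, hs⟩ : ∃ s : ℝ, s = √N := ⟨_, rfl⟩
  have hs2 : s * s = N := by rw [hs]; exact Real.mul_self_sqrt hN0.le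
  have hs0 : 0 < s := by rw [hs]; exact Real.sqrt_pos.mpr hN0
  rw [← hL] at h1 h2
  rw [← hs] at h2
  have hL0 : 0 < L := by linarith
  have hL1 : 1 ≤ L := by linarith
  obtain ⟨p, hp⟩ : ∃ p : ℝ, p = L ^ A := ⟨_, rfl⟩
  obtain ⟨k, hk⟩ : ∃ k : ℝ, k = L ^ K := ⟨_, rfl⟩
  have hp1 : 1 ≤ p := by rw [hp]; exact Real.one_le_rpow hL1 (by linarith)
  have hk1 : 1 ≤ k := by rw [hk]; exact Real.one_le_rpow hL1 hK
  have hp0 : 0 < p := by linarith
  have hk0 : 0 < k := by linarith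
  -- powers
  have e1 : L ^ (K + 3) = k * L ^ 3 := by
    rw [Real.rpow_add hL0, ← hk]
    norm_cast
  have e2 : L ^ (A + K + 4) = p * k * L ^ 4 := by
    rw [Real.rpow_add hL0, Real.rpow_add hL0, ← hk, ← hp]
    norm_cast
  have e3 : L ^ (K + 1) = k * L := by
    rw [Real.rpow_add hL0, ← hk, Real.rpow_one]
  have e4 : L ^ (A + 2 * K + 7) = p * k ^ 2 * L ^ 7 := by
    have h3 : L ^ (2 * K) = k ^ 2 := by
      rw [hk, ← Real.rpow_natCast, ← Real.rpow_mul hL0.le]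
      congr 1
      push_cast
      ring
    rw [Real.rpow_add hL0, Real.rpow_add hL0, ← hp, h3]
    norm_cast
  have e5 : L ^ (4 * (A + K + 5)) = (p * k * L ^ 5) ^ 4 := by
    have h3 : p * k * L ^ 5 = L ^ (A + K + 5) := by
      rw [Real.rpow_add hL0, Real.rpow_add hL0, ← hk, ← hp]
      norm_cast
    rw [h3, ← Real.rpow_natCast, ← Real.rpow_mul hL0.le]
    congr 1
    push_cast
    ring
  rw [e5] at h2
  have hT : TP K N = s * (k * L ^ 3) := by
    unfold TP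
    rw [← hL, ← hs, e1]
  have hQP : QP K A N = s / (p * k * L ^ 4) := by
    unfold QP
    rw [← hL, ← hs, e2]
  have hX : TP K N * L = s * k * L ^ 4 := by rw [hT]; ring
  -- size of powers
  have hpkL : 1 ≤ p * k := one_le_mul_of_one_le_of_one_le hp1 hk1
  have hLn : ∀ n : ℕ, 1 ≤ L ^ n := fun n => one_le_pow₀ hL1
  have f1 : p ^ 2 * k ^ 3 * L ^ 12 ≤ s := by
    refine le_trans ?_ h2
    have h3 : (p * k * L ^ 5) ^ 4 = p ^ 4 * k ^ 4 * L ^ 20 := by ring
    rw [h3]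
    gcongr <;> first | assumption | norm_num | exact one_le_pow₀ hp1
  have f2 : p ^ 2 * k ^ 3 * L ^ 11 ≤ s := by
    refine le_trans ?_ f1
    gcongr <;> first | assumption | norm_num | exact one_le_pow₀ hp1
  have f3 : k * L ^ 4 ≤ s := by
    refine le_trans ?_ f1
    have h3 : k * L ^ 4 = 1 * k ^ 1 * L ^ 4 := by ring
    have h4 : 1 ≤ p ^ 2 := one_le_pow₀ hp1
    rw [h3]
    gcongr <;> first | assumption | norm_num
  have hsL : L ≤ s := by
    refine le_trans ?_ f3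
    have h3 : L = 1 * L ^ 1 := by ring
    nth_rewrite 1 [h3]
    gcongr <;> first | assumption | norm_num | exact one_le_pow₀ hp1
  -- Q
  have hm0 : 0 < p * k * L ^ 4 := by positivity
  have hQl : s / (p * k * L ^ 4) ≤ Q := by
    rcases hQ with h | h
    · rw [h, hQP]
    · rw [h, hQP]
      have : 0 < s / (p * k * L ^ 4) := by positivity
      linarith
  have hQu : Q ≤ 2 * (s / (p * k * L ^ 4)) := by
    rcases hQ with h | h
    · rw [h, hQP]
      have : 0 < s / (p * k * L ^ 4) := by positivity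
      linarith
    · rw [h, hQP]
  have hQ0 : 0 < Q := lt_of_lt_of_le (by positivity) hQl
  have hQsq : (s / (p * k * L ^ 4)) ^ 2 ≤ Q ^ 2 := by
    gcongr
  have g1 : s * (k * L ^ 4) ≤ (s / (p * k * L ^ 4)) ^ 2 := by
    rw [div_pow, le_div_iff₀ (by positivity)]
    calc s * (k * L ^ 4) * (p * k * L ^ 4) ^ 2 = s * (p ^ 2 * k ^ 3 * L ^ 12) := by ring
      _ ≤ s * s := by gcongr
      _ = s ^ 2 := by ring
  have hTX : TP K N ≤ TP K N * L := by
    have : 0 < TP K N := by rw [hT]; positivity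
    nlinarith
  have hXN : TP K N * L ≤ N := by
    rw [hX, ← hs2, mul_assoc]
    gcongr
  have hXs : s ≤ TP K N * L := by
    rw [hX]
    have h3 : 1 ≤ k * L ^ 4 := one_le_mul_of_one_le_of_one_le hk1 (hLn 4)
    nlinarith
  -- v
  have hv1 : p ≤ Real.exp (vP A N) := by
    unfold vP
    rw [hp, ← hL, Real.rpow_def_of_pos hL0]
    apply Real.exp_le_exp.mpr
    rw [mul_comm]
    exact Nat.le_ceil _
  have hv2 : Real.exp (vP A N) ≤ 3 * p := by
    unfold vP
    rw [← hL]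
    have h3 : 0 ≤ A * Real.log L := mul_nonneg (by linarith) (Real.log_nonneg hL1)
    have h4 := (Nat.ceil_lt_add_one h3).le
    calc Real.exp (⌈A * Real.log L⌉₊ : ℝ) ≤ Real.exp (A * Real.log L + 1) :=
          Real.exp_le_exp.mpr h4
      _ = Real.exp 1 * p := by
          rw [hp, Real.rpow_def_of_pos hL0, mul_comm A, Real.exp_add]
          ring
      _ ≤ 3 * p := by
          have := Real.exp_one_lt_d9
          gcongr
          linarith
  have hv0 : 0 < Real.exp (vP A N) := Real.exp_pos _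
  have hy1 : s * k * L ^ 4 / 6 ≤ yP A N Q := by
    unfold yP
    rw [le_div_iff₀ (by positivity)]
    calc s * k * L ^ 4 / 6 * (Real.exp (vP A N) * Q)
        ≤ s * k * L ^ 4 / 6 * ((3 * p) * (2 * (s / (p * k * L ^ 4)))) := by gcongr
      _ = s * s := by field_simp; ring
      _ = N := hs2
  have hy2 : yP A N Q ≤ s * k * L ^ 4 := by
    unfold yP
    rw [div_le_iff₀ (by positivity)]
    calc N = s * s := hs2.symm
      _ = s * k * L ^ 4 * (p * (s / (p * k * L ^ 4))) := by field_simp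
      _ ≤ s * k * L ^ 4 * (Real.exp (vP A N) * Q) := by gcongr
  have hXsq : (9 : ℝ) ≤ TP K N * L := by linarith
  have hsqX : √(TP K N * L) ≤ (TP K N * L) / 3 := by
    obtain ⟨x, hx⟩ : ∃ x : ℝ, x = TP K N * L := ⟨_, rfl⟩
    rw [← hx] at hXsq ⊢
    rw [Real.sqrt_le_left (by linarith), div_pow, le_div_iff₀ (by norm_num)]
    nlinarith
  refine ⟨hN0, ?_, ?_, ?_, ?_, ?_, ?_, ?_, ?_, ?_, ?_, ?_, ?_, ?_, ?_, ?_, ?_⟩
  · rw [hT]
    have h3 : 1 ≤ k * L ^ 3 := one_le_mul_of_one_le_of_one_le hk1 (hLn 3)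
    nlinarith
  · refine le_trans ?_ hQl
    rw [le_div_iff₀ hm0, one_mul]
    refine le_trans ?_ f1
    have h3 : p * k * L ^ 4 = p ^ 1 * k ^ 1 * L ^ 4 := by ring
    rw [h3]
    gcongr <;> first | assumption | norm_num | exact one_le_pow₀ hp1
  · rw [← hL, hT]
    calc 128 * L * Q ≤ 128 * L * (2 * (s / (p * k * L ^ 4))) := by gcongr
      _ = 256 * (s / (p * k * L ^ 3)) := by field_simp; ring
      _ ≤ 256 * s := by
          gcongr
          apply div_le_self hs0.le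
          exact one_le_mul_of_one_le_of_one_le hpkL (hLn 3)
      _ < s * (k * L ^ 3) := by
          have h3 : (129 : ℝ) ^ 3 ≤ L ^ 3 := by gcongr
          have h4 : (129 : ℝ) ^ 3 ≤ k * L ^ 3 := by nlinarith
          nlinarith
  · refine le_trans hTX (le_trans ?_ hQsq)
    rw [hX, mul_assoc]
    exact g1
  · rw [← hL, ← hs, e3, hT, ← hs2]
    have h3 : s * (k * L ^ 3) * (s / (k * L)) = s * s * L ^ 2 := by field_simp
    rw [h3]
    have h4 : 0 < s * s := by positivity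
    nlinarith [mul_pos h4 hL0]
  · rw [← hs, ← hL]
    exact hXs
  · rw [← hL]
    exact hXN
  · exact hTX.trans hXN
  · rw [← hL, Real.sqrt_le_left hQ0.le]
    refine le_trans ?_ hQsq
    rw [hX, mul_assoc]
    exact g1
  · rw [← hL, hX]
    refine hQu.trans ?_
    calc 2 * (s / (p * k * L ^ 4)) ≤ 2 * s := by
          gcongr
          apply div_le_self hs0.le
          exact one_le_mul_of_one_le_of_one_le hpkL (hLn 4)
      _ ≤ s * k * L ^ 4 := by
          have h3 : (129 : ℝ) ^ 4 ≤ L ^ 4 := by gcongr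
          have h4 : (129 : ℝ) ^ 4 ≤ k * L ^ 4 := by nlinarith
          nlinarith
  · rw [← hL, e4, div_le_iff₀ hQ0, hT]
    calc s * (k * L ^ 3) = p * k ^ 2 * L ^ 7 * (s / (p * k * L ^ 4)) := by field_simp
      _ ≤ p * k ^ 2 * L ^ 7 * Q := by gcongr
  · refine le_trans ?_ hy1
    rw [hX] at hXs
    linarith
  · rw [hT]
    have h3 : s * (k * L ^ 3) ≤ 4 * (s * k * L ^ 4 / 6) := by
      have h4 : 0 < s * k * L ^ 3 := by positivity
      nlinarith
    linarith
  · rw [← hL, hX]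
    exact hy2
  · rw [← hL]
    rw [hX] at hsqX ⊢
    linarith
  · rw [← hL]
    rw [← hX] at hy2
    nlinarith

end INT

end Pool.Agent.OX
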