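import Mathlib
import Pool.Agent.Lib.OX.Defs

/-!
# PROJECT OX, row CNT: integers `q` in `(Q, 2Q]` with `θ q` near an integer.  helper44.
-/

set_option autoImplicit false

namespace Pool.Agent.OX

open Finset

noncomputable section

/-- well spaced points in an interval. -/
theorem card_spaced {ι : Type*} (A : Finset ι) (v : ι → ℝ) (x L δ : ℝ) (hδ : 0 < δ) (hL : 0 ≤ L)
    (h1 : ∀ i ∈ A, x ≤ v i ∧ v i ≤ x + L)
    (h2 : ∀ i ∈ A, ∀ j ∈ A, i ≠ j → δ ≤ |v i - v j|) : (A.card : ℝ) ≤ L / δ + 1 := by
  classical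
  have hmap : ∀ i ∈ A, ⌊(v i - x) / δ⌋₊ ∈ range (⌊L / δ⌋₊ + 1) := by
    intro i hi
    rw [mem_range, Nat.lt_succ_iff]
    apply Nat.floor_le_floor
    have := h1 i hi
    gcongr
    linarith
  have hinj : Set.InjOn (fun i => ⌊(v i - x) / δ⌋₊) (A : Set ι) := by
    intro i hi j hj hij
    by_contra hne
    have hd := h2 i hi j hj hne
    have hi0 : 0 ≤ (v i - x) / δ := div_nonneg (by have := h1 i hi; linarith) hδ.le
    have hj0 : 0 ≤ (v j - x) / δ := div_nonneg (by have := h1 j hj; linarith) hδ.le
    have e1 := Nat.floor_le hi0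
    have e2 := Nat.lt_floor_add_one ((v i - x) / δ)
    have e3 := Nat.floor_le hj0
    have e4 := Nat.lt_floor_add_one ((v j - x) / δ)
    simp only at hij
    rw [hij] at e1 e2
    have hlt : |(v i - x) / δ - (v j - x) / δ| < 1 := by
      rw [abs_lt]; constructor <;> linarith
    have heq : (v i - x) / δ - (v j - x) / δ = (v i - v j) / δ := by ring
    rw [heq, abs_div, abs_of_pos hδ, div_lt_one hδ] at hlt
    linarith
  have hc := card_le_card_of_injOn _ hmap hinj
  rw [card_range] at hc
  calc (A.card : ℝ) ≤ ((⌊L / δ⌋₊ + 1 : ℕ) : ℝ) := by exact_mod_cast hc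
    _ = (⌊L / δ⌋₊ : ℝ) + 1 := by push_cast; ring
    _ ≤ L / δ + 1 := by
      have := Nat.floor_le (div_nonneg hL hδ.le)
      linarith

/-- distinct naturals divisible by `b` differ by at least `b`. -/
theorem dvd_gap (b : ℕ) (q q' : ℕ) (hne : q ≠ q') (h : (b : ℤ) ∣ (q : ℤ) - q') :
    (b : ℝ) ≤ |(q : ℝ) - q'| := by
  have h0 : (q : ℤ) - q' ≠ 0 := by
    intro h; apply hne; have : (q : ℤ) = q' := by linarith
    exact_mod_cast this
  have h1 := Int.le_of_dvd (abs_pos.mpr h0) ((dvd_abs _ _).mpr h)
  have h2 : ((b : ℤ) : ℝ) ≤ ((|(q : ℤ) - q'| : ℤ) : ℝ) := by exact_mod_cast h1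
  push_cast at h2
  exact h2

/-- Row CNT. -/
theorem cnt : CNT := by
  classical
  refine ⟨20, by norm_num, ?_⟩
  intro θ η Q hη hη8 hQ S hS
  have hQ8 : 8 < Q := by
    have : (8 : ℝ) < 1 / η := by rw [lt_div_iff₀ hη]; linarith
    linarith
  have hQ0 : 0 < Q := by linarith
  have hηQ : 1 ≤ η * Q := by
    rw [div_le_iff₀ hη] at hQ; linarith
  by_cases hsp : ∀ q ∈ S, ∀ q' ∈ S, q ≠ q' → 1 / (4 * η) ≤ |(q : ℝ) - q'|
  · left
    have h := card_spaced S (fun q : ℕ => (q : ℝ)) Q Q (1 / (4 * η)) (by positivity) hQ0.le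
      (fun q hq => ⟨(hS q hq).1.le, by have := (hS q hq).2.1; linarith⟩) hsp
    have h2 : Q / (1 / (4 * η)) = 4 * (η * Q) := by field_simp
    rw [h2] at h
    linarith
  · push Not at hsp
    obtain ⟨q₁, hq₁, q₂, hq₂, hne, hgap⟩ := hsp
    obtain ⟨-, -, m₁, hm₁⟩ := hS q₁ hq₁
    obtain ⟨-, -, m₂, hm₂⟩ := hS q₂ hq₂
    -- wlog `q₂ < q₁`
    obtain ⟨b', a', hb'0, hb'g, ha'⟩ : ∃ (b' : ℕ) (a' : ℤ), 0 < b' ∧ (b' : ℝ) < 1 / (4 * η) ∧
        |(a' : ℝ) - θ * b'| ≤ 2 * η := by
      rcases lt_or_gt_of_ne hne with h | h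
      · refine ⟨q₂ - q₁, m₂ - m₁, by omega, ?_, ?_⟩
        · rw [Nat.cast_sub h.le]
          have : |(q₁ : ℝ) - q₂| = q₂ - q₁ := by
            rw [abs_sub_comm, abs_of_pos]; have : (q₁ : ℝ) < q₂ := by exact_mod_cast h
            linarith
          rw [this] at hgap; exact hgap
        · rw [Nat.cast_sub h.le]; push_cast
          rw [abs_le] at *
          constructor <;> nlinarith [hm₁.1, hm₁.2, hm₂.1, hm₂.2]
      · refine ⟨q₁ - q₂, m₁ - m₂, by omega, ?_, ?_⟩
        · rw [Nat.cast_sub h.le]
          have : |(q₁ : ℝ) - q₂| = q₁ - q₂ := by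
            rw [abs_of_pos]; have : (q₂ : ℝ) < q₁ := by exact_mod_cast h
            linarith
          rw [this] at hgap; exact hgap
        · rw [Nat.cast_sub h.le]; push_cast
          rw [abs_le] at *
          constructor <;> nlinarith [hm₁.1, hm₁.2, hm₂.1, hm₂.2]
    -- reduce
    obtain ⟨b, a, d, hb0, hd0, hcop, hbd, had⟩ : ∃ (b : ℕ) (a : ℤ) (d : ℕ), 0 < b ∧ 0 < d ∧
        IsCoprime a (b : ℤ) ∧ b' = b * d ∧ a' = a * d := by
      obtain ⟨G, hG⟩ : ∃ G : ℕ, G = Int.gcd a' b' := ⟨_, rfl⟩
      have hg0 : G ≠ 0 := by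
        rw [hG, Ne, Int.gcd_eq_zero_iff]; push Not; intro _; exact_mod_cast hb'0.ne'
      have hg0' : 0 < G := Nat.pos_of_ne_zero hg0
      obtain ⟨b, hb⟩ : G ∣ b' := by
        have := Int.gcd_dvd_right a' (b' : ℤ); rw [← hG] at this; exact_mod_cast this
      obtain ⟨a, ha⟩ : (G : ℤ) ∣ a' := by rw [hG]; exact Int.gcd_dvd_left a' (b' : ℤ)
      refine ⟨b, a, G, ?_, hg0', ?_, ?_, ?_⟩
      · rcases Nat.eq_zero_or_pos b with h | h
        · rw [h, mul_zero] at hb; omega
        · exact h
      · rw [Int.isCoprime_iff_gcd_eq_one]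
        have h1 : G = G * Int.gcd a b := by
          conv_lhs => rw [hG, ha, hb]
          push_cast
          rw [Int.gcd_mul_left]
          simp
        exact Nat.eq_of_mul_eq_mul_left hg0' (by rw [mul_one]; exact h1.symm)
      · rw [mul_comm]; exact hb
      · rw [mul_comm]; exact ha
    have hb0' : (0 : ℝ) < b := by exact_mod_cast hb0
    have hd1 : (1 : ℝ) ≤ d := by exact_mod_cast hd0
    have hb'R : (b' : ℝ) = b * d := by rw [hbd]; push_cast; ring
    have ha'R : (a' : ℝ) = a * d := by rw [had]; push_cast; ring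
    have hbb' : (b : ℝ) ≤ b' := by rw [hb'R]; nlinarith
    have hbη : (b : ℝ) * η < 1 / 4 := by
      have h1 : (b : ℝ) < 1 / (4 * η) := lt_of_le_of_lt hbb' hb'g
      rw [lt_div_iff₀ (by positivity)] at h1
      linarith
    set ρ : ℝ := θ - a / b with hρ
    have hbρ : (b : ℝ) * |ρ| ≤ 2 * η := by
      have h1 : |(a : ℝ) - θ * b| ≤ 2 * η := by
        have : (a : ℝ) * d - θ * (b * d) = d * (a - θ * b) := by ring
        rw [ha'R, hb'R, this, abs_mul, abs_of_pos (by linarith : (0 : ℝ) < d)] at ha'
        have := abs_nonneg ((a : ℝ) - θ * b)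
        nlinarith
      have h2 : (b : ℝ) * |ρ| = |(a : ℝ) - θ * b| := by
        rw [← abs_of_pos hb0', ← abs_mul, abs_of_pos hb0', hρ]
        rw [abs_sub_comm (a : ℝ)]
        congr 1; field_simp
      rw [h2]; exact h1
    -- the integer k
    have hk : ∀ q ∈ S, ∃ m : ℤ, |((m * b - a * q : ℤ) : ℝ) - b * ρ * q| ≤ b * η := by
      intro q hq
      obtain ⟨-, -, m, hm⟩ := hS q hq
      refine ⟨m, ?_⟩
      have : ((m * b - a * q : ℤ) : ℝ) - b * ρ * q = b * (m - θ * q) := by
        push_cast; rw [hρ]; field_simp; ring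
      rw [this, abs_mul, abs_of_pos hb0']
      gcongr
    choose! mm hmm using hk
    by_cases hcase : |ρ| ≤ η / Q
    · -- structured
      right
      refine ⟨a, b, hb0, (lt_of_le_of_lt hbb' hb'g).le, hcase, ?_⟩
      have hdiv : ∀ q ∈ S, (b : ℤ) ∣ (q : ℤ) := by
        intro q hq
        have h1 := hmm q hq
        have hq2 := (hS q hq).2.1
        have hq1 := (hS q hq).1
        have h2 : |(b : ℝ) * ρ * q| ≤ 1 / 2 := by
          rw [abs_mul, abs_mul, abs_of_pos hb0', abs_of_pos (by linarith : (0 : ℝ) < q)]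
          have h3 : |ρ| * q ≤ η / Q * (2 * Q) := by
            gcongr
          have h4 : η / Q * (2 * Q) = 2 * η := by field_simp
          rw [h4] at h3
          nlinarith
        have h3 : |((mm q * b - a * q : ℤ) : ℝ)| < 1 := by
          have := abs_sub_abs_le_abs_sub ((mm q * b - a * q : ℤ) : ℝ) (b * ρ * q)
          linarith
        have h4 : |(mm q * b - a * q : ℤ)| < 1 := by exact_mod_cast h3
        have h5 : mm q * b - a * q = 0 := Int.abs_lt_one_iff.mp h4
        have h6 : (b : ℤ) ∣ a * q := ⟨mm q, by linarith⟩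
        exact hcop.symm.dvd_of_dvd_mul_left h6
      have h := card_spaced S (fun q : ℕ => (q : ℝ)) Q Q b hb0' hQ0.le
        (fun q hq => ⟨(hS q hq).1.le, by have := (hS q hq).2.1; linarith⟩)
        (fun q hq q' hq' hne => dvd_gap b q q' hne (dvd_sub (hdiv q hq) (hdiv q' hq')))
      exact h
    · left
      push Not at hcase
      have hρ0 : 0 < |ρ| := lt_trans (by positivity) hcase
      -- fibres
      have hfib : ∀ k ∈ S.image (fun q => mm q * b - a * q),
          ((S.filter (fun q : ℕ => mm q * b - a * q = k)).card : ℝ) ≤ 4 * η / (|ρ| * b) := by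
        intro k _
        have h := card_spaced (S.filter (fun q : ℕ => mm q * b - a * q = k))
          (fun q : ℕ => (q : ℝ)) ((k : ℝ) / (b * ρ) - η / |ρ|) (2 * (η / |ρ|)) b hb0'
          (by positivity) ?_ ?_
        · have h2 : 2 * (η / |ρ|) / b = 2 * η / (|ρ| * b) := by field_simp
          have h3 : 1 ≤ 2 * η / (|ρ| * b) := by
            rw [le_div_iff₀ (by positivity)]; linarith
          rw [h2] at h
          have h4 : 4 * η / (|ρ| * b) = 2 * η / (|ρ| * b) + 2 * η / (|ρ| * b) := by ring
          rw [h4]; linarith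
        · intro q hq
          rw [mem_filter] at hq
          have h1 := hmm q hq.1
          rw [hq.2] at h1
          have hρne : ρ ≠ 0 := abs_pos.mp hρ0
          have h2 : |(k : ℝ) / (b * ρ) - q| ≤ η / |ρ| := by
            have : (k : ℝ) / (b * ρ) - q = (k - b * ρ * q) / (b * ρ) := by field_simp
            rw [this, abs_div, abs_mul, abs_of_pos hb0', div_le_div_iff₀ (by positivity) hρ0]
            nlinarith
          rw [abs_le] at h2
          constructor <;> linarith [h2.1, h2.2]
        · intro q hq q' hq' hne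
          rw [mem_filter] at hq hq'
          apply dvd_gap b q q' hne
          have h1 : a * ((q : ℤ) - q') = b * (mm q - mm q') := by
            have e1 := hq.2; have e2 := hq'.2
            linear_combination e2 - e1
          exact hcop.symm.dvd_of_dvd_mul_left ⟨_, h1⟩
      have himg : ((S.image (fun q => mm q * b - a * q)).card : ℝ) ≤ 5 * (b * |ρ| * Q) := by
        rcases S.eq_empty_or_nonempty with rfl | ⟨q₀, hq₀⟩
        · simp; positivity
        -- k ≠ 0
        have hlow : 3 / 8 ≤ b * |ρ| * Q := by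
          have h1 := hmm q₀ hq₀
          have hq1 := (hS q₀ hq₀).1
          have hq2 := (hS q₀ hq₀).2.1
          have hq0 : (0 : ℝ) < q₀ := by linarith
          have hne : mm q₀ * b - a * q₀ ≠ 0 := by
            intro h0
            rw [h0] at h1
            simp only [Int.cast_zero, zero_sub, abs_neg] at h1
            rw [abs_mul, abs_mul, abs_of_pos hb0', abs_of_pos hq0] at h1
            have h2 : |ρ| * q₀ ≤ η := by
              have : (b : ℝ) * (|ρ| * q₀) ≤ b * η := by linarith
              exact le_of_mul_le_mul_left this hb0'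
            have h3 : η / Q * Q < |ρ| * q₀ := by
              apply mul_lt_mul'' hcase hq1 (by positivity) hQ0.le
            rw [div_mul_cancel₀ _ hQ0.ne'] at h3
            linarith
          have h2 : (1 : ℝ) ≤ |((mm q₀ * b - a * q₀ : ℤ) : ℝ)| := by
            have := Int.one_le_abs hne
            have h3 : ((1 : ℤ) : ℝ) ≤ ((|mm q₀ * b - a * q₀| : ℤ) : ℝ) := by exact_mod_cast this
            rw [Int.cast_abs] at h3
            simpa using h3
          have h3 : |(b : ℝ) * ρ * q₀| = b * |ρ| * q₀ := by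
            rw [abs_mul, abs_mul, abs_of_pos hb0', abs_of_pos hq0]
          have h4 := abs_sub_abs_le_abs_sub ((mm q₀ * b - a * q₀ : ℤ) : ℝ) (b * ρ * q₀)
          rw [h3] at h4
          have h5 : (b : ℝ) * |ρ| * q₀ ≤ b * |ρ| * (2 * Q) := by gcongr
          linarith
        have h := card_spaced (S.image (fun q => mm q * b - a * q))
          (fun k : ℤ => |(k : ℝ)|) (b * |ρ| * Q - 1 / 4) (b * |ρ| * Q + 1 / 2) 1 one_pos
          (by positivity) ?_ ?_
        · rw [div_one] at h; linarith
        · intro k hk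
          rw [mem_image] at hk
          obtain ⟨q, hq, rfl⟩ := hk
          have h1 := hmm q hq
          have hq1 := (hS q hq).1
          have hq2 := (hS q hq).2.1
          have hq0 : (0 : ℝ) < q := by linarith
          have h3 : |(b : ℝ) * ρ * q| = b * |ρ| * q := by
            rw [abs_mul, abs_mul, abs_of_pos hb0', abs_of_pos hq0]
          have h4 := abs_sub_abs_le_abs_sub ((mm q * b - a * q : ℤ) : ℝ) (b * ρ * q)
          have h4' := abs_sub_abs_le_abs_sub (b * ρ * q) ((mm q * b - a * q : ℤ) : ℝ)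
          rw [abs_sub_comm (b * ρ * (q : ℝ))] at h4'
          rw [h3] at h4 h4'
          have h5 : (b : ℝ) * |ρ| * q ≤ b * |ρ| * (2 * Q) := by gcongr
          have h6 : (b : ℝ) * |ρ| * Q ≤ b * |ρ| * q := by gcongr
          constructor <;> linarith
        · -- all the k have the same sign
          intro k hk k' hk' hne
          rw [mem_image] at hk hk'
          obtain ⟨q, hq, rfl⟩ := hk
          obtain ⟨q', hq', rfl⟩ := hk'
          have key : ∀ q ∈ S, ((mm q * b - a * q : ℤ) : ℝ) * ρ > 0 := by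
            intro q hq
            have h1 := hmm q hq
            have hq1 := (hS q hq).1
            have hq0 : (0 : ℝ) < q := by linarith
            have h6 : (b : ℝ) * |ρ| * Q ≤ b * |ρ| * q := by gcongr
            have hρne : ρ ≠ 0 := abs_pos.mp hρ0
            rw [abs_le] at h1
            rcases lt_or_gt_of_ne hρne with h | h
            · rw [abs_of_neg h] at hlow h6
              apply mul_pos_of_neg_of_neg _ h
              nlinarith [h1.1, h1.2]
            · rw [abs_of_pos h] at hlow h6
              apply mul_pos _ h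
              nlinarith [h1.1, h1.2]
          have k1 := key q hq
          have k2 := key q' hq'
          have hint : (1 : ℝ) ≤ |((mm q * b - a * q : ℤ) : ℝ) - ((mm q' * b - a * q' : ℤ) : ℝ)| := by
            have h0 : (mm q * b - a * q) - (mm q' * b - a * q') ≠ 0 := sub_ne_zero.mpr hne
            have := Int.one_le_abs h0
            have h3 : ((1 : ℤ) : ℝ) ≤ ((|(mm q * b - a * q) - (mm q' * b - a * q')| : ℤ) : ℝ) := by
              exact_mod_cast this
            rw [Int.cast_abs] at h3
            push_cast at h3 ⊢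
            exact h3
          have hρne : ρ ≠ 0 := abs_pos.mp hρ0
          rcases lt_or_gt_of_ne hρne with h | h
          · have e1 : ((mm q * b - a * q : ℤ) : ℝ) < 0 := by
              by_contra hc; push Not at hc; nlinarith
            have e2 : ((mm q' * b - a * q' : ℤ) : ℝ) < 0 := by
              by_contra hc; push Not at hc; nlinarith
            rw [abs_of_neg e1, abs_of_neg e2]
            rw [show -((mm q * b - a * q : ℤ) : ℝ) - -((mm q' * b - a * q' : ℤ) : ℝ) =
              -(((mm q * b - a * q : ℤ) : ℝ) - ((mm q' * b - a * q' : ℤ) : ℝ)) by ring, abs_neg]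
            exact hint
          · have e1 : 0 < ((mm q * b - a * q : ℤ) : ℝ) := by
              by_contra hc; push Not at hc; nlinarith
            have e2 : 0 < ((mm q' * b - a * q' : ℤ) : ℝ) := by
              by_contra hc; push Not at hc; nlinarith
            rw [abs_of_pos e1, abs_of_pos e2]
            exact hint
      have hcard := card_eq_sum_card_image (fun q => mm q * b - a * q) S
      rw [hcard]
      push_cast
      calc ∑ k ∈ S.image (fun q => mm q * b - a * q),
            ((S.filter (fun q : ℕ => mm q * b - a * q = k)).card : ℝ)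
          ≤ ∑ _k ∈ S.image (fun q => mm q * b - a * q), 4 * η / (|ρ| * b) := sum_le_sum hfib
        _ = ((S.image (fun q => mm q * b - a * q)).card : ℝ) * (4 * η / (|ρ| * b)) := by
          rw [sum_const, nsmul_eq_mul]
        _ ≤ 5 * (b * |ρ| * Q) * (4 * η / (|ρ| * b)) := by gcongr
        _ = 20 * (η * Q) := by field_simp; ring

end

end Pool.Agent.OX
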