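import Mathlib
import Pool.Agent.Lib.OX.CNT
import Pool.Agent.Lib.MP_bf4c7f_mr.Gauss

/-!
# PROJECT OX, row RD: mean square of a Dirichlet polynomial times a sum over well spaced points.
helper44.
-/

set_option autoImplicit false

namespace Pool.Agent.OX

open Finset Pool.Agent.MRL Pool.Agent.MRF

noncomputable section

namespace RDp

/-- the double sum bound for a Gaussian mean square. -/
theorem trig_le {ι : Type*} (S : Finset ι) (a : ι → ℂ) (l : ι → ℝ) {T : ℝ} (hT : 0 < T)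
    {M : ℝ} (hM : ∀ i ∈ S, ‖a i‖ ≤ M) :
    ∫ t : ℝ, ‖MRG.trig S a l t‖ ^ 2 * g T t ≤
      √Real.pi * T * M ^ 2 * ∑ i ∈ S, ∑ j ∈ S, Real.exp (-(T * (l i - l j)) ^ 2 / 4) := by
  have hs : 0 < 1 / T := by positivity
  have hg : ∀ t : ℝ, g T t = Real.exp (-((1 / T) ^ 2 * t ^ 2)) := by
    intro t
    rw [g]; congr 1; rw [div_pow, div_pow, one_pow]; ring
  simp only [hg]
  set J := ∫ t : ℝ, ‖MRG.trig S a l t‖ ^ 2 * Real.exp (-((1 / T) ^ 2 * t ^ 2)) with hJ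
  have h1 := MRG.integral_trig S a l hs
  rw [← hJ] at h1
  have h3 : J ≤ ‖(J : ℂ)‖ := by
    rw [Complex.norm_real]
    exact le_abs_self J
  refine h3.trans ?_
  rw [h1, mul_sum]
  refine (norm_sum_le _ _).trans (sum_le_sum fun i hi => ?_)
  rw [mul_sum]
  refine (norm_sum_le _ _).trans (sum_le_sum fun j hj => ?_)
  rw [norm_mul, norm_mul, RCLike.norm_conj, Complex.norm_real, Real.norm_eq_abs, abs_of_nonneg
    (by positivity)]
  have e1 : √Real.pi / (1 / T) = √Real.pi * T := by field_simp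
  have e2 : -(l i - l j) ^ 2 / (4 * (1 / T) ^ 2) = -(T * (l i - l j)) ^ 2 / 4 := by
    field_simp
  rw [e1, e2]
  have hM0 : 0 ≤ M := (norm_nonneg _).trans (hM i hi)
  have h4 : ‖a i‖ * ‖a j‖ ≤ M ^ 2 := by
    rw [sq]; exact mul_le_mul (hM i hi) (hM j hj) (norm_nonneg _) hM0
  calc ‖a i‖ * ‖a j‖ * (√Real.pi * T * Real.exp (-(T * (l i - l j)) ^ 2 / 4))
      ≤ M ^ 2 * (√Real.pi * T * Real.exp (-(T * (l i - l j)) ^ 2 / 4)) := by gcongr
    _ = √Real.pi * T * M ^ 2 * Real.exp (-(T * (l i - l j)) ^ 2 / 4) := by ring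

/-- the integrand as an exponential sum over pairs. -/
theorem AF_mul (a : ℕ → ℂ) (c : ℝ → ℂ) (Q : ℝ) (J : Finset ℝ) (t : ℝ) :
    AF a Q t * ∑ x ∈ J, c x * Complex.exp (((t * Real.log x : ℝ) : ℂ) * Complex.I) =
      MRG.trig ((Ioc ⌊Q⌋₊ ⌊2 * Q⌋₊) ×ˢ J)
        (fun i => (((1 / (i.1 : ℝ) : ℝ) : ℂ) * a i.1) * c i.2)
        (fun i => Real.log i.1 - Real.log i.2) t := by
  rw [AF, MRG.trig, sum_mul_sum, sum_product]
  refine sum_congr rfl fun q _ => sum_congr rfl fun x _ => ?_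
  have : Complex.exp (-((t * (Real.log q - Real.log x) : ℝ) : ℂ) * Complex.I) =
      nt q t * Complex.exp (((t * Real.log x : ℝ) : ℂ) * Complex.I) := by
    rw [nt, ← Complex.exp_add]
    congr 1
    push_cast
    ring
  rw [this]
  ring

/-- the good `q` for a pair of shifts. -/
def SS (Q η : ℝ) (x x' : ℝ) : Finset ℕ := by
  classical
  exact (Ioc ⌊Q⌋₊ ⌊2 * Q⌋₊).filter (fun q => ∃ m : ℤ, |(m : ℝ) - x' / x * q| ≤ η)

theorem mem_SS (Q η x x' : ℝ) (q : ℕ) : q ∈ SS Q η x x' ↔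
    q ∈ Ioc ⌊Q⌋₊ ⌊2 * Q⌋₊ ∧ ∃ m : ℤ, |(m : ℝ) - x' / x * q| ≤ η := by
  classical
  unfold SS
  rw [mem_filter]

theorem mem_Ioc_Q {Q : ℝ} (hQ : 1 ≤ Q) {q : ℕ} (hq : q ∈ Ioc ⌊Q⌋₊ ⌊2 * Q⌋₊) :
    Q < q ∧ (q : ℝ) ≤ 2 * Q := by
  rw [mem_Ioc] at hq
  exact ⟨Nat.lt_of_floor_lt hq.1, (Nat.le_floor_iff (by linarith)).mp hq.2⟩

theorem card_Ioc_Q {Q : ℝ} (hQ : 1 ≤ Q) : ((Ioc ⌊Q⌋₊ ⌊2 * Q⌋₊).card : ℝ) ≤ 2 * Q := by
  rw [Nat.card_Ioc]
  have h1 : ⌊Q⌋₊ ≤ ⌊2 * Q⌋₊ := Nat.floor_le_floor (by linarith)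
  rw [Nat.cast_sub h1]
  have h2 := Nat.floor_le (show 0 ≤ 2 * Q by linarith)
  have h3 := Nat.lt_floor_add_one Q
  linarith

/-- near quadruples. -/
theorem near {N T Q L : ℝ} {J : Finset ℝ} (hL : 1 ≤ L) (hN : 1 ≤ N) (hT : 1 ≤ T) (hQ : 1 ≤ Q)
    (hJ : ∀ x ∈ J, N ≤ x ∧ x ≤ 4 * N) (h1 : 128 * L * Q < T)
    {q q' : ℕ} {x x' : ℝ} (hq : q ∈ Ioc ⌊Q⌋₊ ⌊2 * Q⌋₊) (hq' : q' ∈ Ioc ⌊Q⌋₊ ⌊2 * Q⌋₊)
    (hx : x ∈ J) (hx' : x' ∈ J)
    (h : |(Real.log q - Real.log x) - (Real.log q' - Real.log x')| ≤ 2 * L / T) :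
    |(q' : ℝ) - x' / x * q| ≤ 16 * L * Q / T := by
  have hqQ := mem_Ioc_Q hQ hq
  have hqQ' := mem_Ioc_Q hQ hq'
  have hx0 : 0 < x := by have := hJ x hx; linarith
  have hx0' : 0 < x' := by have := hJ x' hx'; linarith
  have hq0 : (0 : ℝ) < q := by linarith
  have hq0' : (0 : ℝ) < q' := by linarith
  set u := (Real.log q - Real.log x) - (Real.log q' - Real.log x') with hu
  have hexp : Real.exp u = (q : ℝ) * x' / (x * q') := by
    have : u = Real.log ((q : ℝ) * x' / (x * q')) := by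
      rw [Real.log_div (by positivity) (by positivity), Real.log_mul hq0.ne' hx0'.ne',
        Real.log_mul hx0.ne' hq0'.ne', hu]
      ring
    rw [this, Real.exp_log (by positivity)]
  have hu1 : |u| ≤ 1 := by
    refine h.trans ?_
    rw [div_le_one (by linarith)]
    nlinarith
  have h2 := Real.abs_exp_sub_one_le hu1
  have h3 : (q' : ℝ) - x' / x * q = -(q' * (Real.exp u - 1)) := by
    rw [hexp]; field_simp; ring
  rw [h3, abs_neg, abs_mul, abs_of_pos hq0']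
  calc (q' : ℝ) * |Real.exp u - 1| ≤ (2 * Q) * (2 * (2 * L / T)) := by
        apply mul_le_mul hqQ'.2 (h2.trans (by gcongr)) (abs_nonneg _) (by linarith)
    _ = 8 * L * Q / T := by ring
    _ ≤ 16 * L * Q / T := by
        gcongr
        linarith

/-- counting the near quadruples. -/
theorem near_card {N T Q L : ℝ} {J : Finset ℝ} (hL : 1 ≤ L) (hN : 1 ≤ N) (hT : 1 ≤ T)
    (hQ : 1 ≤ Q) (hJ : ∀ x ∈ J, N ≤ x ∧ x ≤ 4 * N) (h1 : 128 * L * Q < T) :
    ∑ i ∈ (Ioc ⌊Q⌋₊ ⌊2 * Q⌋₊) ×ˢ J, ∑ j ∈ (Ioc ⌊Q⌋₊ ⌊2 * Q⌋₊) ×ˢ J,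
      Real.exp (-(T * ((Real.log i.1 - Real.log i.2) - (Real.log j.1 - Real.log j.2))) ^ 2 / 4) ≤
    (2 * Q * J.card) ^ 2 * Real.exp (-L ^ 2) +
      ∑ p ∈ J ×ˢ J, ((SS Q (16 * L * Q / T) p.1 p.2).card : ℝ) := by
  classical
  set G := (Ioc ⌊Q⌋₊ ⌊2 * Q⌋₊) ×ˢ J with hG
  set l : ℕ × ℝ → ℝ := fun i => Real.log i.1 - Real.log i.2 with hl
  have hT0 : 0 < T := by linarith
  have hη : 16 * L * Q / T < 1 / 8 := by
    rw [div_lt_iff₀ hT0]; linarith
  have e1 : ∀ i ∈ G, ∀ j ∈ G, Real.exp (-(T * (l i - l j)) ^ 2 / 4) ≤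
      Real.exp (-L ^ 2) + if |l i - l j| ≤ 2 * L / T then 1 else 0 := by
    intro i _ j _
    split_ifs with h
    · have : Real.exp (-(T * (l i - l j)) ^ 2 / 4) ≤ 1 := by
        rw [Real.exp_le_one_iff]
        have := sq_nonneg (T * (l i - l j))
        linarith
      have := Real.exp_pos (-L ^ 2)
      linarith
    · push Not at h
      rw [add_zero]
      apply Real.exp_le_exp.mpr
      have h2 : 2 * L < |T * (l i - l j)| := by
        rw [abs_mul, abs_of_pos hT0]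
        rw [div_lt_iff₀ hT0] at h
        linarith
      have h3 : (2 * L) ^ 2 ≤ (T * (l i - l j)) ^ 2 := by
        rw [← sq_abs (T * (l i - l j))]
        apply pow_le_pow_left₀ (by linarith) h2.le
      linarith
  have hcardG : (G.card : ℝ) ≤ 2 * Q * J.card := by
    rw [hG, card_product]
    push_cast
    exact mul_le_mul_of_nonneg_right (card_Ioc_Q hQ) (Nat.cast_nonneg _)
  calc ∑ i ∈ G, ∑ j ∈ G, Real.exp (-(T * (l i - l j)) ^ 2 / 4)
      ≤ ∑ i ∈ G, ∑ j ∈ G, (Real.exp (-L ^ 2) + if |l i - l j| ≤ 2 * L / T then 1 else 0) :=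
        sum_le_sum fun i hi => sum_le_sum fun j hj => e1 i hi j hj
    _ = (G.card : ℝ) ^ 2 * Real.exp (-L ^ 2) +
        (((G ×ˢ G).filter (fun p => |l p.1 - l p.2| ≤ 2 * L / T)).card : ℝ) := by
        simp only [sum_add_distrib, sum_const, nsmul_eq_mul]
        congr 1
        · ring
        · rw [← sum_product', ← sum_filter, sum_const, nsmul_eq_mul, mul_one]
    _ ≤ _ := by
        gcongr
        -- the injection
        have hinj : ((G ×ˢ G).filter (fun p => |l p.1 - l p.2| ≤ 2 * L / T)).card ≤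
            ((J ×ˢ J).sigma (fun p => SS Q (16 * L * Q / T) p.1 p.2)).card := by
          apply card_le_card_of_injOn
            (fun p : (ℕ × ℝ) × (ℕ × ℝ) => (⟨(p.1.2, p.2.2), p.1.1⟩ : Σ _ : ℝ × ℝ, ℕ))
          · intro p hp
            rw [mem_coe, mem_filter, mem_product, hG, mem_product, mem_product] at hp
            obtain ⟨⟨⟨a1, a2⟩, ⟨b1, b2⟩⟩, hc⟩ := hp
            rw [mem_coe, mem_sigma, mem_product]
            refine ⟨⟨a2, b2⟩, ?_⟩
            simp only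
            rw [mem_SS]
            refine ⟨a1, (p.2.1 : ℤ), ?_⟩
            have := near hL hN hT hQ hJ h1 a1 b1 a2 b2 hc
            exact_mod_cast this
          · intro p hp p' hp' heq
            rw [mem_coe, mem_filter, mem_product, hG, mem_product, mem_product] at hp hp'
            obtain ⟨⟨⟨a1, a2⟩, ⟨b1, b2⟩⟩, hc⟩ := hp
            obtain ⟨⟨⟨a1', a2'⟩, ⟨b1', b2'⟩⟩, hc'⟩ := hp'
            have n1 := near hL hN hT hQ hJ h1 a1 b1 a2 b2 hc
            have n2 := near hL hN hT hQ hJ h1 a1' b1' a2' b2' hc'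
            obtain ⟨⟨q, x⟩, ⟨r, y⟩⟩ := p
            obtain ⟨⟨q', x'⟩, ⟨r', y'⟩⟩ := p'
            simp only [Sigma.mk.injEq, Prod.mk.injEq] at heq
            obtain ⟨⟨rfl, rfl⟩, h3⟩ := heq
            have h3' : q = q' := eq_of_heq h3
            subst h3'
            simp only at n1 n2
            have h4 : |(r : ℝ) - r'| < 1 := by
              have := abs_sub_abs_le_abs_sub (r : ℝ) r'
              have e : (r : ℝ) - r' = ((r : ℝ) - y / x * q) - ((r' : ℝ) - y / x * q) := by ring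
              rw [e]
              calc |((r : ℝ) - y / x * q) - ((r' : ℝ) - y / x * q)|
                  ≤ |(r : ℝ) - y / x * q| + |(r' : ℝ) - y / x * q| := abs_sub _ _
                _ < 1 := by linarith
            have h5 : ((r : ℤ) - r') = 0 := by
              apply Int.abs_lt_one_iff.mp
              have : ((|(r : ℤ) - r'| : ℤ) : ℝ) < ((1 : ℤ) : ℝ) := by push_cast; exact h4
              exact_mod_cast this
            have h6 : r = r' := by omega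
            rw [h6]
        have h2 := card_sigma (J ×ˢ J) (fun p => SS Q (16 * L * Q / T) p.1 p.2)
        rw [h2] at hinj
        exact_mod_cast hinj

/-- the sum over the pairs of shifts. -/
theorem pairs {C₀ N Q η Δ : ℝ} {J : Finset ℝ} (hC₀ : 0 < C₀)
    (hcnt : ∀ θ η Q : ℝ, 0 < η → η < 1 / 8 → 1 / η ≤ Q → ∀ S : Finset ℕ,
      (∀ q ∈ S, Q < q ∧ (q : ℝ) ≤ 2 * Q ∧ ∃ m : ℤ, |(m : ℝ) - θ * q| ≤ η) →
      (S.card : ℝ) ≤ C₀ * (η * Q) ∨
        ∃ (a : ℤ) (b : ℕ), 1 ≤ b ∧ (b : ℝ) ≤ 1 / (4 * η) ∧ |θ - a / b| ≤ η / Q ∧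
          (S.card : ℝ) ≤ Q / b + 1)
    (hN : 1 ≤ N) (hQ : 1 ≤ Q) (hη : 0 < η) (hη8 : η < 1 / 8) (hηQ : 1 / η ≤ Q)
    (hJ : ∀ x ∈ J, N ≤ x ∧ x ≤ 4 * N)
    (hsp : ∀ x ∈ J, ∀ x' ∈ J, x ≠ x' → Δ ≤ |x - x'|) (hΔ : 8 * N * η / Q < Δ) :
    ∑ p ∈ J ×ˢ J, ((SS Q η p.1 p.2).card : ℝ) ≤
      C₀ * (η * Q) * (J.card : ℝ) ^ 2 + 10 * Q * (1 / (4 * η)) * J.card := by
  classical
  have hQ8 : 8 < Q := by
    have : (8 : ℝ) < 1 / η := by rw [lt_div_iff₀ hη]; linarith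
    linarith
  have hQ0 : 0 < Q := by linarith
  have hηQ' : η / Q < 1 / 8 := by
    rw [div_lt_iff₀ hQ0]; nlinarith
  -- structured pairs
  set St := (J ×ˢ J).filter (fun p => ¬ ((SS Q η p.1 p.2).card : ℝ) ≤ C₀ * (η * Q)) with hSt
  have hst : ∀ p ∈ St, ∃ (a : ℤ) (b : ℕ), 1 ≤ b ∧ (b : ℝ) ≤ 1 / (4 * η) ∧
      |p.2 / p.1 - a / b| ≤ η / Q ∧ ((SS Q η p.1 p.2).card : ℝ) ≤ Q / b + 1 := by
    intro p hp
    rw [hSt, mem_filter] at hp
    rcases hcnt (p.2 / p.1) η Q hη hη8 hηQ (SS Q η p.1 p.2) (by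
      intro q hq
      rw [mem_SS] at hq
      exact ⟨(mem_Ioc_Q hQ hq.1).1, (mem_Ioc_Q hQ hq.1).2, hq.2⟩) with h | h
    · exact absurd h hp.2
    · exact h
  choose! A B hB1 hB2 hAB hcard using hst
  have hun : ∑ p ∈ (J ×ˢ J).filter (fun p => ((SS Q η p.1 p.2).card : ℝ) ≤ C₀ * (η * Q)),
      ((SS Q η p.1 p.2).card : ℝ) ≤ C₀ * (η * Q) * (J.card : ℝ) ^ 2 := by
    calc ∑ p ∈ (J ×ˢ J).filter (fun p => ((SS Q η p.1 p.2).card : ℝ) ≤ C₀ * (η * Q)),
          ((SS Q η p.1 p.2).card : ℝ)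
        ≤ ∑ _p ∈ (J ×ˢ J).filter (fun p => ((SS Q η p.1 p.2).card : ℝ) ≤ C₀ * (η * Q)),
          C₀ * (η * Q) := sum_le_sum fun p hp => (mem_filter.mp hp).2
      _ ≤ ∑ _p ∈ J ×ˢ J, C₀ * (η * Q) := by
          apply sum_le_sum_of_subset_of_nonneg (filter_subset _ _)
          intro _ _ _; positivity
      _ = C₀ * (η * Q) * (J.card : ℝ) ^ 2 := by
          rw [sum_const, card_product, nsmul_eq_mul]; push_cast; ring
  have hstr : ∑ p ∈ St, ((SS Q η p.1 p.2).card : ℝ) ≤ 10 * Q * (1 / (4 * η)) * J.card := by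
    set M := ⌊1 / (4 * η)⌋₊ with hM
    set Tg : Finset (ℝ × (Σ _ : ℕ, ℤ)) := J ×ˢ ((Icc 1 M).sigma (fun b => Icc (1 : ℤ) (5 * b)))
      with hTg
    have hmaps : ∀ p ∈ St, ((p.1, ⟨B p, A p⟩) : ℝ × (Σ _ : ℕ, ℤ)) ∈ Tg := by
      intro p hp
      have hpJ : p.1 ∈ J ∧ p.2 ∈ J := by
        rw [hSt, mem_filter, mem_product] at hp; exact hp.1
      rw [hTg, mem_product, mem_sigma, mem_Icc, mem_Icc]
      have hb0 : (0 : ℝ) < B p := by exact_mod_cast hB1 p hp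
      have hx := hJ p.1 hpJ.1
      have hx' := hJ p.2 hpJ.2
      have hx0 : 0 < p.1 := by linarith
      have h1 := abs_le.mp (hAB p hp)
      have h2 : 1 / 4 ≤ p.2 / p.1 := by rw [le_div_iff₀ hx0]; linarith
      have h3 : p.2 / p.1 ≤ 4 := by rw [div_le_iff₀ hx0]; linarith
      have h4 : (0 : ℝ) < (A p : ℝ) / B p := by linarith
      have h5 : (A p : ℝ) / B p < 5 := by linarith
      have h6 : (0 : ℝ) < A p := by
        have := mul_pos h4 hb0; rwa [div_mul_cancel₀ _ hb0.ne'] at this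
      rw [div_lt_iff₀ hb0] at h5
      refine ⟨hpJ.1, ⟨hB1 p hp, ?_⟩, ?_, ?_⟩
      · exact Nat.le_floor (hB2 p hp)
      · have : (0 : ℤ) < A p := by exact_mod_cast h6
        exact this
      · have : (A p : ℝ) < ((5 * (B p : ℤ) : ℤ) : ℝ) := by push_cast; exact h5
        have : A p < 5 * (B p : ℤ) := by exact_mod_cast this
        exact this.le
    have hinj : Set.InjOn (fun p : ℝ × ℝ => ((p.1, ⟨B p, A p⟩) : ℝ × (Σ _ : ℕ, ℤ)))
        (St : Set (ℝ × ℝ)) := by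
      intro p hp p' hp' heq
      rw [mem_coe] at hp hp'
      have hpJ : p.1 ∈ J ∧ p.2 ∈ J := by
        rw [hSt, mem_filter, mem_product] at hp; exact hp.1
      have hpJ' : p'.1 ∈ J ∧ p'.2 ∈ J := by
        rw [hSt, mem_filter, mem_product] at hp'; exact hp'.1
      simp only [Prod.mk.injEq, Sigma.mk.injEq] at heq
      obtain ⟨e1, e2, e3⟩ := heq
      have e3' : A p = A p' := eq_of_heq e3
      have h1 := hAB p hp
      have h2 := hAB p' hp'
      rw [← e1, ← e2, ← e3'] at h2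
      have hx := hJ p.1 hpJ.1
      have hx0 : 0 < p.1 := by linarith
      have h3 : |p.2 / p.1 - p'.2 / p.1| ≤ 2 * (η / Q) := by
        have e : p.2 / p.1 - p'.2 / p.1 = (p.2 / p.1 - (A p : ℝ) / B p) -
          (p'.2 / p.1 - (A p : ℝ) / B p) := by ring
        rw [e]
        refine (abs_sub _ _).trans ?_
        linarith
      rw [← sub_div, abs_div, abs_of_pos hx0, div_le_iff₀ hx0] at h3
      have h4 : |p.2 - p'.2| < Δ := by
        refine lt_of_le_of_lt h3 (lt_of_le_of_lt ?_ hΔ)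
        calc 2 * (η / Q) * p.1 ≤ 2 * (η / Q) * (4 * N) := by gcongr; exact hx.2
          _ = 8 * N * η / Q := by ring
      have h5 : p.2 = p'.2 := by
        by_contra hne
        exact absurd (hsp p.2 hpJ.2 p'.2 hpJ'.2 hne) (not_le.mpr h4)
      exact Prod.ext e1 h5
    calc ∑ p ∈ St, ((SS Q η p.1 p.2).card : ℝ)
        ≤ ∑ p ∈ St, 2 * Q / (B p : ℝ) := by
          apply sum_le_sum
          intro p hp
          have hb0 : (0 : ℝ) < B p := by exact_mod_cast hB1 p hp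
          refine (hcard p hp).trans ?_
          have h1 : 1 ≤ Q / B p := by
            rw [le_div_iff₀ hb0, one_mul]
            refine (hB2 p hp).trans ?_
            have : 1 / (4 * η) = 1 / η / 4 := by field_simp
            rw [this]
            have : 0 < 1 / η := by positivity
            linarith
          have h2 : 2 * Q / (B p : ℝ) = Q / B p + Q / B p := by ring
          rw [h2]; linarith
      _ = ∑ y ∈ St.image (fun p : ℝ × ℝ => ((p.1, ⟨B p, A p⟩) : ℝ × (Σ _ : ℕ, ℤ))),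
            2 * Q / (y.2.1 : ℝ) := by
          rw [sum_image hinj]
      _ ≤ ∑ y ∈ Tg, 2 * Q / (y.2.1 : ℝ) := by
          apply sum_le_sum_of_subset_of_nonneg
          · intro y hy
            rw [mem_image] at hy
            obtain ⟨p, hp, rfl⟩ := hy
            exact hmaps p hp
          · intro _ _ _; positivity
      _ = J.card * ∑ b ∈ Icc 1 M, (5 * (b : ℝ)) * (2 * Q / (b : ℝ)) := by
          rw [hTg, sum_product]
          simp only [sum_const, nsmul_eq_mul]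
          congr 1
          rw [sum_sigma]
          apply sum_congr rfl
          intro b _
          show ∑ _s ∈ Icc (1 : ℤ) (5 * (b : ℤ)), 2 * Q / (b : ℝ) = 5 * (b : ℝ) * (2 * Q / (b : ℝ))
          rw [sum_const, nsmul_eq_mul, Int.card_Icc]
          congr 1
          have : (5 * (b : ℤ) + 1 - 1).toNat = 5 * b := by omega
          rw [this]; push_cast; ring
      _ = J.card * (M * (10 * Q)) := by
          congr 1
          rw [sum_congr rfl (g := fun _ => 10 * Q)]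
          · rw [sum_const, Nat.card_Icc, nsmul_eq_mul]; simp
          · intro b hb
            have : (0 : ℝ) < b := by exact_mod_cast (mem_Icc.mp hb).1
            field_simp; ring
      _ ≤ J.card * ((1 / (4 * η)) * (10 * Q)) := by
          gcongr
          exact Nat.floor_le (by positivity)
      _ = 10 * Q * (1 / (4 * η)) * J.card := by ring
  rw [← sum_filter_add_sum_filter_not (J ×ˢ J)
    (fun p => ((SS Q η p.1 p.2).card : ℝ) ≤ C₀ * (η * Q))]
  exact add_le_add hun hstr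

end RDp

open RDp in
/-- Row RD. -/
theorem rd (hC : CNT) : RD := by
  obtain ⟨C₀, hC₀, hcnt⟩ := hC
  refine ⟨√Real.pi * (4 + 16 * C₀ + 1), by positivity, ?_⟩
  intro N T Q L Δ J c a hL hN hT hQ hJ hsp hc ha h1 h2 h3 h4
  have hT0 : 0 < T := by linarith
  have hQ0 : 0 < Q := by linarith
  set η : ℝ := 16 * L * Q / T with hηdef
  have hη : 0 < η := by positivity
  have hη8 : η < 1 / 8 := by rw [hηdef, div_lt_iff₀ hT0]; linarith
  have hηQ : 1 / η ≤ Q := by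
    rw [hηdef, one_div_div, div_le_iff₀ (by positivity)]
    nlinarith [sq_nonneg Q, mul_nonneg (sub_nonneg.mpr hL) (sq_nonneg Q)]
  have hΔ : 8 * N * η / Q < Δ := by
    have : 8 * N * η / Q = 128 * N * L / T := by rw [hηdef]; field_simp; ring
    rw [this, div_lt_iff₀ hT0]; linarith
  have hp := pairs hC₀ hcnt hN hQ hη hη8 hηQ hJ hsp hΔ
  have hn := near_card hL hN hT hQ hJ h1
  have ht := trig_le ((Ioc ⌊Q⌋₊ ⌊2 * Q⌋₊) ×ˢ J)
    (fun i => (((1 / (i.1 : ℝ) : ℝ) : ℂ) * a i.1) * c i.2)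
    (fun i => Real.log i.1 - Real.log i.2) hT0 (M := 1 / Q) (by
      intro i hi
      rw [mem_product] at hi
      have hq := mem_Ioc_Q hQ hi.1
      have hq0 : (0 : ℝ) < i.1 := by linarith
      rw [norm_mul, norm_mul, Complex.norm_real, Real.norm_eq_abs, abs_of_pos (by positivity)]
      calc 1 / (i.1 : ℝ) * ‖a i.1‖ * ‖c i.2‖ ≤ 1 / Q * 1 * 1 := by
            gcongr
            · exact hq.1.le
            · exact ha _
            · exact hc _
        _ = 1 / Q := by ring)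
  have hint : ∫ t : ℝ, ‖AF a Q t *
      ∑ x ∈ J, c x * Complex.exp (((t * Real.log x : ℝ) : ℂ) * Complex.I)‖ ^ 2 * g T t =
      ∫ t : ℝ, ‖MRG.trig ((Ioc ⌊Q⌋₊ ⌊2 * Q⌋₊) ×ˢ J)
        (fun i => (((1 / (i.1 : ℝ) : ℝ) : ℂ) * a i.1) * c i.2)
        (fun i => Real.log i.1 - Real.log i.2) t‖ ^ 2 * g T t := by
    congr 1; funext t; rw [AF_mul]
  rw [hint]
  refine ht.trans ?_
  have hJ0 : (0 : ℝ) ≤ J.card := Nat.cast_nonneg _
  have hTe : T * Real.exp (-L ^ 2) ≤ 1 := by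
    rw [Real.exp_neg]
    rw [← div_eq_mul_inv, div_le_one (Real.exp_pos _)]
    exact h4
  have hsum := hn.trans (add_le_add_right hp _)
  calc √Real.pi * T * (1 / Q) ^ 2 * _
      ≤ √Real.pi * T * (1 / Q) ^ 2 * ((2 * Q * J.card) ^ 2 * Real.exp (-L ^ 2) +
        (C₀ * (η * Q) * (J.card : ℝ) ^ 2 + 10 * Q * (1 / (4 * η)) * J.card)) := by
        gcongr
    _ = √Real.pi * (4 * (J.card : ℝ) ^ 2 * (T * Real.exp (-L ^ 2)) +
        16 * C₀ * ((J.card : ℝ) ^ 2 * L) + 10 / 64 * (J.card * (T / Q) ^ 2) / L) := by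
        rw [hηdef]; field_simp; ring
    _ ≤ √Real.pi * (4 * (J.card : ℝ) ^ 2 * 1 +
        16 * C₀ * ((J.card : ℝ) ^ 2 * L) + 10 / 64 * (J.card * (T / Q) ^ 2) / 1) := by
        gcongr
    _ ≤ √Real.pi * (4 * ((J.card : ℝ) ^ 2 * L) +
        16 * C₀ * ((J.card : ℝ) ^ 2 * L + J.card * (T / Q) ^ 2) +
        (J.card : ℝ) * (T / Q) ^ 2) := by
        have e1 : 0 ≤ (J.card : ℝ) * (T / Q) ^ 2 := by positivity
        have e2 : (J.card : ℝ) ^ 2 ≤ (J.card : ℝ) ^ 2 * L := by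
          have := sq_nonneg (J.card : ℝ); nlinarith
        apply mul_le_mul_of_nonneg_left _ (Real.sqrt_nonneg _)
        have e3 : 0 ≤ 16 * C₀ * (J.card * (T / Q) ^ 2) := by positivity
        linarith
    _ ≤ √Real.pi * (4 + 16 * C₀ + 1) *
        ((J.card : ℝ) ^ 2 * L + J.card * (T / Q) ^ 2) := by
        have e1 : 0 ≤ (J.card : ℝ) * (T / Q) ^ 2 := by positivity
        have e2 : 0 ≤ (J.card : ℝ) ^ 2 * L := by positivity
        rw [mul_assoc (√Real.pi) (4 + 16 * C₀ + 1)]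
        apply mul_le_mul_of_nonneg_left _ (Real.sqrt_nonneg _)
        linarith

end

end Pool.Agent.OX
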