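import Mathlib
import Pool.Agent.Lib.OX.Defs2
import Pool.Agent.Lib.ES.R7d

/-!
# PROJECT OX, row SZD: sparse zero density near the line 1.
-/

set_option autoImplicit false

namespace Pool.Agent.OX

open Finset Pool.Agent.MRL Pool.Agent.MRF

theorem SZD_bU (U k : ℕ) : ‖bU U k‖ ≤ (k.divisors.card : ℝ) := by
  unfold bU
  refine (norm_sum_le _ _).trans ?_
  have h1 : ∀ m ∈ k.divisors.filter (fun m => m ≤ U ∧ k / m ≤ U),
      ‖((ArithmeticFunction.moebius m : ℤ) : ℂ)‖ ≤ 1 := by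
    intro m _
    rw [Complex.norm_intCast]
    exact_mod_cast ArithmeticFunction.abs_moebius_le_one
  refine (Finset.sum_le_sum h1).trans ?_
  rw [Finset.sum_const, nsmul_eq_mul, mul_one]
  exact_mod_cast Finset.card_filter_le _ _

theorem SZD_block (U K : ℕ) (hK : 1 ≤ K) (S : Finset ℕ) (hS : ∀ k ∈ S, K ≤ k ∧ k ≤ 2 * K) :
    ∑ k ∈ S, ‖bU U k‖ ^ 2 ≤ 2 * K * (1 + Real.log (2 * K)) ^ 3 := by
  have h1 : ∑ k ∈ S, ‖bU U k‖ ^ 2 ≤ ∑ k ∈ Icc 1 (2 * K), (k.divisors.card : ℝ) ^ 2 := by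
    calc _ ≤ ∑ k ∈ S, (k.divisors.card : ℝ) ^ 2 :=
          Finset.sum_le_sum fun k _ => pow_le_pow_left₀ (norm_nonneg _) (SZD_bU U k) 2
      _ ≤ _ := Finset.sum_le_sum_of_subset_of_nonneg (fun k hk => by
          obtain ⟨h1, h2⟩ := hS k hk
          rw [Finset.mem_Icc]
          omega) fun _ _ _ => by positivity
  have h2 := ES.R7d_proof (2 * K) (by omega)
  push_cast at h2
  exact h1.trans h2

/-- the dyadic decomposition -/
theorem SZD_split (U : ℕ) (hU : 1 ≤ U) (f : ℕ → ℂ) :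
    ∑ k ∈ Ioc U (U ^ 2), f k = ∑ j ∈ range (Nat.log 2 U + 1),
      ∑ k ∈ (Ioc U (U ^ 2)).filter (fun k => Nat.log 2 (k / U) = j), f k := by
  refine (Finset.sum_fiberwise_of_maps_to (fun k hk => ?_) f).symm
  rw [Finset.mem_Ioc] at hk
  rw [Finset.mem_range, Nat.lt_succ_iff]
  refine Nat.log_mono_right ?_
  calc k / U ≤ U ^ 2 / U := Nat.div_le_div_right hk.2
    _ = U := by rw [pow_two, Nat.mul_div_cancel _ hU]

theorem SZD_mem (U : ℕ) (hU : 1 ≤ U) (j k : ℕ)
    (hk : k ∈ (Ioc U (U ^ 2)).filter (fun k => Nat.log 2 (k / U) = j)) :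
    2 ^ j * U ≤ k ∧ k ≤ 2 * (2 ^ j * U) := by
  rw [Finset.mem_filter, Finset.mem_Ioc] at hk
  obtain ⟨⟨h1, h2⟩, rfl⟩ := hk
  have h3 : 1 ≤ k / U := (Nat.one_le_div_iff hU).mpr h1.le
  have h4 : 2 ^ Nat.log 2 (k / U) ≤ k / U := Nat.pow_log_le_self 2 (by omega)
  have h5 : k / U < 2 ^ (Nat.log 2 (k / U) + 1) := Nat.lt_pow_succ_log_self (by norm_num) _
  constructor
  · exact (Nat.mul_le_mul_right U h4).trans (Nat.div_mul_le_self k U)
  · have h6 : k < 2 ^ (Nat.log 2 (k / U) + 1) * U := (Nat.div_lt_iff_lt_mul hU).mp h5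
    rw [pow_succ] at h6
    calc k ≤ 2 ^ Nat.log 2 (k / U) * 2 * U := h6.le
      _ = _ := by ring

theorem szd (h1 : SZ1) (h2 : SZ2) : SZD := by
  intro ε hε
  obtain ⟨e, he, he8, he2⟩ : ∃ e : ℝ, 0 < e ∧ e ≤ ε / 8 ∧ e ≤ 1 / 2 :=
    ⟨min (ε / 8) (1 / 2), lt_min (by linarith) (by norm_num), min_le_left _ _, min_le_right _ _⟩
  obtain ⟨κ, C1, hκ, hκ', hC1, H1⟩ := h1 e he he2
  obtain ⟨η, C2, hη, hC2, H2⟩ := h2 (4 / e) (by rw [le_div_iff₀ he]; linarith)
  set C : ℝ := max (max C1 ((4 : ℝ) ^ (1 / e))) (max 16 (1728 * C2 + 5)) with hC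
  refine ⟨min 1 (e * η / 2), κ, C, lt_min one_pos (by positivity), min_le_left _ _, hκ, hκ',
    ?_, ?_⟩
  · exact hC1.trans ((le_max_left _ _).trans (le_max_left _ _))
  intro T σ hT hσκ hσ1 Z hZ hsp hcard
  have hTC1 : C1 ≤ T := ((le_max_left _ _).trans (le_max_left _ _)).trans hT
  have hT4 : (4 : ℝ) ^ (1 / e) ≤ T := ((le_max_right _ _).trans (le_max_left _ _)).trans hT
  have hT16 : 16 ≤ T := ((le_max_left _ _).trans (le_max_right _ _)).trans hT
  have hC5 : 1728 * C2 + 5 ≤ C := (le_max_right _ _).trans (le_max_right _ _)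
  have hT0 : 0 < T := by linarith
  have hT1 : 1 ≤ T := by linarith
  have hx4 : 4 ≤ T ^ e := by
    have h3 := Real.rpow_le_rpow (by positivity) hT4 he.le
    rwa [← Real.rpow_mul (by norm_num), one_div_mul_cancel he.ne', Real.rpow_one] at h3
  -- the logarithm
  have hlog : Real.exp 1 ≤ Real.log T := by
    have h3 : Real.log 16 ≤ Real.log T := Real.log_le_log (by norm_num) hT16
    have h4 : Real.log 16 = 4 * Real.log 2 := by
      rw [show (16 : ℝ) = 2 ^ 4 by norm_num, Real.log_pow]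
      norm_num
    have h5 := Real.log_two_gt_d9
    have h6 := Real.exp_one_lt_d9
    linarith
  have hlog1 : 1 ≤ Real.log T := by
    have := Real.add_one_le_exp (1 : ℝ)
    linarith
  -- the length
  set U : ℕ := ⌊T ^ e⌋₊ with hU
  have hUle : (U : ℝ) ≤ T ^ e := Nat.floor_le (by positivity)
  have hU4 : 4 ≤ U := Nat.le_floor (by exact_mod_cast hx4)
  have hUlt : T ^ e < U + 1 := Nat.lt_floor_add_one _
  have hU4' : (4 : ℝ) ≤ U := by exact_mod_cast hU4
  have hUge : T ^ e / 2 ≤ U := by linarith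
  have hU0 : (0 : ℝ) < U := by linarith
  have hUsq : T ^ (e / 2) ≤ U := by
    have h3 : T ^ (e / 2) * T ^ (e / 2) = T ^ e := by
      rw [← Real.rpow_add hT0]
      congr 1
      ring
    have h4 : 0 < T ^ (e / 2) := by positivity
    have h5 : 2 ≤ T ^ (e / 2) := by nlinarith
    nlinarith
  have hlogU : Real.log U ≤ e * Real.log T := by
    rw [← Real.log_rpow hT0]
    exact Real.log_le_log hU0 hUle
  -- the number of blocks
  have hJ : ((Nat.log 2 U + 1 : ℕ) : ℝ) ≤ 2 * Real.log T := by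
    have h3 : (Nat.log 2 U : ℝ) ≤ Real.logb 2 U := Real.natLog_le_logb U 2
    have h4 : Real.logb 2 U * Real.log 2 = Real.log U := by
      rw [Real.logb, div_mul_cancel₀]
      exact (Real.log_pos (by norm_num)).ne'
    have h5 := Real.log_two_gt_d9
    have h6 : (0 : ℝ) ≤ Nat.log 2 U := Nat.cast_nonneg _
    push_cast
    nlinarith
  have hJ0 : (0 : ℝ) ≤ ((Nat.log 2 U + 1 : ℕ) : ℝ) := Nat.cast_nonneg _
  -- one block
  set b : ℕ → ℂ → ℂ := fun j ρ =>
    ∑ k ∈ (Ioc U (U ^ 2)).filter (fun k => Nat.log 2 (k / U) = j), bU U k * (k : ℂ) ^ (-ρ) with hb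
  have hblock : ∀ j ∈ range (Nat.log 2 U + 1), ∑ ρ ∈ Z, ‖b j ρ‖ ^ 2 ≤
      108 * C2 * (Real.log T) ^ 3 * T ^ (ε * (1 - σ)) := by
    intro j hj
    rw [Finset.mem_range, Nat.lt_succ_iff] at hj
    have hjU : 2 ^ j ≤ U := (Nat.pow_le_pow_right (by norm_num) hj).trans
      (Nat.pow_log_le_self 2 (by omega))
    set K : ℕ := 2 ^ j * U with hK
    have hUK : U ≤ K := Nat.le_mul_of_pos_left _ (by positivity)
    have hKU : K ≤ U ^ 2 := by rw [hK, pow_two]; exact Nat.mul_le_mul_right _ hjU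
    have hUK' : (U : ℝ) ≤ K := by exact_mod_cast hUK
    have hKU' : (K : ℝ) ≤ (U : ℝ) ^ 2 := by exact_mod_cast hKU
    have hK0 : (0 : ℝ) < K := by linarith
    have h3 := H2 K σ Z ((Ioc U (U ^ 2)).filter (fun k => Nat.log 2 (k / U) = j)) (bU U) (by omega)
      (by linarith) (fun ρ hρ => ⟨(hZ ρ hρ).2.1, by
        by_contra hlt
        push Not at hlt
        exact riemannZeta_ne_zero_of_one_le_re hlt.le (hZ ρ hρ).1⟩) hsp (by
      intro ρ hρ ρ' hρ'
      have g1 : |ρ.im - ρ'.im| ≤ 16 * T := by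
        have := abs_sub ρ.im ρ'.im
        have := (hZ ρ hρ).2.2.2
        have := (hZ ρ' hρ').2.2.2
        linarith
      have g2 : T ^ (2 : ℝ) ≤ (K : ℝ) ^ (4 / e) := by
        calc T ^ (2 : ℝ) = (T ^ (e / 2)) ^ (4 / e) := by
              rw [← Real.rpow_mul hT0.le]
              congr 1
              field_simp
              norm_num
          _ ≤ _ := Real.rpow_le_rpow (by positivity) (hUsq.trans hUK') (by positivity)
      rw [Real.rpow_two] at g2
      nlinarith) (fun k hk => SZD_mem U (by omega) j k hk)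
    refine h3.trans ?_
    have h4 := SZD_block U K (by omega) ((Ioc U (U ^ 2)).filter (fun k => Nat.log 2 (k / U) = j))
      (fun k hk => SZD_mem U (by omega) j k hk)
    -- the number of points
    have h5 : (Z.card : ℝ) ≤ (K : ℝ) ^ η := by
      calc (Z.card : ℝ) ≤ T ^ (min 1 (e * η / 2)) := hcard
        _ ≤ T ^ (e * η / 2) := Real.rpow_le_rpow_of_exponent_le hT1 (min_le_right _ _)
        _ = (T ^ (e / 2)) ^ η := by
          rw [← Real.rpow_mul hT0.le]
          congr 1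
          ring
        _ ≤ _ := Real.rpow_le_rpow (by positivity) (hUsq.trans hUK') hη.le
    have h6 : (K : ℝ) + Z.card * (K : ℝ) ^ (1 - η) ≤ 2 * K := by
      have : (Z.card : ℝ) * (K : ℝ) ^ (1 - η) ≤ (K : ℝ) ^ η * (K : ℝ) ^ (1 - η) :=
        mul_le_mul_of_nonneg_right h5 (by positivity)
      rw [← Real.rpow_add hK0] at this
      have h7 : η + (1 - η) = 1 := by ring
      rw [h7, Real.rpow_one] at this
      linarith
    -- the logarithm
    have h7 : 1 + Real.log (2 * K) ≤ 3 * Real.log T := by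
      have g1 : Real.log (2 * K) ≤ Real.log (T ^ (2 : ℝ)) := by
        refine Real.log_le_log (by positivity) ?_
        have g2 : (U : ℝ) ^ 2 ≤ T := by
          calc (U : ℝ) ^ 2 ≤ (T ^ e) ^ 2 := pow_le_pow_left₀ hU0.le hUle 2
            _ = T ^ (2 * e) := by
              rw [← Real.rpow_natCast, ← Real.rpow_mul hT0.le]
              congr 1
              push_cast
              ring
            _ ≤ T ^ (1 : ℝ) := Real.rpow_le_rpow_of_exponent_le hT1 (by linarith)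
            _ = T := Real.rpow_one T
        rw [Real.rpow_two]
        nlinarith
      rw [Real.log_rpow hT0] at g1
      linarith
    have h8 : 0 ≤ 1 + Real.log (2 * K) := by
      have : 0 ≤ Real.log (2 * K) := Real.log_nonneg (by linarith)
      linarith
    have h9 : (1 + Real.log (2 * K)) ^ 3 ≤ 27 * (Real.log T) ^ 3 := by
      calc _ ≤ (3 * Real.log T) ^ 3 := pow_le_pow_left₀ h8 h7 3
        _ = _ := by ring
    have h10 : (K : ℝ) * ((K : ℝ) ^ (-(2 * σ)) * K) ≤ T ^ (ε * (1 - σ)) := by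
      calc (K : ℝ) * ((K : ℝ) ^ (-(2 * σ)) * K) = (K : ℝ) ^ (2 - 2 * σ) := by
            rw [show (2 : ℝ) - 2 * σ = 1 + (-(2 * σ) + 1) by ring, Real.rpow_add hK0,
              Real.rpow_add hK0, Real.rpow_one]
        _ ≤ ((U : ℝ) ^ 2) ^ (2 - 2 * σ) := Real.rpow_le_rpow hK0.le hKU' (by linarith)
        _ ≤ ((T ^ e) ^ 2) ^ (2 - 2 * σ) :=
            Real.rpow_le_rpow (by positivity) (pow_le_pow_left₀ hU0.le hUle 2) (by linarith)
        _ = T ^ (4 * e * (1 - σ)) := by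
            rw [← Real.rpow_natCast (T ^ e) 2, ← Real.rpow_mul hT0.le, ← Real.rpow_mul hT0.le]
            congr 1
            push_cast
            ring
        _ ≤ _ := by
            refine Real.rpow_le_rpow_of_exponent_le hT1 ?_
            refine mul_le_mul_of_nonneg_right ?_ (by linarith)
            linarith
    calc C2 * (↑K + ↑Z.card * (K : ℝ) ^ (1 - η)) * (K : ℝ) ^ (-(2 * σ)) *
          ∑ k ∈ (Ioc U (U ^ 2)).filter (fun k => Nat.log 2 (k / U) = j), ‖bU U k‖ ^ 2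
        ≤ C2 * (2 * K) * (K : ℝ) ^ (-(2 * σ)) * (2 * K * (27 * (Real.log T) ^ 3)) := by
          refine mul_le_mul ?_ (h4.trans ?_) (Finset.sum_nonneg fun _ _ => by positivity)
            (by positivity)
          · exact mul_le_mul_of_nonneg_right (mul_le_mul_of_nonneg_left h6 hC2.le) (by positivity)
          · exact mul_le_mul_of_nonneg_left h9 (by positivity)
      _ = 108 * C2 * (Real.log T) ^ 3 * ((K : ℝ) * ((K : ℝ) ^ (-(2 * σ)) * K)) := by ring
      _ ≤ _ := mul_le_mul_of_nonneg_left h10 (by positivity)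
  -- every zero
  have hzero : ∀ ρ ∈ Z, (1 : ℝ) / 4 ≤ ((Nat.log 2 U + 1 : ℕ) : ℝ) *
      ∑ j ∈ range (Nat.log 2 U + 1), ‖b j ρ‖ ^ 2 := by
    intro ρ hρ
    obtain ⟨g1, g2, g3, g4⟩ := hZ ρ hρ
    have h3 := H1 T ρ hTC1 g1 (hσκ.trans g2) g3 g4
    rw [SZD_split U (by omega)] at h3
    have h4 : (1 : ℝ) / 2 ≤ ∑ j ∈ range (Nat.log 2 U + 1), ‖b j ρ‖ := h3.trans (norm_sum_le _ _)
    have h5 := sq_sum_le_card_mul_sum_sq (s := range (Nat.log 2 U + 1)) (f := fun j => ‖b j ρ‖)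
    rw [Finset.card_range] at h5
    refine le_trans ?_ h5
    nlinarith
  have hsum : (Z.card : ℝ) * (1 / 4) ≤ ((Nat.log 2 U + 1 : ℕ) : ℝ) *
      (((Nat.log 2 U + 1 : ℕ) : ℝ) * (108 * C2 * (Real.log T) ^ 3 * T ^ (ε * (1 - σ)))) := by
    calc (Z.card : ℝ) * (1 / 4) = ∑ ρ ∈ Z, (1 : ℝ) / 4 := by
          rw [Finset.sum_const, nsmul_eq_mul]
      _ ≤ ∑ ρ ∈ Z, ((Nat.log 2 U + 1 : ℕ) : ℝ) * ∑ j ∈ range (Nat.log 2 U + 1), ‖b j ρ‖ ^ 2 :=
          Finset.sum_le_sum hzero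
      _ = ((Nat.log 2 U + 1 : ℕ) : ℝ) * ∑ j ∈ range (Nat.log 2 U + 1), ∑ ρ ∈ Z, ‖b j ρ‖ ^ 2 := by
          rw [← Finset.mul_sum, Finset.sum_comm]
      _ ≤ ((Nat.log 2 U + 1 : ℕ) : ℝ) * ∑ j ∈ range (Nat.log 2 U + 1),
            108 * C2 * (Real.log T) ^ 3 * T ^ (ε * (1 - σ)) :=
          mul_le_mul_of_nonneg_left (Finset.sum_le_sum hblock) hJ0
      _ = _ := by rw [Finset.sum_const, Finset.card_range, nsmul_eq_mul]
  set X : ℝ := T ^ (ε * (1 - σ)) with hX
  have hX0 : 0 < X := by positivity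
  have h3 : (Z.card : ℝ) ≤ 1728 * C2 * (Real.log T) ^ 5 * X := by
    have h4 : ((Nat.log 2 U + 1 : ℕ) : ℝ) *
        (((Nat.log 2 U + 1 : ℕ) : ℝ) * (108 * C2 * (Real.log T) ^ 3 * X)) ≤
        2 * Real.log T * (2 * Real.log T * (108 * C2 * (Real.log T) ^ 3 * X)) := by
      refine mul_le_mul hJ ?_ (by positivity) (by positivity)
      exact mul_le_mul_of_nonneg_right hJ (by positivity)
    have h5 : 4 * (2 * Real.log T * (2 * Real.log T * (108 * C2 * (Real.log T) ^ 3 * X))) =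
        1728 * C2 * (Real.log T) ^ 5 * X := by ring
    linarith
  refine h3.trans ?_
  have h4 : 1728 * C2 ≤ (Real.log T) ^ (C - 5) := by
    calc 1728 * C2 ≤ C - 5 + 1 := by linarith
      _ ≤ Real.exp (C - 5) := Real.add_one_le_exp _
      _ = (Real.exp 1) ^ (C - 5) := by rw [← Real.exp_mul, one_mul]
      _ ≤ _ := Real.rpow_le_rpow (Real.exp_pos _).le hlog (by nlinarith)
  calc 1728 * C2 * (Real.log T) ^ 5 * X ≤ (Real.log T) ^ (C - 5) * (Real.log T) ^ 5 * X := by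
        refine mul_le_mul_of_nonneg_right (mul_le_mul_of_nonneg_right h4 (by positivity)) hX0.le
    _ = X * (Real.log T) ^ C := by
        rw [← Real.rpow_natCast (Real.log T) 5, ← Real.rpow_add (by linarith)]
        rw [mul_comm]
        congr 2
        push_cast
        ring

end Pool.Agent.OX
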