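import Mathlib
import Pool.Agent.Lib.OX.Defs

/-!
# PROJECT OX, ROW FIN: from well spaced bad points to Oppermann's intervals. helper55.
-/

set_option autoImplicit false

namespace Pool.Agent.OX

open Finset

/-- The property in the theorem. -/
private def FinGood (K C : ℝ) (x : ℕ) (y : ℝ) : Prop :=
  ∃ p q s : ℕ, p.Prime ∧ q.Prime ∧ s.Prime ∧ (p : ℝ) ≤ (Real.log x) ^ C ∧
    x / (Real.log x) ^ C ≤ q ∧ x / (Real.log x) ^ C ≤ s ∧
    y < (p * q * s : ℕ) ∧ ((p * q * s : ℕ) : ℝ) < y + x / (Real.log x) ^ K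

private theorem fin_logs {x : ℕ} (hx : 100 ≤ x) {N : ℝ} (hN1 : N ≤ (x : ℝ) ^ 2 - x)
    (hN2 : (x : ℝ) ^ 2 - x < 2 * N) :
    2 ≤ Real.log x ∧ Real.log x ≤ Real.log N ∧ Real.log N ≤ 2 * Real.log x ∧
      √N ≤ x ∧ (x : ℝ) / 2 ≤ √N ∧ (x : ℝ) ≤ N ∧ (x : ℝ) ^ 2 + x ≤ 3 * N := by
  have hx' : (100 : ℝ) ≤ x := by exact_mod_cast hx
  have hxpos : (0 : ℝ) < x := by linarith
  have hxN : (x : ℝ) ≤ N := by nlinarith
  have hNpos : 0 < N := by linarith
  refine ⟨?_, Real.log_le_log hxpos hxN, ?_, ?_, ?_, hxN, by nlinarith⟩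
  · rw [Real.le_log_iff_exp_le hxpos]
    have h1 : Real.exp 2 = Real.exp 1 * Real.exp 1 := by rw [← Real.exp_add]; norm_num
    have h2 := Real.exp_one_lt_d9
    have h3 := Real.exp_pos 1
    nlinarith
  · have h1 : Real.log N ≤ Real.log ((x : ℝ) ^ 2) := Real.log_le_log hNpos (by linarith)
    rw [Real.log_pow] at h1
    exact_mod_cast h1
  · rw [Real.sqrt_le_left hxpos.le]
    nlinarith
  · refine Real.le_sqrt_of_sq_le ?_
    nlinarith

private theorem fin_has {K C : ℝ} (hK : 0 ≤ K) (hC : 0 < C) {x : ℕ} (hx : 100 ≤ x) {N : ℝ}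
    (hN1 : N ≤ (x : ℝ) ^ 2 - x) (hN2 : (x : ℝ) ^ 2 - x < 2 * N) {y : ℝ}
    (h : Has3 y (√N / (Real.log N) ^ K) ((Real.log N) ^ C) (√N / (Real.log N) ^ C)) :
    FinGood K (2 * C + 2) x y := by
  obtain ⟨h2, hxN, hNx, hs1, hs2, -, -⟩ := fin_logs hx hN1 hN2
  obtain ⟨p, q, s, hp, hq, hs, h3, h4, h5, h6, h7⟩ := h
  have hx' : (100 : ℝ) ≤ x := by exact_mod_cast hx
  set l := Real.log x with hl
  set L := Real.log N with hL
  have hlpos : 0 < l := by linarith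
  have hLpos : 0 < L := by linarith
  -- (log N)^C ≤ (log x)^(2C)
  have hLl : L ≤ l ^ (2 : ℝ) := by
    rw [Real.rpow_two]
    nlinarith
  have hC1 : L ^ C ≤ l ^ (2 * C) := by
    have h8 : L ^ C ≤ (l ^ (2 : ℝ)) ^ C := Real.rpow_le_rpow hLpos.le hLl hC.le
    rwa [← Real.rpow_mul hlpos.le] at h8
  have hl1 : 1 ≤ l := by linarith
  have hC2 : l ^ (2 * C) ≤ l ^ (2 * C + 2) := Real.rpow_le_rpow_of_exponent_le hl1 (by linarith)
  have hC3 : 2 * l ^ (2 * C) ≤ l ^ (2 * C + 2) := by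
    rw [Real.rpow_add hlpos, Real.rpow_two]
    have h9 : 0 ≤ l ^ (2 * C) := Real.rpow_nonneg hlpos.le _
    have h10 : (2 : ℝ) ≤ l ^ 2 := by nlinarith [mul_self_nonneg (l - 2)]
    calc 2 * l ^ (2 * C) = l ^ (2 * C) * 2 := mul_comm _ _
      _ ≤ l ^ (2 * C) * l ^ 2 := mul_le_mul_of_nonneg_left h10 h9
  have hw : (x : ℝ) / l ^ (2 * C + 2) ≤ √N / L ^ C := by
    have hLC : 0 < L ^ C := Real.rpow_pos_of_pos hLpos _
    have hlC : 0 < l ^ (2 * C + 2) := Real.rpow_pos_of_pos hlpos _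
    rw [div_le_div_iff₀ hlC hLC]
    calc (x : ℝ) * L ^ C ≤ (2 * √N) * l ^ (2 * C) := by
          refine mul_le_mul (by linarith) hC1 hLC.le (by positivity)
      _ = √N * (2 * l ^ (2 * C)) := by ring
      _ ≤ √N * l ^ (2 * C + 2) := mul_le_mul_of_nonneg_left hC3 (Real.sqrt_nonneg _)
  have hh : √N / L ^ K ≤ x / l ^ K := by
    have hlK : 0 < l ^ K := Real.rpow_pos_of_pos hlpos _
    exact div_le_div₀ (by linarith) hs1 hlK (Real.rpow_le_rpow hlpos.le hxN hK)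
  exact ⟨p, q, s, hp, hq, hs, (h3.trans hC1).trans hC2, hw.trans h4, hw.trans h5, h6,
    h7.trans_le (by linarith)⟩

/-- the bad numbers in one dyadic range and one parity class. -/
private theorem fin_dyadic {K C N₀ : ℝ} (hK : 0 ≤ K) (hC : 0 < C)
    (hcore : ∀ N : ℝ, N₀ ≤ N →
      ∀ Y : Finset ℝ, (∀ y ∈ Y, N ≤ y ∧ y ≤ 3 * N) →
      (∀ y ∈ Y, ∀ y' ∈ Y, y ≠ y' → √N / (Real.log N) ^ (K + 1) ≤ |y - y'|) →
      (∀ y ∈ Y, ¬ Has3 y (√N / (Real.log N) ^ K) ((Real.log N) ^ C) (√N / (Real.log N) ^ C)) →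
      (Y.card : ℝ) ≤ (Real.log N) ^ C) {X : ℕ} (B : Finset ℕ) {N : ℝ} (b : ℕ)
    (hB : ∀ x ∈ B, 100 ≤ x ∧ N₀ ≤ x ∧ x ≤ X ∧ x % 2 = b ∧ N ≤ (x : ℝ) ^ 2 - x ∧
      (x : ℝ) ^ 2 - x < 2 * N ∧ ∃ y : ℝ, (x : ℝ) ^ 2 - x ≤ y ∧
        y + x / (Real.log x) ^ K ≤ (x : ℝ) ^ 2 + x ∧ ¬ FinGood K (2 * C + 2) x y) :
    (B.card : ℝ) ≤ (2 * Real.log X) ^ C := by
  classical
  rcases B.eq_empty_or_nonempty with rfl | ⟨x₁, hx₁⟩
  · simp only [Finset.card_empty, Nat.cast_zero]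
    refine Real.rpow_nonneg ?_ _
    have : 0 ≤ Real.log X := Real.log_natCast_nonneg X
    linarith
  choose! yy hyy using fun x (hx : x ∈ B) => (hB x hx).2.2.2.2.2.2
  have hsep : ∀ x ∈ B, ∀ x' ∈ B, x < x' → √N / (Real.log N) ^ (K + 1) ≤ yy x' - yy x := by
    intro x hx x' hx' hlt
    obtain ⟨h100, -, -, hpar, hN1, hN2, -⟩ := hB x hx
    obtain ⟨-, -, -, hpar', -, -, -⟩ := hB x' hx'
    obtain ⟨h2, hxN, hNx, hs1, hs2, -, -⟩ := fin_logs h100 hN1 hN2
    have h3 : x + 2 ≤ x' := by omega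
    have h3' : (x : ℝ) + 2 ≤ x' := by exact_mod_cast h3
    have hx0 : (100 : ℝ) ≤ x := by exact_mod_cast h100
    have h4 : 0 ≤ (x : ℝ) / (Real.log x) ^ K :=
      div_nonneg (by linarith) (Real.rpow_nonneg (by linarith) _)
    have h5 := (hyy x hx).2.1
    have h6 := (hyy x' hx').1
    have h7 : √N / (Real.log N) ^ (K + 1) ≤ √N := by
      refine div_le_self (Real.sqrt_nonneg _) ?_
      exact Real.one_le_rpow (by linarith) (by linarith)
    nlinarith
  have hinj : Set.InjOn yy B := by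
    intro x hx x' hx' he
    by_contra hne
    obtain ⟨h100, -, -, -, hN1, hN2, -⟩ := hB x hx
    obtain ⟨h2, hxN, -, -, hs2, -, -⟩ := fin_logs h100 hN1 hN2
    have hx0 : (100 : ℝ) ≤ x := by exact_mod_cast h100
    have hpos : 0 < √N / (Real.log N) ^ (K + 1) :=
      div_pos (by linarith) (Real.rpow_pos_of_pos (by linarith) _)
    rcases lt_or_gt_of_ne hne with h | h
    · have := hsep x hx x' hx' h
      rw [he] at this
      linarith
    · have := hsep x' hx' x hx h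
      rw [he] at this
      linarith
  obtain ⟨h100, hN0, hxX, -, hN1, hN2, -⟩ := hB x₁ hx₁
  obtain ⟨h2, hxN, hNx, -, -, hxN', -⟩ := fin_logs h100 hN1 hN2
  have hx0 : (100 : ℝ) ≤ x₁ := by exact_mod_cast h100
  have key := hcore N (by linarith) (B.image yy) ?_ ?_ ?_
  · rw [Finset.card_image_of_injOn hinj] at key
    refine key.trans (Real.rpow_le_rpow (by linarith) ?_ hC.le)
    have h8 : Real.log x₁ ≤ Real.log X := Real.log_le_log (by linarith) (by exact_mod_cast hxX)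
    linarith
  · intro y hy
    obtain ⟨x, hx, rfl⟩ := Finset.mem_image.1 hy
    obtain ⟨h100, -, -, -, hN1, hN2, -⟩ := hB x hx
    obtain ⟨h2, -, -, -, -, -, h9⟩ := fin_logs h100 hN1 hN2
    have hx0 : (100 : ℝ) ≤ x := by exact_mod_cast h100
    have h4 : 0 ≤ (x : ℝ) / (Real.log x) ^ K :=
      div_nonneg (by linarith) (Real.rpow_nonneg (by linarith) _)
    have h5 := (hyy x hx).2.1
    have h6 := (hyy x hx).1
    exact ⟨by linarith, by linarith⟩
  · intro y hy y' hy' hne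
    obtain ⟨x, hx, rfl⟩ := Finset.mem_image.1 hy
    obtain ⟨x', hx', rfl⟩ := Finset.mem_image.1 hy'
    have hne' : x ≠ x' := by rintro rfl; exact hne rfl
    rcases lt_or_gt_of_ne hne' with h | h
    · rw [abs_sub_comm]
      exact (hsep x hx x' hx' h).trans (le_abs_self _)
    · exact (hsep x' hx' x hx h).trans (le_abs_self _)
  · intro y hy hhas
    obtain ⟨x, hx, rfl⟩ := Finset.mem_image.1 hy
    obtain ⟨h100, -, -, -, hN1, hN2, -⟩ := hB x hx
    exact (hyy x hx).2.2 (fin_has hK hC h100 hN1 hN2 hhas)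

theorem fin (hC : CORE) : Final3 := by
  classical
  intro K hK
  obtain ⟨C, hC0, N₀, hcore⟩ := hC K hK
  set x₀ : ℕ := max 100 ⌈N₀⌉₊ with hx₀
  set D : ℝ := x₀ + 8 * 2 ^ C with hD
  refine ⟨2 * C + 2, by linarith, ⌈Real.exp (D + 10)⌉₊, fun X hX => ?_⟩
  have h2C : 0 < (2 : ℝ) ^ C := Real.rpow_pos_of_pos (by norm_num) _
  have hD0 : 0 < D := by positivity
  have hXe : Real.exp (D + 10) ≤ X := (Nat.le_ceil _).trans (by exact_mod_cast hX)
  have hXpos : (0 : ℝ) < X := (Real.exp_pos _).trans_le hXe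
  have hLX : D + 10 ≤ Real.log X := by rwa [Real.le_log_iff_exp_le hXpos]
  set L := Real.log X with hL
  set S : Set ℕ := {x : ℕ | 1 < x ∧ x ≤ X ∧ ¬ ∀ y : ℝ, (x : ℝ) ^ 2 - x ≤ y →
      y + x / (Real.log x) ^ K ≤ (x : ℝ) ^ 2 + x →
      ∃ p q s : ℕ, p.Prime ∧ q.Prime ∧ s.Prime ∧ (p : ℝ) ≤ (Real.log x) ^ (2 * C + 2) ∧
        x / (Real.log x) ^ (2 * C + 2) ≤ q ∧ x / (Real.log x) ^ (2 * C + 2) ≤ s ∧
        y < (p * q * s : ℕ) ∧ ((p * q * s : ℕ) : ℝ) < y + x / (Real.log x) ^ K} with hS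
  set B : Finset ℕ := (Finset.range (X + 1)).filter (fun x => x ∈ S) with hBdef
  have hSB : S = (B : Set ℕ) := by
    ext x
    rw [hBdef, Finset.coe_filter]
    refine ⟨fun h => ⟨Finset.mem_range.2 ?_, h⟩, fun h => h.2⟩
    have := h.2.1
    omega
  rw [hSB, Set.ncard_coe_finset]
  set KK := Nat.log 2 (X ^ 2) + 1 with hKK
  have hcover : B ⊆ Finset.range x₀ ∪ (Finset.range KK ×ˢ Finset.range 2).biUnion
      (fun kb => B.filter (fun x => x₀ ≤ x ∧ x % 2 = kb.2 ∧ 2 ^ kb.1 ≤ x ^ 2 - x ∧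
        x ^ 2 - x < 2 ^ (kb.1 + 1))) := by
    intro x hx
    rcases lt_or_ge x x₀ with h | h
    · exact Finset.mem_union_left _ (Finset.mem_range.2 h)
    · refine Finset.mem_union_right _ ?_
      rw [Finset.mem_biUnion]
      have hxX : x ≤ X := by
        have := Finset.mem_range.1 (Finset.mem_filter.1 hx).1
        omega
      have h100 : 100 ≤ x := (le_max_left _ _).trans h
      have hne : x ^ 2 - x ≠ 0 := by
        have : x * 2 ≤ x ^ 2 := by rw [pow_two]; exact Nat.mul_le_mul_left _ (by omega)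
        omega
      refine ⟨(Nat.log 2 (x ^ 2 - x), x % 2), ?_, ?_⟩
      · rw [Finset.mem_product, Finset.mem_range, Finset.mem_range]
        refine ⟨?_, Nat.mod_lt _ (by norm_num)⟩
        have h3 : x ^ 2 - x ≤ X ^ 2 := (Nat.sub_le _ _).trans (Nat.pow_le_pow_left hxX 2)
        have := Nat.log_mono_right (b := 2) h3
        change Nat.log 2 (x ^ 2 - x) < KK
        omega
      · rw [Finset.mem_filter]
        exact ⟨hx, h, rfl, Nat.pow_log_le_self 2 hne, Nat.lt_pow_succ_log_self (by norm_num) _⟩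
  have hpiece : ∀ kb ∈ Finset.range KK ×ˢ Finset.range 2,
      ((B.filter (fun x => x₀ ≤ x ∧ x % 2 = kb.2 ∧ 2 ^ kb.1 ≤ x ^ 2 - x ∧
        x ^ 2 - x < 2 ^ (kb.1 + 1))).card : ℝ) ≤ (2 * L) ^ C := by
    intro kb _
    refine fin_dyadic hK hC0 hcore (X := X) _ (N := (2 : ℝ) ^ kb.1) kb.2 ?_
    intro x hx
    obtain ⟨hxB, hxx, hpar, hk1, hk2⟩ := Finset.mem_filter.1 hx
    have h100 : 100 ≤ x := (le_max_left _ _).trans hxx
    have hN0 : N₀ ≤ x := by
      have h5 : ⌈N₀⌉₊ ≤ x := (le_max_right _ _).trans hxx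
      exact (Nat.le_ceil N₀).trans (by exact_mod_cast h5)
    obtain ⟨hxr, hxS⟩ := Finset.mem_filter.1 hxB
    have hle : x ≤ x ^ 2 := by rw [pow_two]; exact Nat.le_mul_self x
    have hcast : ((x ^ 2 - x : ℕ) : ℝ) = (x : ℝ) ^ 2 - x := by
      rw [Nat.cast_sub hle, Nat.cast_pow]
    refine ⟨h100, hN0, by have := Finset.mem_range.1 hxr; omega, hpar, ?_, ?_, ?_⟩
    · rw [← hcast]
      exact_mod_cast hk1
    · rw [← hcast]
      have h6 : ((x ^ 2 - x : ℕ) : ℝ) < ((2 ^ (kb.1 + 1) : ℕ) : ℝ) := by exact_mod_cast hk2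
      refine h6.trans_le ?_
      push_cast
      rw [pow_succ]
      linarith
    · have h7 := hxS.2.2
      push_neg at h7
      obtain ⟨y, hy1, hy2, hy3⟩ := h7
      refine ⟨y, hy1, hy2, ?_⟩
      rintro ⟨p, q, s, hp, hq, hs, e1, e2, e3, e4, e5⟩
      have := hy3 p q s hp hq hs e1 e2 e3 e4
      linarith
  have h1 : (B.card : ℝ) ≤ x₀ + (KK * 2 : ℕ) * (2 * L) ^ C := by
    have h2 := Finset.card_le_card hcover
    have h3 := h2.trans (Finset.card_union_le _ _)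
    rw [Finset.card_range] at h3
    have h4 : (((Finset.range KK ×ˢ Finset.range 2).biUnion
      (fun kb => B.filter (fun x => x₀ ≤ x ∧ x % 2 = kb.2 ∧ 2 ^ kb.1 ≤ x ^ 2 - x ∧
        x ^ 2 - x < 2 ^ (kb.1 + 1)))).card : ℝ) ≤ (KK * 2 : ℕ) * (2 * L) ^ C := by
      refine (Nat.cast_le.2 Finset.card_biUnion_le).trans ?_
      push_cast
      refine (Finset.sum_le_card_nsmul _ _ _ hpiece).trans ?_
      rw [Finset.card_product, Finset.card_range, Finset.card_range, nsmul_eq_mul]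
      push_cast
      exact le_refl _
    calc (B.card : ℝ) ≤ ((x₀ + ((Finset.range KK ×ˢ Finset.range 2).biUnion
      (fun kb => B.filter (fun x => x₀ ≤ x ∧ x % 2 = kb.2 ∧ 2 ^ kb.1 ≤ x ^ 2 - x ∧
        x ^ 2 - x < 2 ^ (kb.1 + 1)))).card : ℕ) : ℝ) := by exact_mod_cast h3
      _ ≤ _ := by
        rw [Nat.cast_add]
        linarith
  have hKKle : (KK : ℝ) ≤ 4 * L := by
    have h5 : (Nat.log 2 (X ^ 2) : ℝ) ≤ Real.log ((X : ℝ) ^ 2) / Real.log 2 := by
      rw [le_div_iff₀ (Real.log_pos (by norm_num)), ← Real.log_pow]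
      refine Real.log_le_log (by positivity) ?_
      have h6 := Nat.pow_log_le_self 2 (x := X ^ 2) (by
        have : 0 < X := by exact_mod_cast hXpos
        positivity)
      exact_mod_cast h6
    rw [Real.log_pow] at h5
    have h7 := Real.log_two_gt_d9
    have h8 : ((2 : ℕ) : ℝ) * Real.log X / Real.log 2 ≤ 3 * L := by
      rw [div_le_iff₀ (by linarith)]
      push_cast
      nlinarith
    rw [hKK]
    push_cast
    linarith
  have hL1 : 1 ≤ L := by linarith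
  have hLpos : 0 < L := by linarith
  refine h1.trans ?_
  have h9 : (2 * L) ^ C = 2 ^ C * L ^ C := Real.mul_rpow (by norm_num) hLpos.le
  have hLC : 0 < L ^ C := Real.rpow_pos_of_pos hLpos _
  have hLC1 : 1 ≤ L ^ C := Real.one_le_rpow hL1 hC0.le
  calc (x₀ : ℝ) + (KK * 2 : ℕ) * (2 * L) ^ C ≤ x₀ + 8 * L * (2 ^ C * L ^ C) := by
        rw [h9]
        push_cast
        have : (KK : ℝ) * 2 ≤ 8 * L := by linarith
        have h10 := mul_le_mul_of_nonneg_right this (mul_pos h2C hLC).le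
        linarith
    _ ≤ x₀ * (L * L ^ C) + 8 * L * (2 ^ C * L ^ C) := by
        have : (1 : ℝ) ≤ L * L ^ C := by nlinarith
        have h11 : (0 : ℝ) ≤ x₀ := Nat.cast_nonneg _
        nlinarith
    _ = D * (L * L ^ C) := by rw [hD]; ring
    _ ≤ L * (L * L ^ C) := mul_le_mul_of_nonneg_right (by linarith) (by positivity)
    _ = L ^ (C + 2) := by
        rw [Real.rpow_add hLpos, Real.rpow_two]
        ring
    _ ≤ L ^ (2 * C + 2) := Real.rpow_le_rpow_of_exponent_le hL1 (by linarith)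

end Pool.Agent.OX
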