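import Pool.Agent.Lib.OX.Defs
import Pool.Agent.Lib.MR2.ZV
import Pool.Agent.Lib.VMV.ZSDefs

/-!
# PROJECT OX, row GR: growth of the zeta function to the left of the line 1.
helper65
-/

set_option autoImplicit false

namespace Pool.Agent.OX

open Finset Pool.Agent.MRL

noncomputable section

namespace GR

/-- one block, by partial summation. -/
theorem block {s : ℂ} {B : ℝ} (hs : 0 ≤ s.re) {K M : ℕ} (hK : 1 ≤ K) (hM : K ≤ M)
    (hB : ∀ n, K ≤ n → n ≤ M → ‖∑ m ∈ Ioc K n, nt m s.im‖ ≤ B) :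
    ‖∑ n ∈ Ioc K M, (n : ℂ) ^ (-s)‖ ≤ B * (K : ℝ) ^ (-s.re) := by
  have hK0 : (0 : ℝ) < K := by exact_mod_cast hK
  have hB0 : 0 ≤ B := (norm_nonneg _).trans (hB K le_rfl hM)
  have h1 : ∑ n ∈ Ioc K M, (n : ℂ) ^ (-s)
      = ∑ n ∈ Ioc K M, (((n : ℝ) ^ (-s.re) : ℝ) : ℂ) * nt n s.im := by
    refine Finset.sum_congr rfl fun n hn => ?_
    rw [Finset.mem_Ioc] at hn
    have h2 := ZU.cpow_eq_nt (n := n) (by omega) (s.re - 1) s.im
    have h3 : (1 : ℂ) + ((s.re - 1 : ℝ) : ℂ) + s.im * Complex.I = s := by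
      apply Complex.ext <;> simp
    rw [h3] at h2
    rw [h2]
    congr 4
    ring
  rw [h1]
  refine (ZU.abel_bound (fun n => (n : ℝ) ^ (-s.re)) (fun n => nt n s.im) K M hM B ?_ ?_
    hB).trans ?_
  · intro n hn
    have hn0 : (0 : ℝ) < n := by exact_mod_cast (by omega : 0 < n)
    exact Real.rpow_le_rpow_of_nonpos hn0 (by push_cast; linarith) (by linarith)
  · intro n hn
    positivity
  · refine mul_le_mul_of_nonneg_left ?_ hB0
    exact Real.rpow_le_rpow_of_nonpos hK0 (by push_cast; linarith) (by linarith)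

/-- the head. -/
theorem head {s : ℂ} {r : ℝ} (hr : 0 ≤ r) (hs : 1 - r ≤ s.re) {M : ℕ} (hM : 1 ≤ M) :
    ‖∑ n ∈ Icc 1 M, (n : ℂ) ^ (-s)‖ ≤ (M : ℝ) ^ r * (1 + Real.log M) := by
  refine (norm_sum_le _ _).trans ?_
  have h1 : ∑ n ∈ Icc 1 M, ‖(n : ℂ) ^ (-s)‖ ≤ ∑ n ∈ Icc 1 M, (M : ℝ) ^ r * ((n : ℝ))⁻¹ := by
    refine Finset.sum_le_sum fun n hn => ?_
    rw [Finset.mem_Icc] at hn
    have hn1 : (1 : ℝ) ≤ n := by exact_mod_cast hn.1
    have hn0 : (0 : ℝ) < n := by linarith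
    have hnM : (n : ℝ) ≤ M := by exact_mod_cast hn.2
    rw [Complex.norm_natCast_cpow_of_pos (by omega), Complex.neg_re]
    calc (n : ℝ) ^ (-s.re) ≤ (n : ℝ) ^ (r + -1) :=
          Real.rpow_le_rpow_of_exponent_le hn1 (by linarith)
      _ = (n : ℝ) ^ r * ((n : ℝ))⁻¹ := by rw [Real.rpow_add hn0, Real.rpow_neg_one]
      _ ≤ (M : ℝ) ^ r * ((n : ℝ))⁻¹ := by gcongr
  refine h1.trans ?_
  rw [← mul_sum]
  refine mul_le_mul_of_nonneg_left ?_ (by positivity)
  have h2 := harmonic_le_one_add_log M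
  rw [harmonic_eq_sum_Icc] at h2
  push_cast at h2
  exact h2

/-- the exponent in the middle range. -/
theorem expo {c L x : ℝ} (hc : 0 < c) (hL : 1 ≤ L) (hx : L ^ (4 / 5 : ℝ) ≤ x) (hxL : x ≤ L) :
    L ^ (-(9 / 10 : ℝ)) * x - c * x ^ 3 / L ^ 2 ≤ (1 / c) ^ 2 := by
  have hL0 : 0 < L := by linarith
  have hx0 : 0 < x := lt_of_lt_of_le (by positivity) hx
  have h1 : L ^ (8 / 5 : ℝ) ≤ x ^ 2 := by
    calc L ^ (8 / 5 : ℝ) = (L ^ (4 / 5 : ℝ)) ^ (2 : ℕ) := by
          rw [← Real.rpow_natCast, ← Real.rpow_mul hL0.le]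
          norm_num
      _ ≤ x ^ 2 := by gcongr
  have h2 : L ^ (-(2 / 5 : ℝ)) ≤ x ^ 2 / L ^ 2 := by
    rw [le_div_iff₀ (by positivity), ← Real.rpow_natCast L 2, ← Real.rpow_add hL0]
    refine le_trans (le_of_eq ?_) h1
    congr 1
    norm_num
  have h3 : c * x ^ 3 / L ^ 2 = x * (c * (x ^ 2 / L ^ 2)) := by ring
  have h4 : L ^ (-(2 / 5 : ℝ)) = L ^ (-(9 / 10 : ℝ)) * L ^ (1 / 2 : ℝ) := by
    rw [← Real.rpow_add hL0]
    norm_num
  have h5 : L ^ (-(9 / 10 : ℝ)) * x - c * x ^ 3 / L ^ 2 ≤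
      x * (L ^ (-(9 / 10 : ℝ)) * (1 - c * L ^ (1 / 2 : ℝ))) := by
    rw [h3]
    have : c * (L ^ (-(9 / 10 : ℝ)) * L ^ (1 / 2 : ℝ)) ≤ c * (x ^ 2 / L ^ 2) := by
      rw [← h4]
      gcongr
    nlinarith
  refine h5.trans ?_
  have h6 : 0 < L ^ (-(9 / 10 : ℝ)) := by positivity
  rcases le_total 1 (c * L ^ (1 / 2 : ℝ)) with h | h
  · have : L ^ (-(9 / 10 : ℝ)) * (1 - c * L ^ (1 / 2 : ℝ)) ≤ 0 :=
      mul_nonpos_of_nonneg_of_nonpos h6.le (by linarith)
    have h7 : x * (L ^ (-(9 / 10 : ℝ)) * (1 - c * L ^ (1 / 2 : ℝ))) ≤ 0 :=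
      mul_nonpos_of_nonneg_of_nonpos hx0.le this
    exact h7.trans (by positivity)
  · have h7 : L ^ (1 / 2 : ℝ) ≤ 1 / c := by
      rw [le_div_iff₀ hc]
      linarith
    have h8 : L ≤ (1 / c) ^ 2 := by
      calc L = (L ^ (1 / 2 : ℝ)) ^ (2 : ℕ) := by
            rw [← Real.rpow_natCast, ← Real.rpow_mul hL0.le]
            norm_num
        _ ≤ (1 / c) ^ 2 := by gcongr
    have h9 : L ^ (-(9 / 10 : ℝ)) ≤ 1 := Real.rpow_le_one_of_one_le_of_nonpos hL (by norm_num)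
    have h10 : 0 ≤ c * L ^ (1 / 2 : ℝ) := by positivity
    have h11 : L ^ (-(9 / 10 : ℝ)) * (1 - c * L ^ (1 / 2 : ℝ)) ≤ 1 := by
      calc _ ≤ 1 * (1 : ℝ) := mul_le_mul h9 (by linarith) (by linarith) (by norm_num)
        _ = 1 := one_mul 1
    calc x * (L ^ (-(9 / 10 : ℝ)) * (1 - c * L ^ (1 / 2 : ℝ))) ≤ x * 1 := by gcongr
      _ ≤ (1 / c) ^ 2 := by linarith

/-- `log 10 > 2.27` -/
theorem log_ten : (2.27 : ℝ) < Real.log 10 := by
  have h1 : (23 : ℝ) * Real.log 2 ≤ 7 * Real.log 10 := by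
    have h2 : Real.log ((2 : ℝ) ^ 23) ≤ Real.log ((10 : ℝ) ^ 7) :=
      Real.log_le_log (by positivity) (by norm_num)
    rw [Real.log_pow, Real.log_pow] at h2
    exact_mod_cast h2
  have h3 := Real.log_two_gt_d9
  linarith

/-- `(log t)^{-9/10} ≤ 1/2` for `t ≥ 10` -/
theorem r_le {L : ℝ} (hL : (2.27 : ℝ) < L) : L ^ (-(9 / 10 : ℝ)) ≤ 1 / 2 := by
  have hL0 : 0 < L := by linarith
  have h1 : (2 : ℝ) ≤ L ^ (9 / 10 : ℝ) := by
    have h2 : (2 : ℝ) ^ (10 : ℕ) ≤ L ^ (9 : ℕ) := by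
      calc (2 : ℝ) ^ 10 ≤ (2.27 : ℝ) ^ 9 := by norm_num
        _ ≤ L ^ 9 := by gcongr
    have h3 : ((2 : ℝ) ^ (10 : ℕ)) ^ (1 / 10 : ℝ) ≤ (L ^ (9 : ℕ)) ^ (1 / 10 : ℝ) :=
      Real.rpow_le_rpow (by positivity) h2 (by norm_num)
    rw [← Real.rpow_natCast, ← Real.rpow_natCast, ← Real.rpow_mul (by norm_num),
      ← Real.rpow_mul hL0.le] at h3
    norm_num at h3
    exact h3
  rw [Real.rpow_neg hL0.le, one_div]
  exact inv_anti₀ (by norm_num) h1

end GR

open GR in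
/-- **Row GR** -/
theorem gr (hA : ZAP) (hZ : VMV.ZsumS) : GR := by
  obtain ⟨CA, hCA, hA⟩ := hA
  obtain ⟨c, C0, hc, hC0, hZ⟩ := hZ
  obtain ⟨δ, hδ, CV, hCV, hVD⟩ := vdc_row 1 le_rfl
  refine ⟨2 * CA + 2 + 2 * Real.exp C0 * (2 + C0) + 6 * (C0 * Real.exp ((1 / c) ^ 2)) +
    6 * (CV * Real.exp (2 / δ)), by positivity, ?_⟩
  intro s ht10 hσ hσ3
  set t : ℝ := |s.im| with ht
  set L : ℝ := Real.log t with hL
  have ht0 : 0 < t := by linarith
  have hL227 : (2.27 : ℝ) < L := log_ten.trans_le (Real.log_le_log (by norm_num) ht10)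
  have hL1 : 1 ≤ L := by linarith
  have hL0 : 0 < L := by linarith
  set r : ℝ := L ^ (-(9 / 10 : ℝ)) with hr
  have hr0 : 0 < r := by positivity
  have hr2 : r ≤ 1 / 2 := r_le hL227
  have hσ2 : 1 / 2 ≤ s.re := by linarith
  have hs1 : s ≠ 1 := by
    intro h
    rw [h] at ht
    simp at ht
    linarith
  -- lengths
  set N : ℕ := ⌈t ^ 2⌉₊ with hN
  have hN1 : 1 ≤ N := Nat.one_le_iff_ne_zero.mpr (Nat.ceil_pos.mpr (by positivity)).ne'
  have hN0 : (0 : ℝ) < N := by exact_mod_cast hN1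
  have hNt : t ^ 2 ≤ N := Nat.le_ceil _
  have hN2 : (N : ℝ) ≤ 2 * t ^ 2 := by
    have := Nat.ceil_lt_add_one (by positivity : 0 ≤ t ^ 2)
    rw [← hN] at this
    nlinarith
  set M1 : ℕ := ⌈t⌉₊ with hM1
  have hM11 : 1 ≤ M1 := Nat.one_le_iff_ne_zero.mpr (Nat.ceil_pos.mpr ht0).ne'
  have hM1N : M1 ≤ N := Nat.ceil_le_ceil (by nlinarith)
  have htM1 : t ≤ M1 := Nat.le_ceil _
  set y : ℝ := Real.exp (C0 * L ^ (4 / 5 : ℝ)) with hy
  have hy1 : 1 ≤ y := Real.one_le_exp (by positivity)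
  set M0 : ℕ := ⌈y⌉₊ with hM0
  have hM01 : 1 ≤ M0 := Nat.one_le_iff_ne_zero.mpr (Nat.ceil_pos.mpr (by linarith)).ne'
  have hyM : y ≤ M0 := Nat.le_ceil _
  have hM02 : (M0 : ℝ) ≤ 2 * y := by
    have := Nat.ceil_lt_add_one (by linarith : 0 ≤ y)
    rw [← hM0] at this
    linarith
  have hL45 : L ^ (4 / 5 : ℝ) ≤ L := by
    calc L ^ (4 / 5 : ℝ) ≤ L ^ (1 : ℝ) := Real.rpow_le_rpow_of_exponent_le hL1 (by norm_num)
      _ = L := Real.rpow_one L
  have hlogM : 1 + Real.log M0 ≤ (2 + C0) * L := by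
    have h1 : Real.log M0 ≤ Real.log 2 + C0 * L ^ (4 / 5 : ℝ) := by
      calc Real.log M0 ≤ Real.log (2 * y) := Real.log_le_log (by exact_mod_cast hM01) hM02
        _ = Real.log 2 + C0 * L ^ (4 / 5 : ℝ) := by
            rw [Real.log_mul (by norm_num) (by linarith), hy, Real.log_exp]
    have h2 := Real.log_two_lt_d9
    have h3 : C0 * L ^ (4 / 5 : ℝ) ≤ C0 * L := by gcongr
    nlinarith
  have hM0r : (M0 : ℝ) ^ r ≤ 2 * Real.exp C0 := by
    calc (M0 : ℝ) ^ r ≤ (2 * y) ^ r := Real.rpow_le_rpow (by positivity) hM02 hr0.le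
      _ = 2 ^ r * y ^ r := Real.mul_rpow (by norm_num) (by linarith)
      _ ≤ 2 * Real.exp C0 := by
          refine mul_le_mul ?_ ?_ (by positivity) (by norm_num)
          · calc (2 : ℝ) ^ r ≤ 2 ^ (1 : ℝ) :=
                Real.rpow_le_rpow_of_exponent_le (by norm_num) (by linarith)
              _ = 2 := Real.rpow_one 2
          · rw [hy, ← Real.exp_mul]
            apply Real.exp_le_exp.2
            have h1 : L ^ (4 / 5 : ℝ) * r ≤ 1 := by
              rw [hr, ← Real.rpow_add hL0]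
              exact Real.rpow_le_one_of_one_le_of_nonpos hL1 (by norm_num)
            calc C0 * L ^ (4 / 5 : ℝ) * r = C0 * (L ^ (4 / 5 : ℝ) * r) := by ring
              _ ≤ C0 * 1 := by gcongr
              _ = C0 := mul_one C0
  set z : ℕ → ℂ := fun n => (n : ℂ) ^ (-s) with hz
  have hKr : ∀ K : ℕ, 1 ≤ K → (K : ℝ) ^ (-s.re) ≤ (K : ℝ) ^ (r - 1) := by
    intro K hK
    exact Real.rpow_le_rpow_of_exponent_le (by exact_mod_cast hK) (by linarith)
  -- the middle range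
  set b : ℝ := C0 * Real.exp ((1 / c) ^ 2) with hb
  have hb0 : 0 < b := by positivity
  have hmid : ∀ K K' : ℕ, M0 ≤ K → K < M1 → K ≤ K' → K' ≤ 2 * K →
      ‖∑ n ∈ Ioc K K', z n‖ ≤ b := by
    intro K K' hMK hKM hKK' hK'
    have hK1 : 1 ≤ K := by omega
    have hK0 : (0 : ℝ) < K := by exact_mod_cast hK1
    have hKt : (K : ℝ) ≤ t := (Nat.lt_ceil.mp hKM).le
    have hyK : y ≤ K := hyM.trans (by exact_mod_cast hMK)
    have hlK : C0 * L ^ (4 / 5 : ℝ) ≤ Real.log K := by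
      rw [Real.le_log_iff_exp_le hK0]
      exact hyK
    refine (block (B := C0 * K * Real.exp (-(c * (Real.log K) ^ 3 / L ^ 2))) (by linarith) hK1 hKK'
      ?_).trans ?_
    · intro n hKn hn
      rw [MR2.ZV.norm_nt_sum]
      have h1 := hZ K n t 0 le_rfl zero_le_one (by linarith) hKn (by omega) hKt hlK
      simp only [add_zero] at h1
      exact h1
    · calc C0 * K * Real.exp (-(c * (Real.log K) ^ 3 / L ^ 2)) * (K : ℝ) ^ (-s.re)
          ≤ C0 * K * Real.exp (-(c * (Real.log K) ^ 3 / L ^ 2)) * (K : ℝ) ^ (r - 1) := by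
            exact mul_le_mul_of_nonneg_left (hKr K hK1) (by positivity)
        _ = C0 * Real.exp (r * Real.log K - c * (Real.log K) ^ 3 / L ^ 2) := by
            have e1 : (K : ℝ) ^ (r - 1) = (K : ℝ)⁻¹ * Real.exp (r * Real.log K) := by
              rw [Real.rpow_sub hK0, Real.rpow_one, Real.rpow_def_of_pos hK0, mul_comm r,
                div_eq_inv_mul]
            rw [e1, sub_eq_add_neg, Real.exp_add]
            field_simp
        _ ≤ b := by
            rw [hb]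
            refine mul_le_mul_of_nonneg_left (Real.exp_le_exp.2 ?_) (by linarith)
            refine expo hc hL1 ?_ (Real.log_le_log hK0 hKt)
            refine le_trans ?_ hlK
            have : (0 : ℝ) ≤ L ^ (4 / 5 : ℝ) := by positivity
            nlinarith
  -- number of dyadic blocks
  set d : ℕ := ⌈4 * L⌉₊ + 1 with hd
  have hdL : (d : ℝ) ≤ 6 * L := by
    have := Nat.ceil_lt_add_one (by positivity : 0 ≤ 4 * L)
    rw [hd]
    push_cast
    linarith
  have hNd : N ≤ 2 ^ d := by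
    have h5 : (N : ℝ) ≤ 2 ^ d := by
      calc (N : ℝ) ≤ 2 * t ^ 2 := hN2
        _ = 2 * Real.exp (2 * L) := by
            rw [two_mul L, Real.exp_add, hL, Real.exp_log ht0]
            ring
        _ ≤ 2 * Real.exp (Real.log 2 * (⌈4 * L⌉₊ : ℝ)) := by
            refine mul_le_mul_of_nonneg_left (Real.exp_le_exp.2 ?_) (by norm_num)
            have h6 : 4 * L ≤ (⌈4 * L⌉₊ : ℝ) := Nat.le_ceil _
            have h7 := Real.log_two_gt_d9
            nlinarith
        _ = 2 ^ d := by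
            rw [hd, pow_succ, mul_comm (Real.log 2), Real.exp_nat_mul,
              Real.exp_log (by norm_num), mul_comm]
    exact_mod_cast h5
  have hM1d : M1 ≤ 2 ^ d := hM1N.trans hNd
  -- the upper range
  set b2 : ℝ := CV * Real.exp (2 / δ) with hb2
  have hb20 : 0 < b2 := by positivity
  have hupr : ∀ K K' : ℕ, M1 ≤ K → K < N → K ≤ K' → K' ≤ 2 * K →
      ‖∑ n ∈ Ioc K K', z n‖ ≤ b2 := by
    intro K K' hMK hKN hKK' hK'
    have hK1 : 1 ≤ K := by omega
    have hK0 : (0 : ℝ) < K := by exact_mod_cast hK1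
    have htK : t ≤ K := htM1.trans (by exact_mod_cast hMK)
    have hKt2 : (K : ℝ) < t ^ 2 := Nat.lt_ceil.mp hKN
    refine (block (B := CV * (K : ℝ) ^ (1 - δ)) (by linarith) hK1 hKK' ?_).trans ?_
    · intro n hKn hn
      refine hVD K n hK1 (by omega) s.im ?_ ?_
      · rw [← ht]
        exact Real.sqrt_le_iff.mpr ⟨ht0.le, hKt2.le⟩
      · rw [Real.rpow_one, ← ht]
        exact htK
    · calc CV * (K : ℝ) ^ (1 - δ) * (K : ℝ) ^ (-s.re) ≤ CV * (K : ℝ) ^ (1 - δ) * (K : ℝ) ^ (r - 1) := by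
            exact mul_le_mul_of_nonneg_left (hKr K hK1) (by positivity)
        _ = CV * (K : ℝ) ^ (r - δ) := by
            rw [mul_assoc, ← Real.rpow_add hK0]
            congr 2
            ring
        _ ≤ b2 := by
            rw [hb2]
            refine mul_le_mul_of_nonneg_left ?_ hCV.le
            rcases le_total r δ with h | h
            · exact (Real.rpow_le_one_of_one_le_of_nonpos (by exact_mod_cast hK1)
                (by linarith)).trans (Real.one_le_exp (by positivity))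
            · rw [Real.rpow_def_of_pos hK0]
              apply Real.exp_le_exp.2
              have hlK : Real.log K ≤ 2 * L := by
                have h1 := Real.log_le_log hK0 hKt2.le
                rw [Real.log_pow] at h1
                exact_mod_cast h1
              have hlK0 : 0 ≤ Real.log K := Real.log_nonneg (by exact_mod_cast hK1)
              have h2 : r * L ≤ L ^ (9 / 10 : ℝ) := by
                calc r * L = L ^ (-(9 / 10 : ℝ)) * L ^ (1 : ℝ) := by rw [Real.rpow_one]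
                  _ = L ^ (-(9 / 10 : ℝ) + 1) := (Real.rpow_add hL0 _ _).symm
                  _ ≤ L ^ (9 / 10 : ℝ) := Real.rpow_le_rpow_of_exponent_le hL1 (by norm_num)
              have h3 : L ^ (9 / 10 : ℝ) ≤ 1 / δ := by
                rw [le_div_iff₀ hδ]
                calc L ^ (9 / 10 : ℝ) * δ ≤ L ^ (9 / 10 : ℝ) * r := by gcongr
                  _ = 1 := by
                      rw [hr, ← Real.rpow_add hL0, add_neg_cancel, Real.rpow_zero]
              calc Real.log K * (r - δ) ≤ (2 * L) * r := by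
                    refine mul_le_mul hlK (by linarith) (by linarith) (by linarith)
                _ = 2 * (r * L) := by ring
                _ ≤ 2 * (1 / δ) := by linarith
                _ = 2 / δ := by ring
  have s1 : ∀ A B : ℕ, A ≤ B → ∑ n ∈ Icc 1 B, z n = ∑ n ∈ Icc 1 A, z n + ∑ n ∈ Ioc A B, z n := by
    intro A B hAB
    rw [← Finset.sum_union]
    · congr 1
      ext x; simp only [Finset.mem_Ioc, Finset.mem_Icc, Finset.mem_union]; omega
    · rw [Finset.disjoint_left]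
      intro x hx hx'
      simp only [Finset.mem_Ioc, Finset.mem_Icc] at hx hx'
      omega
  have hdb : (d : ℝ) * b ≤ 6 * L * b := by gcongr
  have hdb2 : (d : ℝ) * b2 ≤ 6 * L * b2 := by gcongr
  have hhead : ∀ M : ℕ, 1 ≤ M → M ≤ M0 →
      ‖∑ n ∈ Icc 1 M, z n‖ ≤ 2 * Real.exp C0 * ((2 + C0) * L) := by
    intro M hM hMM
    have hM' : (0 : ℝ) < M := by exact_mod_cast hM
    have hMM' : (M : ℝ) ≤ M0 := by exact_mod_cast hMM
    refine (head hr0.le hσ hM).trans ?_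
    have h1 : (M : ℝ) ^ r ≤ 2 * Real.exp C0 := (Real.rpow_le_rpow hM'.le hMM' hr0.le).trans hM0r
    have h2 : 1 + Real.log M ≤ (2 + C0) * L := by
      have := Real.log_le_log hM' hMM'
      linarith
    have h3 : 0 ≤ Real.log M := Real.log_nonneg (by exact_mod_cast hM)
    exact mul_le_mul h1 h2 (by linarith) (by positivity)
  have hA1 : ‖∑ n ∈ Icc 1 M1, z n‖ ≤ 2 * Real.exp C0 * ((2 + C0) * L) + 6 * L * b := by
    by_cases hM : M0 ≤ M1
    · rw [s1 M0 M1 hM]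
      refine (norm_add_le _ _).trans ?_
      have h6 := MR2.ZV.dyadic_count z hb0.le hmid d M0 le_rfl
        (hM1d.trans (Nat.le_mul_of_pos_right _ hM01))
      have h5 := hhead M0 hM01 le_rfl
      linarith
    · push Not at hM
      have h5 := hhead M1 hM11 hM.le
      have h7 : 0 ≤ 6 * L * b := by positivity
      linarith
  have hB1 : ‖∑ n ∈ Ioc M1 N, z n‖ ≤ 6 * L * b2 :=
    (MR2.ZV.dyadic_count z hb20.le hupr d M1 le_rfl
      (hNd.trans (Nat.le_mul_of_pos_right _ hM11))).trans hdb2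
  have hsum : ‖∑ n ∈ Icc 1 N, z n‖ ≤
      2 * Real.exp C0 * ((2 + C0) * L) + 6 * L * b + 6 * L * b2 := by
    rw [s1 M1 N hM1N]
    refine (norm_add_le _ _).trans ?_
    linarith
  -- the pole term
  have hsqrt : t ≤ √(N : ℝ) := Real.le_sqrt_of_sq_le hNt
  have hsqrt2 : √(N : ℝ) ≤ 2 * t := by
    rw [Real.sqrt_le_left (by positivity)]
    nlinarith
  have hpole : ‖(N : ℂ) ^ (1 - s) / (s - 1)‖ ≤ 2 := by
    rw [norm_div, Complex.norm_natCast_cpow_of_pos (by omega)]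
    have h1 : t ≤ ‖s - 1‖ := by
      have := Complex.abs_im_le_norm (s - 1)
      simpa [ht] using this
    rw [div_le_iff₀ (by linarith)]
    have h2 : (N : ℝ) ^ (1 - s).re ≤ √(N : ℝ) := by
      rw [Real.sqrt_eq_rpow]
      refine Real.rpow_le_rpow_of_exponent_le (by exact_mod_cast hN1) ?_
      simp only [Complex.sub_re, Complex.one_re]
      linarith
    linarith
  have herr : CA * ‖s‖ * (N : ℝ) ^ (-s.re) ≤ 2 * CA := by
    have h1 : ‖s‖ ≤ 2 * t := by
      have := Complex.norm_le_abs_re_add_abs_im s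
      rw [← ht, abs_of_nonneg (by linarith : 0 ≤ s.re)] at this
      linarith
    have h2 : (N : ℝ) ^ (-s.re) ≤ 1 / t := by
      calc (N : ℝ) ^ (-s.re) ≤ (N : ℝ) ^ (-(1 / 2 : ℝ)) :=
            Real.rpow_le_rpow_of_exponent_le (by exact_mod_cast hN1) (by linarith)
        _ = 1 / √(N : ℝ) := by
            rw [Real.rpow_neg hN0.le, Real.sqrt_eq_rpow]
            exact (one_div _).symm
        _ ≤ 1 / t := by gcongr
    calc CA * ‖s‖ * (N : ℝ) ^ (-s.re) ≤ CA * (2 * t) * (1 / t) := by gcongr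
      _ = 2 * CA := by field_simp
  have happ := hA s N hσ2 hσ3 hs1 hN1
  have h12 : ‖riemannZeta s‖ ≤ ‖∑ n ∈ Icc 1 N, z n‖ + ‖(N : ℂ) ^ (1 - s) / (s - 1)‖
        + ‖riemannZeta s - (∑ n ∈ Icc 1 N, z n + (N : ℂ) ^ (1 - s) / (s - 1))‖ := by
    have h13 := norm_add_le (∑ n ∈ Icc 1 N, z n + (N : ℂ) ^ (1 - s) / (s - 1))
      (riemannZeta s - (∑ n ∈ Icc 1 N, z n + (N : ℂ) ^ (1 - s) / (s - 1)))
    rw [add_sub_cancel] at h13
    exact h13.trans (add_le_add (norm_add_le _ _) le_rfl)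
  have h15 : 2 * CA + 2 ≤ (2 * CA + 2) * L := by nlinarith
  have h16 : (2 * CA + 2 + 2 * Real.exp C0 * (2 + C0) + 6 * b + 6 * b2) * L =
      (2 * CA + 2) * L + 2 * Real.exp C0 * ((2 + C0) * L) + 6 * L * b + 6 * L * b2 := by ring
  rw [h16]
  linarith

end

end Pool.Agent.OX
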