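import Pool.Agent.Lib.OX.INTa

/-!
# PROJECT OX (MP_bf4c7f_nt), row INT: the integral of the error term against few well spaced
shifts.  helper89.
-/

set_option autoImplicit false

namespace Pool.Agent.OX

open Finset MeasureTheory Pool.Agent.MRL Pool.Agent.MRF Pool.Agent.MR2

namespace INT

theorem log_small {v : ℝ} (hv : 600 ≤ v) : 12 * Real.log (v + 1 + 2) ≤ v := by
  have h1 : Real.log (v + 1 + 2) ≤ 2 * √(v + 1 + 2) := by
    have h2 : Real.log (v + 1 + 2) = 2 * Real.log (√(v + 1 + 2)) := by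
      rw [Real.log_sqrt (by linarith)]
      ring
    rw [h2]
    have h3 : Real.log (√(v + 1 + 2)) ≤ √(v + 1 + 2) := Real.log_le_self (Real.sqrt_nonneg _)
    linarith
  have h4 : √(v + 1 + 2) ≤ v / 24 := by
    rw [Real.sqrt_le_left (by linarith)]
    nlinarith
  linarith

theorem sqrt_le_me {x : ℝ} (hx : 1 ≤ x) : √x ≤ x := by
  rw [Real.sqrt_le_left (by linarith)]
  nlinarith

theorem le_sq_me {x : ℝ} (hx : 1 ≤ x) : x ≤ x ^ 2 := by
  nlinarith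

theorem ev (K A θ X0 : ℝ) (hθ : 0 < θ) (hA : 1 ≤ A) : ∃ N₀ : ℝ, ∀ N : ℝ, N₀ ≤ N →
    129 ≤ Real.log N ∧ (Real.log N) ^ (4 * (A + K + 5)) ≤ √N ∧ X0 ≤ √N ∧
    X0 ≤ Real.exp (√(Real.log N / 2)) ∧
    A * Real.log (Real.log N) + 2 ≤ θ / 16 * √(Real.log N / 2) ∧
    X0 ≤ A * Real.log (Real.log N) := by
  have t1 : Filter.Tendsto Real.log Filter.atTop Filter.atTop := Real.tendsto_log_atTop
  have t2 : Filter.Tendsto (fun N : ℝ => √N) Filter.atTop Filter.atTop := Real.tendsto_sqrt_atTop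
  have t3 : Filter.Tendsto (fun N : ℝ => Real.exp (√(Real.log N / 2))) Filter.atTop
      Filter.atTop :=
    Real.tendsto_exp_atTop.comp (t2.comp (t1.atTop_div_const (by norm_num)))
  have t4 : Filter.Tendsto (fun N : ℝ => A * Real.log (Real.log N)) Filter.atTop
      Filter.atTop := (t1.comp t1).const_mul_atTop (by linarith)
  have e2 : ∀ᶠ N : ℝ in Filter.atTop, (Real.log N) ^ (4 * (A + K + 5)) ≤ √N := by
    have h := (isLittleO_log_rpow_rpow_atTop (s := 1 / 2) (4 * (A + K + 5)) (by norm_num)).bound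
      (c := 1) one_pos
    filter_upwards [h, Filter.eventually_ge_atTop 1] with N h hN
    rw [one_mul, Real.norm_eq_abs, Real.norm_eq_abs] at h
    have h1 : |N ^ (1 / 2 : ℝ)| = √N := by
      rw [Real.sqrt_eq_rpow, abs_of_nonneg (Real.rpow_nonneg (by linarith) _)]
    rw [h1] at h
    exact (le_abs_self _).trans h
  have e5 : ∀ᶠ u : ℝ in Filter.atTop, A * Real.log u + 2 ≤ θ / 16 * √(u / 2) := by
    have hε : 0 < θ / 64 / A := by positivity
    have h := (isLittleO_log_rpow_atTop (r := 1 / 2) (by norm_num)).bound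
      (c := θ / 64 / A) hε
    filter_upwards [h, Filter.eventually_ge_atTop 1, t2.eventually_ge_atTop (128 / θ)]
      with u h hu hu2
    rw [Real.norm_eq_abs, Real.norm_eq_abs] at h
    have h1 : |u ^ (1 / 2 : ℝ)| = √u := by
      rw [Real.sqrt_eq_rpow, abs_of_nonneg (Real.rpow_nonneg (by linarith) _)]
    rw [h1] at h
    have h2 : Real.log u ≤ θ / 64 / A * √u := (le_abs_self _).trans h
    have h3 : A * Real.log u ≤ θ / 64 * √u := by
      calc A * Real.log u ≤ A * (θ / 64 / A * √u) := by gcongr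
        _ = θ / 64 * √u := by field_simp
    have h4 : √u / 2 ≤ √(u / 2) := by
      apply Real.le_sqrt_of_sq_le
      rw [div_pow, Real.sq_sqrt (by linarith)]
      linarith
    have h5 : 2 ≤ θ / 64 * √u := by
      rw [div_le_iff₀ hθ] at hu2
      linarith
    have h6 : θ / 16 * (√u / 2) ≤ θ / 16 * √(u / 2) := by gcongr
    linarith
  have e := (((t1.eventually_ge_atTop 129).and e2).and
    ((t2.eventually_ge_atTop X0).and (t3.eventually_ge_atTop X0))).and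
    ((t1.eventually e5).and (t4.eventually_ge_atTop X0))
  obtain ⟨N₀, h⟩ := Filter.eventually_atTop.mp e
  refine ⟨N₀, fun N hN => ?_⟩
  obtain ⟨⟨⟨a1, a2⟩, a3, a4⟩, a5, a6⟩ := h N hN
  exact ⟨a1, a2, a3, a4, a5, a6⟩

/-- the numerical estimate of the good part. -/
theorem good_num {L j M C1 C2 δ I : ℝ} (hL : 1 ≤ L) (hj : 1 ≤ j) (hM : 0 ≤ M) (hC1 : 0 ≤ C1)
    (hC2 : 0 ≤ C2) (hδ : 0 ≤ δ) (hδL : δ * L ^ 12 ≤ 1)
    (hI : I ≤ C1 * (j ^ 2 * L + j * M ^ 2) / (j + √j * M) + (j + √j * M) * (C2 * L ^ 4)) :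
    δ * I ≤ (C1 + C2) * (j * L ^ (-(3 : ℝ)) + √j * M) := by
  have hL0 : 0 < L := by linarith
  have hj0 : 0 < j := by linarith
  have hsj : 0 < √j := Real.sqrt_pos.mpr hj0
  have hsj2 : √j * √j = j := Real.mul_self_sqrt hj0.le
  have hμ : 0 < j + √j * M := by positivity
  have h1 : C1 * (j ^ 2 * L + j * M ^ 2) / (j + √j * M) ≤ C1 * (j * L + √j * M) := by
    rw [div_le_iff₀ hμ, mul_assoc]
    refine mul_le_mul_of_nonneg_left ?_ hC1
    have h2 : (j * L + √j * M) * (j + √j * M) =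
        j ^ 2 * L + (√j * √j) * M ^ 2 + (j * L * (√j * M) + √j * M * j) := by ring
    rw [h2, hsj2]
    have h3 : 0 ≤ j * L * (√j * M) + √j * M * j := by positivity
    linarith
  have h4 : L ^ (-(3 : ℝ)) = (L ^ 3)⁻¹ := by
    rw [Real.rpow_neg hL0.le]
    norm_cast
  have h5 : I ≤ (C1 + C2) * (L ^ 4 * (j + √j * M)) := by
    have hLn : 1 ≤ L ^ 4 := one_le_pow₀ hL
    have hL4 : L ≤ L ^ 4 := by
      calc L = L ^ 1 := (pow_one L).symm
        _ ≤ L ^ 4 := pow_le_pow_right₀ hL (by norm_num)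
    have h6 : j * L + √j * M ≤ L ^ 4 * (j + √j * M) := by
      have h7 : j * L ≤ j * L ^ 4 := by gcongr
      have h8 : 0 ≤ √j * M := by positivity
      nlinarith
    have h9 : C1 * (j * L + √j * M) ≤ C1 * (L ^ 4 * (j + √j * M)) := by gcongr
    linarith
  have h10 : 0 ≤ (C1 + C2) * (j + √j * M) := by positivity
  calc δ * I ≤ δ * ((C1 + C2) * (L ^ 4 * (j + √j * M))) := by gcongr
    _ = (δ * L ^ 12) * ((C1 + C2) * (j + √j * M)) * (L ^ 8)⁻¹ := by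
        field_simp
    _ ≤ 1 * ((C1 + C2) * (j + √j * M)) * (L ^ 8)⁻¹ := by gcongr
    _ = (C1 + C2) * (j * (L ^ 8)⁻¹ + √j * M * (L ^ 8)⁻¹) := by ring
    _ ≤ (C1 + C2) * (j * L ^ (-(3 : ℝ)) + √j * M) := by
        rw [h4]
        have h11 : (L ^ 8)⁻¹ ≤ (L ^ 3)⁻¹ := by
          apply inv_anti₀ (by positivity)
          exact pow_le_pow_right₀ hL (by norm_num)
        have h12 : (L ^ 8)⁻¹ ≤ 1 := inv_le_one_of_one_le₀ (one_le_pow₀ hL)
        have h13 : √j * M * (L ^ 8)⁻¹ ≤ √j * M := mul_le_of_le_one_right (by positivity) h12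
        gcongr

/-- the numerical estimate of the cell part. -/
theorem cell_num {L l S1 S2 C1 C2 : ℝ} (hL : 129 ≤ L) (hl : L / 2 ≤ l) (hC1 : 0 ≤ C1)
    (hC2 : 0 ≤ C2) (h1 : S1 ≤ C1 * l) (h2 : S2 ≤ C2 * l ^ (-(20 : ℝ))) :
    S1 * (l ^ 10)⁻¹ + S2 / (l ^ 10)⁻¹ ≤ (C1 + C2) * L ^ (-(3 : ℝ)) := by
  have hL0 : 0 < L := by linarith
  have hl0 : 0 < l := by linarith
  have hl1 : 1 ≤ l := by linarith
  have h3 : l ^ (-(20 : ℝ)) = (l ^ 20)⁻¹ := by
    rw [Real.rpow_neg hl0.le]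
    norm_cast
  have h4 : L ^ (-(3 : ℝ)) = (L ^ 3)⁻¹ := by
    rw [Real.rpow_neg hL0.le]
    norm_cast
  rw [h3] at h2
  rw [h4]
  have h5 : (l ^ 9)⁻¹ ≤ (L ^ 3)⁻¹ := by
    apply inv_anti₀ (by positivity)
    have h6 : L ≤ l ^ 2 := by nlinarith
    calc L ^ 3 ≤ (l ^ 2) ^ 3 := by gcongr
      _ = l ^ 6 := by ring
      _ ≤ l ^ 9 := pow_le_pow_right₀ hl1 (by norm_num)
  have h7 : S1 * (l ^ 10)⁻¹ ≤ C1 * (l ^ 9)⁻¹ := by
    calc S1 * (l ^ 10)⁻¹ ≤ C1 * l * (l ^ 10)⁻¹ := by gcongr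
      _ = C1 * (l ^ 9)⁻¹ := by field_simp
  have h8 : S2 / (l ^ 10)⁻¹ ≤ C2 * (l ^ 9)⁻¹ := by
    rw [div_inv_eq_mul]
    calc S2 * l ^ 10 ≤ C2 * (l ^ 20)⁻¹ * l ^ 10 := by gcongr
      _ = C2 * (l ^ 10)⁻¹ := by field_simp
      _ ≤ C2 * (l ^ 9)⁻¹ := by
          gcongr
          norm_num
  calc S1 * (l ^ 10)⁻¹ + S2 / (l ^ 10)⁻¹ ≤ (C1 + C2) * (l ^ 9)⁻¹ := by linarith
    _ ≤ (C1 + C2) * (L ^ 3)⁻¹ := by gcongr

/-- the numerical estimate of the tail. -/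
theorem tail_num {N T y L j : ℝ} (hL : 129 ≤ L) (hN : N = Real.exp L) (hT0 : 0 ≤ T) (hT : T ≤ N)
    (hy0 : 0 ≤ y) (hy : y ≤ N) (hj : 0 ≤ j) :
    3 * (2 * j) * (y ^ 2 + 4) * Real.exp (-(L ^ 2 / 2)) * (3 * T) ≤ j * L ^ (-(3 : ℝ)) := by
  have hL0 : 0 < L := by linarith
  have hN4 : 4 ≤ N ^ 2 := by
    have h1 : 2 ≤ N := by
      rw [hN]
      linarith [Real.add_one_le_exp L]
    nlinarith
  have h4 : L ^ (-(3 : ℝ)) = (L ^ 3)⁻¹ := by
    rw [Real.rpow_neg hL0.le]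
    norm_cast
  have h5 : y ^ 2 + 4 ≤ 2 * N ^ 2 := by
    have : y ^ 2 ≤ N ^ 2 := by gcongr
    linarith
  have hN0 : 0 ≤ N := by rw [hN]; exact (Real.exp_pos _).le
  have h6 : L ^ 3 ≤ Real.exp (3 * L) := by
    have h7 : L ≤ Real.exp L := by linarith [Real.add_one_le_exp L]
    calc L ^ 3 ≤ (Real.exp L) ^ 3 := by gcongr
      _ = Real.exp (3 * L) := by
        rw [← Real.exp_nat_mul]
        norm_num
  have h8 : N ^ 3 = Real.exp (3 * L) := by
    rw [hN, ← Real.exp_nat_mul]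
    norm_num
  have h36 : (36 : ℝ) ≤ Real.exp 36 := by linarith [Real.add_one_le_exp (36 : ℝ)]
  have h9 : 36 * N ^ 3 * Real.exp (-(L ^ 2 / 2)) * L ^ 3 ≤ 1 := by
    calc 36 * N ^ 3 * Real.exp (-(L ^ 2 / 2)) * L ^ 3
        ≤ Real.exp 36 * Real.exp (3 * L) * Real.exp (-(L ^ 2 / 2)) * Real.exp (3 * L) := by
          rw [h8]
          gcongr
      _ = Real.exp (36 + 3 * L + -(L ^ 2 / 2) + 3 * L) := by
          rw [Real.exp_add, Real.exp_add, Real.exp_add]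
      _ ≤ 1 := by
          rw [Real.exp_le_one_iff]
          nlinarith
  rw [h4]
  have hL3 : 0 < L ^ 3 := by positivity
  calc 3 * (2 * j) * (y ^ 2 + 4) * Real.exp (-(L ^ 2 / 2)) * (3 * T)
      ≤ 3 * (2 * j) * (2 * N ^ 2) * Real.exp (-(L ^ 2 / 2)) * (3 * N) := by gcongr
    _ = j * (36 * N ^ 3 * Real.exp (-(L ^ 2 / 2)) * L ^ 3) * (L ^ 3)⁻¹ := by
        field_simp
        ring
    _ ≤ j * 1 * (L ^ 3)⁻¹ := by gcongr
    _ = j * (L ^ 3)⁻¹ := by ring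

end INT

open INT in
/-- ROW INT. -/
theorem int_row (hR : RD) (hM : ME) (hS : SQ) (hH : HMInt) (hL : LargeCount) : INT := by
  classical
  obtain ⟨CR, hCR, hR⟩ := hR
  obtain ⟨CM, hCM, hM⟩ := hM
  obtain ⟨θ1, hθ1, hθ1', hS⟩ := hS
  obtain ⟨θ2, hθ2, hθ2', CH, hCH, XH, hH⟩ := hH
  intro K hK
  obtain ⟨CS, XS, hCS, hS⟩ := hS 20
  obtain ⟨θ, hθ⟩ : ∃ θ : ℝ, θ = min θ1 θ2 := ⟨_, rfl⟩
  have hθ0 : 0 < θ := by rw [hθ]; exact lt_min hθ1 hθ2
  have hθle1 : θ ≤ θ1 := by rw [hθ]; exact min_le_left _ _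
  have hθle2 : θ ≤ θ2 := by rw [hθ]; exact min_le_right _ _
  have hθ1 : θ ≤ 1 := hθle1.trans hθ1'
  obtain ⟨XL, hL⟩ := hL θ hθ0 hθ1
  obtain ⟨A, hA⟩ : ∃ A : ℝ, A = 192 / θ := ⟨_, rfl⟩
  have hA1 : 1 ≤ A := by
    rw [hA, le_div_iff₀ hθ0]
    linarith
  obtain ⟨N₀, hN₀⟩ := ev K A θ (max (max XS XH) (max XL 600)) hθ0 hA1
  obtain ⟨C, hC⟩ : ∃ C : ℝ, C = (CR + 16 * CM) + 3 * (2 * (CH + CS)) + 1 + (A + 2 * K + 7) :=
    ⟨_, rfl⟩
  have hCa : (CR + 16 * CM) + 3 * (2 * (CH + CS)) + 1 ≤ C := by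
    rw [hC]
    linarith
  have hCb : A + 2 * K + 7 ≤ C := by
    rw [hC]
    linarith [mul_pos (by norm_num : (0 : ℝ) < 16) hCM]
  have hC0 : 0 < C := by linarith
  refine ⟨A, C, N₀, hA1, hC0, ?_⟩
  intro N Q hN hQ J c hJ hsep hc
  obtain ⟨h1, h2, h3, h4, h5, h6⟩ := hN₀ N hN
  have hnum := num hK hA1 h1 h2 hQ
  obtain ⟨L, hLdef⟩ : ∃ L : ℝ, L = Real.log N := ⟨_, rfl⟩
  obtain ⟨T, hTdef⟩ : ∃ T : ℝ, T = TP K N := ⟨_, rfl⟩
  obtain ⟨y, hydef⟩ : ∃ y : ℝ, y = yP A N Q := ⟨_, rfl⟩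
  obtain ⟨v, hvdef⟩ : ∃ v : ℕ, v = vP A N := ⟨_, rfl⟩
  rw [← hLdef, ← hTdef, ← hydef] at hnum
  obtain ⟨hN0, hT1, hQ1, n1, n2, n3, n4, n5, n6, n7, n8, n9, n10, n11, n12, n13, n14⟩ := hnum
  rw [← hTdef, ← hydef, ← hvdef, ← hLdef]
  rw [← hLdef] at h1 h4 h5 h6 hsep
  have hL0 : 0 < L := by linarith
  have hL1 : 1 ≤ L := by linarith
  have hNexp : N = Real.exp L := by rw [hLdef, Real.exp_log hN0]
  have hlogsq : Real.log (√N) = L / 2 := by rw [Real.log_sqrt hN0.le, hLdef]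
  have hT0 : 0 < T := by linarith
  have hQ0 : 0 < Q := by linarith
  have hN1 : 1 ≤ N := by linarith
  have hpow : 0 < L ^ (-(3 : ℝ)) := Real.rpow_pos_of_pos hL0 _
  -- thresholds
  obtain ⟨X, hX⟩ : ∃ X : ℝ, X = T * L := ⟨_, rfl⟩
  rw [← hX] at n4 n5 n7 n8 n12 n13 n14
  have hXT : max (max XS XH) (max XL 600) ≤ X := h3.trans n4
  have hXS : XS ≤ X := (le_max_left _ _).trans ((le_max_left _ _).trans hXT)
  have hXH : XH ≤ X := (le_max_right _ _).trans ((le_max_left _ _).trans hXT)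
  have hX600 : 600 ≤ X := (le_max_right _ _).trans ((le_max_right _ _).trans hXT)
  have hX0 : 0 < X := by linarith
  have hlX1 : L / 2 ≤ Real.log X := by
    rw [← hlogsq]
    exact Real.log_le_log (Real.sqrt_pos.mpr hN0) n4
  have hlX2 : Real.log X ≤ L := by
    rw [hLdef]
    exact Real.log_le_log hX0 n5
  -- the case of no points
  rcases Finset.eq_empty_or_nonempty J with hJe | hJne
  · subst hJe
    simp
  have hj1 : (1 : ℝ) ≤ J.card := by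
    exact_mod_cast Finset.card_pos.mpr hJne
  obtain ⟨j, hj⟩ : ∃ j : ℝ, j = (J.card : ℝ) := ⟨_, rfl⟩
  rw [← hj] at hj1
  have hj0 : 0 < j := by linarith
  -- v
  have hlogL : 0 ≤ Real.log L := Real.log_nonneg hL1
  have hv1 : A * Real.log L ≤ v := by
    rw [hvdef, hLdef]
    exact Nat.le_ceil _
  have hv2 : (v : ℝ) < A * Real.log L + 1 := by
    rw [hvdef]
    unfold vP
    rw [← hLdef]
    exact Nat.ceil_lt_add_one (mul_nonneg (by linarith) hlogL)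
  have hv600 : 600 ≤ (v : ℝ) :=
    ((le_max_right _ _).trans ((le_max_right _ _).trans h6)).trans hv1
  have hv1' : 1 ≤ v := by
    have : (1 : ℝ) ≤ v := by linarith
    exact_mod_cast this
  -- the functions
  obtain ⟨D, hD⟩ : ∃ D : ℝ → ℂ, D = fun t => AF pr Q t *
      ∑ x ∈ J, c x * Complex.exp (((t * Real.log x : ℝ) : ℂ) * Complex.I) := ⟨_, rfl⟩
  have hDc : Continuous D := by
    rw [hD]
    refine (continuous_AF pr Q).mul (continuous_finsetSum _ fun x _ => ?_)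
    fun_prop
  have hDle' : ∀ t, ‖D t‖ ≤ ‖AF pr Q t‖ * j := by
    intro t
    rw [hD]
    simp only
    rw [norm_mul]
    refine mul_le_mul_of_nonneg_left ?_ (norm_nonneg _)
    have hx : ∀ x ∈ J, ‖c x * Complex.exp (((t * Real.log x : ℝ) : ℂ) * Complex.I)‖ ≤ 1 := by
      intro x _
      rw [norm_mul, Complex.norm_exp_ofReal_mul_I, mul_one]
      exact hc x
    refine (norm_sum_le _ _).trans ((Finset.sum_le_card_nsmul _ _ _ hx).trans ?_)
    rw [nsmul_eq_mul, mul_one, hj]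
  have hAF2 : ∀ t, ‖AF pr Q t‖ ≤ 2 := fun t => norm_AF_le2 norm_pr_le hQ1 t
  have hDle : ∀ t, ‖D t‖ ≤ 2 * j := by
    intro t
    refine (hDle' t).trans ?_
    exact mul_le_mul_of_nonneg_right (hAF2 t) hj0.le
  have hint : ∀ t, ‖MRL.Q 1 v t * (AF pr Q t *
      ∑ x ∈ J, c x * Complex.exp (((t * Real.log x : ℝ) : ℂ) * Complex.I)) * Ey y t‖ * g T t =
      ‖MRL.Q 1 v t‖ * ‖D t‖ * ‖Ey y t‖ * g T t := by
    intro t
    rw [hD, norm_mul, norm_mul]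
  simp only [hint]
  rw [← hj]
  -- the threshold
  obtain ⟨α, hα⟩ : ∃ α : ℝ, α = θ / 16 := ⟨_, rfl⟩
  obtain ⟨δ, hδ⟩ : ∃ δ : ℝ, δ = Real.exp (-(α * v / ((1 : ℕ) : ℝ))) := ⟨_, rfl⟩
  have hδ0 : 0 < δ := by rw [hδ]; exact Real.exp_pos _
  have hδL : δ * L ^ 12 ≤ 1 := by
    have hL12 : L ^ 12 = Real.exp (12 * Real.log L) := by
      have := Real.exp_nat_mul (Real.log L) 12
      rw [Real.exp_log hL0] at this
      rw [← this]
      norm_num
    rw [hδ, hL12, ← Real.exp_add, Real.exp_le_one_iff]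
    rw [Nat.cast_one, div_one, hα]
    have h7 : 12 * Real.log L = θ / 16 * (A * Real.log L) := by
      rw [hA]
      field_simp
      ring
    have h8 : θ / 16 * (A * Real.log L) ≤ θ / 16 * v := by gcongr
    linarith
  -- the cells
  obtain ⟨R, hRdef⟩ : ∃ R : Finset ℤ, R = (Finset.Icc (-⌈2 * X⌉) ⌈2 * X⌉).filter
      (fun i : ℤ => |(i : ℝ)| ≤ 2 * X ∧ ∃ t ∈ Set.Icc (i : ℝ) (i + 1),
        ¬ Good 1 v (v + 1) α t) := ⟨_, rfl⟩
  have hR1 : ∀ i ∈ R, |(i : ℝ)| ≤ 2 * X := by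
    intro i hi
    rw [hRdef, Finset.mem_filter] at hi
    exact hi.2.1
  have hR2 : ∀ i ∈ R, ∃ t ∈ Set.Icc (i : ℝ) (i + 1), ¬ Good 1 v (v + 1) α t := by
    intro i hi
    rw [hRdef, Finset.mem_filter] at hi
    exact hi.2.2
  have hbad : ∀ t, |t| ≤ T * L → ¬ ‖MRL.Q 1 v t‖ ≤ δ →
      ∃ i ∈ R, t ∈ Set.Icc (i : ℝ) (i + 1) := by
    intro t ht hb
    rw [← hX] at ht
    have hf1 := Int.floor_le t
    have hf2 := (Int.lt_floor_add_one t).le
    have hi : |((⌊t⌋ : ℤ) : ℝ)| ≤ 2 * X := by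
      rw [abs_le] at ht ⊢
      constructor
      · linarith [ht.1]
      · linarith [ht.2]
    refine ⟨⌊t⌋, ?_, hf1, hf2⟩
    rw [hRdef, Finset.mem_filter, Finset.mem_Icc]
    refine ⟨⟨?_, ?_⟩, hi, t, ⟨hf1, hf2⟩, ?_⟩
    · have h7 : (((-⌈2 * X⌉ : ℤ)) : ℝ) ≤ ((⌊t⌋ : ℤ) : ℝ) := by
        push_cast
        have := Int.le_ceil (2 * X)
        linarith [(abs_le.mp hi).1]
      exact_mod_cast h7
    · have h7 : ((⌊t⌋ : ℤ) : ℝ) ≤ ((⌈2 * X⌉ : ℤ) : ℝ) := by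
        have := Int.le_ceil (2 * X)
        linarith [(abs_le.mp hi).2]
      exact_mod_cast h7
    · intro hg
      apply hb
      rw [hδ]
      exact hg v (Finset.mem_Ico.mpr ⟨le_rfl, Nat.lt_succ_self v⟩)
  -- their number
  have hcount : ∀ T' : ℝ, Real.exp (√(Real.log X)) ≤ T' → T' ≤ X →
      ((R.filter (fun i : ℤ => |(i : ℝ)| ≤ 2 * T')).card : ℝ) ≤ T' ^ θ := by
    intro T' hT' hT'X
    have hs1 : √(L / 2) ≤ √(Real.log X) := Real.sqrt_le_sqrt hlX1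
    have hT'0 : 0 < T' := lt_of_lt_of_le (Real.exp_pos _) hT'
    have hlT' : √(Real.log X) ≤ Real.log T' := by
      rw [Real.le_log_iff_exp_le hT'0]
      exact hT'
    have hlT'0 : 0 < Real.log T' := by
      have : 0 < √(L / 2) := Real.sqrt_pos.mpr (by linarith)
      linarith
    have hlT'L : Real.log T' ≤ L := (Real.log_le_log hT'0 hT'X).trans hlX2
    refine hL T' ?_ 1 v (v + 1) α le_rfl hv1' (Nat.le_succ v) ?_ ?_ ?_ ?_ ?_ _ ?_ ?_
    · refine (le_trans ((le_max_left _ _).trans (le_max_right _ _)) h4).trans ?_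
      exact (Real.exp_le_exp.mpr hs1).trans hT'
    · rw [hα]; positivity
    · rw [hα]
    · push_cast
      rw [div_one]
      have h7 : θ / 16 * √(L / 2) ≤ θ / 16 * Real.log T' := by
        have := hs1.trans hlT'
        gcongr
      linarith
    · rw [Nat.cast_one, div_one]
      have h7 : Real.log (Real.log T') ≤ Real.log L := Real.log_le_log hlT'0 hlT'L
      have h8 : 16 / θ * Real.log (Real.log T') ≤ 16 / θ * Real.log L := by gcongr
      have h9 : 16 / θ * Real.log L ≤ A * Real.log L := by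
        rw [hA]
        gcongr
        norm_num
      linarith
    · rw [Nat.cast_one, div_one]
      push_cast
      exact log_small hv600
    · intro i hi
      exact (Finset.mem_filter.mp hi).2
    · intro i hi
      exact hR2 i (Finset.mem_filter.mp hi).1
  have hRcard : (R.card : ℝ) ≤ X ^ θ2 := by
    have hXX : Real.exp (√(Real.log X)) ≤ X := by
      have h7 : √(Real.log X) ≤ Real.log X := sqrt_le_me (by linarith)
      calc Real.exp (√(Real.log X)) ≤ Real.exp (Real.log X) := Real.exp_le_exp.mpr h7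
        _ = X := Real.exp_log hX0
    have h7 := hcount X hXX le_rfl
    have h8 : R.filter (fun i : ℤ => |(i : ℝ)| ≤ 2 * X) = R :=
      Finset.filter_true_of_mem hR1
    rw [h8] at h7
    exact h7.trans (Real.rpow_le_rpow_of_exponent_le (by linarith) hθle2)
  -- the cells: estimate
  have hcell : ∀ τ : ℤ → ℝ, (∀ i ∈ R, τ i ∈ Set.Icc (i : ℝ) (i + 1)) →
      ∑ i ∈ R, ‖MRL.Q 1 v (τ i)‖ * ‖D (τ i)‖ * ‖Ey y (τ i)‖ ≤
        3 * j * ((CH + CS) * L ^ (-(3 : ℝ))) := by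
    intro τ hτ
    have h7 : ∑ i ∈ R, ‖AF pr Q (τ i)‖ ^ 2 ≤ CH * Real.log X :=
      hH X hXH pr norm_pr_le Q n7 n8 R τ hR1 hRcard hτ
    have h8 : ∑ i ∈ R, ‖Ey y (τ i)‖ ^ 2 ≤ CS * (Real.log X) ^ (-(20 : ℝ)) := by
      refine hS X y hXS n13 n14 R τ hR1 ?_ hτ
      intro T' hT' hT'X
      refine (hcount T' hT' hT'X).trans ?_
      refine Real.rpow_le_rpow_of_exponent_le ?_ hθle1
      exact (Real.one_le_exp (Real.sqrt_nonneg _)).trans hT'
    have hl0 : 0 < Real.log X := by linarith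
    have h9 := css R (fun i => ‖AF pr Q (τ i)‖) (fun i => ‖Ey y (τ i)‖)
      (μ := ((Real.log X) ^ 10)⁻¹) (by positivity)
    have h10 := cell_num h1 hlX1 hCH.le hCS.le h7 h8
    calc ∑ i ∈ R, ‖MRL.Q 1 v (τ i)‖ * ‖D (τ i)‖ * ‖Ey y (τ i)‖
        ≤ ∑ i ∈ R, 3 * j * (‖AF pr Q (τ i)‖ * ‖Ey y (τ i)‖) := by
          refine Finset.sum_le_sum fun i _ => ?_
          have h11 := norm_Q_le v (τ i)
          have h12 := hDle' (τ i)
          calc ‖MRL.Q 1 v (τ i)‖ * ‖D (τ i)‖ * ‖Ey y (τ i)‖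
              ≤ 3 * (‖AF pr Q (τ i)‖ * j) * ‖Ey y (τ i)‖ := by gcongr
            _ = 3 * j * (‖AF pr Q (τ i)‖ * ‖Ey y (τ i)‖) := by ring
      _ = 3 * j * ∑ i ∈ R, ‖AF pr Q (τ i)‖ * ‖Ey y (τ i)‖ := by rw [Finset.mul_sum]
      _ ≤ 3 * j * ((CH + CS) * L ^ (-(3 : ℝ))) := by
          have h13 := h9.trans h10
          gcongr
  -- splitting
  have hy0 : 0 ≤ y := by linarith
  have hsplit := split (a := fun t => ‖MRL.Q 1 v t‖) (b := fun t => ‖D t‖)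
    (e := fun t => ‖Ey y t‖) (Bas.continuous_Q 1 v).norm hDc.norm (continuous_Ey y).norm
    (fun t => norm_nonneg _) (fun t => norm_nonneg _) (fun t => norm_nonneg _)
    (fun t => norm_Q_le v t) hDle (norm_Ey_le y) hT0 hL0.le hδ0.le R hbad hcell
  -- the good part
  have hM0 : 0 ≤ T / Q := by positivity
  have hsj : 0 < √j := Real.sqrt_pos.mpr hj0
  have hμ : 0 < j + √j * (T / Q) := by positivity
  have hcs := csi (b := fun t => ‖D t‖) (e := fun t => ‖Ey y t‖) hDc.norm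
    (continuous_Ey y).norm (fun t => norm_nonneg _) (fun t => norm_nonneg _) hDle
    (norm_Ey_le y) hT0 hμ
  have hI1 : ∫ t, ‖D t‖ ^ 2 * g T t ≤ CR * (j ^ 2 * L + j * (T / Q) ^ 2) := by
    have h7 := hR N T Q L (√N / L ^ (K + 1)) J c pr hL1 hN1 hT1 hQ1 hJ hsep hc norm_pr_le n1 n2
      n3 ?_
    · rw [← hj] at h7
      rw [hD]
      exact h7
    · refine n6.trans ?_
      rw [hNexp]
      exact Real.exp_le_exp.mpr (le_sq_me hL1)
  have hI2 : ∫ t, ‖Ey y t‖ ^ 2 * g T t ≤ (16 * CM) * L ^ 4 := by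
    refine (hM y T n10 hT1 n11).trans ?_
    have h7 : Real.log y ≤ L := by
      rw [hLdef]
      exact Real.log_le_log (by linarith) (n12.trans n5)
    have h8 : 0 ≤ Real.log y := Real.log_nonneg (by linarith)
    have h9 : (Real.log y) ^ 4 ≤ L ^ 4 := by gcongr
    have h10 : 0 ≤ CM * L ^ 4 := by positivity
    calc CM * (Real.log y) ^ 4 ≤ CM * L ^ 4 := by gcongr
      _ ≤ (16 * CM) * L ^ 4 := by linarith
  have hI : ∫ t, ‖D t‖ * ‖Ey y t‖ * g T t ≤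
      CR * (j ^ 2 * L + j * (T / Q) ^ 2) / (j + √j * (T / Q)) +
        (j + √j * (T / Q)) * ((16 * CM) * L ^ 4) := by
    refine hcs.trans ?_
    gcongr
  have hgood := good_num (C1 := CR) (C2 := 16 * CM) hL1 hj1 hM0 hCR.le (by positivity) hδ0.le
    hδL hI
  have htail := tail_num (j := j) h1 hNexp hT0.le n6 hy0 (n12.trans n5) hj0.le
  -- the end
  have hLC : T / Q ≤ L ^ C := n9.trans (Real.rpow_le_rpow_of_exponent_le hL1 hCb)
  have e1 : √j * (T / Q) ≤ √j * L ^ C := by gcongr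
  have e2 : 0 ≤ √j * (T / Q) := by positivity
  have e3 : 0 ≤ j * L ^ (-(3 : ℝ)) := by positivity
  have e4 : 0 ≤ √j * L ^ C := by positivity
  calc ∫ t, ‖MRL.Q 1 v t‖ * ‖D t‖ * ‖Ey y t‖ * g T t
      ≤ (CR + 16 * CM) * (j * L ^ (-(3 : ℝ)) + √j * (T / Q)) +
          3 * j * ((CH + CS) * L ^ (-(3 : ℝ))) + j * L ^ (-(3 : ℝ)) := by
        linarith [hsplit, hgood, htail]
    _ ≤ (CR + 16 * CM) * (j * L ^ (-(3 : ℝ)) + √j * L ^ C) +
          3 * j * ((CH + CS) * L ^ (-(3 : ℝ))) + j * L ^ (-(3 : ℝ)) := by gcongr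
    _ = ((CR + 16 * CM) + 3 * (CH + CS) + 1) * (j * L ^ (-(3 : ℝ))) +
          (CR + 16 * CM) * (√j * L ^ C) := by ring
    _ ≤ C * (j * L ^ (-(3 : ℝ))) + C * (√j * L ^ C) := by
        have f1 : (CR + 16 * CM) + 3 * (CH + CS) + 1 ≤ C := by linarith
        have f2 : CR + 16 * CM ≤ C := by linarith
        gcongr
    _ = C * (j * L ^ (-(3 : ℝ)) + √j * L ^ C) := by ring

end Pool.Agent.OX
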