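import Mathlib
import Pool.Agent.Lib.OX.Bas

/-!
# PROJECT OX: from products of three primes to exactly `k` prime factors, every `k ≥ 3`.  helper31.
-/

set_option autoImplicit false

namespace Pool.Agent.OX

open Finset Filter

/-- every interval of length `x / (log x)^K` inside `(x² - x, x² + x)` contains a product of three
primes. -/
def Good3 (K C : ℝ) (x : ℕ) : Prop := ∀ y : ℝ, (x : ℝ) ^ 2 - x ≤ y →
      y + x / (Real.log x) ^ K ≤ (x : ℝ) ^ 2 + x →
      ∃ p q s : ℕ, p.Prime ∧ q.Prime ∧ s.Prime ∧ (p : ℝ) ≤ (Real.log x) ^ C ∧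
        x / (Real.log x) ^ C ≤ q ∧ x / (Real.log x) ^ C ≤ s ∧
        y < (p * q * s : ℕ) ∧ ((p * q * s : ℕ) : ℝ) < y + x / (Real.log x) ^ K

/-- the same with exactly `k` prime factors. -/
def GoodK (K C : ℝ) (k x : ℕ) : Prop := ∀ y : ℝ, (x : ℝ) ^ 2 - x ≤ y →
      y + x / (Real.log x) ^ K ≤ (x : ℝ) ^ 2 + x →
      ∃ n : ℕ, y < n ∧ (n : ℝ) < y + x / (Real.log x) ^ K ∧
        ArithmeticFunction.cardFactors n = k ∧
        ∃ p q s : ℕ, p.Prime ∧ q.Prime ∧ s.Prime ∧ (p : ℝ) ≤ (Real.log x) ^ C ∧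
          x / (Real.log x) ^ C ≤ q ∧ x / (Real.log x) ^ C ≤ s ∧ n = 2 ^ (k - 3) * (p * q * s)

/-- The theorem for all `k ≥ 3`. -/
def FinalAll : Prop := ∀ (K : ℝ) (k : ℕ), 0 ≤ K → 3 ≤ k → ∃ C : ℝ, 0 < C ∧ ∃ X₀ : ℕ,
  ∀ X : ℕ, X₀ ≤ X → ({x : ℕ | 1 < x ∧ x ≤ X ∧ ¬ GoodK K C k x}.ncard : ℝ) ≤ (Real.log X) ^ C

namespace KF

theorem card3 {p q s : ℕ} (hp : p.Prime) (hq : q.Prime) (hs : s.Prime) (j : ℕ) :
    ArithmeticFunction.cardFactors (2 ^ j * (p * q * s)) = j + 3 := by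
  have h2 : (2 : ℕ) ^ j ≠ 0 := by positivity
  rw [ArithmeticFunction.cardFactors_mul h2
      (mul_ne_zero (mul_ne_zero hp.ne_zero hq.ne_zero) hs.ne_zero),
    ArithmeticFunction.cardFactors_mul (mul_ne_zero hp.ne_zero hq.ne_zero) hs.ne_zero,
    ArithmeticFunction.cardFactors_mul hp.ne_zero hq.ne_zero,
    ArithmeticFunction.cardFactors_pow, ArithmeticFunction.cardFactors_apply_prime Nat.prime_two,
    ArithmeticFunction.cardFactors_apply_prime hp, ArithmeticFunction.cardFactors_apply_prime hq,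
    ArithmeticFunction.cardFactors_apply_prime hs]
  ring

/-- the Oppermann index of a real number. -/
theorem index (z : ℝ) (hz : 0 ≤ z) : ∃ x : ℕ, 1 ≤ x ∧ (x : ℝ) ^ 2 - x ≤ z ∧
    z < (x : ℝ) ^ 2 + x := by
  classical
  have hex : ∃ n : ℕ, z < (n : ℝ) ^ 2 + n := by
    obtain ⟨n, hn⟩ := exists_nat_gt z
    exact ⟨n, by nlinarith [sq_nonneg (n : ℝ)]⟩
  set n := Nat.find hex with hn
  have h1 : z < (n : ℝ) ^ 2 + n := Nat.find_spec hex
  have h0 : n ≠ 0 := by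
    intro h
    rw [h] at h1
    norm_num at h1
    linarith
  refine ⟨n, by omega, ?_, h1⟩
  have h2 := Nat.find_min hex (m := n - 1) (by omega)
  push Not at h2
  have h3 : ((n - 1 : ℕ) : ℝ) = (n : ℝ) - 1 := by
    rw [Nat.cast_sub (by omega)]
    norm_num
  rw [h3] at h2
  nlinarith

theorem ineqs (K C3 M : ℝ) (hK : 0 ≤ K) (hC3 : 0 ≤ C3) (hM : 1 ≤ M) : ∀ᶠ x : ℝ in atTop,
    1 ≤ Real.log x ∧ ∀ x' : ℝ, x / (2 * M) ≤ x' → x' ≤ x + 2 →
    (Real.log x') ^ C3 ≤ (Real.log x) ^ (C3 + 1) ∧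
    x / (Real.log x) ^ (C3 + 1) ≤ x' / (Real.log x') ^ C3 ∧
    x' / (Real.log x') ^ (K + 1) ≤ x / (2 * M * (Real.log x) ^ K) := by
  have hlog := Real.tendsto_log_atTop
  filter_upwards [hlog.eventually_ge_atTop (2 * M * 2 ^ C3),
    hlog.eventually_ge_atTop (4 * M * 2 ^ (K + 1)), hlog.eventually_ge_atTop 2,
    hlog.eventually_ge_atTop (2 * Real.log (2 * M)), eventually_ge_atTop (2 : ℝ)]
    with x h1 h2 h3 h4 h5
  refine ⟨by linarith, fun x' hx1 hx2 => ?_⟩
  have hxpos : 0 < x := by linarith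
  have hL : 0 < Real.log x := by linarith
  have hx'pos : 0 < x' := lt_of_lt_of_le (by positivity) hx1
  have hlog1 : Real.log x' ≤ 2 * Real.log x := by
    have h6 : Real.log x' ≤ Real.log (x ^ 2) := Real.log_le_log hx'pos (by nlinarith)
    rw [Real.log_pow] at h6
    push_cast at h6
    linarith
  have hlog2 : Real.log x / 2 ≤ Real.log x' := by
    have h6 : Real.log (x / (2 * M)) ≤ Real.log x' := Real.log_le_log (by positivity) hx1
    rw [Real.log_div (by positivity) (by positivity)] at h6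
    linarith
  have hL' : 0 < Real.log x' := by linarith
  have hpow : (Real.log x') ^ C3 ≤ 2 ^ C3 * (Real.log x) ^ C3 := by
    rw [← Real.mul_rpow (by norm_num) hL.le]
    exact Real.rpow_le_rpow hL'.le hlog1 hC3
  have hsplit : (Real.log x) ^ (C3 + 1) = Real.log x * (Real.log x) ^ C3 := by
    rw [Real.rpow_add hL, Real.rpow_one]
    ring
  have hM0 : 0 < M := by linarith
  have hp1 : (0 : ℝ) < 2 ^ C3 := by positivity
  have hp2 : 0 < (Real.log x) ^ C3 := by positivity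
  have hp3 : 0 < (Real.log x') ^ C3 := by positivity
  refine ⟨?_, ?_, ?_⟩
  · refine hpow.trans ?_
    rw [hsplit]
    refine mul_le_mul_of_nonneg_right ?_ hp2.le
    nlinarith
  · rw [div_le_div_iff₀ (by positivity) hp3]
    have h6 : x * (Real.log x') ^ C3 ≤ x * (2 ^ C3 * (Real.log x) ^ C3) :=
      mul_le_mul_of_nonneg_left hpow hxpos.le
    refine h6.trans ?_
    rw [hsplit]
    have h7 : x ≤ x' * (2 * M) := by
      rwa [div_le_iff₀ (by positivity)] at hx1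
    calc x * (2 ^ C3 * (Real.log x) ^ C3) ≤ x' * (2 * M) * (2 ^ C3 * (Real.log x) ^ C3) :=
          mul_le_mul_of_nonneg_right h7 (by positivity)
      _ = x' * ((2 * M * 2 ^ C3) * (Real.log x) ^ C3) := by ring
      _ ≤ x' * (Real.log x * (Real.log x) ^ C3) := by
          refine mul_le_mul_of_nonneg_left (mul_le_mul_of_nonneg_right h1 hp2.le) hx'pos.le
  · have h8 : (Real.log x / 2) ^ (K + 1) ≤ (Real.log x') ^ (K + 1) :=
      Real.rpow_le_rpow (by linarith) hlog2 (by linarith)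
    rw [Real.div_rpow hL.le (by norm_num)] at h8
    have hq1 : (0 : ℝ) < 2 ^ (K + 1) := by positivity
    have hq2 : 0 < (Real.log x) ^ K := by positivity
    have hq3 : 0 < (Real.log x') ^ (K + 1) := by positivity
    rw [Real.rpow_add hL, Real.rpow_one] at h8
    rw [div_le_div_iff₀ hq3 (by positivity)]
    have h9 : (Real.log x) ^ K * Real.log x ≤ 2 ^ (K + 1) * (Real.log x') ^ (K + 1) := by
      rw [div_le_iff₀ hq1] at h8
      linarith
    have h10 : x' ≤ 2 * x := by linarith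
    have h11 : 4 * M * (Real.log x) ^ K ≤ (Real.log x') ^ (K + 1) := by
      have h12 : 2 ^ (K + 1) * (4 * M * (Real.log x) ^ K) ≤
          2 ^ (K + 1) * (Real.log x') ^ (K + 1) := by
        refine le_trans ?_ h9
        calc 2 ^ (K + 1) * (4 * M * (Real.log x) ^ K) =
            (Real.log x) ^ K * (4 * M * 2 ^ (K + 1)) := by ring
          _ ≤ (Real.log x) ^ K * Real.log x := mul_le_mul_of_nonneg_left h2 hq2.le
      exact le_of_mul_le_mul_left h12 hq1
    calc x' * (2 * M * (Real.log x) ^ K) ≤ (2 * x) * (2 * M * (Real.log x) ^ K) :=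
          mul_le_mul_of_nonneg_right h10 (by positivity)
      _ = x * (4 * M * (Real.log x) ^ K) := by ring
      _ ≤ x * (Real.log x') ^ (K + 1) := mul_le_mul_of_nonneg_left h11 hxpos.le

/-- one bad `x` for `k` gives one bad `x'` for `3`. -/
theorem step (K C3 : ℝ) (hK : 0 ≤ K) (hC3 : 0 ≤ C3) (j : ℕ) : ∀ᶠ x : ℝ in atTop, ∀ n : ℕ,
    (n : ℝ) = x → ¬ GoodK K (C3 + 1) (j + 3) n → ∃ x' : ℕ, 1 < x' ∧ x' ≤ n + 2 ∧
      ¬ Good3 (K + 1) C3 x' ∧ |(2 : ℝ) ^ j * (x' : ℝ) ^ 2 - x ^ 2| ≤ 8 * 2 ^ j * x := by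
  have hM : (1 : ℝ) ≤ 2 ^ j := one_le_pow₀ (by norm_num)
  filter_upwards [ineqs K C3 (2 ^ j) hK hC3 hM, eventually_ge_atTop (4 : ℝ),
    eventually_ge_atTop (4 * 2 ^ j : ℝ)] with x hin hx4 hxM n hn hbad
  obtain ⟨hL1, hin⟩ := hin
  set M : ℝ := 2 ^ j with hMdef
  have hM0 : 0 < M := by linarith
  unfold GoodK at hbad
  push Not at hbad
  obtain ⟨y, hy1, hy2, hno⟩ := hbad
  rw [hn] at hy1 hy2 hno
  set h : ℝ := x / (Real.log x) ^ K with hh
  have hLK : 1 ≤ (Real.log x) ^ K := Real.one_le_rpow hL1 hK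
  have hh0 : 0 < h := by positivity
  have hhx : h ≤ x := div_le_self (by linarith) hLK
  have hy0 : 0 ≤ y := by nlinarith
  obtain ⟨x0, hx01, hx02, hx03⟩ := index (y / M) (by positivity)
  have hz1 : M * ((x0 : ℝ) ^ 2 - x0) ≤ y := by
    rw [le_div_iff₀ hM0] at hx02
    linarith
  have hz2 : y < M * ((x0 : ℝ) ^ 2 + x0) := by
    rw [div_lt_iff₀ hM0] at hx03
    linarith
  have hx0r : (1 : ℝ) ≤ x0 := by exact_mod_cast hx01
  -- size of x0
  have hup : (x0 : ℝ) ≤ x + 1 := by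
    by_contra hcon
    push Not at hcon
    have h1 : (x0 : ℝ) ≥ x + 2 := by
      have h2 : n + 1 < x0 := by
        have : ((n + 1 : ℕ) : ℝ) < x0 := by
          push_cast
          rw [hn]
          exact hcon
        exact_mod_cast this
      have h3 : ((n + 2 : ℕ) : ℝ) ≤ x0 := by exact_mod_cast h2
      push_cast at h3
      rw [hn] at h3
      exact h3
    have h2 : (x0 : ℝ) ^ 2 - x0 ≥ x ^ 2 + 3 * x + 2 := by nlinarith
    have h3 : (x0 : ℝ) ^ 2 - x0 ≤ M * ((x0 : ℝ) ^ 2 - x0) :=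
      le_mul_of_one_le_left (by nlinarith) hM
    nlinarith
  have hlow : x / (2 * M) ≤ x0 := by
    by_contra hcon
    push Not at hcon
    have h1 : (x0 : ℝ) * (2 * M) < x := by
      rwa [lt_div_iff₀ (by positivity)] at hcon
    have h2 : (x0 : ℝ) * 2 < x := by nlinarith
    have h3 : M * (x0 : ℝ) ^ 2 ≤ x * x0 / 2 := by nlinarith
    have h4 : M * (x0 : ℝ) ≤ x / 2 := by nlinarith
    nlinarith
  -- the absolute value
  have habs : ∀ x' : ℝ, (x' = x0 ∨ x' = x0 + 1) → |M * x' ^ 2 - x ^ 2| ≤ 8 * M * x := by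
    intro x' hx'
    have hxx : x ≤ M * x := le_mul_of_one_le_left (by linarith) hM
    have h1 : M * (x0 : ℝ) ≤ M * (x + 1) := mul_le_mul_of_nonneg_left hup hM0.le
    have h2 : M * 4 ≤ M * x := mul_le_mul_of_nonneg_left hx4 hM0.le
    rcases hx' with rfl | rfl
    · rw [abs_le]
      constructor <;> nlinarith
    · have h3 : M * ((x0 : ℝ) + 1) ^ 2 = M * (x0 : ℝ) ^ 2 + 2 * (M * x0) + M := by ring
      rw [h3, abs_le]
      constructor <;> nlinarith
  -- one instance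
  have hinst : ∀ x' : ℕ, ((x' : ℝ) = x0 ∨ (x' : ℝ) = x0 + 1) → ∀ z : ℝ, (x' : ℝ) ^ 2 - x' ≤ z →
      z + h / (2 * M) ≤ (x' : ℝ) ^ 2 + x' → y / M ≤ z → z + h / (2 * M) ≤ (y + h) / M →
      ¬ Good3 (K + 1) C3 x' := by
    intro x' hx' z hz1 hz2 hz3 hz4 hgood
    have ha : x / (2 * M) ≤ (x' : ℝ) := by
      rcases hx' with h | h <;> rw [h] <;> linarith
    have hb : (x' : ℝ) ≤ x + 2 := by
      rcases hx' with h | h <;> rw [h] <;> linarith
    obtain ⟨i1, i2, i3⟩ := hin x' ha hb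
    have hlen : (x' : ℝ) / (Real.log x') ^ (K + 1) ≤ h / (2 * M) := by
      refine i3.trans (le_of_eq ?_)
      rw [hh, div_div]
      ring
    obtain ⟨p, q, s, hp, hq, hs, a1, a2, a3, a4, a5⟩ := hgood z hz1 (by linarith)
    refine hno (2 ^ j * (p * q * s)) ?_ ?_ ?_ p q s hp hq hs (a1.trans i1) (i2.trans a2)
      (i2.trans a3) ?_
    · have h1 : y / M < ((p * q * s : ℕ) : ℝ) := lt_of_le_of_lt hz3 a4
      rw [div_lt_iff₀ hM0] at h1
      push_cast at h1 ⊢
      rw [← hMdef]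
      linarith
    · have h1 : ((p * q * s : ℕ) : ℝ) < (y + h) / M := by linarith
      rw [lt_div_iff₀ hM0] at h1
      push_cast at h1 ⊢
      rw [← hMdef]
      linarith
    · exact card3 hp hq hs j
    · rw [Nat.add_sub_cancel]
  have hhM : h / M = h / (2 * M) + h / (2 * M) := by
    field_simp
    ring
  have hyh : (y + h) / M = y / M + (h / (2 * M) + h / (2 * M)) := by
    rw [add_div, hhM]
  have hh2 : 0 < h / (2 * M) := by positivity
  rcases le_or_gt (y / M + h / (2 * M)) ((x0 : ℝ) ^ 2 + x0) with hcase | hcase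
  · refine ⟨x0, ?_, ?_, hinst x0 (Or.inl rfl) (y / M) hx02 hcase le_rfl (by linarith), ?_⟩
    · have h1 : (1 : ℝ) < x0 := by
        refine lt_of_lt_of_le ?_ hlow
        rw [lt_div_iff₀ (by positivity)]
        linarith
      exact_mod_cast h1
    · have h1 : (x0 : ℝ) ≤ ((n + 2 : ℕ) : ℝ) := by
        push_cast
        rw [hn]
        linarith
      exact_mod_cast h1
    · exact habs x0 (Or.inl rfl)
  · refine ⟨x0 + 1, by omega, ?_, ?_, ?_⟩
    · have h1 : ((x0 + 1 : ℕ) : ℝ) ≤ ((n + 2 : ℕ) : ℝ) := by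
        push_cast
        rw [hn]
        linarith
      exact_mod_cast h1
    · refine hinst (x0 + 1) (Or.inr (by push_cast; ring)) (y / M + h / (2 * M)) ?_ ?_ (by linarith)
        (by linarith)
      · push_cast
        nlinarith
      · push_cast
        have h1 : h / M ≤ 2 * x0 := by
          rw [div_le_iff₀ hM0]
          rw [div_le_iff₀ (by positivity)] at hlow
          linarith
        nlinarith
    · push_cast
      exact habs (x0 + 1) (Or.inr rfl)

/-- a set of naturals of small diameter. -/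
theorem card_diam (S : Finset ℕ) (D : ℕ) (h : ∀ a ∈ S, ∀ b ∈ S, a ≤ b → b ≤ a + D) :
    S.card ≤ D + 1 := by
  rcases S.eq_empty_or_nonempty with rfl | hne
  · simp
  · have hsub : S ⊆ Finset.Icc (S.min' hne) (S.min' hne + D) := by
      intro b hb
      exact Finset.mem_Icc.2 ⟨S.min'_le b hb, h _ (S.min'_mem hne) b hb (S.min'_le b hb)⟩
    refine (Finset.card_le_card hsub).trans ?_
    rw [Nat.card_Icc]
    omega

end KF

open KF in
/-- **From three to `k`.** -/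
theorem finalAll_of (h3 : Final3) : FinalAll := by
  classical
  intro K k hK hk
  obtain ⟨j, rfl⟩ : ∃ j, k = j + 3 := ⟨k - 3, by omega⟩
  obtain ⟨C3, hC3, X3, h3⟩ := h3 (K + 1) (by linarith)
  refine ⟨C3 + 1, by linarith, ?_⟩
  obtain ⟨x1r, hx1r⟩ := (step K C3 hK hC3.le j).exists_forall_of_atTop
  set x1 : ℕ := ⌈x1r⌉₊ with hx1
  have hlog : Tendsto (fun X : ℕ => Real.log (X : ℝ)) atTop atTop :=
    Real.tendsto_log_atTop.comp tendsto_natCast_atTop_atTop
  have hev : ∀ᶠ X : ℕ in atTop, (x1 : ℝ) + (8 * 2 ^ j + 1) * (Real.log ((X + 2 : ℕ) : ℝ)) ^ C3 ≤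
      (Real.log X) ^ (C3 + 1) := by
    filter_upwards [hlog.eventually_ge_atTop (x1 + (8 * 2 ^ j + 1) * 2 ^ C3),
      hlog.eventually_ge_atTop 1, eventually_ge_atTop 2] with X hX1 hX2 hX3
    have hXr : (2 : ℝ) ≤ X := by exact_mod_cast hX3
    have hLpos : 0 < Real.log (X : ℝ) := by linarith
    have h1 : Real.log ((X + 2 : ℕ) : ℝ) ≤ 2 * Real.log X := by
      have h2 : Real.log ((X + 2 : ℕ) : ℝ) ≤ Real.log ((X : ℝ) ^ 2) := by
        refine Real.log_le_log (by positivity) ?_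
        push_cast
        nlinarith
      rw [Real.log_pow] at h2
      push_cast at h2 ⊢
      linarith
    have h0 : 0 ≤ Real.log ((X + 2 : ℕ) : ℝ) := by
      refine Real.log_nonneg ?_
      push_cast
      linarith
    have h2 : (Real.log ((X + 2 : ℕ) : ℝ)) ^ C3 ≤ 2 ^ C3 * (Real.log X) ^ C3 := by
      rw [← Real.mul_rpow (by norm_num) hLpos.le]
      exact Real.rpow_le_rpow h0 h1 hC3.le
    have h3 : 1 ≤ (Real.log (X : ℝ)) ^ C3 := Real.one_le_rpow hX2 hC3.le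
    rw [Real.rpow_add hLpos, Real.rpow_one]
    have h4 : (0 : ℝ) ≤ 8 * 2 ^ j + 1 := by positivity
    have h5 : (x1 : ℝ) ≤ x1 * (Real.log (X : ℝ)) ^ C3 :=
      le_mul_of_one_le_right (Nat.cast_nonneg _) h3
    calc (x1 : ℝ) + (8 * 2 ^ j + 1) * (Real.log ((X + 2 : ℕ) : ℝ)) ^ C3
        ≤ x1 * (Real.log (X : ℝ)) ^ C3 + (8 * 2 ^ j + 1) * (2 ^ C3 * (Real.log X) ^ C3) :=
          add_le_add h5 (mul_le_mul_of_nonneg_left h2 h4)
      _ = (Real.log (X : ℝ)) ^ C3 * (x1 + (8 * 2 ^ j + 1) * 2 ^ C3) := by ring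
      _ ≤ (Real.log (X : ℝ)) ^ C3 * Real.log X :=
          mul_le_mul_of_nonneg_left hX1 (by linarith)
  obtain ⟨X1, hX1⟩ := hev.exists_forall_of_atTop
  refine ⟨max X1 X3, fun X hX => ?_⟩
  have hXX1 : X1 ≤ X := (le_max_left _ _).trans hX
  have hXX3 : X3 ≤ X := (le_max_right _ _).trans hX
  -- the two sets
  set B3 : Finset ℕ := (Finset.range (X + 3)).filter
    (fun x => 1 < x ∧ x ≤ X + 2 ∧ ¬ Good3 (K + 1) C3 x) with hB3
  have hB3card : (B3.card : ℝ) ≤ (Real.log ((X + 2 : ℕ) : ℝ)) ^ C3 := by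
    have h1 := h3 (X + 2) (by omega)
    have h2 : {x : ℕ | 1 < x ∧ x ≤ X + 2 ∧ ¬ Good3 (K + 1) C3 x} = (B3 : Set ℕ) := by
      ext x
      simp only [Set.mem_ofPred_eq, hB3, Finset.coe_filter, Finset.mem_range]
      constructor
      · rintro ⟨a1, a2, a3⟩
        exact ⟨by omega, a1, a2, a3⟩
      · rintro ⟨_, a1, a2, a3⟩
        exact ⟨a1, a2, a3⟩
    have h3' : ({x : ℕ | 1 < x ∧ x ≤ X + 2 ∧ ¬ Good3 (K + 1) C3 x}.ncard : ℝ) ≤
        (Real.log ((X + 2 : ℕ) : ℝ)) ^ C3 := h1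
    rw [h2, Set.ncard_coe_finset] at h3'
    exact h3'
  set B : Finset ℕ := (Finset.range (X + 1)).filter
    (fun x => 1 < x ∧ x ≤ X ∧ ¬ GoodK K (C3 + 1) (j + 3) x) with hB
  have hBset : {x : ℕ | 1 < x ∧ x ≤ X ∧ ¬ GoodK K (C3 + 1) (j + 3) x} = (B : Set ℕ) := by
    ext x
    simp only [Set.mem_ofPred_eq, hB, Finset.coe_filter, Finset.mem_range]
    constructor
    · rintro ⟨a1, a2, a3⟩
      exact ⟨by omega, a1, a2, a3⟩
    · rintro ⟨_, a1, a2, a3⟩
      exact ⟨a1, a2, a3⟩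
  rw [hBset, Set.ncard_coe_finset]
  -- split
  set Bl := B.filter (fun x => x1 ≤ x) with hBl
  have hsplit : B.card ≤ x1 + Bl.card := by
    have h1 : B ⊆ Finset.range x1 ∪ Bl := by
      intro x hx
      rcases lt_or_ge x x1 with h | h
      · exact Finset.mem_union_left _ (Finset.mem_range.2 h)
      · exact Finset.mem_union_right _ (Finset.mem_filter.2 ⟨hx, h⟩)
    refine (Finset.card_le_card h1).trans ((Finset.card_union_le _ _).trans ?_)
    rw [Finset.card_range]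
  have hmap : ∀ x ∈ Bl, ∃ x' ∈ B3, |(2 : ℝ) ^ j * (x' : ℝ) ^ 2 - (x : ℝ) ^ 2| ≤
      8 * 2 ^ j * x := by
    intro x hx
    obtain ⟨hxB, hxx1⟩ := Finset.mem_filter.1 hx
    obtain ⟨_, b1, b2, b3⟩ := Finset.mem_filter.1 hxB
    have h1 : x1r ≤ (x : ℝ) := (Nat.le_ceil _).trans (by exact_mod_cast hxx1)
    obtain ⟨x', c1, c2, c3, c4⟩ := hx1r x h1 x rfl b3
    exact ⟨x', Finset.mem_filter.2 ⟨Finset.mem_range.2 (by omega), c1, by omega, c3⟩, c4⟩
  choose! f hf1 hf2 using hmap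
  have hfib := Finset.card_le_mul_card_image_of_maps_to hf1 (8 * 2 ^ j + 1) (by
    intro b hb
    refine card_diam _ _ ?_
    intro a ha a' ha' haa
    obtain ⟨ha1, ha2⟩ := Finset.mem_filter.1 ha
    obtain ⟨ha1', ha2'⟩ := Finset.mem_filter.1 ha'
    have h1 := hf2 a ha1
    have h2 := hf2 a' ha1'
    rw [ha2] at h1
    rw [ha2'] at h2
    have h3 := (abs_le.1 h1).2
    have h4 := (abs_le.1 h2).1
    have h5 : (a' : ℝ) ^ 2 - (a : ℝ) ^ 2 ≤ 8 * 2 ^ j * (a + a') := by linarith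
    have h6 : ((a' : ℝ) - a) * (a + a') ≤ 8 * 2 ^ j * (a + a') := by nlinarith
    have hapos : 1 < a := by
      have := (Finset.mem_filter.1 (Finset.mem_filter.1 ha1).1).2.1
      exact this
    have h7 : (0 : ℝ) < (a : ℝ) + a' := by
      have : (0 : ℝ) < a := by exact_mod_cast (by omega : 0 < a)
      positivity
    have h8 : (a' : ℝ) - a ≤ 8 * 2 ^ j := le_of_mul_le_mul_right h6 h7
    have h9 : (a' : ℝ) ≤ ((a + 8 * 2 ^ j : ℕ) : ℝ) := by
      push_cast
      linarith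
    exact_mod_cast h9)
  have hfib' : (Bl.card : ℝ) ≤ (8 * 2 ^ j + 1) * B3.card := by
    exact_mod_cast hfib
  calc (B.card : ℝ) ≤ x1 + Bl.card := by exact_mod_cast hsplit
    _ ≤ x1 + (8 * 2 ^ j + 1) * B3.card := by linarith
    _ ≤ x1 + (8 * 2 ^ j + 1) * (Real.log ((X + 2 : ℕ) : ℝ)) ^ C3 := by
        have : (0 : ℝ) ≤ 8 * 2 ^ j + 1 := by positivity
        have := mul_le_mul_of_nonneg_left hB3card this
        linarith
    _ ≤ _ := hX1 X hXX1

end Pool.Agent.OX
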