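import Mathlib
import Pool.Agent.Lib.OX.Defs

/-!
# PROJECT OX, ROW LB: lower bounds for sums over primes in short ranges (Chebyshev). helper55.
-/

set_option autoImplicit false

namespace Pool.Agent.OX

open Finset Filter Pool.Agent.MRL Pool.Agent.MRF

/-- Chebyshev's lower bound with a small loss. -/
private theorem lb_theta_lower : ∃ x₀ : ℝ, 1 ≤ x₀ ∧ ∀ x : ℝ, x₀ ≤ x →
    (Real.log 2 - 1 / 200) * x ≤ Chebyshev.theta x := by
  have h1 : (fun x : ℝ => Real.log 2 + Real.log (x + 2) + 2 * √x * Real.log x) =o[atTop]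
      (fun x : ℝ => x) := by
    have ha : (fun _ : ℝ => Real.log 2) =o[atTop] (fun x : ℝ => x) :=
      Asymptotics.isLittleO_const_id_atTop _
    have hb : (fun x : ℝ => Real.log (x + 2)) =o[atTop] (fun x : ℝ => x) := by
      have h2 : (fun x : ℝ => Real.log (x + 2)) =o[atTop] (fun x : ℝ => x + 2) :=
        Real.isLittleO_log_id_atTop.comp_tendsto (tendsto_atTop_add_const_right _ 2 tendsto_id)
      refine h2.trans_isBigO ?_
      refine (Asymptotics.isBigO_refl _ _).add ?_
      exact (Asymptotics.isLittleO_const_id_atTop (2 : ℝ)).isBigO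
    have hc : (fun x : ℝ => 2 * √x * Real.log x) =o[atTop] (fun x : ℝ => x) := by
      have h3 : (fun x : ℝ => Real.log x) =o[atTop] (fun x : ℝ => x ^ (1 / 2 : ℝ)) :=
        isLittleO_log_rpow_atTop (by norm_num)
      have h4 : (fun x : ℝ => 2 * √x * Real.log x) =o[atTop]
          (fun x : ℝ => √x * x ^ (1 / 2 : ℝ)) := by
        refine Asymptotics.IsBigO.mul_isLittleO ?_ h3
        exact Asymptotics.isBigO_const_mul_self 2 _ _
      refine h4.congr' EventuallyEq.rfl ?_
      filter_upwards [eventually_ge_atTop (0 : ℝ)] with x hx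
      rw [← Real.sqrt_eq_rpow, Real.mul_self_sqrt hx]
    exact (ha.add hb).add hc
  have h2 := h1.bound (show (0 : ℝ) < 1 / 200 by norm_num)
  obtain ⟨x₁, hx₁⟩ := (h2.and (eventually_ge_atTop 1)).exists_forall_of_atTop
  refine ⟨max x₁ 1, le_max_right _ _, fun x hx => ?_⟩
  have hx1 : x₁ ≤ x := (le_max_left _ _).trans hx
  have hx2 : 1 ≤ x := (le_max_right _ _).trans hx
  have h3 := (hx₁ x hx1).1
  rw [Real.norm_eq_abs, Real.norm_eq_abs, abs_of_pos (by linarith : (0 : ℝ) < x)] at h3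
  have h4 := le_of_abs_le h3
  have h5 := Chebyshev.theta_ge' hx2
  nlinarith

/-- From `θ` to sums of reciprocals of primes. -/
private theorem lb_sum {x y : ℝ} (hx : 0 ≤ x) (hxy : x ≤ y) (hy : 1 < y) :
    (Chebyshev.theta y - Chebyshev.theta x) / (y * Real.log y) ≤
      ∑ p ∈ (Ioc ⌊x⌋₊ ⌊y⌋₊).filter Nat.Prime, 1 / (p : ℝ) := by
  have hlog : 0 < Real.log y := Real.log_pos hy
  have hfl : ⌊x⌋₊ ≤ ⌊y⌋₊ := Nat.floor_mono hxy
  have h1 : Chebyshev.theta y - Chebyshev.theta x =
      ∑ p ∈ (Ioc ⌊x⌋₊ ⌊y⌋₊).filter Nat.Prime, Real.log p := by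
    unfold Chebyshev.theta
    have h2 : (Ioc 0 ⌊y⌋₊).filter Nat.Prime =
        (Ioc 0 ⌊x⌋₊).filter Nat.Prime ∪ (Ioc ⌊x⌋₊ ⌊y⌋₊).filter Nat.Prime := by
      rw [← Finset.filter_union, Finset.Ioc_union_Ioc_eq_Ioc (Nat.zero_le _) hfl]
    have h3 : Disjoint ((Ioc 0 ⌊x⌋₊).filter Nat.Prime) ((Ioc ⌊x⌋₊ ⌊y⌋₊).filter Nat.Prime) := by
      refine Finset.disjoint_filter_filter ?_
      rw [Finset.disjoint_left]
      intro a ha hb
      have := (Finset.mem_Ioc.1 ha).2
      have := (Finset.mem_Ioc.1 hb).1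
      omega
    rw [h2, Finset.sum_union h3]
    ring
  rw [h1, Finset.sum_div]
  refine Finset.sum_le_sum fun p hp => ?_
  have hp' := Finset.mem_filter.1 hp
  have hpr : p.Prime := hp'.2
  have hp1 : (1 : ℝ) ≤ p := by exact_mod_cast hpr.one_lt.le
  have hpy : (p : ℝ) ≤ y := by
    have h4 := (Finset.mem_Ioc.1 hp'.1).2
    exact (Nat.cast_le.2 h4).trans (Nat.floor_le (by linarith))
  have hpp : (0 : ℝ) < p := by linarith
  rw [div_le_div_iff₀ (by positivity) hpp, one_mul]
  have h5 : Real.log p ≤ Real.log y := Real.log_le_log hpp hpy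
  have h6 : 0 ≤ Real.log p := Real.log_nonneg hp1
  calc Real.log p * p ≤ Real.log y * y := mul_le_mul h5 hpy hpp.le (h6.trans h5)
    _ = y * Real.log y := mul_comm _ _

private theorem lb_log2 : (0.6931 : ℝ) < Real.log 2 ∧ Real.log 2 < 0.6932 :=
  ⟨by have := Real.log_two_gt_d9; linarith, by have := Real.log_two_lt_d9; linarith⟩

private theorem lb_log4 : Real.log 4 = 2 * Real.log 2 := by
  rw [show (4 : ℝ) = 2 ^ 2 by norm_num, Real.log_pow]
  norm_num

theorem lb : LB := by
  obtain ⟨x₀, hx₀, hlow⟩ := lb_theta_lower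
  obtain ⟨hl1, hl2⟩ := lb_log2
  have hl4 := lb_log4
  refine ⟨1 / 30, by norm_num, ⟨⌈x₀⌉₊ + 1, fun v hv => ?_⟩, ⟨x₀ + 4, fun Q hQ => ?_⟩⟩
  · -- part 1
    have hv1 : (1 : ℝ) ≤ v := by
      have : 1 ≤ v := by omega
      exact_mod_cast this
    have hvx : x₀ ≤ v := by
      have h1 : (⌈x₀⌉₊ : ℝ) ≤ v := by
        have : ⌈x₀⌉₊ ≤ v := by omega
        exact_mod_cast this
      exact (Nat.le_ceil x₀).trans h1
    set X := Real.exp (v : ℝ) with hX
    have hXpos : 0 < X := Real.exp_pos _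
    have hE : Real.exp ((v : ℝ) + 1) = Real.exp 1 * X := by rw [Real.exp_add, mul_comm]
    have he1 := Real.exp_one_gt_d9
    have he2 := Real.exp_one_lt_d9
    have hXv : (v : ℝ) + 1 ≤ X := Real.add_one_le_exp _
    have hY : x₀ ≤ Real.exp 1 * X := by nlinarith
    have h1 : Chebyshev.theta X ≤ Real.log 4 * X := Chebyshev.theta_le_log4_mul_x hXpos.le
    have h2 := hlow _ hY
    have h3 : 0.48 * X ≤ Chebyshev.theta (Real.exp 1 * X) - Chebyshev.theta X := by
      have h4 : (0.688 : ℝ) * (2.718 * X) ≤ (Real.log 2 - 1 / 200) * (Real.exp 1 * X) := by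
        refine mul_le_mul (by linarith) ?_ (by positivity) (by linarith)
        exact mul_le_mul_of_nonneg_right (by linarith) hXpos.le
      have h5 : Real.log 4 * X ≤ 1.3864 * X := mul_le_mul_of_nonneg_right (by linarith) hXpos.le
      nlinarith
    have hy1 : 1 < Real.exp 1 * X := by nlinarith
    have h6 := lb_sum hXpos.le (by nlinarith : X ≤ Real.exp 1 * X) hy1
    have hW : W 1 v = (Ioc ⌊X⌋₊ ⌊Real.exp 1 * X⌋₊).filter Nat.Prime := by
      unfold W
      rw [Nat.cast_one, div_one, div_one, hE]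
    rw [hW]
    refine le_trans ?_ h6
    have hlogY : Real.log (Real.exp 1 * X) = (v : ℝ) + 1 := by rw [← hE, Real.log_exp]
    rw [hlogY]
    have h7 : 0.48 * X / (Real.exp 1 * X * ((v : ℝ) + 1)) ≤
        (Chebyshev.theta (Real.exp 1 * X) - Chebyshev.theta X) /
          (Real.exp 1 * X * ((v : ℝ) + 1)) :=
      div_le_div_of_nonneg_right h3 (by positivity)
    refine le_trans ?_ h7
    rw [div_le_div_iff₀ (by linarith) (by positivity)]
    have h8 : Real.exp 1 * X * ((v : ℝ) + 1) ≤ 2.7183 * X * (2 * v) := by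
      refine mul_le_mul (mul_le_mul_of_nonneg_right (by linarith) hXpos.le) (by linarith)
        (by linarith) (by positivity)
    nlinarith [mul_pos hXpos (by linarith : (0 : ℝ) < v)]
  · -- part 2
    have hQ4 : 4 ≤ Q := by linarith
    have hQpos : 0 < Q := by linarith
    have hlogQ : Real.log 4 ≤ Real.log Q := Real.log_le_log (by norm_num) hQ4
    have hlogQpos : 0 < Real.log Q := by linarith
    have h1 : Chebyshev.theta Q ≤ Real.log 4 * Q := Chebyshev.theta_le_log4_mul_x hQpos.le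
    have h2 := hlow (4 * Q) (by linarith)
    have h3 : 1.3 * Q ≤ Chebyshev.theta (4 * Q) - Chebyshev.theta Q := by nlinarith
    have hlog2Q : Real.log (2 * Q) = Real.log 2 + Real.log Q :=
      Real.log_mul (by norm_num) hQpos.ne'
    have hlog4Q : Real.log (4 * Q) = Real.log 4 + Real.log Q :=
      Real.log_mul (by norm_num) hQpos.ne'
    rcases le_or_gt (0.65 * Q) (Chebyshev.theta (2 * Q) - Chebyshev.theta Q) with h4 | h4
    · refine ⟨Q, Or.inl rfl, ?_⟩
      refine le_trans ?_ (lb_sum hQpos.le (by linarith : Q ≤ 2 * Q) (by linarith))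
      have h5 : 0.65 * Q / (2 * Q * Real.log (2 * Q)) ≤
          (Chebyshev.theta (2 * Q) - Chebyshev.theta Q) / (2 * Q * Real.log (2 * Q)) :=
        div_le_div_of_nonneg_right h4 (by rw [hlog2Q]; positivity)
      refine le_trans ?_ h5
      rw [hlog2Q, div_le_div_iff₀ hlogQpos (by positivity)]
      nlinarith [mul_pos hQpos hlogQpos]
    · refine ⟨2 * Q, Or.inr rfl, ?_⟩
      have h6 : 0.65 * Q ≤ Chebyshev.theta (4 * Q) - Chebyshev.theta (2 * Q) := by linarith
      have h7 := lb_sum (by linarith : 0 ≤ 2 * Q) (by linarith : 2 * Q ≤ 4 * Q) (by linarith)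
      rw [show 2 * (2 * Q) = 4 * Q by ring]
      refine le_trans ?_ h7
      have h5 : 0.65 * Q / (4 * Q * Real.log (4 * Q)) ≤
          (Chebyshev.theta (4 * Q) - Chebyshev.theta (2 * Q)) / (4 * Q * Real.log (4 * Q)) :=
        div_le_div_of_nonneg_right h6 (by rw [hlog4Q]; positivity)
      refine le_trans ?_ h5
      rw [hlog4Q, div_le_div_iff₀ hlogQpos (by positivity)]
      nlinarith [mul_pos hQpos hlogQpos]

end Pool.Agent.OX
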