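import Mathlib
import Pool.Agent.Lib.OX.Defs
import Pool.Agent.Lib.MRL.MV

/-!
# PROJECT OX, row ME: the mean square of the error term over everything (helper16)
-/

set_option autoImplicit false

namespace Pool.Agent.OX

open Finset Pool.Agent.MRL Pool.Agent.MRF MeasureTheory

noncomputable section

namespace MEx

/-- the coefficients of `Sy` -/
def cf (y : ℝ) (s : ℕ) : ℂ :=
  ((Real.log s * Real.exp (-(Real.log ((s : ℝ) / y)) ^ 2 / 4) / s : ℝ) : ℂ)

/-- the dyadic blocks -/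
def blk (y : ℝ) (j : ℕ) : Finset ℕ := (SP y).filter fun s => Nat.log 2 s = j

/-- the part of `Sy` of the block -/
def Sj (y : ℝ) (j : ℕ) (t : ℝ) : ℂ := ∑ s ∈ blk y j, cf y s * nt s t

lemma cont_nt (n : ℕ) : Continuous (nt n) := by
  unfold nt
  fun_prop

lemma norm_nt' (n : ℕ) (t : ℝ) : ‖nt n t‖ = 1 := by
  unfold nt
  rw [show -((t * Real.log n : ℝ) : ℂ) * Complex.I = ((-(t * Real.log n) : ℝ) : ℂ) * Complex.I by
    push_cast; ring]
  exact Complex.norm_exp_ofReal_mul_I _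

lemma int_g {T : ℝ} (hT : 0 < T) : Integrable (g T) := by
  have h := integrable_exp_neg_mul_sq (b := 1 / T ^ 2) (by positivity)
  refine h.congr (Filter.Eventually.of_forall fun t => ?_)
  unfold g
  field_simp

lemma cont_g (T : ℝ) : Continuous (g T) := by
  unfold g
  fun_prop

lemma g_le (T t : ℝ) : g T t ≤ 1 := by
  unfold g
  rw [Real.exp_le_one_iff]
  exact neg_nonpos.mpr (sq_nonneg _)

lemma g_nn (T t : ℝ) : 0 ≤ g T t := (Real.exp_pos _).le

lemma int_Sj (y : ℝ) (j : ℕ) {T : ℝ} (hT : 0 < T) :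
    Integrable fun t => ‖Sj y j t‖ ^ 2 * g T t := by
  have hc : Continuous fun t => ‖Sj y j t‖ ^ 2 := by
    unfold Sj
    exact ((continuous_finsetSum _ fun p _ => continuous_const.mul (cont_nt p)).norm).pow 2
  refine (int_g hT).bdd_mul (c := (∑ n ∈ blk y j, ‖cf y n‖) ^ 2) hc.aestronglyMeasurable ?_
  refine Filter.Eventually.of_forall fun t => ?_
  rw [Real.norm_eq_abs, abs_of_nonneg (by positivity)]
  refine pow_le_pow_left₀ (norm_nonneg _) ?_ 2
  unfold Sj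
  refine (norm_sum_le _ _).trans (Finset.sum_le_sum fun n _ => ?_)
  rw [norm_mul, norm_nt', mul_one]

lemma mem_SP {y : ℝ} (hy : 3 ≤ y) {s : ℕ} (hs : s ∈ SP y) : 1 ≤ s ∧ (s : ℝ) ≤ y ^ 2 := by
  unfold SP at hs
  rw [mem_filter, mem_Icc] at hs
  refine ⟨hs.1.1, ?_⟩
  exact (Nat.le_floor_iff (by positivity)).1 hs.1.2

/-- one block -/
theorem block_bound {y T : ℝ} (hy : 3 ≤ y) (hT : 1 ≤ T) (hTy : T ≤ 4 * y) (j : ℕ) :
    ∫ t : ℝ, ‖Sj y j t‖ ^ 2 * g T t ≤ 72 * Real.pi * (Real.log y) ^ 2 := by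
  have hy0 : 0 < y := by linarith
  have hly : 0 < Real.log y := Real.log_pos (by linarith)
  have h1 := MV.mean_value_set (blk y j) (N := (2 : ℝ) ^ (j + 1)) (one_le_pow₀ (by norm_num))
    (fun n hn => by
      have h2 := mem_filter.1 hn
      have h3 := mem_SP hy h2.1
      refine ⟨h3.1, ?_⟩
      have h4 := Nat.lt_pow_succ_log_self (b := 2) (by norm_num) n
      rw [h2.2] at h4
      exact_mod_cast h4.le) (T := T) (by linarith) (cf y)
  refine h1.trans ?_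
  have hterm : ∀ s ∈ blk y j, (T + (2 : ℝ) ^ (j + 1)) * ‖cf y s‖ ^ 2 ≤
      36 * (Real.log y) ^ 2 * (1 / 2 ^ j) := by
    intro s hs
    have h2 := mem_filter.1 hs
    have h3 := mem_SP hy h2.1
    have hs1 : (1 : ℝ) ≤ s := by exact_mod_cast h3.1
    have hs0 : (0 : ℝ) < s := by linarith
    have hj : (2 : ℝ) ^ j ≤ s := by
      have h4 := Nat.pow_log_le_self 2 (x := s) (by omega)
      rw [h2.2] at h4
      exact_mod_cast h4
    obtain ⟨u, hu⟩ : ∃ u, u = Real.log ((s : ℝ) / y) := ⟨_, rfl⟩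
    have hyu : y = s * Real.exp (-u) := by
      rw [hu, Real.exp_neg, Real.exp_log (by positivity)]
      field_simp
    have hls0 : 0 ≤ Real.log s := Real.log_nonneg hs1
    have hls : Real.log s ≤ 2 * Real.log y := by
      have := Real.log_le_log hs0 h3.2
      rw [Real.log_pow] at this
      exact_mod_cast this
    have hn : ‖cf y s‖ ^ 2 = (Real.log s) ^ 2 * Real.exp (-u ^ 2 / 2) / s ^ 2 := by
      rw [cf, Complex.norm_real, Real.norm_eq_abs, sq_abs, ← hu, div_pow, mul_pow, ← Real.exp_nat_mul]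
      congr 3
      push_cast
      ring
    have hexp : Real.exp (-u) * Real.exp (-u ^ 2 / 2) ≤ Real.exp (1 / 2) := by
      rw [← Real.exp_add]
      exact Real.exp_le_exp.2 (by nlinarith [sq_nonneg (u + 1)])
    have he2 : Real.exp (-u ^ 2 / 2) ≤ 1 := by
      rw [Real.exp_le_one_iff]
      nlinarith [sq_nonneg u]
    have he3 : Real.exp (1 / 2) ≤ 7 / 4 := by
      have h5 : Real.exp (1 / 2) ^ 2 = Real.exp 1 := by
        rw [← Real.exp_nat_mul]
        norm_num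
      have h6 := Real.exp_one_lt_d9
      nlinarith [Real.exp_pos (1 / 2)]
    have hTT : T + (2 : ℝ) ^ (j + 1) ≤ 4 * (s * Real.exp (-u)) + 2 * s := by
      rw [← hyu, pow_succ]
      linarith
    have hmain : (T + (2 : ℝ) ^ (j + 1)) * Real.exp (-u ^ 2 / 2) ≤ 9 * s := by
      have h7 : (T + (2 : ℝ) ^ (j + 1)) * Real.exp (-u ^ 2 / 2) ≤
          (4 * (s * Real.exp (-u)) + 2 * s) * Real.exp (-u ^ 2 / 2) := by
        gcongr
      have h8 : (4 * (s * Real.exp (-u)) + 2 * s) * Real.exp (-u ^ 2 / 2) =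
          4 * s * (Real.exp (-u) * Real.exp (-u ^ 2 / 2)) + 2 * s * Real.exp (-u ^ 2 / 2) := by ring
      have h9 : 4 * s * (Real.exp (-u) * Real.exp (-u ^ 2 / 2)) ≤ 4 * s * (7 / 4) := by
        gcongr
        exact hexp.trans he3
      have h10 : 2 * (s : ℝ) * Real.exp (-u ^ 2 / 2) ≤ 2 * s * 1 := by gcongr
      linarith
    rw [hn]
    have h11 : (T + (2 : ℝ) ^ (j + 1)) * ((Real.log s) ^ 2 * Real.exp (-u ^ 2 / 2) / s ^ 2) =
        ((T + (2 : ℝ) ^ (j + 1)) * Real.exp (-u ^ 2 / 2)) * ((Real.log s) ^ 2 / s ^ 2) := by ring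
    rw [h11]
    calc ((T + (2 : ℝ) ^ (j + 1)) * Real.exp (-u ^ 2 / 2)) * ((Real.log s) ^ 2 / s ^ 2)
        ≤ (9 * s) * ((2 * Real.log y) ^ 2 / s ^ 2) := by gcongr
      _ = 36 * (Real.log y) ^ 2 * (1 / s) := by field_simp; ring
      _ ≤ 36 * (Real.log y) ^ 2 * (1 / 2 ^ j) := by gcongr
  have hcard : ((blk y j).card : ℝ) ≤ 2 ^ j := by
    have h2 : blk y j ⊆ Ico (2 ^ j) (2 ^ (j + 1)) := by
      intro s hs
      have h2 := mem_filter.1 hs
      have h3 := mem_SP hy h2.1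
      rw [mem_Ico]
      have h4 := Nat.pow_log_le_self 2 (x := s) (by omega)
      have h5 := Nat.lt_pow_succ_log_self (b := 2) (by norm_num) s
      rw [h2.2] at h4 h5
      exact ⟨h4, h5⟩
    have h3 := card_le_card h2
    rw [Nat.card_Ico, pow_succ] at h3
    have h4 : (blk y j).card ≤ 2 ^ j := by omega
    exact_mod_cast h4
  have hsum : (T + (2 : ℝ) ^ (j + 1)) * ∑ s ∈ blk y j, ‖cf y s‖ ^ 2 ≤ 36 * (Real.log y) ^ 2 := by
    rw [mul_sum]
    refine (sum_le_sum hterm).trans ?_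
    rw [sum_const, nsmul_eq_mul]
    have h5 : ((blk y j).card : ℝ) * (36 * (Real.log y) ^ 2 * (1 / 2 ^ j)) ≤
        2 ^ j * (36 * (Real.log y) ^ 2 * (1 / 2 ^ j)) := by gcongr
    refine h5.trans (le_of_eq ?_)
    field_simp
  calc 2 * Real.pi * (T + (2 : ℝ) ^ (j + 1)) * ∑ s ∈ blk y j, ‖cf y s‖ ^ 2
      = 2 * Real.pi * ((T + (2 : ℝ) ^ (j + 1)) * ∑ s ∈ blk y j, ‖cf y s‖ ^ 2) := by ring
    _ ≤ 2 * Real.pi * (36 * (Real.log y) ^ 2) := by
        have := Real.pi_pos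
        gcongr
    _ = _ := by ring

/-- the number of blocks -/
def Jn (y : ℝ) : ℕ := ⌊3 * Real.log y⌋₊ + 1

lemma one_le_log {y : ℝ} (hy : 3 ≤ y) : 1 ≤ Real.log y := by
  rw [Real.le_log_iff_exp_le (by linarith)]
  have := Real.exp_one_lt_d9
  linarith

lemma Jn_le {y : ℝ} (hy : 3 ≤ y) : (Jn y : ℝ) ≤ 4 * Real.log y := by
  have h1 := one_le_log hy
  have h2 := Nat.floor_le (show 0 ≤ 3 * Real.log y by linarith)
  unfold Jn
  push_cast
  linarith

theorem Sy_eq {y : ℝ} (hy : 3 ≤ y) (t : ℝ) : Sy y t = ∑ j ∈ range (Jn y), Sj y j t := by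
  unfold Sj blk
  rw [sum_fiberwise_of_maps_to (s := SP y) (t := range (Jn y)) (g := Nat.log 2)]
  · rfl
  · intro s hs
    have h3 := mem_SP hy hs
    rw [mem_range]
    have h4 := Nat.pow_log_le_self 2 (x := s) (by omega)
    have h5 : ((2 : ℝ) ^ (Nat.log 2 s)) ≤ y ^ 2 := by
      refine le_trans ?_ h3.2
      exact_mod_cast h4
    have h6 := Real.log_le_log (by positivity) h5
    rw [Real.log_pow, Real.log_pow] at h6
    have h7 := Real.log_two_gt_d9
    have h8 : (Nat.log 2 s : ℝ) * (2 / 3) ≤ (Nat.log 2 s : ℝ) * Real.log 2 := by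
      gcongr
      linarith
    have h9 : (Nat.log 2 s : ℝ) ≤ 3 * Real.log y := by
      push_cast at h6
      linarith
    unfold Jn
    rw [Nat.lt_add_one_iff]
    exact Nat.le_floor h9

theorem norm_my (y t : ℝ) : ‖my y t‖ ^ 2 = 4 * Real.pi * Real.exp (-2 * t ^ 2) := by
  unfold my
  rw [norm_mul, Complex.norm_real, Real.norm_eq_abs]
  have h1 : ‖Complex.exp (-((t * Real.log y : ℝ) : ℂ) * Complex.I)‖ = 1 := by
    rw [show -((t * Real.log y : ℝ) : ℂ) * Complex.I = ((-(t * Real.log y) : ℝ) : ℂ) * Complex.I by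
      push_cast; ring]
    exact Complex.norm_exp_ofReal_mul_I _
  rw [h1, mul_one, sq_abs, mul_pow, mul_pow, Real.sq_sqrt Real.pi_pos.le, ← Real.exp_nat_mul]
  have h2 : ((2 : ℕ) : ℝ) * -t ^ 2 = -2 * t ^ 2 := by push_cast; ring
  rw [h2]
  ring

end MEx

open MEx

theorem me : ME := by
  have hpi := Real.pi_pos
  refine ⟨2 * (1152 * Real.pi) + 2 * (4 * Real.pi * √(Real.pi / 2)), by positivity, ?_⟩
  intro y T hy hT hTy
  have hT0 : 0 < T := by linarith
  have hL1 := one_le_log hy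
  have hJ := Jn_le hy
  have hJ0 : (0 : ℝ) ≤ Jn y := Nat.cast_nonneg _
  set L := Real.log y with hL
  -- the integrand
  have hpt : ∀ t : ℝ, ‖Ey y t‖ ^ 2 * g T t ≤
      2 * (Jn y * ∑ j ∈ range (Jn y), ‖Sj y j t‖ ^ 2 * g T t) +
        2 * (4 * Real.pi * Real.exp (-2 * t ^ 2)) := by
    intro t
    have h1 : ‖Ey y t‖ ^ 2 ≤ 2 * ‖Sy y t‖ ^ 2 + 2 * ‖my y t‖ ^ 2 := by
      have h2 : ‖Ey y t‖ ≤ ‖Sy y t‖ + ‖my y t‖ := norm_sub_le _ _
      nlinarith [sq_nonneg (‖Sy y t‖ - ‖my y t‖), norm_nonneg (Ey y t), norm_nonneg (Sy y t),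
        norm_nonneg (my y t)]
    have h3 : ‖Sy y t‖ ^ 2 ≤ Jn y * ∑ j ∈ range (Jn y), ‖Sj y j t‖ ^ 2 := by
      rw [Sy_eq hy]
      have h4 : ‖∑ j ∈ range (Jn y), Sj y j t‖ ^ 2 ≤ (∑ j ∈ range (Jn y), ‖Sj y j t‖) ^ 2 :=
        pow_le_pow_left₀ (norm_nonneg _) (norm_sum_le _ _) 2
      refine h4.trans ?_
      have h5 := sq_sum_le_card_mul_sum_sq (s := range (Jn y)) (f := fun j => ‖Sj y j t‖)
      rw [card_range] at h5
      exact h5
    have hg := g_nn T t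
    have hg1 := g_le T t
    rw [norm_my] at h1
    have h6 : 0 ≤ 4 * Real.pi * Real.exp (-2 * t ^ 2) := by positivity
    calc ‖Ey y t‖ ^ 2 * g T t ≤
        (2 * (Jn y * ∑ j ∈ range (Jn y), ‖Sj y j t‖ ^ 2) +
          2 * (4 * Real.pi * Real.exp (-2 * t ^ 2))) * g T t := by
          gcongr
          linarith
      _ = 2 * (Jn y * ∑ j ∈ range (Jn y), ‖Sj y j t‖ ^ 2 * g T t) +
          2 * (4 * Real.pi * Real.exp (-2 * t ^ 2)) * g T t := by
          rw [← sum_mul]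
          ring
      _ ≤ _ := by
          have : 2 * (4 * Real.pi * Real.exp (-2 * t ^ 2)) * g T t ≤
              2 * (4 * Real.pi * Real.exp (-2 * t ^ 2)) * 1 := by gcongr
          linarith
  have hi1 : Integrable fun t : ℝ => 2 * ((Jn y : ℝ) * ∑ j ∈ range (Jn y),
      ‖Sj y j t‖ ^ 2 * g T t) :=
    ((integrable_finsetSum _ fun j _ => int_Sj y j hT0).const_mul _).const_mul _
  have hi2 : Integrable fun t : ℝ => 2 * (4 * Real.pi * Real.exp (-2 * t ^ 2)) :=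
    ((integrable_exp_neg_mul_sq (b := 2) (by norm_num)).const_mul _).const_mul _
  have h0 : ∫ t : ℝ, ‖Ey y t‖ ^ 2 * g T t ≤
      ∫ t : ℝ, (2 * ((Jn y : ℝ) * ∑ j ∈ range (Jn y), ‖Sj y j t‖ ^ 2 * g T t) +
        2 * (4 * Real.pi * Real.exp (-2 * t ^ 2))) := by
    refine integral_mono_of_nonneg (Filter.Eventually.of_forall fun t => ?_) (hi1.add hi2)
      (Filter.Eventually.of_forall hpt)
    exact mul_nonneg (sq_nonneg _) (g_nn T t)
  refine h0.trans ?_
  rw [integral_add hi1 hi2, integral_const_mul, integral_const_mul,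
    integral_finsetSum _ fun j _ => int_Sj y j hT0, integral_const_mul, integral_const_mul,
    integral_gaussian 2]
  have hsum : ∑ j ∈ range (Jn y), ∫ t : ℝ, ‖Sj y j t‖ ^ 2 * g T t ≤
      Jn y * (72 * Real.pi * L ^ 2) := by
    refine (sum_le_sum fun j _ => block_bound hy hT hTy j).trans (le_of_eq ?_)
    rw [sum_const, card_range, nsmul_eq_mul]
  have h1 : (Jn y : ℝ) * ∑ j ∈ range (Jn y), ∫ t : ℝ, ‖Sj y j t‖ ^ 2 * g T t ≤
      1152 * Real.pi * L ^ 4 := by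
    calc (Jn y : ℝ) * ∑ j ∈ range (Jn y), ∫ t : ℝ, ‖Sj y j t‖ ^ 2 * g T t
        ≤ (Jn y : ℝ) * (Jn y * (72 * Real.pi * L ^ 2)) := by gcongr
      _ ≤ (4 * L) * ((4 * L) * (72 * Real.pi * L ^ 2)) := by gcongr
      _ = _ := by ring
  have h2 : 1 ≤ L ^ 4 := one_le_pow₀ hL1
  have h3 : 2 * (4 * Real.pi * √(Real.pi / 2)) * 1 ≤ 2 * (4 * Real.pi * √(Real.pi / 2)) * L ^ 4 := by
    gcongr
  nlinarith

end

end Pool.Agent.OX
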