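import Mathlib
import Pool.Agent.Lib.OX.Defs

/-!
# PROJECT OX, row PG: Gaussian Perron formula with the line moved to `Re = 1 - δ`.  helper66.
-/

set_option autoImplicit false

namespace Pool.Agent.OX.PGr

open MeasureTheory Complex

/-- the Gaussian kernel on a vertical line. -/
theorem gauss_line (a u : ℝ) :
    ∫ ξ : ℝ, cexp (((a : ℂ) + ξ * I) ^ 2 - ((a : ℂ) + ξ * I) * u) =
      ((√Real.pi * Real.exp (-u ^ 2 / 4) : ℝ) : ℂ) := by
  have h := integral_cexp_quadratic (b := -1) (by simp) ((2 * a - u) * I) ((a : ℂ) ^ 2 - a * u)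
  have h1 : (fun ξ : ℝ => cexp (((a : ℂ) + ξ * I) ^ 2 - ((a : ℂ) + ξ * I) * u)) =
      fun ξ : ℝ => cexp (-1 * (ξ : ℂ) ^ 2 + (2 * a - u) * I * ξ + ((a : ℂ) ^ 2 - a * u)) := by
    funext ξ
    congr 1
    linear_combination (-(ξ : ℂ) ^ 2) * (-(I_sq))
  rw [h1, h]
  have h2 : ((Real.pi : ℂ) / -(-1)) ^ (1 / 2 : ℂ) = ((√Real.pi : ℝ) : ℂ) := by
    rw [neg_neg, div_one, Real.sqrt_eq_rpow, ofReal_cpow Real.pi_pos.le]
    norm_num
  rw [h2, ofReal_mul, ofReal_exp]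
  congr 2
  push_cast
  linear_combination (-(2 * (a : ℂ) - u) ^ 2 / (4 * -1)) * I_sq

theorem norm_kernel (a u ξ : ℝ) :
    ‖cexp (((a : ℂ) + ξ * I) ^ 2 - ((a : ℂ) + ξ * I) * u)‖ =
      Real.exp (a ^ 2 - a * u) * Real.exp (-ξ ^ 2) := by
  rw [norm_exp, ← Real.exp_add]
  congr 1
  simp [sq]
  ring

theorem integrable_gauss : Integrable (fun ξ : ℝ => Real.exp (-ξ ^ 2)) := by
  simpa using integrable_exp_neg_mul_sq (b := 1) one_pos

theorem integral_gauss_one : ∫ ξ : ℝ, Real.exp (-ξ ^ 2) = √Real.pi := by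
  simpa using integral_gaussian 1

/-- the full line transform. -/
theorem full_line (L t : ℝ) :
    ∫ x : ℝ, cexp (-((t : ℂ) * x) * I) * ((Real.exp (-(x - L) ^ 2 / 4) : ℝ) : ℂ) =
      ((2 * √Real.pi * Real.exp (-t ^ 2) : ℝ) : ℂ) * cexp (-((t * L : ℝ) : ℂ) * I) := by
  have h := integral_cexp_quadratic (b := -1 / 4) (by norm_num) ((L : ℂ) / 2 - t * I)
    (-(L : ℂ) ^ 2 / 4)
  have h1 : (fun x : ℝ => cexp (-((t : ℂ) * x) * I) *
      ((Real.exp (-(x - L) ^ 2 / 4) : ℝ) : ℂ)) =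
      fun x : ℝ => cexp (-1 / 4 * (x : ℂ) ^ 2 + ((L : ℂ) / 2 - t * I) * x + -(L : ℂ) ^ 2 / 4) := by
    funext x
    rw [ofReal_exp, ← Complex.exp_add]
    congr 1
    push_cast
    ring
  rw [h1, h]
  have h2 : ((Real.pi : ℂ) / -(-1 / 4)) ^ (1 / 2 : ℂ) = ((2 * √Real.pi : ℝ) : ℂ) := by
    have h3 : ((Real.pi : ℂ) / -(-1 / 4)) = ((4 * Real.pi : ℝ) : ℂ) := by
      push_cast; ring
    rw [h3]
    have h4 : (2 * √Real.pi : ℝ) = (4 * Real.pi) ^ (1 / 2 : ℝ) := by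
      rw [← Real.sqrt_eq_rpow, Real.sqrt_mul (by norm_num)]
      congr 1
      rw [show (4 : ℝ) = 2 ^ 2 by norm_num, Real.sqrt_sq (by norm_num)]
    rw [h4, ofReal_cpow (by positivity)]
    norm_num
  rw [h2]
  rw [show ((2 * √Real.pi * Real.exp (-t ^ 2) : ℝ) : ℂ) =
    ((2 * √Real.pi : ℝ) : ℂ) * cexp (-(t : ℂ) ^ 2) by push_cast; ring, mul_assoc,
    ← Complex.exp_add]
  congr 2
  push_cast
  linear_combination ((t : ℂ) ^ 2) * I_sq

end Pool.Agent.OX.PGr

namespace Pool.Agent.OX.PGr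

open MeasureTheory Complex Set

theorem integrable_full (L t : ℝ) :
    Integrable (fun x : ℝ => cexp (-((t : ℂ) * x) * I) *
      ((Real.exp (-(x - L) ^ 2 / 4) : ℝ) : ℂ)) := by
  have h := integrable_cexp_quadratic' (b := -1 / 4) (by norm_num) ((L : ℂ) / 2 - t * I)
    (-(L : ℂ) ^ 2 / 4)
  refine h.congr (Filter.Eventually.of_forall fun x => ?_)
  show _ = cexp (-((t : ℂ) * x) * I) * ((Real.exp (-(x - L) ^ 2 / 4) : ℝ) : ℂ)
  rw [ofReal_exp, ← Complex.exp_add]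
  congr 1
  push_cast
  ring

theorem norm_osc (t x : ℝ) : ‖cexp (-((t : ℂ) * x) * I)‖ = 1 := by
  rw [show -((t : ℂ) * x) * I = ((-(t * x) : ℝ) : ℂ) * I by push_cast; ring]
  exact norm_exp_ofReal_mul_I _

theorem tail_bound {L : ℝ} (hL : 0 ≤ L) (t : ℝ) :
    ‖∫ x in Iic (0 : ℝ), cexp (-((t : ℂ) * x) * I) *
      ((Real.exp (-(x - L) ^ 2 / 4) : ℝ) : ℂ)‖ ≤ 2 * √Real.pi * Real.exp (-L ^ 2 / 4) := by
  have hi : Integrable (fun x : ℝ => Real.exp (-L ^ 2 / 4) * Real.exp (-(1 / 4) * x ^ 2)) :=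
    (integrable_exp_neg_mul_sq (b := 1 / 4) (by norm_num)).const_mul _
  calc ‖∫ x in Iic (0 : ℝ), cexp (-((t : ℂ) * x) * I) *
        ((Real.exp (-(x - L) ^ 2 / 4) : ℝ) : ℂ)‖
      ≤ ∫ x in Iic (0 : ℝ), Real.exp (-L ^ 2 / 4) * Real.exp (-(1 / 4) * x ^ 2) := by
        refine norm_integral_le_of_norm_le hi.integrableOn ?_
        refine (ae_restrict_iff' measurableSet_Iic).2 (Filter.Eventually.of_forall fun x hx => ?_)
        rw [norm_mul, norm_osc, one_mul, norm_real, Real.norm_eq_abs, abs_of_pos (Real.exp_pos _),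
          ← Real.exp_add]
        refine Real.exp_le_exp.2 ?_
        have hx' : x ≤ 0 := hx
        nlinarith [mul_nonneg hL (neg_nonneg.2 hx')]
    _ ≤ ∫ x : ℝ, Real.exp (-L ^ 2 / 4) * Real.exp (-(1 / 4) * x ^ 2) :=
        setIntegral_le_integral hi (Filter.Eventually.of_forall fun x => by positivity)
    _ = 2 * √Real.pi * Real.exp (-L ^ 2 / 4) := by
        rw [integral_const_mul, integral_gaussian]
        have h4 : √(Real.pi / (1 / 4)) = 2 * √Real.pi := by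
          rw [show Real.pi / (1 / 4) = 2 ^ 2 * Real.pi by ring, Real.sqrt_mul (by positivity),
            Real.sqrt_sq (by norm_num)]
        rw [h4]; ring

/-- the polar part. -/
theorem polar_part {a : ℝ} (ha : 0 < a) (L t : ℝ) :
    ∫ ξ : ℝ, cexp (((a : ℂ) + ξ * I) ^ 2 + L * ((a : ℂ) + ξ * I)) / ((a : ℂ) + ξ * I + t * I) =
      (√Real.pi : ℂ) * ∫ x in Ioi (0 : ℝ), cexp (-((t : ℂ) * x) * I) *
        ((Real.exp (-(x - L) ^ 2 / 4) : ℝ) : ℂ) := by
  have h1 : ∀ ξ : ℝ, cexp (((a : ℂ) + ξ * I) ^ 2 + L * ((a : ℂ) + ξ * I)) /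
      ((a : ℂ) + ξ * I + t * I) = ∫ x in Ioi (0 : ℝ),
        cexp (((a : ℂ) + ξ * I) ^ 2 + L * ((a : ℂ) + ξ * I)) *
          cexp (-((a : ℂ) + ξ * I + t * I) * x) := by
    intro ξ
    have hre : (-((a : ℂ) + ξ * I + t * I)).re < 0 := by simp [ha]
    rw [integral_const_mul, integral_exp_mul_complex_Ioi hre 0]
    simp only [ofReal_zero, mul_zero, Complex.exp_zero]
    rw [neg_div_neg_eq, mul_one_div]
  simp_rw [h1]
  rw [integral_integral_swap]
  · rw [← integral_const_mul]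
    refine setIntegral_congr_fun measurableSet_Ioi fun x hx => ?_
    have h2 : ∀ ξ : ℝ, cexp (((a : ℂ) + ξ * I) ^ 2 + L * ((a : ℂ) + ξ * I)) *
        cexp (-((a : ℂ) + ξ * I + t * I) * x) =
        cexp (((a : ℂ) + ξ * I) ^ 2 - ((a : ℂ) + ξ * I) * ((x - L : ℝ) : ℂ)) *
          cexp (-((t : ℂ) * x) * I) := by
      intro ξ
      rw [← Complex.exp_add, ← Complex.exp_add]
      congr 1
      push_cast
      ring
    show ∫ ξ : ℝ, cexp (((a : ℂ) + ξ * I) ^ 2 + L * ((a : ℂ) + ξ * I)) *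
        cexp (-((a : ℂ) + ξ * I + t * I) * x) = _
    simp_rw [h2]
    rw [integral_mul_const, gauss_line]
    push_cast
    ring
  · have hi1 : Integrable (fun ξ : ℝ => Real.exp (a ^ 2 + L * a) * Real.exp (-ξ ^ 2)) :=
      integrable_gauss.const_mul _
    have hi2 : Integrable (fun x : ℝ => Real.exp (-a * x)) (volume.restrict (Ioi (0 : ℝ))) :=
      integrableOn_exp_mul_Ioi (by linarith) 0
    have hi3 := hi1.mul_prod hi2
    refine hi3.mono' ?_ (Filter.Eventually.of_forall fun z => ?_)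
    · apply Continuous.aestronglyMeasurable
      fun_prop
    · simp only [Function.uncurry]
      rw [norm_mul, norm_exp, norm_exp, ← Real.exp_add, ← Real.exp_add, ← Real.exp_add]
      refine Real.exp_le_exp.2 (le_of_eq ?_)
      simp [sq]
      ring

/-- the polar part is the main term, up to a small error. -/
theorem polar_main {a L : ℝ} (ha : 0 < a) (hL : 0 ≤ L) (t : ℝ) :
    ‖(√Real.pi : ℂ) * (((2 * √Real.pi * Real.exp (-t ^ 2) : ℝ) : ℂ) *
        cexp (-((t * L : ℝ) : ℂ) * I)) -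
      ∫ ξ : ℝ, cexp (((a : ℂ) + ξ * I) ^ 2 + L * ((a : ℂ) + ξ * I)) /
        ((a : ℂ) + ξ * I + t * I)‖ ≤ 2 * Real.pi * Real.exp (-L ^ 2 / 4) := by
  rw [polar_part ha, ← full_line, ← mul_sub]
  have h := integral_add_compl (s := Iic (0 : ℝ)) measurableSet_Iic (integrable_full L t)
  rw [compl_Iic] at h
  rw [← h, add_sub_cancel_right, norm_mul, norm_real, Real.norm_eq_abs,
    abs_of_nonneg (Real.sqrt_nonneg _)]
  calc √Real.pi * ‖∫ x in Iic (0 : ℝ), cexp (-((t : ℂ) * x) * I) *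
        ((Real.exp (-(x - L) ^ 2 / 4) : ℝ) : ℂ)‖
      ≤ √Real.pi * (2 * √Real.pi * Real.exp (-L ^ 2 / 4)) :=
        mul_le_mul_of_nonneg_left (tail_bound hL t) (Real.sqrt_nonneg _)
    _ = 2 * (√Real.pi * √Real.pi) * Real.exp (-L ^ 2 / 4) := by ring
    _ = 2 * Real.pi * Real.exp (-L ^ 2 / 4) := by rw [Real.mul_self_sqrt Real.pi_pos.le]

end Pool.Agent.OX.PGr

namespace Pool.Agent.OX.PGr

open MeasureTheory Complex Set ArithmeticFunction
open Pool.Agent.MRL (nt)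

/-- von Mangoldt's function as complex coefficients. -/
noncomputable def lm (n : ℕ) : ℂ := ((vonMangoldt n : ℝ) : ℂ)

theorem z1_ne {s : ℂ} (hs : 1 ≤ s.re) : riemannZeta₁ s ≠ 0 := by
  by_cases h1 : s = 1
  · rw [h1, riemannZeta₁_one]; exact one_ne_zero
  · intro h0
    have h2 := riemannZeta_eq_inv_sub_mul h1
    rw [h0, mul_zero] at h2
    exact riemannZeta_ne_zero_of_one_le_re hs h2

theorem LS_eq {s : ℂ} (hs : 1 < s.re) :
    LSeries lm s = 1 / (s - 1) - logDeriv riemannZeta₁ s := by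
  have h1 : s ≠ 1 := by
    rintro rfl
    simp at hs
  have h2 : s - 1 ≠ 0 := sub_ne_zero.2 h1
  have h3 := z1_ne hs.le
  have h4 := LSeries_vonMangoldt_eq_deriv_riemannZeta_div hs
  have h5 : LSeries lm s = - deriv riemannZeta s / riemannZeta s := h4
  rw [h5, deriv_riemannZeta_eq_neg_inv_sub_sq_mul_add h1, riemannZeta_eq_inv_sub_mul h1,
    logDeriv_apply]
  field_simp
  ring

theorem LS_summable {s : ℂ} (hs : 1 < s.re) : LSeriesSummable lm s :=
  LSeriesSummable_vonMangoldt hs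

/-- the coefficients in absolute value. -/
noncomputable def la (a : ℝ) (n : ℕ) : ℝ := ‖LSeries.term lm ((1 + a : ℝ) : ℂ) n‖

theorem norm_term (a : ℝ) (s : ℂ) (hs : s.re = 1 + a) (n : ℕ) :
    ‖LSeries.term lm s n‖ = la a n := by
  unfold la
  rw [LSeries.norm_term_eq, LSeries.norm_term_eq, hs, ofReal_re]

theorem la_summable {a : ℝ} (ha : 0 < a) : Summable (la a) := by
  have h : LSeriesSummable lm ((1 + a : ℝ) : ℂ) := LS_summable (by simp [ha])
  exact h.norm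

theorem la_tsum_le : ∃ C : ℝ, 1 ≤ C ∧ ∀ a : ℝ, 0 < a → a ≤ 1 → ∑' n, la a n ≤ C / a := by
  have hc : ContinuousOn (fun x : ℝ => logDeriv riemannZeta₁ (x : ℂ)) (Icc (1 : ℝ) 2) := by
    intro x hx
    refine ContinuousAt.continuousWithinAt ?_
    have h1 : ContinuousAt (fun s : ℂ => deriv riemannZeta₁ s / riemannZeta₁ s) (x : ℂ) :=
      (differentiable_riemannZeta₁.deriv.continuous.continuousAt).div
        differentiable_riemannZeta₁.continuous.continuousAt (z1_ne (by simpa using hx.1))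
    exact ContinuousAt.comp (f := fun x : ℝ => (x : ℂ)) h1 continuous_ofReal.continuousAt
  obtain ⟨C, hC⟩ := isCompact_Icc.exists_bound_of_continuousOn hc
  refine ⟨1 + |C|, by linarith [abs_nonneg C], fun a ha ha1 => ?_⟩
  have h1 : ∀ n, LSeries.term lm ((1 + a : ℝ) : ℂ) n = ((la a n : ℝ) : ℂ) := by
    intro n
    unfold la
    rw [LSeries.norm_term_eq]
    by_cases hn : n = 0
    · simp [hn]
    · rw [LSeries.term_of_ne_zero hn, if_neg hn]
      have h2 : ‖lm n‖ = vonMangoldt n := by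
        unfold lm
        rw [norm_real, Real.norm_eq_abs, abs_of_nonneg vonMangoldt_nonneg]
      rw [h2, ofReal_re]
      unfold lm
      rw [ofReal_div, ofReal_cpow (by positivity)]
      simp
  have h2 : LSeries lm ((1 + a : ℝ) : ℂ) = ((∑' n, la a n : ℝ) : ℂ) := by
    unfold LSeries
    rw [ofReal_tsum]
    exact tsum_congr h1
  have h3 : ∑' n, la a n = ‖LSeries lm ((1 + a : ℝ) : ℂ)‖ := by
    have h0 : 0 ≤ ∑' n, la a n := tsum_nonneg fun n => norm_nonneg _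
    rw [h2, norm_real, Real.norm_eq_abs, abs_of_nonneg h0]
  rw [h3, LS_eq (by simp [ha])]
  calc ‖1 / (((1 + a : ℝ) : ℂ) - 1) - logDeriv riemannZeta₁ ((1 + a : ℝ) : ℂ)‖
      ≤ ‖1 / (((1 + a : ℝ) : ℂ) - 1)‖ + ‖logDeriv riemannZeta₁ ((1 + a : ℝ) : ℂ)‖ :=
        norm_sub_le _ _
    _ ≤ 1 / a + |C| := by
        refine add_le_add (le_of_eq ?_) ((hC (1 + a) ⟨by linarith, by linarith⟩).trans
          (le_abs_self C))
        rw [show (((1 + a : ℝ) : ℂ) - 1) = (a : ℂ) by push_cast; ring, norm_div, norm_one,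
          norm_real, Real.norm_eq_abs, abs_of_pos ha]
    _ ≤ (1 + |C|) / a := by
        rw [add_div]
        have := abs_nonneg C
        have h5 : |C| ≤ |C| / a := by
          rw [le_div_iff₀ ha]
          nlinarith
        linarith

/-- the terms of the smooth sum. -/
noncomputable def tt (y t : ℝ) (n : ℕ) : ℂ :=
  ((vonMangoldt n * Real.exp (-(Real.log ((n : ℝ) / y)) ^ 2 / 4) / n : ℝ) : ℂ) * nt n t

theorem term_integral {a y : ℝ} (hy : 0 < y) (t : ℝ) (n : ℕ) :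
    ∫ ξ : ℝ, cexp (((a : ℂ) + ξ * I) ^ 2 + (Real.log y : ℂ) * ((a : ℂ) + ξ * I)) *
      LSeries.term lm (1 + t * I + ((a : ℂ) + ξ * I)) n = (√Real.pi : ℂ) * tt y t n := by
  by_cases hn : n = 0
  · subst hn
    simp [tt, LSeries.term_zero]
  have hn' : (n : ℂ) ≠ 0 := by exact_mod_cast hn
  have hnr : (0 : ℝ) < n := by exact_mod_cast Nat.pos_of_ne_zero hn
  have h1 : ∀ ξ : ℝ, cexp (((a : ℂ) + ξ * I) ^ 2 + (Real.log y : ℂ) * ((a : ℂ) + ξ * I)) *
      LSeries.term lm (1 + t * I + ((a : ℂ) + ξ * I)) n =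
      cexp (((a : ℂ) + ξ * I) ^ 2 - ((a : ℂ) + ξ * I) * ((Real.log n - Real.log y : ℝ) : ℂ)) *
        (lm n * cexp (-(1 + t * I) * Real.log n)) := by
    intro ξ
    rw [LSeries.term_of_ne_zero hn, cpow_def_of_ne_zero hn', ← natCast_log]
    have h2 : lm n / cexp ((Real.log n : ℂ) * (1 + t * I + ((a : ℂ) + ξ * I))) =
        lm n * cexp (-((Real.log n : ℂ) * (1 + t * I + ((a : ℂ) + ξ * I)))) := by
      rw [Complex.exp_neg]; rfl
    rw [h2]
    have h3 : ∀ x y z : ℂ, x * (y * z) = y * (x * z) := fun x y z => by ring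
    rw [h3, h3 (cexp _) (lm n), ← Complex.exp_add, ← Complex.exp_add]
    congr 2
    push_cast
    ring
  simp_rw [h1]
  rw [integral_mul_const, gauss_line]
  unfold tt nt lm
  rw [Real.log_div hnr.ne' hy.ne']
  have h4 : cexp (-(1 + t * I) * Real.log n) =
      ((1 / n : ℝ) : ℂ) * cexp (-((t * Real.log n : ℝ) : ℂ) * I) := by
    have h5 : ((1 / n : ℝ) : ℂ) = cexp (-(Real.log n : ℂ)) := by
      rw [← ofReal_neg, ← ofReal_exp, Real.exp_neg, Real.exp_log hnr, one_div]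
    rw [h5, ← Complex.exp_add]
    congr 1
    push_cast
    ring
  rw [h4]
  push_cast
  ring

/-- summation. -/
theorem series_integral {a y : ℝ} (ha : 0 < a) (hy : 0 < y) (t : ℝ) :
    HasSum (fun n => (√Real.pi : ℂ) * tt y t n)
      (∫ ξ : ℝ, cexp (((a : ℂ) + ξ * I) ^ 2 + (Real.log y : ℂ) * ((a : ℂ) + ξ * I)) *
        LSeries lm (1 + t * I + ((a : ℂ) + ξ * I))) := by
  have hN : ∀ (n : ℕ) (ξ : ℝ), ‖cexp (((a : ℂ) + ξ * I) ^ 2 +
      (Real.log y : ℂ) * ((a : ℂ) + ξ * I)) *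
      LSeries.term lm (1 + t * I + ((a : ℂ) + ξ * I)) n‖ =
      Real.exp (a ^ 2 + Real.log y * a) * la a n * Real.exp (-ξ ^ 2) := by
    intro n ξ
    rw [norm_mul, norm_term a _ (by simp), norm_exp]
    have h : (((a : ℂ) + ξ * I) ^ 2 + (Real.log y : ℂ) * ((a : ℂ) + ξ * I)).re =
        (a ^ 2 + Real.log y * a) + (-ξ ^ 2) := by
      simp [sq]
      ring
    rw [h, Real.exp_add]
    ring
  have hF : ∀ n : ℕ, Integrable (fun ξ : ℝ => cexp (((a : ℂ) + ξ * I) ^ 2 +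
      (Real.log y : ℂ) * ((a : ℂ) + ξ * I)) *
      LSeries.term lm (1 + t * I + ((a : ℂ) + ξ * I)) n) := by
    intro n
    refine (integrable_gauss.const_mul (Real.exp (a ^ 2 + Real.log y * a) * la a n)).mono' ?_
      (Filter.Eventually.of_forall fun ξ => (hN n ξ).le)
    apply Continuous.aestronglyMeasurable
    refine Continuous.mul (by fun_prop) ?_
    by_cases hn : n = 0
    · subst hn
      simp only [LSeries.term_zero]
      exact continuous_const
    · have hn' : (n : ℂ) ≠ 0 := by exact_mod_cast hn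
      simp only [LSeries.term_of_ne_zero hn]
      refine continuous_const.div ?_ fun ξ => ?_
      · exact (continuous_const.cpow (by fun_prop) fun ξ => Or.inl (by
          simpa using Nat.pos_of_ne_zero hn))
      · simp [cpow_eq_zero_iff, hn']
  have hS : Summable fun n : ℕ => ∫ ξ : ℝ, ‖cexp (((a : ℂ) + ξ * I) ^ 2 +
      (Real.log y : ℂ) * ((a : ℂ) + ξ * I)) *
      LSeries.term lm (1 + t * I + ((a : ℂ) + ξ * I)) n‖ := by
    simp_rw [hN]
    simp_rw [integral_const_mul]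
    exact ((la_summable ha).mul_left _).mul_right _
  have h := hasSum_integral_of_summable_integral_norm hF hS
  simp_rw [tsum_mul_left] at h
  have h2 : (fun n => ∫ ξ : ℝ, cexp (((a : ℂ) + ξ * I) ^ 2 +
      (Real.log y : ℂ) * ((a : ℂ) + ξ * I)) *
      LSeries.term lm (1 + t * I + ((a : ℂ) + ξ * I)) n) =
      fun n => (√Real.pi : ℂ) * tt y t n := by
    funext n
    exact term_integral hy t n
  rw [h2] at h
  exact h

end Pool.Agent.OX.PGr

namespace Pool.Agent.OX.PGr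

open MeasureTheory Complex Set ArithmeticFunction
open Pool.Agent.MRL (nt)

/-- the integrand without the polar part. -/
noncomputable def ff (L t : ℝ) (w : ℂ) : ℂ :=
  cexp (w ^ 2 + (L : ℂ) * w) * logDeriv riemannZeta₁ (1 + t * I + w)

theorem norm_cexp_w (L : ℝ) (x ξ : ℝ) :
    ‖cexp (((x : ℂ) + ξ * I) ^ 2 + (L : ℂ) * ((x : ℂ) + ξ * I))‖ =
      Real.exp (x ^ 2 + L * x) * Real.exp (-ξ ^ 2) := by
  rw [norm_exp, ← Real.exp_add]
  congr 1
  simp [sq]
  ring

theorem line_cont {a : ℝ} (ha : 0 < a) (L t : ℝ) :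
    Continuous fun ξ : ℝ => ff L t ((a : ℂ) + ξ * I) := by
  unfold ff
  refine Continuous.mul (by fun_prop) ?_
  have h : ∀ ξ : ℝ, riemannZeta₁ (1 + t * I + ((a : ℂ) + ξ * I)) ≠ 0 := fun ξ =>
    z1_ne (by simp [ha.le])
  have h1 : Continuous fun ξ : ℝ => deriv riemannZeta₁ (1 + t * I + ((a : ℂ) + ξ * I)) /
      riemannZeta₁ (1 + t * I + ((a : ℂ) + ξ * I)) := by
    refine Continuous.div ?_ ?_ h
    · exact differentiable_riemannZeta₁.deriv.continuous.comp (by fun_prop)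
    · exact differentiable_riemannZeta₁.continuous.comp (by fun_prop)
  exact h1

theorem norm_LS_le {a : ℝ} (ha : 0 < a) {s : ℂ} (hs : s.re = 1 + a) :
    ‖LSeries lm s‖ ≤ ∑' n, la a n := by
  unfold LSeries
  have h : Summable fun n => ‖LSeries.term lm s n‖ := by
    simp_rw [norm_term a s hs]
    exact la_summable ha
  refine (norm_tsum_le_tsum_norm h).trans (le_of_eq ?_)
  exact tsum_congr fun n => norm_term a s hs n

theorem line_bound : ∃ C : ℝ, 1 ≤ C ∧ ∀ a : ℝ, 0 < a → a ≤ 1 → ∀ s : ℂ, s.re = 1 + a →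
    ‖LSeries lm s‖ ≤ C / a ∧ ‖logDeriv riemannZeta₁ s‖ ≤ C / a := by
  obtain ⟨C, hC1, hC⟩ := la_tsum_le
  refine ⟨1 + C, by linarith, fun a ha ha1 s hs => ?_⟩
  have h1 : ‖LSeries lm s‖ ≤ C / a := (norm_LS_le ha hs).trans (hC a ha ha1)
  have hpos : 0 < 1 / a := by positivity
  refine ⟨h1.trans ?_, ?_⟩
  · rw [add_div]; linarith
  · have h2 : logDeriv riemannZeta₁ s = 1 / (s - 1) - LSeries lm s := by
      rw [LS_eq (by rw [hs]; linarith)]; ring
    rw [h2, add_div]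
    refine (norm_sub_le _ _).trans (add_le_add ?_ h1)
    rw [norm_div, norm_one]
    refine one_div_le_one_div_of_le ha ?_
    calc a = |(s - 1).re| := by simp [hs, abs_of_pos ha]
      _ ≤ ‖s - 1‖ := abs_re_le_norm _

theorem ff_line_norm {C a L t : ℝ} (ha : 0 < a) (ha1 : a ≤ 1) (hL : L * a ≤ 1)
    (hC : ∀ s : ℂ, s.re = 1 + a → ‖logDeriv riemannZeta₁ s‖ ≤ C / a) (ξ : ℝ) :
    ‖ff L t ((a : ℂ) + ξ * I)‖ ≤ Real.exp 2 * (C / a) * Real.exp (-ξ ^ 2) := by
  unfold ff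
  rw [norm_mul, norm_cexp_w]
  have h1 := hC (1 + t * I + ((a : ℂ) + ξ * I)) (by simp)
  have h2 : Real.exp (a ^ 2 + L * a) ≤ Real.exp 2 := Real.exp_le_exp.2 (by nlinarith)
  have h0 := norm_nonneg (logDeriv riemannZeta₁ (1 + t * I + ((a : ℂ) + ξ * I)))
  calc Real.exp (a ^ 2 + L * a) * Real.exp (-ξ ^ 2) *
        ‖logDeriv riemannZeta₁ (1 + t * I + ((a : ℂ) + ξ * I))‖
      ≤ Real.exp 2 * Real.exp (-ξ ^ 2) * (C / a) :=
        mul_le_mul (mul_le_mul_of_nonneg_right h2 (Real.exp_pos _).le) h1 h0 (by positivity)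
    _ = _ := by ring

theorem ff_integrable {C a L t : ℝ} (ha : 0 < a) (ha1 : a ≤ 1) (hL : L * a ≤ 1)
    (hC : ∀ s : ℂ, s.re = 1 + a → ‖logDeriv riemannZeta₁ s‖ ≤ C / a) :
    Integrable fun ξ : ℝ => ff L t ((a : ℂ) + ξ * I) :=
  (integrable_gauss.const_mul (Real.exp 2 * (C / a))).mono' (line_cont ha L t).aestronglyMeasurable
    (Filter.Eventually.of_forall fun ξ => ff_line_norm ha ha1 hL hC ξ)

theorem outer_bound {C a L t V : ℝ} (ha : 0 < a) (ha1 : a ≤ 1) (hL : L * a ≤ 1) (hV : 0 ≤ V)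
    (hC0 : 0 ≤ C) (hC : ∀ s : ℂ, s.re = 1 + a → ‖logDeriv riemannZeta₁ s‖ ≤ C / a) :
    ‖∫ ξ in (Ioc (-V) V)ᶜ, ff L t ((a : ℂ) + ξ * I)‖ ≤
      Real.exp 2 * (C / a) * (Real.exp (-V ^ 2 / 2) * √(2 * Real.pi)) := by
  have hi : Integrable (fun x : ℝ => Real.exp 2 * (C / a) * (Real.exp (-V ^ 2 / 2) *
      Real.exp (-(1 / 2) * x ^ 2))) :=
    ((integrable_exp_neg_mul_sq (b := 1 / 2) (by norm_num)).const_mul _).const_mul _
  calc ‖∫ ξ in (Ioc (-V) V)ᶜ, ff L t ((a : ℂ) + ξ * I)‖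
      ≤ ∫ ξ in (Ioc (-V) V)ᶜ, Real.exp 2 * (C / a) * (Real.exp (-V ^ 2 / 2) *
          Real.exp (-(1 / 2) * ξ ^ 2)) := by
        refine norm_integral_le_of_norm_le hi.integrableOn ?_
        refine (ae_restrict_iff' measurableSet_Ioc.compl).2
          (Filter.Eventually.of_forall fun x hx => ?_)
        refine (ff_line_norm ha ha1 hL hC x).trans ?_
        refine mul_le_mul_of_nonneg_left ?_ (by positivity)
        rw [← Real.exp_add]
        refine Real.exp_le_exp.2 ?_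
        have hx2 : V ^ 2 ≤ x ^ 2 := by
          rw [mem_compl_iff, mem_Ioc, not_and_or, not_lt, not_le] at hx
          rcases hx with h | h
          · nlinarith
          · nlinarith
        linarith
    _ ≤ ∫ ξ : ℝ, Real.exp 2 * (C / a) * (Real.exp (-V ^ 2 / 2) *
          Real.exp (-(1 / 2) * ξ ^ 2)) :=
        setIntegral_le_integral hi (Filter.Eventually.of_forall fun x => by positivity)
    _ = _ := by
        rw [integral_const_mul, integral_const_mul, integral_gaussian]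
        congr 3
        rw [show Real.pi / (1 / 2) = 2 * Real.pi by ring]

theorem inner_bound {a L t V B δ : ℝ} (ha : 0 < a) (ha1 : a ≤ 1) (hL0 : 0 ≤ L)
    (hL : L * a ≤ 1) (hV : 1 ≤ V) (hδ : 0 < δ) (hδ1 : δ ≤ 1 / 16) (hB : 1 ≤ B)
    (h : ∀ s : ℂ, 1 - δ ≤ s.re → s.re ≤ 3 → |s.im - t| ≤ V →
      riemannZeta₁ s ≠ 0 ∧ ‖logDeriv riemannZeta₁ s‖ ≤ B) :
    ‖∫ ξ in (-V)..V, ff L t ((a : ℂ) + ξ * I)‖ ≤
      Real.exp 1 * B * (Real.exp (-(L * δ)) * √Real.pi) +
        4 * (Real.exp 2 * B * Real.exp (-V ^ 2 / 2)) := by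
  have hB0 : 0 ≤ B := by linarith
  have hfd : DifferentiableOn ℂ (ff L t) (uIcc (-δ) a ×ℂ uIcc (-V) V) := by
    intro w hw
    rw [mem_reProdIm, uIcc_of_le (by linarith), uIcc_of_le (by linarith)] at hw
    have h1 := (h (1 + t * I + w) (by simp; linarith [hw.1.1]) (by simp; linarith [hw.1.2])
      (by simp [abs_le]; exact ⟨hw.2.1, hw.2.2⟩)).1
    refine DifferentiableAt.differentiableWithinAt ?_
    unfold ff
    refine DifferentiableAt.mul (by fun_prop) ?_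
    have h2 : DifferentiableAt ℂ (fun w : ℂ => deriv riemannZeta₁ (1 + t * I + w) /
        riemannZeta₁ (1 + t * I + w)) w := by
      refine DifferentiableAt.div ?_ ?_ h1
      · exact (differentiable_riemannZeta₁.deriv _).comp w (by fun_prop)
      · exact (differentiable_riemannZeta₁ _).comp w (by fun_prop)
    exact h2
  have e1 : (((-δ : ℝ) : ℂ) + ((-V : ℝ) : ℂ) * I).re = -δ := by simp
  have e2 : (((-δ : ℝ) : ℂ) + ((-V : ℝ) : ℂ) * I).im = -V := by simp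
  have e3 : ((a : ℂ) + (V : ℂ) * I).re = a := by simp
  have e4 : ((a : ℂ) + (V : ℂ) * I).im = V := by simp
  have hr := integral_boundary_rect_eq_zero_of_differentiableOn (ff L t)
    (((-δ : ℝ) : ℂ) + ((-V : ℝ) : ℂ) * I) ((a : ℂ) + (V : ℂ) * I) (by
      rw [e1, e2, e3, e4]; exact hfd)
  rw [e1, e2, e3, e4] at hr
  -- horizontal sides
  have hh : ∀ V' : ℝ, |V'| = V → ‖∫ x : ℝ in (-δ)..a, ff L t ((x : ℂ) + (V' : ℂ) * I)‖ ≤
      2 * (Real.exp 2 * B * Real.exp (-V ^ 2 / 2)) := by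
    intro V' hV'
    have hsq : V' ^ 2 = V ^ 2 := by rw [← hV', sq_abs]
    have h1 : ∀ x ∈ uIoc (-δ) a, ‖ff L t ((x : ℂ) + (V' : ℂ) * I)‖ ≤
        Real.exp 2 * B * Real.exp (-V ^ 2 / 2) := by
      intro x hx
      rw [uIoc_of_le (by linarith)] at hx
      unfold ff
      rw [norm_mul, norm_cexp_w]
      have h3 := (h (1 + t * I + ((x : ℂ) + (V' : ℂ) * I)) (by simp; linarith [hx.1])
        (by simp; linarith [hx.2]) (by simp [hV'])).2
      have h4 : Real.exp (x ^ 2 + L * x) ≤ Real.exp 2 := by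
        refine Real.exp_le_exp.2 ?_
        have h5 : x ^ 2 ≤ 1 := by nlinarith [hx.1, hx.2]
        have h6 : L * x ≤ L * a := mul_le_mul_of_nonneg_left hx.2 hL0
        linarith
      have h5 : Real.exp (-V' ^ 2) ≤ Real.exp (-V ^ 2 / 2) := by
        refine Real.exp_le_exp.2 ?_
        rw [hsq]; nlinarith [sq_nonneg V]
      calc Real.exp (x ^ 2 + L * x) * Real.exp (-V' ^ 2) *
            ‖logDeriv riemannZeta₁ (1 + t * I + ((x : ℂ) + (V' : ℂ) * I))‖
          ≤ Real.exp 2 * Real.exp (-V ^ 2 / 2) * B :=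
            mul_le_mul (mul_le_mul h4 h5 (Real.exp_pos _).le (Real.exp_pos _).le) h3
              (norm_nonneg _) (by positivity)
        _ = _ := by ring
    have h2 := intervalIntegral.norm_integral_le_of_norm_le_const h1
    refine h2.trans ?_
    rw [mul_comm]
    refine mul_le_mul_of_nonneg_right ?_ (by positivity)
    rw [abs_of_nonneg (by linarith)]
    linarith
  have hb := hh (-V) (by rw [abs_neg, abs_of_nonneg (by linarith)])
  have ht := hh V (abs_of_nonneg (by linarith))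
  -- left side
  have hl : ‖∫ y : ℝ in (-V)..V, ff L t (((-δ : ℝ) : ℂ) + y * I)‖ ≤
      Real.exp 1 * B * (Real.exp (-(L * δ)) * √Real.pi) := by
    rw [intervalIntegral.integral_of_le (by linarith)]
    have hi : Integrable (fun y : ℝ => Real.exp 1 * B * Real.exp (-(L * δ)) *
        Real.exp (-y ^ 2)) := integrable_gauss.const_mul _
    calc ‖∫ y in Ioc (-V) V, ff L t (((-δ : ℝ) : ℂ) + y * I)‖
        ≤ ∫ y in Ioc (-V) V, Real.exp 1 * B * Real.exp (-(L * δ)) * Real.exp (-y ^ 2) := by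
          refine norm_integral_le_of_norm_le hi.integrableOn ?_
          refine (ae_restrict_iff' measurableSet_Ioc).2
            (Filter.Eventually.of_forall fun y hy => ?_)
          unfold ff
          rw [norm_mul, norm_cexp_w]
          have h3 := (h (1 + t * I + (((-δ : ℝ) : ℂ) + y * I)) (by
              have : (1 + (t : ℂ) * I + (((-δ : ℝ) : ℂ) + y * I)).re = 1 - δ := by
                simp [sub_eq_add_neg]
              rw [this])
            (by simp; linarith) (by simp [abs_le]; exact ⟨hy.1.le, hy.2⟩)).2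
          have h4 : Real.exp ((-δ) ^ 2 + L * (-δ)) ≤ Real.exp 1 * Real.exp (-(L * δ)) := by
            rw [← Real.exp_add]
            refine Real.exp_le_exp.2 ?_
            nlinarith
          calc Real.exp ((-δ) ^ 2 + L * (-δ)) * Real.exp (-y ^ 2) *
                ‖logDeriv riemannZeta₁ (1 + t * I + (((-δ : ℝ) : ℂ) + y * I))‖
              ≤ (Real.exp 1 * Real.exp (-(L * δ))) * Real.exp (-y ^ 2) * B :=
                mul_le_mul (mul_le_mul_of_nonneg_right h4 (Real.exp_pos _).le) h3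
                  (norm_nonneg _) (by positivity)
            _ = _ := by ring
      _ ≤ ∫ y : ℝ, Real.exp 1 * B * Real.exp (-(L * δ)) * Real.exp (-y ^ 2) :=
          setIntegral_le_integral hi (Filter.Eventually.of_forall fun x => by positivity)
      _ = _ := by rw [integral_const_mul, integral_gauss_one]; ring
  -- assembly
  set Rr := ∫ y : ℝ in (-V)..V, ff L t ((a : ℂ) + y * I) with hRr
  set Ll := ∫ y : ℝ in (-V)..V, ff L t (((-δ : ℝ) : ℂ) + y * I) with hLl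
  set Bb := ∫ x : ℝ in (-δ)..a, ff L t ((x : ℂ) + ((-V : ℝ) : ℂ) * I) with hBb
  set Tt := ∫ x : ℝ in (-δ)..a, ff L t ((x : ℂ) + (V : ℂ) * I) with hTt
  have hr' : Bb - Tt + I * Rr - I * Ll = 0 := by
    simpa [smul_eq_mul] using hr
  have hR : Rr = Ll + I * (Bb - Tt) := by
    linear_combination (-I) * hr' + (Rr - Ll) * I_sq
  rw [hR]
  calc ‖Ll + I * (Bb - Tt)‖ ≤ ‖Ll‖ + ‖I * (Bb - Tt)‖ := norm_add_le _ _
    _ ≤ ‖Ll‖ + (‖Bb‖ + ‖Tt‖) := by
        rw [norm_mul, norm_I, one_mul]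
        gcongr
        exact norm_sub_le _ _
    _ ≤ _ := by linarith

end Pool.Agent.OX.PGr

namespace Pool.Agent.OX.PGr

open MeasureTheory Complex Set ArithmeticFunction
open Pool.Agent.MRL (nt)

theorem polar_integrable {a : ℝ} (ha : 0 < a) (L t : ℝ) :
    Integrable fun ξ : ℝ => cexp (((a : ℂ) + ξ * I) ^ 2 + L * ((a : ℂ) + ξ * I)) /
      ((a : ℂ) + ξ * I + t * I) := by
  have hne : ∀ ξ : ℝ, (a : ℂ) + ξ * I + t * I ≠ 0 := by
    intro ξ h
    have h2 := congrArg Complex.re h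
    simp at h2
    linarith
  refine (integrable_gauss.const_mul (Real.exp (a ^ 2 + L * a) * (1 / a))).mono' ?_
    (Filter.Eventually.of_forall fun ξ => ?_)
  · apply Continuous.aestronglyMeasurable
    exact Continuous.div (by fun_prop) (by fun_prop) hne
  · rw [norm_div, norm_cexp_w]
    have h1 : a ≤ ‖(a : ℂ) + ξ * I + t * I‖ := by
      calc a = |((a : ℂ) + ξ * I + t * I).re| := by simp [abs_of_pos ha]
        _ ≤ _ := abs_re_le_norm _
    rw [div_eq_mul_one_div]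
    have h2 : 1 / ‖(a : ℂ) + ξ * I + t * I‖ ≤ 1 / a := one_div_le_one_div_of_le ha h1
    calc Real.exp (a ^ 2 + L * a) * Real.exp (-ξ ^ 2) * (1 / ‖(a : ℂ) + ξ * I + t * I‖)
        ≤ Real.exp (a ^ 2 + L * a) * Real.exp (-ξ ^ 2) * (1 / a) :=
          mul_le_mul_of_nonneg_left h2 (by positivity)
      _ = _ := by ring

theorem smooth_bound : ∃ C : ℝ, 0 < C ∧ ∀ y V δ B t : ℝ, 3 ≤ y → 1 ≤ V → 0 < δ → δ ≤ 1 / 16 →
    1 ≤ B → (∀ s : ℂ, 1 - δ ≤ s.re → s.re ≤ 3 → |s.im - t| ≤ V →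
      riemannZeta₁ s ≠ 0 ∧ ‖logDeriv riemannZeta₁ s‖ ≤ B) →
    Summable (tt y t) ∧
    ‖∑' n, tt y t n - my y t‖ ≤ C * (B * y ^ (-δ) + (B + Real.log y) * Real.exp (-V ^ 2 / 2)) := by
  obtain ⟨C, hC1, hC⟩ := line_bound
  set C' : ℝ := 2 * Real.pi * Real.exp 1 + Real.exp 2 * C * √(2 * Real.pi) +
    Real.exp 1 * √Real.pi + 4 * Real.exp 2 with hC'
  have hC0 : 0 ≤ C := by linarith
  have hC'0 : 0 < C' := by positivity
  refine ⟨C', hC'0, fun y V δ B t hy hV hδ hδ1 hB h => ?_⟩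
  have hy0 : 0 < y := by linarith
  set L := Real.log y with hLdef
  have hL1 : 1 ≤ L := by
    have h1 : Real.log (Real.exp 1) ≤ Real.log y :=
      Real.log_le_log (Real.exp_pos _) (Real.exp_one_lt_d9.le.trans (by linarith))
    rwa [Real.log_exp] at h1
  have hL0 : 0 < L := by linarith
  set a := 1 / L with hadef
  have ha : 0 < a := by positivity
  have ha1 : a ≤ 1 := by
    rw [hadef, div_le_one hL0]; exact hL1
  have hLa : L * a ≤ 1 := by
    rw [hadef, mul_one_div, div_self hL0.ne']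
  have hCl : ∀ s : ℂ, s.re = 1 + a → ‖logDeriv riemannZeta₁ s‖ ≤ C / a := fun s hs =>
    (hC a ha ha1 s hs).2
  have hs := series_integral ha hy0 t
  have hpi : (√Real.pi : ℝ) ≠ 0 := by positivity
  have hpi' : ((√Real.pi : ℝ) : ℂ) ≠ 0 := by exact_mod_cast hpi
  have hsum : Summable (tt y t) := by
    have h1 := hs.summable
    exact (summable_mul_left_iff hpi').1 h1
  refine ⟨hsum, ?_⟩
  have h2 := hs.tsum_eq
  rw [tsum_mul_left] at h2
  -- split
  have h3 : (∫ ξ : ℝ, cexp (((a : ℂ) + ξ * I) ^ 2 + (L : ℂ) * ((a : ℂ) + ξ * I)) *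
        LSeries lm (1 + t * I + ((a : ℂ) + ξ * I))) =
      (∫ ξ : ℝ, cexp (((a : ℂ) + ξ * I) ^ 2 + L * ((a : ℂ) + ξ * I)) /
        ((a : ℂ) + ξ * I + t * I)) - ∫ ξ : ℝ, ff L t ((a : ℂ) + ξ * I) := by
    rw [← integral_sub (polar_integrable ha L t) (ff_integrable ha ha1 hLa hCl)]
    refine integral_congr_ae (Filter.Eventually.of_forall fun ξ => ?_)
    show cexp (((a : ℂ) + ξ * I) ^ 2 + (L : ℂ) * ((a : ℂ) + ξ * I)) *
        LSeries lm (1 + t * I + ((a : ℂ) + ξ * I)) =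
        cexp (((a : ℂ) + ξ * I) ^ 2 + L * ((a : ℂ) + ξ * I)) /
        ((a : ℂ) + ξ * I + t * I) - ff L t ((a : ℂ) + ξ * I)
    rw [LS_eq (s := 1 + t * I + ((a : ℂ) + ξ * I)) (by simp [ha])]
    unfold ff
    rw [show (1 + (t : ℂ) * I + ((a : ℂ) + ξ * I) - 1) = (a : ℂ) + ξ * I + t * I by ring]
    ring
  -- the outer part
  have h4 := integral_add_compl (s := Ioc (-V) V) measurableSet_Ioc
    (ff_integrable (t := t) ha ha1 hLa hCl)
  rw [← intervalIntegral.integral_of_le (by linarith)] at h4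
  have h5 := outer_bound (L := L) (t := t) (V := V) ha ha1 hLa (by linarith) hC0 hCl
  have h6 := inner_bound ha ha1 hL0.le hLa hV hδ hδ1 hB h
  have h7 := polar_main ha hL0.le t
  have hLd : y ^ (-δ) = Real.exp (-(L * δ)) := by
    rw [Real.rpow_def_of_pos hy0]
    congr 1
    ring
  have h8 : Real.exp (-L ^ 2 / 4) ≤ Real.exp 1 * Real.exp (-(L * δ)) := by
    rw [← Real.exp_add]
    refine Real.exp_le_exp.2 ?_
    nlinarith [sq_nonneg (L - 1 / 8), mul_le_mul_of_nonneg_left hδ1 hL0.le]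
  have hmy : my y t = ((2 * √Real.pi * Real.exp (-t ^ 2) : ℝ) : ℂ) *
      cexp (-((t * L : ℝ) : ℂ) * I) := rfl
  set P := ∫ ξ : ℝ, cexp (((a : ℂ) + ξ * I) ^ 2 + L * ((a : ℂ) + ξ * I)) /
        ((a : ℂ) + ξ * I + t * I) with hP
  set Fi := ∫ ξ in (-V)..V, ff L t ((a : ℂ) + ξ * I) with hFi
  set Fo := ∫ ξ in (Ioc (-V) V)ᶜ, ff L t ((a : ℂ) + ξ * I) with hFo
  have h9 : (√Real.pi : ℂ) * (∑' n, tt y t n - my y t) =
      -((√Real.pi : ℂ) * my y t - P) - (Fi + Fo) := by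
    rw [mul_sub, h2, h3, ← h4]
    ring
  have h10 : √Real.pi * ‖∑' n, tt y t n - my y t‖ ≤
      2 * Real.pi * Real.exp (-L ^ 2 / 4) + (‖Fi‖ + ‖Fo‖) := by
    have h11 : √Real.pi * ‖∑' n, tt y t n - my y t‖ =
        ‖(√Real.pi : ℂ) * (∑' n, tt y t n - my y t)‖ := by
      rw [norm_mul, norm_real, Real.norm_eq_abs, abs_of_nonneg (Real.sqrt_nonneg _)]
    rw [h11, h9]
    refine (norm_sub_le _ _).trans (add_le_add ?_ (norm_add_le _ _))
    rw [norm_neg, hmy]
    exact h7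
  have hsp : 1 ≤ √Real.pi := by
    rw [Real.one_le_sqrt]
    linarith [Real.pi_gt_three]
  have h12 : ‖∑' n, tt y t n - my y t‖ ≤ √Real.pi * ‖∑' n, tt y t n - my y t‖ := by
    have := norm_nonneg (∑' n, tt y t n - my y t)
    nlinarith
  have hCa : C / a = C * L := by
    rw [hadef]; field_simp
  rw [hCa] at h5
  rw [hLd]
  set E1 := Real.exp (-(L * δ)) with hE1
  set E2 := Real.exp (-V ^ 2 / 2) with hE2
  have hE1p : 0 < E1 := Real.exp_pos _
  have hE2p : 0 < E2 := Real.exp_pos _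
  have hB0 : 0 ≤ B := by linarith
  have h13 : 2 * Real.pi * Real.exp (-L ^ 2 / 4) ≤ 2 * Real.pi * Real.exp 1 * (B * E1) := by
    calc 2 * Real.pi * Real.exp (-L ^ 2 / 4) ≤ 2 * Real.pi * (Real.exp 1 * E1) :=
          mul_le_mul_of_nonneg_left h8 (by positivity)
      _ = 2 * Real.pi * Real.exp 1 * (1 * E1) := by ring
      _ ≤ _ := by gcongr
  have h14 : Real.exp 2 * (C * L) * (E2 * √(2 * Real.pi)) ≤
      Real.exp 2 * C * √(2 * Real.pi) * ((B + L) * E2) := by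
    have : Real.exp 2 * (C * L) * (E2 * √(2 * Real.pi)) =
      Real.exp 2 * C * √(2 * Real.pi) * ((0 + L) * E2) := by ring
    rw [this]
    gcongr
  have h15 : Real.exp 1 * B * (E1 * √Real.pi) = Real.exp 1 * √Real.pi * (B * E1) := by ring
  have h16 : 4 * (Real.exp 2 * B * E2) ≤ 4 * Real.exp 2 * ((B + L) * E2) := by
    have : 4 * (Real.exp 2 * B * E2) = 4 * Real.exp 2 * ((B + 0) * E2) := by ring
    rw [this]
    gcongr
  set A1 := B * E1 with hA1
  set A2 := (B + L) * E2 with hA2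
  have hA1p : 0 ≤ A1 := by positivity
  have hA2p : 0 ≤ A2 := by positivity
  have k1 : 0 ≤ 2 * Real.pi * Real.exp 1 * A2 := by positivity
  have k2 : 0 ≤ Real.exp 2 * C * √(2 * Real.pi) * A1 := by positivity
  have k3 : 0 ≤ Real.exp 1 * √Real.pi * A2 := by positivity
  have k4 : 0 ≤ 4 * Real.exp 2 * A1 := by positivity
  have hexp : C' * (A1 + A2) = 2 * Real.pi * Real.exp 1 * A1 + 2 * Real.pi * Real.exp 1 * A2 +
      (Real.exp 2 * C * √(2 * Real.pi) * A1 + Real.exp 2 * C * √(2 * Real.pi) * A2) +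
      (Real.exp 1 * √Real.pi * A1 + Real.exp 1 * √Real.pi * A2) +
      (4 * Real.exp 2 * A1 + 4 * Real.exp 2 * A2) := by
    rw [hC']; ring
  rw [hexp]
  linarith

end Pool.Agent.OX.PGr

namespace Pool.Agent.OX.PGr

open Complex ArithmeticFunction
open Pool.Agent.MRL (nt)

/-- the set of the numbers `a^2 b^3`. -/
def SF : Set ℕ := {n : ℕ | ∃ a b : ℕ, 1 ≤ a ∧ 1 ≤ b ∧ n = a ^ 2 * b ^ 3}

theorem mem_SF {n : ℕ} (h : vonMangoldt n ≠ 0) (hp : ¬ n.Prime) : n ∈ SF := by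
  rw [vonMangoldt_ne_zero_iff, isPrimePow_nat_iff] at h
  obtain ⟨p, k, hp', hk, rfl⟩ := h
  have hp1 : 1 ≤ p := hp'.one_lt.le
  have hk2 : k ≠ 1 := by
    rintro rfl
    exact hp (by simpa using hp')
  rcases Nat.even_or_odd' k with ⟨j, hj | hj⟩
  · exact ⟨p ^ j, 1, Nat.one_le_pow _ _ hp1, le_refl _, by rw [hj]; ring⟩
  · obtain ⟨i, rfl⟩ : ∃ i, j = i + 1 := ⟨j - 1, by omega⟩
    exact ⟨p ^ i, p, Nat.one_le_pow _ _ hp1, hp1, by rw [hj]; ring⟩

theorem summable_SF : Summable (SF.indicator fun n : ℕ => (n : ℝ) ^ (-(13 / 16) : ℝ)) := by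
  have h1 : Summable (fun x : ℕ × ℕ => (x.1 : ℝ) ^ (-(13 / 8) : ℝ) *
      (x.2 : ℝ) ^ (-(39 / 16) : ℝ)) :=
    Summable.mul_of_nonneg (f := fun n : ℕ => (n : ℝ) ^ (-(13 / 8) : ℝ))
      (g := fun n : ℕ => (n : ℝ) ^ (-(39 / 16) : ℝ))
      (Real.summable_nat_rpow.2 (by norm_num)) (Real.summable_nat_rpow.2 (by norm_num))
      (fun n => by positivity) (fun n => by positivity)
  rw [← summable_subtype_iff_indicator]
  have hch : ∀ n : SF, ∃ a b : ℕ, 1 ≤ a ∧ 1 ≤ b ∧ (n : ℕ) = a ^ 2 * b ^ 3 := fun n => n.2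
  choose A B hA hB hAB using hch
  have hinj : Function.Injective (fun n : SF => (A n, B n)) := by
    intro n m hnm
    have h2 : A n = A m ∧ B n = B m := by simpa using hnm
    apply Subtype.ext
    rw [hAB n, hAB m, h2.1, h2.2]
  have h2 := h1.comp_injective hinj
  refine h2.congr fun n => ?_
  show (A n : ℝ) ^ (-(13 / 8) : ℝ) * (B n : ℝ) ^ (-(39 / 16) : ℝ) =
    (((n : SF) : ℕ) : ℝ) ^ (-(13 / 16) : ℝ)
  rw [hAB n]
  push_cast
  rw [Real.mul_rpow (by positivity) (by positivity), ← Real.rpow_natCast, ← Real.rpow_natCast,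
    ← Real.rpow_mul (by positivity), ← Real.rpow_mul (by positivity)]
  norm_num

/-- the majorant. -/
noncomputable def bb (n : ℕ) : ℝ :=
  (n : ℝ) ^ (-(3 / 2) : ℝ) + SF.indicator (fun n : ℕ => (n : ℝ) ^ (-(13 / 16) : ℝ)) n

theorem summable_bb : Summable bb :=
  (Real.summable_nat_rpow.2 (by norm_num)).add summable_SF

theorem bb_nonneg (n : ℕ) : 0 ≤ bb n := by
  unfold bb
  refine add_nonneg (by positivity) (Set.indicator_nonneg (fun n _ => by positivity) n)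

theorem log_le_self' {n : ℕ} (hn : 1 ≤ n) : Real.log n ≤ n := by
  have : (0 : ℝ) < n := by exact_mod_cast hn
  linarith [Real.log_le_sub_one_of_pos this]

theorem norm_tt {y t : ℝ} (n : ℕ) : ‖tt y t n‖ =
    vonMangoldt n * Real.exp (-(Real.log ((n : ℝ) / y)) ^ 2 / 4) / n := by
  unfold tt nt
  rw [norm_mul, norm_real, Real.norm_eq_abs, abs_of_nonneg]
  · have : ‖cexp (-((t * Real.log n : ℝ) : ℂ) * I)‖ = 1 := by
      rw [← ofReal_neg]
      exact norm_exp_ofReal_mul_I _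
    rw [this, mul_one]
  · have := vonMangoldt_nonneg (n := n)
    positivity

theorem tt_bound {y t : ℝ} (hy : 3 ≤ y) {n : ℕ} (hn : n ∉ SP y) :
    ‖tt y t n‖ ≤ Real.exp 16 * 16 * y ^ (-(1 / 16) : ℝ) * bb n := by
  rw [norm_tt]
  have hy0 : 0 < y := by linarith
  have hL : 0 ≤ Real.log y := Real.log_nonneg (by linarith)
  have hbb := bb_nonneg n
  have hyp : 0 < y ^ (-(1 / 16) : ℝ) := Real.rpow_pos_of_pos hy0 _
  by_cases hΛ : vonMangoldt n = 0
  · rw [hΛ, zero_mul, zero_div]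
    positivity
  have hn0 : n ≠ 0 := by
    rintro rfl
    simp at hΛ
  have hn1 : 1 ≤ n := Nat.one_le_iff_ne_zero.2 hn0
  have hnr : (0 : ℝ) < n := by exact_mod_cast hn1
  have hln : 0 ≤ Real.log n := Real.log_natCast_nonneg n
  have hΛ1 : vonMangoldt n / n ≤ 1 := by
    rw [div_le_one hnr]
    exact vonMangoldt_le_log.trans (log_le_self' hn1)
  have hG1 : Real.exp (-(Real.log ((n : ℝ) / y)) ^ 2 / 4) ≤ 1 := by
    rw [Real.exp_le_one_iff]
    have := sq_nonneg (Real.log ((n : ℝ) / y))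
    linarith
  have hbb1 : (n : ℝ) ^ (-(3 / 2) : ℝ) ≤ bb n := by
    unfold bb
    have : 0 ≤ SF.indicator (fun n : ℕ => (n : ℝ) ^ (-(13 / 16) : ℝ)) n :=
      Set.indicator_nonneg (fun n _ => by positivity) n
    linarith
  have hdiv : vonMangoldt n * Real.exp (-(Real.log ((n : ℝ) / y)) ^ 2 / 4) / n =
      vonMangoldt n / n * Real.exp (-(Real.log ((n : ℝ) / y)) ^ 2 / 4) := by ring
  rw [hdiv]
  have hlogdiv : Real.log ((n : ℝ) / y) = Real.log n - Real.log y := Real.log_div hnr.ne' hy0.ne'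
  have key : Real.exp (-(Real.log ((n : ℝ) / y)) ^ 2 / 4) ≤
      Real.exp 16 * y ^ (-(1 / 16) : ℝ) * (n : ℝ) ^ (-(3 / 2) : ℝ) →
      vonMangoldt n / n * Real.exp (-(Real.log ((n : ℝ) / y)) ^ 2 / 4) ≤
        Real.exp 16 * 16 * y ^ (-(1 / 16) : ℝ) * bb n := by
    intro h
    calc vonMangoldt n / n * Real.exp (-(Real.log ((n : ℝ) / y)) ^ 2 / 4)
        ≤ 1 * (Real.exp 16 * y ^ (-(1 / 16) : ℝ) * (n : ℝ) ^ (-(3 / 2) : ℝ)) :=
          mul_le_mul hΛ1 h (Real.exp_pos _).le zero_le_one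
      _ ≤ 16 * (Real.exp 16 * y ^ (-(1 / 16) : ℝ) * bb n) := by
          gcongr
          norm_num
      _ = _ := by ring
  have hexp : Real.exp 16 * y ^ (-(1 / 16) : ℝ) * (n : ℝ) ^ (-(3 / 2) : ℝ) =
      Real.exp (16 + Real.log y * (-(1 / 16)) + Real.log n * (-(3 / 2))) := by
    rw [Real.rpow_def_of_pos hy0, Real.rpow_def_of_pos hnr, ← Real.exp_add, ← Real.exp_add]
  rw [hexp, Real.exp_le_exp, hlogdiv] at key
  by_cases h1 : (n : ℝ) ≤ √y
  · -- small n
    have h2 : Real.log n ≤ Real.log y / 2 := by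
      have := Real.log_le_log hnr h1
      rwa [Real.log_sqrt hy0.le] at this
    rw [hlogdiv]
    refine key ?_
    nlinarith [sq_nonneg (Real.log y - 13 / 2), sq_nonneg (Real.log n - Real.log y),
      mul_nonneg hL (sub_nonneg.2 h2), mul_nonneg hln (sub_nonneg.2 h2)]
  by_cases h2 : y ^ 2 < n
  · have h3 : 2 * Real.log y ≤ Real.log n := by
      have h4 : Real.log (y ^ 2) ≤ Real.log n := Real.log_le_log (by positivity) h2.le
      rw [Real.log_pow] at h4
      push_cast at h4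
      exact h4
    rw [hlogdiv]
    refine key ?_
    nlinarith [sq_nonneg (Real.log n - 16), mul_nonneg hL (sub_nonneg.2 h3),
      mul_nonneg hln (sub_nonneg.2 h3)]
  · push Not at h1 h2
    have hnp : ¬ n.Prime := by
      intro hp
      apply hn
      unfold SP
      rw [Finset.mem_filter, Finset.mem_Icc]
      exact ⟨⟨hn1, Nat.le_floor h2⟩, hp, h1⟩
    have hS := mem_SF hΛ hnp
    have hbb2 : (n : ℝ) ^ (-(13 / 16) : ℝ) ≤ bb n := by
      unfold bb
      rw [Set.indicator_of_mem hS]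
      have : 0 ≤ (n : ℝ) ^ (-(3 / 2) : ℝ) := by positivity
      linarith
    have h3 : vonMangoldt n ≤ 16 * (n : ℝ) ^ (1 / 16 : ℝ) := by
      refine vonMangoldt_le_log.trans ?_
      have := Real.log_le_rpow_div hnr.le (show (0 : ℝ) < 1 / 16 by norm_num)
      linarith
    have h4 : (n : ℝ) ^ (-(1 / 8) : ℝ) ≤ y ^ (-(1 / 16) : ℝ) := by
      have h5 : y ^ (-(1 / 16) : ℝ) = (√y) ^ (-(1 / 8) : ℝ) := by
        rw [Real.sqrt_eq_rpow, ← Real.rpow_mul hy0.le]
        norm_num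
      rw [h5]
      exact Real.rpow_le_rpow_of_nonpos (Real.sqrt_pos.2 hy0) h1.le (by norm_num)
    have h6 : vonMangoldt n / n ≤ 16 * (y ^ (-(1 / 16) : ℝ) * (n : ℝ) ^ (-(13 / 16) : ℝ)) := by
      rw [div_le_iff₀ hnr]
      calc vonMangoldt n ≤ 16 * (n : ℝ) ^ (1 / 16 : ℝ) := h3
        _ = 16 * ((n : ℝ) ^ (-(1 / 8) : ℝ) * (n : ℝ) ^ (-(13 / 16) : ℝ)) * n := by
            rw [mul_assoc 16, ← Real.rpow_add hnr]
            congr 1
            nth_rewrite 3 [← Real.rpow_one (n : ℝ)]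
            rw [← Real.rpow_add hnr]
            norm_num
        _ ≤ 16 * (y ^ (-(1 / 16) : ℝ) * (n : ℝ) ^ (-(13 / 16) : ℝ)) * n := by
            gcongr
    have he16 : 1 ≤ Real.exp 16 := Real.one_le_exp (by norm_num)
    calc vonMangoldt n / n * Real.exp (-(Real.log ((n : ℝ) / y)) ^ 2 / 4)
        ≤ 16 * (y ^ (-(1 / 16) : ℝ) * (n : ℝ) ^ (-(13 / 16) : ℝ)) * 1 :=
          mul_le_mul h6 hG1 (Real.exp_pos _).le (by positivity)
      _ = 1 * 16 * y ^ (-(1 / 16) : ℝ) * (n : ℝ) ^ (-(13 / 16) : ℝ) := by ring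
      _ ≤ Real.exp 16 * 16 * y ^ (-(1 / 16) : ℝ) * bb n := by
          gcongr

theorem prime_part : ∃ C : ℝ, 0 < C ∧ ∀ y t : ℝ, 3 ≤ y → Summable (tt y t) →
    ‖Sy y t - ∑' n, tt y t n‖ ≤ C * y ^ (-(1 / 16) : ℝ) := by
  classical
  refine ⟨Real.exp 16 * 16 * (∑' n, bb n) + 1, ?_, fun y t hy hs => ?_⟩
  · have : 0 ≤ ∑' n, bb n := tsum_nonneg bb_nonneg
    positivity
  have hy0 : 0 < y := by linarith
  have h1 : Sy y t = ∑' n, (if n ∈ SP y then tt y t n else 0) := by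
    rw [tsum_eq_sum (s := SP y) (fun n hn => by rw [if_neg hn])]
    unfold Sy
    refine Finset.sum_congr rfl fun n hn => ?_
    rw [if_pos hn]
    unfold SP at hn
    rw [Finset.mem_filter] at hn
    unfold tt
    rw [vonMangoldt_apply_prime hn.2.1]
  have hs2 : Summable (fun n => (if n ∈ SP y then tt y t n else 0)) :=
    summable_of_ne_finset_zero (s := SP y) fun n hn => by rw [if_neg hn]
  rw [h1, ← hs2.tsum_sub hs]
  have h2 : ‖∑' n, ((if n ∈ SP y then tt y t n else 0) - tt y t n)‖ ≤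
      Real.exp 16 * 16 * y ^ (-(1 / 16) : ℝ) * ∑' n, bb n := by
    refine tsum_of_norm_bounded ((summable_bb.hasSum).mul_left _) fun n => ?_
    by_cases hn : n ∈ SP y
    · rw [if_pos hn, sub_self, norm_zero]
      have := bb_nonneg n
      positivity
    · rw [if_neg hn, zero_sub, norm_neg]
      exact tt_bound hy hn
  have h3 : 0 < y ^ (-(1 / 16) : ℝ) := Real.rpow_pos_of_pos hy0 _
  nlinarith

end Pool.Agent.OX.PGr

namespace Pool.Agent.OX

/-- ROW PG. -/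
theorem pg : PG := by
  obtain ⟨C1, hC1, h1⟩ := PGr.smooth_bound
  obtain ⟨C2, hC2, h2⟩ := PGr.prime_part
  refine ⟨C1 + C2, by positivity, fun y V δ B t hy hV hδ hδ1 hB h => ?_⟩
  obtain ⟨hs, h3⟩ := h1 y V δ B t hy hV hδ hδ1 hB h
  have h4 := h2 y t hy hs
  have hy1 : 1 ≤ y := by linarith
  have h5 : y ^ (-(1 / 16) : ℝ) ≤ y ^ (-δ) :=
    Real.rpow_le_rpow_of_exponent_le hy1 (by linarith)
  have h6 : 0 < y ^ (-δ) := Real.rpow_pos_of_pos (by linarith) _
  have hL : 0 ≤ Real.log y := Real.log_nonneg hy1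
  have h7 : 0 ≤ (B + Real.log y) * Real.exp (-V ^ 2 / 2) := by positivity
  have h8 : y ^ (-(1 / 16) : ℝ) ≤ B * y ^ (-δ) + (B + Real.log y) * Real.exp (-V ^ 2 / 2) := by
    nlinarith
  unfold Ey
  calc ‖Sy y t - my y t‖ = ‖(Sy y t - ∑' n, PGr.tt y t n) + (∑' n, PGr.tt y t n - my y t)‖ := by
        congr 1; ring
    _ ≤ ‖Sy y t - ∑' n, PGr.tt y t n‖ + ‖∑' n, PGr.tt y t n - my y t‖ := norm_add_le _ _
    _ ≤ C2 * y ^ (-(1 / 16) : ℝ) +
        C1 * (B * y ^ (-δ) + (B + Real.log y) * Real.exp (-V ^ 2 / 2)) := add_le_add h4 h3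
    _ ≤ C2 * (B * y ^ (-δ) + (B + Real.log y) * Real.exp (-V ^ 2 / 2)) +
        C1 * (B * y ^ (-δ) + (B + Real.log y) * Real.exp (-V ^ 2 / 2)) := by
        gcongr
    _ = _ := by ring

end Pool.Agent.OX

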