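import Pool.Agent.Lib.OX.Defs

/-!
# PROJECT OX, row PP: pointwise bound for the error term
-/

set_option autoImplicit false

namespace Pool.Agent.OX

open Finset Pool.Agent.MRL Pool.Agent.MRF

theorem pp (hF : ZF) (hP : PG) : PP := by
  obtain ⟨c, C, hc, hC, hZ⟩ := hF
  obtain ⟨K, hK, hPG⟩ := hP
  set c' : ℝ := min c (1 / 16) with hc'
  have hc'0 : 0 < c' := lt_min hc (by norm_num)
  have hc'c : c' ≤ c := min_le_left _ _
  have hc'1 : c' ≤ 1 / 16 := min_le_right _ _
  refine ⟨c', K * (2 * C + 3), hc'0, by positivity, fun y t hy => ?_⟩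
  have hlog3 : (1 : ℝ) ≤ Real.log 3 := by
    rw [Real.le_log_iff_exp_le (by norm_num)]
    have := Real.exp_one_lt_d9
    linarith
  have hy0 : 0 < y := by linarith
  have hly : 1 ≤ Real.log y := hlog3.trans (Real.log_le_log (by norm_num) hy)
  have ht := abs_nonneg t
  set E : ℝ := 3 + |t| + Real.log y with hE
  have hE3 : 3 ≤ E := by rw [hE]; linarith
  set L : ℝ := Real.log E with hL
  have hL1 : 1 ≤ L := hlog3.trans (Real.log_le_log (by norm_num) hE3)
  have hL0 : 0 < L := by linarith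
  set M : ℝ := L ^ (19 / 20 : ℝ) with hM
  have hM1 : 1 ≤ M := Real.one_le_rpow hL1 (by norm_num)
  have hM0 : 0 < M := by linarith
  set D : ℝ := Real.log y + Real.log (3 + |t|) with hD
  have hlt : 1 ≤ Real.log (3 + |t|) := hlog3.trans (Real.log_le_log (by norm_num) (by linarith))
  have hD2 : 2 ≤ D := by rw [hD]; linarith
  have hLD : L ≤ D := by
    rw [hL, hD, ← Real.log_mul hy0.ne' (by linarith)]
    refine Real.log_le_log (by linarith) ?_
    have h1 : Real.log y + 1 ≤ y := by
      have := Real.add_one_le_exp (Real.log y)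
      rwa [Real.exp_log hy0] at this
    nlinarith
  have hδ : c' / M ≤ 1 / 16 := by
    rw [div_le_iff₀ hM0]
    nlinarith
  have hB1 : 1 ≤ C * L ^ 2 + 1 := by
    have : 0 ≤ C * L ^ 2 := by positivity
    linarith
  have key := hPG y (Real.log y) (c' / M) (C * L ^ 2 + 1) t hy hly (by positivity) hδ hB1 (by
    intro s hs1 hs3 hst
    have him : |s.im| ≤ |t| + Real.log y := by
      have h1 : |s.im| ≤ |s.im - t| + |t| := by
        have := abs_add_le (s.im - t) t
        rwa [sub_add_cancel] at this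
      linarith
    have hpos := abs_nonneg s.im
    have hl1 : 1 ≤ Real.log (3 + |s.im|) :=
      hlog3.trans (Real.log_le_log (by norm_num) (by linarith))
    have hl2 : Real.log (3 + |s.im|) ≤ L := by
      rw [hL]
      exact Real.log_le_log (by linarith) (by rw [hE]; linarith)
    have hm1 : (Real.log (3 + |s.im|)) ^ (19 / 20 : ℝ) ≤ M :=
      Real.rpow_le_rpow (by linarith) hl2 (by norm_num)
    have hm0 : 0 < (Real.log (3 + |s.im|)) ^ (19 / 20 : ℝ) := Real.rpow_pos_of_pos (by linarith) _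
    have h2 := hZ s (by
      have h3 : c' / M ≤ c / (Real.log (3 + |s.im|)) ^ (19 / 20 : ℝ) :=
        div_le_div₀ hc.le hc'c hm0 hm1
      linarith) hs3
    refine ⟨h2.1, h2.2.trans ?_⟩
    have h4 : (Real.log (3 + |s.im|)) ^ 2 ≤ L ^ 2 := pow_le_pow_left₀ (by linarith) hl2 2
    have h5 := mul_le_mul_of_nonneg_left h4 hC.le
    linarith)
  refine key.trans ?_
  have hyδ : y ^ (-(c' / M)) = Real.exp (-(c' * Real.log y / M)) := by
    rw [Real.rpow_def_of_pos hy0]
    congr 1
    ring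
  have hV : Real.exp (-Real.log y ^ 2 / 2) ≤ Real.exp (-(c' * Real.log y / M)) := by
    refine Real.exp_le_exp.2 ?_
    have h1 : c' * Real.log y / M ≤ c' * Real.log y :=
      div_le_self (by positivity) hM1
    nlinarith
  rw [hyδ]
  set X := Real.exp (-(c' * Real.log y / M)) with hX
  have hX0 : 0 < X := Real.exp_pos _
  have hB : C * L ^ 2 + 1 ≤ (C + 1) * D ^ 2 := by
    have h1 : L ^ 2 ≤ D ^ 2 := pow_le_pow_left₀ hL0.le hLD 2
    nlinarith
  have hly2 : Real.log y ≤ D ^ 2 := by
    have : Real.log y ≤ D := by rw [hD]; linarith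
    nlinarith
  have h1 : (C * L ^ 2 + 1) * X ≤ (C + 1) * D ^ 2 * X := mul_le_mul_of_nonneg_right hB hX0.le
  have h2 : (C * L ^ 2 + 1 + Real.log y) * Real.exp (-Real.log y ^ 2 / 2) ≤
      (C + 2) * D ^ 2 * X :=
    mul_le_mul (by linarith) hV (Real.exp_pos _).le (by positivity)
  have h3 : D ^ 2 ≤ D ^ 3 := pow_le_pow_right₀ (by linarith) (by norm_num)
  calc K * ((C * L ^ 2 + 1) * X + (C * L ^ 2 + 1 + Real.log y) * Real.exp (-Real.log y ^ 2 / 2))
      ≤ K * ((C + 1) * D ^ 2 * X + (C + 2) * D ^ 2 * X) :=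
        mul_le_mul_of_nonneg_left (add_le_add h1 h2) hK.le
    _ = K * (2 * C + 3) * D ^ 2 * X := by ring
    _ ≤ K * (2 * C + 3) * D ^ 3 * X := by
        refine mul_le_mul_of_nonneg_right (mul_le_mul_of_nonneg_left h3 (by positivity)) hX0.le

end Pool.Agent.OX
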