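import Mathlib
import Pool.Agent.Lib.OX.Defs2

/-!
# PROJECT OX, row SQ: the mean square on sparse sets, from the dyadic ranges (helper16)
-/

set_option autoImplicit false

namespace Pool.Agent.OX

open Finset Pool.Agent.MRL Pool.Agent.MRF

open Classical in
theorem sq (hL : SQL) (hH : SQH) : SQ := by
  obtain ⟨θ, hθ, hθ1, hH⟩ := hH
  refine ⟨θ, hθ, hθ1, fun B => ?_⟩
  obtain ⟨C₁, X₁, hC₁, h1⟩ := hL B
  obtain ⟨C₂, X₂, hC₂, h2⟩ := hH (B + 1)
  refine ⟨C₁ + 4 * C₂, max (max X₁ X₂) (Real.exp 1), by positivity, ?_⟩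
  intro X y hX hy1 hy2 R τ hR hcard hτ
  have hX1 : X₁ ≤ X := ((le_max_left _ _).trans (le_max_left _ _)).trans hX
  have hX2 : X₂ ≤ X := ((le_max_right _ _).trans (le_max_left _ _)).trans hX
  have hXe : Real.exp 1 ≤ X := (le_max_right _ _).trans hX
  have hX0 : 0 < X := (Real.exp_pos 1).trans_le hXe
  obtain ⟨L, hLd⟩ : ∃ L, L = Real.log X := ⟨_, rfl⟩
  have hL1 : 1 ≤ L := by
    rw [hLd, Real.le_log_iff_exp_le hX0]
    exact hXe
  have hL0 : 0 < L := by linarith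
  obtain ⟨E, hE⟩ : ∃ E, E = Real.exp (√L) := ⟨_, rfl⟩
  have hsL : 1 ≤ √L := Real.one_le_sqrt.2 hL1
  have hsL2 : √L ≤ L := Real.sqrt_le_left (by linarith) |>.2 (by nlinarith)
  have hE1 : 1 ≤ E := by rw [hE]; exact Real.one_le_exp (by linarith)
  have hE0 : 0 < E := by linarith
  have hEX : E ≤ X := by
    rw [hE, ← Real.exp_log hX0, ← hLd]
    exact Real.exp_le_exp.2 hsL2
  obtain ⟨M, hM⟩ : ∃ M, M = ⌊2 * L⌋₊ + 1 := ⟨_, rfl⟩
  have hM3 : (M : ℝ) + 1 ≤ 4 * L := by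
    rw [hM]
    push_cast
    have := Nat.floor_le (show 0 ≤ 2 * L by linarith)
    linarith
  set F : ℤ → ℝ := fun i => ‖Ey y (τ i)‖ ^ 2 with hF
  have hF0 : ∀ i, 0 ≤ F i := fun i => sq_nonneg _
  rw [← hLd, ← hE] at hcard
  have hpow : L ^ (-(B + 1)) * L = L ^ (-B) := by
    rw [← Real.rpow_add_one hL0.ne']
    congr 1
    ring
  have hpow0 : 0 < L ^ (-(B + 1)) := Real.rpow_pos_of_pos hL0 _
  -- the three parts
  have e0 : ∑ i ∈ R.filter (fun i : ℤ => |(i : ℝ)| ≤ 2 * E), F i ≤ C₁ * L ^ (-B) := by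
    rw [hLd]
    refine h1 X y hX1 hy1 hy2 _ τ ?_ fun i hi => hτ i (mem_filter.1 hi).1
    intro i hi
    rw [← hLd, ← hE]
    exact (mem_filter.1 hi).2
  have eX : ∑ i ∈ R.filter (fun i : ℤ => X ≤ |(i : ℝ)|), F i ≤ C₂ * L ^ (-(B + 1)) := by
    rw [hLd]
    refine h2 X y X hX2 hy1 hy2 ?_ le_rfl _ τ ?_ ?_ fun i hi => hτ i (mem_filter.1 hi).1
    · rw [← hLd, ← hE]
      exact hEX
    · intro i hi
      exact ⟨(mem_filter.1 hi).2, hR i (mem_filter.1 hi).1⟩
    · refine le_trans ?_ (hcard X hEX le_rfl)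
      refine Nat.cast_le.2 (card_le_card ?_)
      intro i hi
      rw [mem_filter] at hi ⊢
      exact ⟨hi.1, hR i hi.1⟩
  have ek : ∀ k : ℕ, ∑ i ∈ R.filter (fun i : ℤ => 2 ^ k * E ≤ X ∧ 2 ^ k * E ≤ |(i : ℝ)| ∧
      |(i : ℝ)| ≤ 2 * (2 ^ k * E)), F i ≤ C₂ * L ^ (-(B + 1)) := by
    intro k
    by_cases hk : 2 ^ k * E ≤ X
    · have hkE : E ≤ 2 ^ k * E := by
        have : (1 : ℝ) ≤ 2 ^ k := one_le_pow₀ (by norm_num)
        nlinarith
      rw [hLd]
      refine h2 X y (2 ^ k * E) hX2 hy1 hy2 ?_ hk _ τ ?_ ?_ fun i hi => hτ i (mem_filter.1 hi).1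
      · rw [← hLd, ← hE]
        exact hkE
      · intro i hi
        exact (mem_filter.1 hi).2.2
      · refine le_trans ?_ (hcard (2 ^ k * E) hkE hk)
        refine Nat.cast_le.2 (card_le_card ?_)
        intro i hi
        rw [mem_filter] at hi ⊢
        exact ⟨hi.1, hi.2.2.2⟩
    · have : R.filter (fun i : ℤ => 2 ^ k * E ≤ X ∧ 2 ^ k * E ≤ |(i : ℝ)| ∧
          |(i : ℝ)| ≤ 2 * (2 ^ k * E)) = ∅ := by
        rw [filter_eq_empty_iff]
        rintro i - ⟨h, -⟩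
        exact hk h
      rw [this, sum_empty]
      positivity
  have key : ∑ i ∈ R, F i ≤ ∑ i ∈ R.filter (fun i : ℤ => |(i : ℝ)| ≤ 2 * E), F i +
      ∑ i ∈ R.filter (fun i : ℤ => X ≤ |(i : ℝ)|), F i +
      ∑ k ∈ range M, ∑ i ∈ R.filter (fun i : ℤ => 2 ^ k * E ≤ X ∧ 2 ^ k * E ≤ |(i : ℝ)| ∧
      |(i : ℝ)| ≤ 2 * (2 ^ k * E)), F i := by
    simp only [sum_filter]
    rw [sum_comm, ← sum_add_distrib, ← sum_add_distrib]
    refine sum_le_sum fun i hi => ?_
    have hs0 : 0 ≤ ∑ k ∈ range M, (if 2 ^ k * E ≤ X ∧ 2 ^ k * E ≤ |(i : ℝ)| ∧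
        |(i : ℝ)| ≤ 2 * (2 ^ k * E) then F i else 0) := by
      refine sum_nonneg fun k _ => ?_
      split_ifs
      · exact hF0 i
      · exact le_rfl
    by_cases c1 : |(i : ℝ)| ≤ 2 * E
    · rw [if_pos c1]
      have : 0 ≤ (if X ≤ |(i : ℝ)| then F i else 0) := by
        split_ifs
        · exact hF0 i
        · exact le_rfl
      linarith
    · rw [if_neg c1]
      by_cases c2 : X ≤ |(i : ℝ)|
      · rw [if_pos c2]
        linarith
      · rw [if_neg c2]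
        push Not at c1 c2
        have hi1 : 1 ≤ |(i : ℝ)| / E := by
          rw [le_div_iff₀ hE0]
          linarith
        obtain ⟨k, hk1, hk2⟩ := exists_nat_pow_near hi1 (one_lt_two : (1 : ℝ) < 2)
        have hk1' : 2 ^ k * E ≤ |(i : ℝ)| := by rwa [le_div_iff₀ hE0] at hk1
        have hk2' : |(i : ℝ)| < 2 ^ (k + 1) * E := by rwa [div_lt_iff₀ hE0] at hk2
        have hkM : k < M := by
          have h3 : (2 : ℝ) ^ k ≤ X := by
            have : (2 : ℝ) ^ k * 1 ≤ 2 ^ k * E := by gcongr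
            linarith
          have h4 : (k : ℝ) * Real.log 2 ≤ L := by
            rw [hLd, ← Real.log_pow]
            exact Real.log_le_log (by positivity) h3
          have h5 : (k : ℝ) ≤ 2 * L := by
            have := Real.log_two_gt_d9
            have h6 : (k : ℝ) * (1 / 2) ≤ k * Real.log 2 := by
              gcongr
              linarith
            linarith
          rw [hM, Nat.lt_add_one_iff]
          exact Nat.le_floor h5
        have h7 : (if 2 ^ k * E ≤ X ∧ 2 ^ k * E ≤ |(i : ℝ)| ∧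
            |(i : ℝ)| ≤ 2 * (2 ^ k * E) then F i else 0) = F i := by
          rw [if_pos]
          refine ⟨by linarith, hk1', ?_⟩
          rw [pow_succ] at hk2'
          linarith
        have h8 := single_le_sum (f := fun k : ℕ => if 2 ^ k * E ≤ X ∧ 2 ^ k * E ≤ |(i : ℝ)| ∧
            |(i : ℝ)| ≤ 2 * (2 ^ k * E) then F i else 0) (s := range M)
          (fun k _ => by
            split_ifs
            · exact hF0 i
            · exact le_rfl) (mem_range.2 hkM)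
        beta_reduce at h8
        rw [h7] at h8
        linarith
  have esum : ∑ k ∈ range M, ∑ i ∈ R.filter (fun i : ℤ => 2 ^ k * E ≤ X ∧ 2 ^ k * E ≤ |(i : ℝ)| ∧
      |(i : ℝ)| ≤ 2 * (2 ^ k * E)), F i ≤ M * (C₂ * L ^ (-(B + 1))) := by
    refine (sum_le_sum fun k _ => ek k).trans (le_of_eq ?_)
    rw [sum_const, card_range, nsmul_eq_mul]
  have hfin : ((M : ℝ) + 1) * (C₂ * L ^ (-(B + 1))) ≤ 4 * C₂ * L ^ (-B) := by
    have : ((M : ℝ) + 1) * (C₂ * L ^ (-(B + 1))) ≤ (4 * L) * (C₂ * L ^ (-(B + 1))) := by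
      gcongr
    refine this.trans (le_of_eq ?_)
    rw [← hpow]
    ring
  rw [← hLd]
  change ∑ i ∈ R, F i ≤ _
  linarith

end Pool.Agent.OX
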