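import Mathlib
import Pool.Agent.Lib.OX.Defs2

/-!
# PROJECT OX, row SZ1: a zero near the line 1 makes a short Dirichlet polynomial large.  helper88.
-/

set_option autoImplicit false

namespace Pool.Agent.OX.SZ1

open Finset Pool.Agent.MRL Pool.Agent.MRF

/-! ### the product identity -/

theorem prod_id (U : ℕ) (s : ℂ) :
    (∑ m ∈ Icc 1 U, ((ArithmeticFunction.moebius m : ℤ) : ℂ) * (m : ℂ) ^ (-s)) *
      (∑ n ∈ Icc 1 U, (n : ℂ) ^ (-s)) = ∑ k ∈ Icc 1 (U ^ 2), bU U k * (k : ℂ) ^ (-s) := by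
  unfold bU
  rw [Finset.sum_mul_sum, ← Finset.sum_product']
  simp_rw [Finset.sum_mul]
  rw [Finset.sum_sigma']
  symm
  refine Finset.sum_nbij' (fun x => (x.2, x.1 / x.2)) (fun y => ⟨y.1 * y.2, y.1⟩) ?_ ?_ ?_ ?_ ?_
  · rintro ⟨k, m⟩ h
    simp only [Finset.mem_sigma, Finset.mem_Icc, Finset.mem_filter, Nat.mem_divisors] at h
    obtain ⟨⟨h1, h2⟩, ⟨h3, h4⟩, h5, h6⟩ := h
    have hm : 1 ≤ m := Nat.pos_of_dvd_of_pos h3 h1
    have hq : 1 ≤ k / m := Nat.div_pos (Nat.le_of_dvd h1 h3) hm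
    simp only [Finset.mem_product, Finset.mem_Icc]
    exact ⟨⟨hm, h5⟩, hq, h6⟩
  · rintro ⟨m, n⟩ h
    simp only [Finset.mem_product, Finset.mem_Icc] at h
    obtain ⟨⟨h1, h2⟩, h3, h4⟩ := h
    simp only [Finset.mem_sigma, Finset.mem_Icc, Finset.mem_filter, Nat.mem_divisors]
    refine ⟨⟨Nat.mul_pos h1 h3, ?_⟩, ⟨Dvd.intro _ rfl, (Nat.mul_pos h1 h3).ne'⟩, h2, ?_⟩
    · rw [sq]
      exact Nat.mul_le_mul h2 h4
    · rw [Nat.mul_div_cancel_left _ h1]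
      exact h4
  · rintro ⟨k, m⟩ h
    simp only [Finset.mem_sigma, Finset.mem_Icc, Finset.mem_filter, Nat.mem_divisors] at h
    obtain ⟨⟨h1, h2⟩, ⟨h3, h4⟩, h5, h6⟩ := h
    simp only [Nat.mul_div_cancel' h3]
  · rintro ⟨m, n⟩ h
    simp only [Finset.mem_product, Finset.mem_Icc] at h
    obtain ⟨⟨h1, h2⟩, h3, h4⟩ := h
    simp only [Nat.mul_div_cancel_left _ h1]
  · rintro ⟨k, m⟩ h
    simp only [Finset.mem_sigma, Finset.mem_Icc, Finset.mem_filter, Nat.mem_divisors] at h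
    obtain ⟨⟨h1, h2⟩, ⟨h3, h4⟩, h5, h6⟩ := h
    have hm : 1 ≤ m := Nat.pos_of_dvd_of_pos h3 h1
    have e : (k : ℂ) = (m : ℂ) * ((k / m : ℕ) : ℂ) := by
      rw [← Nat.cast_mul, Nat.mul_div_cancel' h3]
    simp only
    rw [mul_assoc, ← Complex.natCast_mul_natCast_cpow, ← Nat.cast_mul, Nat.mul_div_cancel' h3]

theorem bU_one {U : ℕ} (hU : 1 ≤ U) : bU U 1 = 1 := by
  unfold bU
  rw [Nat.divisors_one]
  simp [Finset.filter_singleton, hU]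

theorem bU_small {U k : ℕ} (h1 : 1 < k) (h2 : k ≤ U) : bU U k = 0 := by
  unfold bU
  rw [Finset.filter_true_of_mem]
  · rw [← Int.cast_sum]
    have : ∑ i ∈ k.divisors, ArithmeticFunction.moebius i = 0 := by
      rw [← ArithmeticFunction.coe_mul_zeta_apply, ArithmeticFunction.moebius_mul_coe_zeta,
        ArithmeticFunction.one_apply_ne h1.ne']
    rw [this, Int.cast_zero]
  · intro m hm
    have := Nat.divisor_le hm
    exact ⟨this.trans h2, (Nat.div_le_self _ _).trans h2⟩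

theorem split_id {U : ℕ} (hU : 1 ≤ U) (s : ℂ) :
    ∑ k ∈ Icc 1 (U ^ 2), bU U k * (k : ℂ) ^ (-s) =
      1 + ∑ k ∈ Ioc U (U ^ 2), bU U k * (k : ℂ) ^ (-s) := by
  have hU2 : U ≤ U ^ 2 := by nlinarith
  have e : Icc 1 (U ^ 2) = Icc 1 U ∪ Ioc U (U ^ 2) := by
    ext k
    simp only [Finset.mem_union, Finset.mem_Icc, Finset.mem_Ioc]
    omega
  have hd : Disjoint (Icc 1 U) (Ioc U (U ^ 2)) := by
    rw [Finset.disjoint_left]
    intro k h1 h2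
    simp only [Finset.mem_Icc, Finset.mem_Ioc] at h1 h2
    omega
  rw [e, Finset.sum_union hd]
  congr 1
  rw [Finset.sum_eq_single 1]
  · rw [bU_one hU]
    simp
  · intro k hk h1
    rw [Finset.mem_Icc] at hk
    rw [bU_small (by omega) hk.2, zero_mul]
  · intro h
    exact absurd (Finset.mem_Icc.2 ⟨le_rfl, hU⟩) h

/-! ### Abel summation and blocks -/

theorem abel (w : ℕ → ℝ) (a : ℕ → ℂ) (N : ℕ) (B : ℝ) (hw : ∀ n, N < n → 0 ≤ w n)
    (hanti : ∀ n, N < n → w (n + 1) ≤ w n) :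
    ∀ N' : ℕ, (∀ K, K ≤ N' → ‖∑ n ∈ Ioc N K, a n‖ ≤ B) →
      ‖∑ n ∈ Ioc N N', (w n : ℂ) * a n‖ ≤ w (N + 1) * B := by
  intro N' hB
  have hB0 : 0 ≤ B := (norm_nonneg _).trans (hB 0 (Nat.zero_le _))
  rcases Nat.lt_or_ge N N' with h | h
  · have key : ∀ k : ℕ, N + 1 + k ≤ N' →
        ‖(∑ n ∈ Ioc N (N + 1 + k), (w n : ℂ) * a n)
          - (w (N + 1 + k) : ℂ) * ∑ n ∈ Ioc N (N + 1 + k), a n‖
          ≤ (w (N + 1) - w (N + 1 + k)) * B := by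
      intro k
      induction k with
      | zero =>
        intro _
        rw [Nat.add_zero, sub_self, zero_mul]
        have e : Ioc N (N + 1) = {N + 1} := by
          ext j
          simp only [Finset.mem_Ioc, Finset.mem_singleton]
          omega
        rw [e]
        simp
      | succ k ih =>
        intro hk
        have ih' := ih (by omega)
        have e : Ioc N (N + 1 + (k + 1)) = insert (N + 1 + (k + 1)) (Ioc N (N + 1 + k)) := by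
          ext j
          simp only [Finset.mem_Ioc, Finset.mem_insert]
          omega
        have hni : N + 1 + (k + 1) ∉ Ioc N (N + 1 + k) := by
          simp only [Finset.mem_Ioc]
          omega
        rw [e, Finset.sum_insert hni, Finset.sum_insert hni]
        have e2 : (w (N + 1 + (k + 1)) : ℂ) * a (N + 1 + (k + 1))
              + ∑ n ∈ Ioc N (N + 1 + k), (w n : ℂ) * a n
            - (w (N + 1 + (k + 1)) : ℂ) * (a (N + 1 + (k + 1)) + ∑ n ∈ Ioc N (N + 1 + k), a n)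
            = ((∑ n ∈ Ioc N (N + 1 + k), (w n : ℂ) * a n)
                - (w (N + 1 + k) : ℂ) * ∑ n ∈ Ioc N (N + 1 + k), a n)
              + ((w (N + 1 + k) - w (N + 1 + (k + 1)) : ℝ) : ℂ)
                * ∑ n ∈ Ioc N (N + 1 + k), a n := by
          push_cast
          ring
        rw [e2]
        refine (norm_add_le _ _).trans ?_
        have h3 : ‖((w (N + 1 + k) - w (N + 1 + (k + 1)) : ℝ) : ℂ)
                * ∑ n ∈ Ioc N (N + 1 + k), a n‖ ≤ (w (N + 1 + k) - w (N + 1 + (k + 1))) * B := by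
          rw [norm_mul, Complex.norm_real, Real.norm_eq_abs, abs_of_nonneg]
          · refine mul_le_mul_of_nonneg_left (hB _ (by omega)) ?_
            have := hanti (N + 1 + k) (by omega)
            have e3 : N + 1 + (k + 1) = N + 1 + k + 1 := by ring
            rw [e3]
            linarith
          · have := hanti (N + 1 + k) (by omega)
            have e3 : N + 1 + (k + 1) = N + 1 + k + 1 := by ring
            rw [e3]
            linarith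
        nlinarith [ih', h3]
    obtain ⟨k, rfl⟩ : ∃ k, N' = N + 1 + k := ⟨N' - (N + 1), by omega⟩
    have h1 := key k le_rfl
    have h2 : ‖(w (N + 1 + k) : ℂ) * ∑ n ∈ Ioc N (N + 1 + k), a n‖ ≤ w (N + 1 + k) * B := by
      rw [norm_mul, Complex.norm_real, Real.norm_eq_abs, abs_of_nonneg (hw _ (by omega))]
      exact mul_le_mul_of_nonneg_left (hB _ le_rfl) (hw _ (by omega))
    have h3 := norm_add_le ((∑ n ∈ Ioc N (N + 1 + k), (w n : ℂ) * a n)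
          - (w (N + 1 + k) : ℂ) * ∑ n ∈ Ioc N (N + 1 + k), a n)
          ((w (N + 1 + k) : ℂ) * ∑ n ∈ Ioc N (N + 1 + k), a n)
    rw [sub_add_cancel] at h3
    refine h3.trans ?_
    nlinarith [h1, h2]
  · rw [Finset.Ioc_eq_empty (by omega), Finset.sum_empty, norm_zero]
    exact mul_nonneg (hw _ (by omega)) hB0

/-- `n^{-ρ} = n^{-β} n^{-iγ}`. -/
theorem cpow_eq {n : ℕ} (hn : 1 ≤ n) (ρ : ℂ) :
    (n : ℂ) ^ (-ρ) = (((n : ℝ) ^ (-ρ.re) : ℝ) : ℂ) * nt n ρ.im := by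
  have hn0 : (0 : ℝ) < n := by exact_mod_cast hn
  have h1 : (n : ℂ) = ((n : ℝ) : ℂ) := by push_cast; rfl
  have hne : ((n : ℝ) : ℂ) ≠ 0 := by exact_mod_cast hn0.ne'
  unfold nt
  rw [h1, Complex.cpow_def_of_ne_zero hne, Real.rpow_def_of_pos hn0, Complex.ofReal_exp,
    ← Complex.exp_add, ← Complex.ofReal_log hn0.le]
  congr 1
  apply Complex.ext
  · simp [mul_comm]
    ring
  · simp [mul_comm]
    ring

/-- one block. -/
theorem block {δ C : ℝ} (hC : 0 < C) {A : ℝ}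
    (hV : ∀ N N' : ℕ, 1 ≤ N → N' ≤ 2 * N → ∀ τ : ℝ, √N ≤ |τ| → |τ| ≤ (N : ℝ) ^ A →
      ‖∑ n ∈ Ioc N N', nt n τ‖ ≤ C * (N : ℝ) ^ (1 - δ))
    {ρ : ℂ} {N N' : ℕ} (hN : 1 ≤ N) (hN' : N' ≤ 2 * N) (h1 : √N ≤ |ρ.im|)
    (h2 : |ρ.im| ≤ (N : ℝ) ^ A) (hρ : 0 ≤ ρ.re) :
    ‖∑ n ∈ Ioc N N', (n : ℂ) ^ (-ρ)‖ ≤ C * (N : ℝ) ^ (1 - ρ.re - δ) := by
  have hN0 : (0 : ℝ) < N := by exact_mod_cast hN
  have e : ∑ n ∈ Ioc N N', (n : ℂ) ^ (-ρ)
      = ∑ n ∈ Ioc N N', ((((n : ℝ) ^ (-ρ.re) : ℝ) : ℂ) * nt n ρ.im) :=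
    Finset.sum_congr rfl fun n hn => cpow_eq (by rw [Finset.mem_Ioc] at hn; omega) ρ
  rw [e]
  have hb0 : 0 ≤ C * (N : ℝ) ^ (1 - δ) := by positivity
  refine (abel (fun n => (n : ℝ) ^ (-ρ.re)) (fun n => nt n ρ.im) N (C * (N : ℝ) ^ (1 - δ))
    (fun n _ => by positivity) (fun n hn => ?_) N' (fun K hK => ?_)).trans ?_
  · have hn0 : (0 : ℝ) < n := by exact_mod_cast (by omega : 0 < n)
    refine Real.rpow_le_rpow_of_nonpos hn0 ?_ (by linarith)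
    push_cast
    linarith
  · exact hV N K hN (hK.trans hN') ρ.im h1 h2
  · have h3 : ((N + 1 : ℕ) : ℝ) ^ (-ρ.re) ≤ (N : ℝ) ^ (-ρ.re) := by
      refine Real.rpow_le_rpow_of_nonpos hN0 ?_ (by linarith)
      push_cast
      linarith
    have h4 : (N : ℝ) ^ (-ρ.re) * (N : ℝ) ^ (1 - δ) = (N : ℝ) ^ (1 - ρ.re - δ) := by
      rw [← Real.rpow_add hN0]
      congr 1
      ring
    calc ((N + 1 : ℕ) : ℝ) ^ (-ρ.re) * (C * (N : ℝ) ^ (1 - δ))
        ≤ (N : ℝ) ^ (-ρ.re) * (C * (N : ℝ) ^ (1 - δ)) :=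
          mul_le_mul_of_nonneg_right h3 hb0
      _ = C * ((N : ℝ) ^ (-ρ.re) * (N : ℝ) ^ (1 - δ)) := by ring
      _ = _ := by rw [h4]

/-- many blocks. -/
theorem blocks {F : ℕ → ℂ} {U M : ℕ} {D : ℝ} (hD : 0 ≤ D)
    (h : ∀ N N' : ℕ, U ≤ N → N ≤ M → N' ≤ 2 * N → ‖∑ n ∈ Ioc N N', F n‖ ≤ D) :
    ∀ j M' : ℕ, M' ≤ 2 ^ j * U → M' ≤ M → ‖∑ n ∈ Ioc U M', F n‖ ≤ j * D := by
  intro j
  induction j with
  | zero =>
    intro M' h1 _
    rw [Finset.Ioc_eq_empty (by omega)]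
    simp
  | succ j ih =>
    intro M' h1 h2
    rcases Nat.lt_or_ge (2 * U) M' with h3 | h3
    · obtain ⟨N, hN⟩ : ∃ N, N = (M' + 1) / 2 := ⟨_, rfl⟩
      have hUN : U ≤ N := by omega
      have hNM : N ≤ M := by omega
      have hN2 : M' ≤ 2 * N := by omega
      have hNM' : N ≤ M' := by omega
      have hNj : N ≤ 2 ^ j * U := by
        have e1 : 2 ^ (j + 1) * U = 2 * (2 ^ j * U) := by ring
        omega
      have e : Ioc U M' = Ioc U N ∪ Ioc N M' := (Finset.Ioc_union_Ioc_eq_Ioc hUN hNM').symm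
      rw [e, Finset.sum_union (Finset.Ioc_disjoint_Ioc_of_le le_rfl)]
      refine (norm_add_le _ _).trans ?_
      have h5 := ih N hNj hNM
      have h6 := h N M' hUN hNM hN2
      push_cast
      linarith
    · rcases Nat.lt_or_ge U M' with h4 | h4
      · have h6 := h U M' le_rfl (by omega) h3
        refine h6.trans ?_
        have : (1 : ℝ) ≤ ((j + 1 : ℕ) : ℝ) := by push_cast; linarith [(Nat.cast_nonneg j : (0 : ℝ) ≤ j)]
        nlinarith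
      · rw [Finset.Ioc_eq_empty (by omega), Finset.sum_empty, norm_zero]
        positivity

/-! ### the sum over `m` with the Möbius function -/

theorem harm_le (U : ℕ) : ∑ m ∈ Icc 1 U, (1 / (m : ℝ)) ≤ 1 + Real.log U := by
  have h := harmonic_le_one_add_log U
  have e : ((harmonic U : ℚ) : ℝ) = ∑ m ∈ Icc 1 U, (1 / (m : ℝ)) := by
    rw [harmonic_eq_sum_Icc]
    push_cast
    exact Finset.sum_congr rfl fun m _ => by rw [one_div]
  rw [← e]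
  exact h

theorem mu_sum {U : ℕ} (hU : 1 ≤ U) {κ : ℝ} {ρ : ℂ} (hβ : 1 - κ ≤ ρ.re) (hκ : 0 ≤ κ) :
    ‖∑ m ∈ Icc 1 U, ((ArithmeticFunction.moebius m : ℤ) : ℂ) * (m : ℂ) ^ (-ρ)‖
      ≤ (U : ℝ) ^ κ * (1 + Real.log U) := by
  have hU0 : (0 : ℝ) < U := by exact_mod_cast hU
  refine (norm_sum_le _ _).trans ?_
  have h1 : ∀ m ∈ Icc 1 U, ‖((ArithmeticFunction.moebius m : ℤ) : ℂ) * (m : ℂ) ^ (-ρ)‖
      ≤ (U : ℝ) ^ κ * (1 / (m : ℝ)) := by
    intro m hm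
    rw [Finset.mem_Icc] at hm
    have hm0 : (0 : ℝ) < m := by exact_mod_cast hm.1
    have hm1 : (1 : ℝ) ≤ m := by exact_mod_cast hm.1
    have hmU : (m : ℝ) ≤ U := by exact_mod_cast hm.2
    have e1 : ‖(m : ℂ) ^ (-ρ)‖ = (m : ℝ) ^ (-ρ.re) := by
      have := Complex.norm_natCast_cpow_of_pos (n := m) (by omega) (-ρ)
      rw [this, Complex.neg_re]
    have e2 : ‖((ArithmeticFunction.moebius m : ℤ) : ℂ)‖ ≤ 1 := by
      rw [Complex.norm_intCast]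
      exact_mod_cast ArithmeticFunction.abs_moebius_le_one
    rw [norm_mul, e1]
    have e3 : (m : ℝ) ^ (-ρ.re) ≤ (U : ℝ) ^ κ * (1 / (m : ℝ)) := by
      have e4 : (m : ℝ) ^ (-ρ.re) ≤ (m : ℝ) ^ (κ - 1) :=
        Real.rpow_le_rpow_of_exponent_le hm1 (by linarith)
      have e5 : (m : ℝ) ^ (κ - 1) = (m : ℝ) ^ κ * (1 / (m : ℝ)) := by
        rw [Real.rpow_sub hm0, Real.rpow_one]
        ring
      refine e4.trans ?_
      rw [e5]
      exact mul_le_mul_of_nonneg_right (Real.rpow_le_rpow hm0.le hmU hκ) (by positivity)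
    have e6 : (0 : ℝ) ≤ (m : ℝ) ^ (-ρ.re) := by positivity
    nlinarith [norm_nonneg (((ArithmeticFunction.moebius m : ℤ) : ℂ))]
  refine (Finset.sum_le_sum h1).trans ?_
  rw [← Finset.mul_sum]
  exact mul_le_mul_of_nonneg_left (harm_le U) (by positivity)

/-! ### the sum over `n` at a zero -/

/-- `M = ⌊T^2⌋₊`, the sum up to `U` at a zero. -/
theorem zero_sum {δ C A : ℝ} (hC : 0 < C)
    (hV : ∀ N N' : ℕ, 1 ≤ N → N' ≤ 2 * N → ∀ τ : ℝ, √N ≤ |τ| → |τ| ≤ (N : ℝ) ^ A →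
      ‖∑ n ∈ Ioc N N', nt n τ‖ ≤ C * (N : ℝ) ^ (1 - δ))
    {C' : ℝ} (hC' : 0 < C') (hZ : ∀ (s : ℂ) (M : ℕ), 1 / 2 ≤ s.re → s.re ≤ 3 → s ≠ 1 → 1 ≤ M →
      ‖riemannZeta s - (∑ n ∈ Icc 1 M, (n : ℂ) ^ (-s) + (M : ℂ) ^ (1 - s) / (s - 1))‖ ≤
        C' * ‖s‖ * (M : ℝ) ^ (-s.re))
    {κ T : ℝ} (hκ : 0 < κ) (hκδ : κ ≤ δ / 4) (hκ1 : κ ≤ 1 / 16) (hT : 4 ≤ T) {ρ : ℂ}
    (h0 : riemannZeta ρ = 0) (hβ : 1 - κ ≤ ρ.re) (hγ1 : T ≤ |ρ.im|) (hγ2 : |ρ.im| ≤ 8 * T)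
    {U : ℕ} (hU : 1 ≤ U) (hUT : (U : ℝ) ≤ T) (hUA : 8 * T ≤ (U : ℝ) ^ A) (hA : 0 ≤ A) :
    ‖∑ n ∈ Icc 1 U, (n : ℂ) ^ (-ρ)‖
      ≤ 6 * Real.log T * (C * (U : ℝ) ^ (-(3 / 4 * δ))) + (1 + 36 * C') * T ^ (2 * κ - 1) := by
  have hT0 : 0 < T := by linarith
  have hU0 : (0 : ℝ) < U := by exact_mod_cast hU
  have hU1 : (1 : ℝ) ≤ U := by exact_mod_cast hU
  have hβ1 : ρ.re < 1 := by
    by_contra hh
    exact riemannZeta_ne_zero_of_one_le_re (not_lt.1 hh) h0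
  have hρ1 : ρ ≠ 1 := by
    intro hh
    rw [hh] at hβ1
    simp at hβ1
  obtain ⟨M, hM⟩ : ∃ M : ℕ, M = ⌊T ^ 2⌋₊ := ⟨_, rfl⟩
  have hMT : (M : ℝ) ≤ T ^ 2 := by
    rw [hM]
    exact Nat.floor_le (by positivity)
  have hMT2 : T ^ 2 / 2 ≤ (M : ℝ) := by
    have := Nat.lt_floor_add_one (T ^ 2)
    rw [← hM] at this
    nlinarith
  have hM1 : (1 : ℝ) ≤ M := by nlinarith
  have hM1' : 1 ≤ M := by exact_mod_cast hM1
  have hM0 : (0 : ℝ) < M := by linarith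
  have hUM : U ≤ M := by
    rw [hM]
    apply Nat.le_floor
    nlinarith
  have hz := hZ ρ M (by linarith) (by linarith) hρ1 hM1'
  rw [h0, zero_sub, norm_neg] at hz
  have hD : 0 ≤ C * (U : ℝ) ^ (-(3 / 4 * δ)) := by positivity
  have hbl : ∀ N N' : ℕ, U ≤ N → N ≤ M → N' ≤ 2 * N →
      ‖∑ n ∈ Ioc N N', (n : ℂ) ^ (-ρ)‖ ≤ C * (U : ℝ) ^ (-(3 / 4 * δ)) := by
    intro N N' h1 h2 h3
    have hUN : (U : ℝ) ≤ N := by exact_mod_cast h1
    have hNM : (N : ℝ) ≤ M := by exact_mod_cast h2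
    have hN1 : 1 ≤ N := hU.trans h1
    have hs : √(N : ℝ) ≤ |ρ.im| := by
      refine le_trans ?_ hγ1
      rw [Real.sqrt_le_left hT0.le]
      linarith
    have hA2 : |ρ.im| ≤ (N : ℝ) ^ A :=
      hγ2.trans (hUA.trans (Real.rpow_le_rpow hU0.le hUN hA))
    refine (block hC hV hN1 h3 hs hA2 (by linarith)).trans ?_
    refine mul_le_mul_of_nonneg_left ?_ hC.le
    have hN1r : (1 : ℝ) ≤ N := by exact_mod_cast hN1
    refine (Real.rpow_le_rpow_of_exponent_le hN1r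
      (by linarith : 1 - ρ.re - δ ≤ -(3 / 4 * δ))).trans ?_
    exact Real.rpow_le_rpow_of_nonpos hU0 hUN (by linarith)
  obtain ⟨j, hj⟩ : ∃ j : ℕ, j = Nat.clog 2 M := ⟨_, rfl⟩
  have hj1 : M ≤ 2 ^ j * U := by
    have h1 : M ≤ 2 ^ j := by
      rw [hj]
      exact Nat.le_pow_clog (by norm_num) M
    nlinarith [Nat.pos_of_ne_zero (by omega : U ≠ 0)]
  have hj2 : (j : ℝ) ≤ 6 * Real.log T := by
    have hlT : 1 ≤ Real.log T := by
      rw [← Real.log_exp 1]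
      exact Real.log_le_log (Real.exp_pos 1) (by linarith [Real.exp_one_lt_d9])
    rcases Nat.lt_or_ge 1 M with hM2 | hM2
    · have h2 : 2 ^ (j - 1) < M := by
        rw [hj]
        exact Nat.pow_pred_clog_lt_self (by norm_num) hM2
      have h3 : ((2 : ℝ)) ^ (j - 1) < M := by exact_mod_cast h2
      have h4 : ((j - 1 : ℕ) : ℝ) * Real.log 2 ≤ 2 * Real.log T := by
        have h5 : Real.log ((2 : ℝ) ^ (j - 1)) ≤ Real.log (T ^ 2) :=
          Real.log_le_log (by positivity) (h3.le.trans hMT)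
        rw [Real.log_pow, Real.log_pow] at h5
        exact_mod_cast h5
      have h6 : (j : ℝ) ≤ ((j - 1 : ℕ) : ℝ) + 1 := by
        exact_mod_cast (by omega : j ≤ (j - 1) + 1)
      have h7 : (0 : ℝ) ≤ ((j - 1 : ℕ) : ℝ) := Nat.cast_nonneg _
      nlinarith [Real.log_two_gt_d9]
    · have : j = 0 := by
        rw [hj]
        exact Nat.clog_of_right_le_one (by omega) 2
      rw [this]
      simp only [Nat.cast_zero]
      linarith
  have hblk := blocks hD hbl j M hj1 le_rfl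
  have hsplit : ∑ n ∈ Icc 1 M, (n : ℂ) ^ (-ρ)
      = ∑ n ∈ Icc 1 U, (n : ℂ) ^ (-ρ) + ∑ n ∈ Ioc U M, (n : ℂ) ^ (-ρ) := by
    have e : Icc 1 M = Icc 1 U ∪ Ioc U M := by
      ext k
      simp only [Finset.mem_union, Finset.mem_Icc, Finset.mem_Ioc]
      omega
    have hd : Disjoint (Icc 1 U) (Ioc U M) := by
      rw [Finset.disjoint_left]
      intro k h1 h2
      simp only [Finset.mem_Icc, Finset.mem_Ioc] at h1 h2
      omega
    rw [e, Finset.sum_union hd]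
  have hmain : ∑ n ∈ Icc 1 U, (n : ℂ) ^ (-ρ)
      = (∑ n ∈ Icc 1 M, (n : ℂ) ^ (-ρ) + (M : ℂ) ^ (1 - ρ) / (ρ - 1))
        - ∑ n ∈ Ioc U M, (n : ℂ) ^ (-ρ) - (M : ℂ) ^ (1 - ρ) / (ρ - 1) := by
    rw [hsplit]
    ring
  have hTκ : T ^ (2 * κ - 1) = T ^ (2 * κ) / T := by
    rw [Real.rpow_sub hT0, Real.rpow_one]
  have hMκ : (M : ℝ) ^ (1 - ρ.re) ≤ T ^ (2 * κ) := by
    have h1 : (M : ℝ) ^ (1 - ρ.re) ≤ (M : ℝ) ^ κ :=
      Real.rpow_le_rpow_of_exponent_le hM1 (by linarith)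
    have h2 : (M : ℝ) ^ κ ≤ (T ^ 2) ^ κ := Real.rpow_le_rpow hM0.le hMT hκ.le
    have h3 : (T ^ 2) ^ κ = T ^ (2 * κ) := by
      rw [← Real.rpow_natCast, ← Real.rpow_mul hT0.le]
      norm_num
    linarith
  have ht1 : ‖(M : ℂ) ^ (1 - ρ) / (ρ - 1)‖ ≤ T ^ (2 * κ - 1) := by
    rw [norm_div, Complex.norm_natCast_cpow_of_pos (by omega), hTκ]
    have h1 : T ≤ ‖ρ - 1‖ := by
      refine hγ1.trans ?_
      have := Complex.abs_im_le_norm (ρ - 1)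
      simpa using this
    have h2 : (1 - ρ).re = 1 - ρ.re := by simp
    rw [h2]
    exact div_le_div₀ (by positivity) hMκ hT0 h1
  have ht2 : C' * ‖ρ‖ * (M : ℝ) ^ (-ρ.re) ≤ 36 * C' * T ^ (2 * κ - 1) := by
    have h1 : ‖ρ‖ ≤ 9 * T := by
      refine (Complex.norm_le_abs_re_add_abs_im ρ).trans ?_
      rw [abs_of_nonneg (by linarith : (0 : ℝ) ≤ ρ.re)]
      linarith
    have h2 : (M : ℝ) ^ (-ρ.re) = (M : ℝ) ^ (1 - ρ.re) / M := by
      rw [← Real.rpow_sub_one hM0.ne']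
      congr 1
      ring
    have h3 : (M : ℝ) ^ (-ρ.re) ≤ 2 * T ^ (2 * κ) / T ^ 2 := by
      rw [h2, div_le_div_iff₀ hM0 (by positivity)]
      have h5 : (0 : ℝ) ≤ T ^ (2 * κ) := by positivity
      nlinarith
    have h6 : (0 : ℝ) ≤ (M : ℝ) ^ (-ρ.re) := by positivity
    calc C' * ‖ρ‖ * (M : ℝ) ^ (-ρ.re) ≤ C' * (9 * T) * (2 * T ^ (2 * κ) / T ^ 2) := by
          gcongr
      _ = 18 * C' * T ^ (2 * κ - 1) := by
          rw [hTκ]
          field_simp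
          ring
      _ ≤ _ := by
          have : (0 : ℝ) ≤ C' * T ^ (2 * κ - 1) := by positivity
          nlinarith
  rw [hmain]
  refine (norm_sub_le _ _).trans ?_
  refine (add_le_add_left (norm_sub_le _ _) _).trans ?_
  have h9 : (j : ℝ) * (C * (U : ℝ) ^ (-(3 / 4 * δ)))
      ≤ 6 * Real.log T * (C * (U : ℝ) ^ (-(3 / 4 * δ))) := mul_le_mul_of_nonneg_right hj2 hD
  linarith

end Pool.Agent.OX.SZ1

namespace Pool.Agent.OX

open Finset Pool.Agent.MRL Pool.Agent.MRF Filter SZ1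

theorem sz1 (hA : ZAP) (hV : VDC) : SZ1 := by
  intro ε hε hε2
  obtain ⟨C', hC', hZ⟩ := hA
  have hA1 : (1 : ℝ) ≤ 4 / ε := by
    rw [le_div_iff₀ hε]
    linarith
  obtain ⟨δ, hδ, C, hC, hV'⟩ := hV (4 / ε) hA1
  obtain ⟨κ, hκ⟩ : ∃ κ : ℝ, κ = min (δ / 4) (1 / 16) := ⟨_, rfl⟩
  have hκ0 : 0 < κ := by
    rw [hκ]
    exact lt_min (by linarith) (by norm_num)
  have hκδ : κ ≤ δ / 4 := by rw [hκ]; exact min_le_left _ _
  have hκ1 : κ ≤ 1 / 16 := by rw [hκ]; exact min_le_right _ _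
  obtain ⟨a, ha⟩ : ∃ a : ℝ, a = ε * δ / 8 := ⟨_, rfl⟩
  have ha0 : 0 < a := by rw [ha]; positivity
  obtain ⟨K1, hK1⟩ : ∃ K1 : ℝ, K1 = 12 * C * (2 : ℝ) ^ (δ / 2) / a ^ 2 := ⟨_, rfl⟩
  obtain ⟨K2, hK2⟩ : ∃ K2 : ℝ, K2 = 8 * (1 + 36 * C') := ⟨_, rfl⟩
  have hK10 : 0 ≤ K1 := by rw [hK1]; positivity
  have hK20 : 0 ≤ K2 := by rw [hK2]; positivity
  have t1 : Tendsto (fun T : ℝ => K1 * T ^ (-(2 * a))) atTop (nhds 0) := by
    simpa using (tendsto_rpow_neg_atTop (y := 2 * a) (by positivity)).const_mul K1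
  have t2 : Tendsto (fun T : ℝ => K2 * T ^ (-(1 / 4 : ℝ))) atTop (nhds 0) := by
    simpa using (tendsto_rpow_neg_atTop (y := (1 / 4 : ℝ)) (by norm_num)).const_mul K2
  have ev : ∀ᶠ T : ℝ in atTop, K1 * T ^ (-(2 * a)) ≤ 1 / 4 ∧ K2 * T ^ (-(1 / 4 : ℝ)) ≤ 1 / 4 ∧
      2 ≤ T ^ ε ∧ 4 ≤ T ∧ 8 * (2 : ℝ) ^ (4 / ε) ≤ T := by
    filter_upwards [t1.eventually_le_const (by norm_num : (0 : ℝ) < 1 / 4),
      t2.eventually_le_const (by norm_num : (0 : ℝ) < 1 / 4),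
      (tendsto_rpow_atTop hε).eventually_ge_atTop 2, eventually_ge_atTop (4 : ℝ),
      eventually_ge_atTop (8 * (2 : ℝ) ^ (4 / ε))] with T h1 h2 h3 h4 h5
    exact ⟨h1, h2, h3, h4, h5⟩
  obtain ⟨T₀, hT₀⟩ := ev.exists_forall_of_atTop
  refine ⟨κ, max T₀ 1, hκ0, hκ1, le_max_right _ _, ?_⟩
  intro T ρ hT h0 hβ hγ1 hγ2
  obtain ⟨e1, e2, e3, e4, e5⟩ := hT₀ T ((le_max_left _ _).trans hT)
  have hT0 : 0 < T := by linarith
  have hT1 : 1 ≤ T := by linarith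
  obtain ⟨U, hU⟩ : ∃ U : ℕ, U = ⌊T ^ ε⌋₊ := ⟨_, rfl⟩
  rw [← hU]
  have hUε : (U : ℝ) ≤ T ^ ε := by
    rw [hU]
    exact Nat.floor_le (by positivity)
  have hUε2 : T ^ ε / 2 ≤ (U : ℝ) := by
    have := Nat.lt_floor_add_one (T ^ ε)
    rw [← hU] at this
    linarith
  have hU1r : (1 : ℝ) ≤ U := by linarith
  have hU1 : 1 ≤ U := by exact_mod_cast hU1r
  have hU0 : (0 : ℝ) < U := by linarith
  have hUT : (U : ℝ) ≤ T := by
    refine hUε.trans ?_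
    calc T ^ ε ≤ T ^ (1 : ℝ) := Real.rpow_le_rpow_of_exponent_le hT1 (by linarith)
      _ = T := Real.rpow_one T
  have hlT : 1 ≤ Real.log T := by
    rw [← Real.log_exp 1]
    exact Real.log_le_log (Real.exp_pos 1) (by linarith [Real.exp_one_lt_d9])
  have hUA : 8 * T ≤ (U : ℝ) ^ (4 / ε) := by
    have h1 : (T ^ ε / 2) ^ (4 / ε) ≤ (U : ℝ) ^ (4 / ε) :=
      Real.rpow_le_rpow (by positivity) hUε2 (by positivity)
    have h2 : (T ^ ε / 2) ^ (4 / ε) = T ^ 4 / (2 : ℝ) ^ (4 / ε) := by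
      rw [Real.div_rpow (by positivity) (by norm_num), ← Real.rpow_mul hT0.le]
      congr 1
      rw [mul_div_cancel₀ _ hε.ne']
      exact_mod_cast Real.rpow_natCast T 4
    refine le_trans ?_ h1
    rw [h2, le_div_iff₀ (by positivity)]
    have h3 : T ≤ T ^ 3 := by nlinarith [mul_self_nonneg (T - 1), mul_pos hT0 hT0]
    have h4 : 8 * (2 : ℝ) ^ (4 / ε) ≤ T ^ 3 := e5.trans h3
    calc 8 * T * (2 : ℝ) ^ (4 / ε) = T * (8 * (2 : ℝ) ^ (4 / ε)) := by ring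
      _ ≤ T * T ^ 3 := mul_le_mul_of_nonneg_left h4 hT0.le
      _ = T ^ 4 := by ring
  have hn := zero_sum hC hV' hC' hZ hκ0 hκδ hκ1 e4 h0 hβ hγ1 hγ2 hU1 hUT hUA (by positivity)
  have hm := mu_sum hU1 hβ hκ0.le
  have hid := prod_id U ρ
  rw [split_id hU1] at hid
  have hlU : 1 + Real.log U ≤ 2 * Real.log T := by
    have := Real.log_le_log hU0 hUT
    linarith
  have hlU0 : 0 ≤ Real.log U := Real.log_nonneg hU1r
  have hprod : ‖(∑ m ∈ Icc 1 U, ((ArithmeticFunction.moebius m : ℤ) : ℂ) * (m : ℂ) ^ (-ρ)) *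
      (∑ n ∈ Icc 1 U, (n : ℂ) ^ (-ρ))‖ ≤ 1 / 2 := by
    rw [norm_mul]
    have h1 : ‖∑ m ∈ Icc 1 U, ((ArithmeticFunction.moebius m : ℤ) : ℂ) * (m : ℂ) ^ (-ρ)‖
        ≤ (U : ℝ) ^ κ * (2 * Real.log T) :=
      hm.trans (mul_le_mul_of_nonneg_left hlU (by positivity))
    have h2 : (0 : ℝ) ≤ 6 * Real.log T * (C * (U : ℝ) ^ (-(3 / 4 * δ)))
        + (1 + 36 * C') * T ^ (2 * κ - 1) := by positivity
    refine (mul_le_mul h1 hn (norm_nonneg _) (by positivity)).trans ?_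
    have hsum : (U : ℝ) ^ κ * (2 * Real.log T) * (6 * Real.log T * (C * (U : ℝ) ^ (-(3 / 4 * δ)))
        + (1 + 36 * C') * T ^ (2 * κ - 1))
        = 12 * C * (Real.log T) ^ 2 * ((U : ℝ) ^ κ * (U : ℝ) ^ (-(3 / 4 * δ)))
          + 2 * (1 + 36 * C') * (Real.log T * ((U : ℝ) ^ κ * T ^ (2 * κ - 1))) := by ring
    rw [hsum]
    have f1 : (U : ℝ) ^ κ * (U : ℝ) ^ (-(3 / 4 * δ)) ≤ (2 : ℝ) ^ (δ / 2) * T ^ (-(4 * a)) := by
      rw [← Real.rpow_add hU0]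
      have g1 : (U : ℝ) ^ (κ + -(3 / 4 * δ)) ≤ (U : ℝ) ^ (-(δ / 2)) :=
        Real.rpow_le_rpow_of_exponent_le hU1r (by linarith)
      have g2 : (U : ℝ) ^ (-(δ / 2)) ≤ (T ^ ε / 2) ^ (-(δ / 2)) :=
        Real.rpow_le_rpow_of_nonpos (by positivity) hUε2 (by linarith)
      have g3 : (T ^ ε / 2) ^ (-(δ / 2)) = (2 : ℝ) ^ (δ / 2) * T ^ (-(4 * a)) := by
        rw [Real.div_rpow (by positivity) (by norm_num), ← Real.rpow_mul hT0.le,
          Real.rpow_neg (by norm_num : (0 : ℝ) ≤ 2), div_inv_eq_mul, mul_comm]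
        congr 2
        rw [ha]
        ring
      linarith
    have f2 : (Real.log T) ^ 2 ≤ T ^ (2 * a) / a ^ 2 := by
      have g1 : Real.log T ≤ T ^ a / a := Real.log_le_rpow_div hT0.le ha0
      have g2 : (Real.log T) ^ 2 ≤ (T ^ a / a) ^ 2 := by
        have : 0 ≤ Real.log T := by linarith
        gcongr
      have g3 : (T ^ a / a) ^ 2 = T ^ (2 * a) / a ^ 2 := by
        rw [div_pow, ← Real.rpow_natCast, ← Real.rpow_mul hT0.le]
        congr 2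
        push_cast
        ring
      linarith
    have f3 : 12 * C * (Real.log T) ^ 2 * ((U : ℝ) ^ κ * (U : ℝ) ^ (-(3 / 4 * δ)))
        ≤ K1 * T ^ (-(2 * a)) := by
      have g1 : 12 * C * (Real.log T) ^ 2 * ((U : ℝ) ^ κ * (U : ℝ) ^ (-(3 / 4 * δ)))
          ≤ 12 * C * (T ^ (2 * a) / a ^ 2) * ((2 : ℝ) ^ (δ / 2) * T ^ (-(4 * a))) := by
        gcongr
      have g2 : T ^ (2 * a) * T ^ (-(4 * a)) = T ^ (-(2 * a)) := by
        rw [← Real.rpow_add hT0]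
        congr 1
        ring
      have g3 : 12 * C * (T ^ (2 * a) / a ^ 2) * ((2 : ℝ) ^ (δ / 2) * T ^ (-(4 * a)))
          = K1 * (T ^ (2 * a) * T ^ (-(4 * a))) := by
        rw [hK1]
        ring
      rw [g3, g2] at g1
      exact g1
    have f4 : Real.log T * ((U : ℝ) ^ κ * T ^ (2 * κ - 1)) ≤ 4 * T ^ (-(1 / 4 : ℝ)) := by
      have g1 : Real.log T ≤ T ^ (1 / 4 : ℝ) / (1 / 4 : ℝ) :=
        Real.log_le_rpow_div hT0.le (by norm_num)
      have g2 : (U : ℝ) ^ κ ≤ T ^ κ := Real.rpow_le_rpow hU0.le hUT hκ0.le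
      have g3 : T ^ κ * T ^ (2 * κ - 1) ≤ T ^ (-(1 / 2) : ℝ) := by
        rw [← Real.rpow_add hT0]
        exact Real.rpow_le_rpow_of_exponent_le hT1 (by linarith)
      have g4 : (U : ℝ) ^ κ * T ^ (2 * κ - 1) ≤ T ^ (-(1 / 2) : ℝ) :=
        (mul_le_mul_of_nonneg_right g2 (by positivity)).trans g3
      have g5 : T ^ (1 / 4 : ℝ) * T ^ (-(1 / 2) : ℝ) = T ^ (-(1 / 4 : ℝ)) := by
        rw [← Real.rpow_add hT0]
        norm_num
      calc Real.log T * ((U : ℝ) ^ κ * T ^ (2 * κ - 1))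
          ≤ (T ^ (1 / 4 : ℝ) / (1 / 4 : ℝ)) * T ^ (-(1 / 2) : ℝ) :=
            mul_le_mul g1 g4 (by positivity) (by positivity)
        _ = 4 * (T ^ (1 / 4 : ℝ) * T ^ (-(1 / 2) : ℝ)) := by ring
        _ = _ := by rw [g5]
    have f5 : 2 * (1 + 36 * C') * (Real.log T * ((U : ℝ) ^ κ * T ^ (2 * κ - 1)))
        ≤ K2 * T ^ (-(1 / 4 : ℝ)) := by
      have g1 := mul_le_mul_of_nonneg_left f4 (by positivity : (0 : ℝ) ≤ 2 * (1 + 36 * C'))
      have g2 : 2 * (1 + 36 * C') * (4 * T ^ (-(1 / 4 : ℝ))) = K2 * T ^ (-(1 / 4 : ℝ)) := by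
        rw [hK2]
        ring
      rw [g2] at g1
      exact g1
    linarith
  rw [hid] at hprod
  have h7 := norm_sub_norm_le (1 : ℂ) (-(∑ k ∈ Ioc U (U ^ 2), bU U k * (k : ℂ) ^ (-ρ)))
  rw [norm_neg, norm_one, sub_neg_eq_add] at h7
  linarith

end Pool.Agent.OX
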