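import Mathlib
import Pool.Agent.Lib.OX.Defs2
import Pool.Agent.Lib.MR2.HI

/-!
# PROJECT OX, row SZ2: Halász–Montgomery for points with different real parts.
-/

set_option autoImplicit false

namespace Pool.Agent.OX

open Finset Pool.Agent.MRL Pool.Agent.MRL.HM

theorem SZ2_cpow (K k : ℕ) (hK : 1 ≤ K) (hk : K ≤ k) (ρ : ℂ) :
    (((K : ℝ) ^ ρ.re : ℝ) : ℂ) * (k : ℂ) ^ (-ρ) =
      ((Real.exp (-ρ.re * Real.log ((k : ℝ) / K)) : ℝ) : ℂ) * ee (-ρ.im) k := by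
  have hK0 : (0 : ℝ) < K := by exact_mod_cast hK
  have hk0 : (0 : ℝ) < k := by exact_mod_cast hK.trans hk
  have hk0' : (k : ℂ) ≠ 0 := by exact_mod_cast hk0.ne'
  have h1 : (k : ℂ) ^ (-ρ) = ((Real.exp (-ρ.re * Real.log k) : ℝ) : ℂ) * ee (-ρ.im) k := by
    unfold ee
    rw [Complex.cpow_def_of_ne_zero hk0', Complex.ofReal_exp, ← Complex.exp_add]
    congr 1
    rw [← Complex.natCast_log]
    apply Complex.ext <;> simp
    · ring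
    · ring
  rw [h1, ← mul_assoc, ← Complex.ofReal_mul, Real.rpow_def_of_pos hK0, ← Real.exp_add,
    Real.log_div hk0.ne' hK0.ne']
  congr 3
  ring

theorem SZ2_tend (K : ℕ) (S : Finset ℕ) (a : ℕ → ℂ) (hK : 1 ≤ K) (hS : ∀ k ∈ S, K ≤ k) (ρ : ℂ) :
    Filter.Tendsto (fun M : ℕ => ∑ m ∈ range M, ((((-ρ.re) ^ m / m.factorial : ℝ)) : ℂ) *
      ∑ k ∈ S, a k * (((Real.log ((k : ℝ) / K)) ^ m : ℝ) : ℂ) * ee (-ρ.im) k) Filter.atTop
      (nhds ((((K : ℝ) ^ ρ.re : ℝ) : ℂ) * ∑ k ∈ S, a k * (k : ℂ) ^ (-ρ))) := by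
  have h1 : ∀ k ∈ S, HasSum (fun m : ℕ => ((((-ρ.re) ^ m / m.factorial : ℝ)) : ℂ) *
      (a k * (((Real.log ((k : ℝ) / K)) ^ m : ℝ) : ℂ) * ee (-ρ.im) k))
      ((((K : ℝ) ^ ρ.re : ℝ) : ℂ) * (a k * (k : ℂ) ^ (-ρ))) := by
    intro k hk
    have h2 : HasSum (fun m : ℕ => (-ρ.re * Real.log ((k : ℝ) / K)) ^ m / m.factorial)
        (Real.exp (-ρ.re * Real.log ((k : ℝ) / K))) := by
      rw [Real.exp_eq_exp_ℝ]
      exact NormedSpace.expSeries_div_hasSum_exp _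
    have h3 := (Complex.hasSum_ofReal.mpr h2).mul_right (a k * ee (-ρ.im) k)
    have h4 : (((K : ℝ) ^ ρ.re : ℝ) : ℂ) * (a k * (k : ℂ) ^ (-ρ)) =
        ((Real.exp (-ρ.re * Real.log ((k : ℝ) / K)) : ℝ) : ℂ) * (a k * ee (-ρ.im) k) := by
      calc (((K : ℝ) ^ ρ.re : ℝ) : ℂ) * (a k * (k : ℂ) ^ (-ρ))
          = a k * ((((K : ℝ) ^ ρ.re : ℝ) : ℂ) * (k : ℂ) ^ (-ρ)) := by ring
        _ = _ := by
          rw [SZ2_cpow K k hK (hS k hk)]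
          ring
    have h5 : (fun m : ℕ => ((((-ρ.re) ^ m / m.factorial : ℝ)) : ℂ) *
        (a k * (((Real.log ((k : ℝ) / K)) ^ m : ℝ) : ℂ) * ee (-ρ.im) k)) =
        fun m : ℕ => (((-ρ.re * Real.log ((k : ℝ) / K)) ^ m / m.factorial : ℝ) : ℂ) *
          (a k * ee (-ρ.im) k) := by
      funext m
      rw [mul_pow]
      push_cast
      ring
    rw [h4, h5]
    exact h3
  have h5 := hasSum_sum h1
  rw [← Finset.mul_sum] at h5
  have h6 := h5.tendsto_sum_nat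
  refine h6.congr fun M => ?_
  exact Finset.sum_congr rfl fun m _ => by rw [Finset.mul_sum]

theorem SZ2_fac (M : ℕ) : ∑ m ∈ range M, (1 : ℝ) / m.factorial ≤ Real.exp 1 := by
  have h := Real.sum_le_exp_of_nonneg (x := 1) zero_le_one M
  simpa using h

theorem sz2 (hV : VDC) : SZ2 := by
  intro A hA
  obtain ⟨η, hη, C, hC, hH⟩ := Pool.Agent.MR2.HIr.hi_core hV A hA
  refine ⟨η, Real.exp 1 * (Real.exp 1 * C), hη, by positivity, ?_⟩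
  intro K σ Z S a hK hσ hZ hsp hZA hS
  have hK1 : 1 ≤ K := by omega
  have hK0 : (0 : ℝ) < K := by exact_mod_cast hK1
  have hK1' : (1 : ℝ) ≤ K := by exact_mod_cast hK1
  have hinj : Set.InjOn Complex.im (Z : Set ℂ) := by
    intro ρ hρ ρ' hρ' h
    by_contra hne
    have h1 := hsp ρ hρ ρ' hρ' hne
    rw [h, sub_self, abs_zero] at h1
    linarith
  set D : ℝ := C * (K + Z.card * (K : ℝ) ^ (1 - η)) * ∑ k ∈ S, ‖a k‖ ^ 2 with hD
  have hSn : (0 : ℝ) ≤ ∑ k ∈ S, ‖a k‖ ^ 2 := Finset.sum_nonneg fun _ _ => by positivity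
  have hD0 : 0 ≤ D := by positivity
  -- the moments
  set Y : ℕ → ℂ → ℂ := fun m ρ =>
    ∑ k ∈ S, a k * (((Real.log ((k : ℝ) / K)) ^ m : ℝ) : ℂ) * ee (-ρ.im) k with hY
  have hmom : ∀ m : ℕ, ∑ ρ ∈ Z, ‖Y m ρ‖ ^ 2 ≤ D := by
    intro m
    have h1 := hH K hK (Z.image Complex.im) (by
      intro s hs t ht hst
      obtain ⟨ρ, hρ, rfl⟩ := Finset.mem_image.mp hs
      obtain ⟨ρ', hρ', rfl⟩ := Finset.mem_image.mp ht
      exact hsp ρ hρ ρ' hρ' fun h => hst (by rw [h])) (by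
      intro s hs t ht
      obtain ⟨ρ, hρ, rfl⟩ := Finset.mem_image.mp hs
      obtain ⟨ρ', hρ', rfl⟩ := Finset.mem_image.mp ht
      exact hZA ρ hρ ρ' hρ') S hS (fun k => a k * (((Real.log ((k : ℝ) / K)) ^ m : ℝ) : ℂ))
    rw [Finset.sum_image hinj, Finset.card_image_of_injOn hinj] at h1
    refine h1.trans ?_
    rw [hD]
    refine mul_le_mul_of_nonneg_left (Finset.sum_le_sum fun k hk => ?_) (by positivity)
    obtain ⟨hk1, hk2⟩ := hS k hk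
    have hk1' : (K : ℝ) ≤ k := by exact_mod_cast hk1
    have hk2' : (k : ℝ) ≤ 2 * K := by exact_mod_cast hk2
    have hl0 : 0 ≤ Real.log ((k : ℝ) / K) := Real.log_nonneg (by rw [le_div_iff₀ hK0]; linarith)
    have hl1 : Real.log ((k : ℝ) / K) ≤ 1 := by
      have h2 : (k : ℝ) / K ≤ 2 := by rw [div_le_iff₀ hK0]; exact hk2'
      have h3 : Real.log ((k : ℝ) / K) ≤ Real.log 2 :=
        Real.log_le_log (div_pos (by linarith) hK0) h2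
      have h4 : Real.log 2 ≤ 2 - 1 := Real.log_le_sub_one_of_pos (by norm_num)
      linarith
    have h5 : ‖(((Real.log ((k : ℝ) / K)) ^ m : ℝ) : ℂ)‖ ≤ 1 := by
      rw [Complex.norm_real, Real.norm_eq_abs, abs_of_nonneg (pow_nonneg hl0 m)]
      exact pow_le_one₀ hl0 hl1
    rw [norm_mul]
    have h6 : ‖a k‖ * ‖(((Real.log ((k : ℝ) / K)) ^ m : ℝ) : ℂ)‖ ≤ ‖a k‖ := by
      calc _ ≤ ‖a k‖ * 1 := mul_le_mul_of_nonneg_left h5 (norm_nonneg _)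
        _ = _ := mul_one _
    exact pow_le_pow_left₀ (by positivity) h6 2
  -- finite sums
  have hfin : ∀ M : ℕ, ∑ ρ ∈ Z, ‖∑ m ∈ range M, ((((-ρ.re) ^ m / m.factorial : ℝ)) : ℂ) * Y m ρ‖ ^ 2 ≤
      Real.exp 1 * (Real.exp 1 * D) := by
    intro M
    have h1 : ∀ ρ ∈ Z, ‖∑ m ∈ range M, ((((-ρ.re) ^ m / m.factorial : ℝ)) : ℂ) * Y m ρ‖ ^ 2 ≤
        Real.exp 1 * ∑ m ∈ range M, (1 : ℝ) / m.factorial * ‖Y m ρ‖ ^ 2 := by
      intro ρ hρ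
      have h2 : ‖∑ m ∈ range M, ((((-ρ.re) ^ m / m.factorial : ℝ)) : ℂ) * Y m ρ‖ ≤
          ∑ m ∈ range M, (1 : ℝ) / m.factorial * ‖Y m ρ‖ := by
        refine (norm_sum_le _ _).trans (Finset.sum_le_sum fun m _ => ?_)
        rw [norm_mul, Complex.norm_real, Real.norm_eq_abs, abs_div, abs_pow, abs_neg, Nat.abs_cast]
        refine mul_le_mul_of_nonneg_right ?_ (norm_nonneg _)
        refine div_le_div_of_nonneg_right (pow_le_one₀ (abs_nonneg _) ?_) (by positivity)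
        rw [abs_of_nonneg (by linarith [(hZ ρ hρ).1])]
        exact (hZ ρ hρ).2
      calc _ ≤ (∑ m ∈ range M, (1 : ℝ) / m.factorial * ‖Y m ρ‖) ^ 2 :=
            pow_le_pow_left₀ (norm_nonneg _) h2 2
        _ ≤ (∑ m ∈ range M, (1 : ℝ) / m.factorial) *
            ∑ m ∈ range M, (1 : ℝ) / m.factorial * ‖Y m ρ‖ ^ 2 :=
            Finset.sum_sq_le_sum_mul_sum_of_sq_le_mul _ (fun m _ => by positivity)
              (fun m _ => by positivity) (fun m _ => le_of_eq (by ring))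
        _ ≤ _ := mul_le_mul_of_nonneg_right (SZ2_fac M)
            (Finset.sum_nonneg fun m _ => by positivity)
    refine (Finset.sum_le_sum h1).trans ?_
    rw [← Finset.mul_sum]
    refine mul_le_mul_of_nonneg_left ?_ (Real.exp_pos _).le
    rw [Finset.sum_comm]
    calc ∑ m ∈ range M, ∑ ρ ∈ Z, (1 : ℝ) / m.factorial * ‖Y m ρ‖ ^ 2
        = ∑ m ∈ range M, (1 : ℝ) / m.factorial * ∑ ρ ∈ Z, ‖Y m ρ‖ ^ 2 :=
          Finset.sum_congr rfl fun m _ => (Finset.mul_sum _ _ _).symm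
      _ ≤ ∑ m ∈ range M, (1 : ℝ) / m.factorial * D :=
          Finset.sum_le_sum fun m _ => mul_le_mul_of_nonneg_left (hmom m) (by positivity)
      _ = (∑ m ∈ range M, (1 : ℝ) / m.factorial) * D := (Finset.sum_mul _ _ _).symm
      _ ≤ _ := mul_le_mul_of_nonneg_right (SZ2_fac M) hD0
  -- the limit
  have hlim : Filter.Tendsto (fun M : ℕ => ∑ ρ ∈ Z, ‖∑ m ∈ range M,
      ((((-ρ.re) ^ m / m.factorial : ℝ)) : ℂ) * Y m ρ‖ ^ 2) Filter.atTop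
      (nhds (∑ ρ ∈ Z, ‖(((K : ℝ) ^ ρ.re : ℝ) : ℂ) * ∑ k ∈ S, a k * (k : ℂ) ^ (-ρ)‖ ^ 2)) := by
    refine tendsto_finsetSum _ fun ρ _ => ?_
    exact ((SZ2_tend K S a hK1 (fun k hk => (hS k hk).1) ρ).norm).pow 2
  have hle := le_of_tendsto' hlim hfin
  have h7 : ∀ ρ ∈ Z, (K : ℝ) ^ (2 * σ) * ‖∑ k ∈ S, a k * (k : ℂ) ^ (-ρ)‖ ^ 2 ≤
      ‖(((K : ℝ) ^ ρ.re : ℝ) : ℂ) * ∑ k ∈ S, a k * (k : ℂ) ^ (-ρ)‖ ^ 2 := by
    intro ρ hρ
    rw [norm_mul, mul_pow, Complex.norm_real, Real.norm_eq_abs, abs_of_nonneg (by positivity)]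
    refine mul_le_mul_of_nonneg_right ?_ (by positivity)
    rw [← Real.rpow_natCast, ← Real.rpow_mul hK0.le]
    refine Real.rpow_le_rpow_of_exponent_le hK1' ?_
    push_cast
    linarith [(hZ ρ hρ).1]
  have h8 : (K : ℝ) ^ (2 * σ) * ∑ ρ ∈ Z, ‖∑ k ∈ S, a k * (k : ℂ) ^ (-ρ)‖ ^ 2 ≤
      Real.exp 1 * (Real.exp 1 * D) := by
    rw [Finset.mul_sum]
    exact (Finset.sum_le_sum h7).trans hle
  have h9 : ∑ ρ ∈ Z, ‖∑ k ∈ S, a k * (k : ℂ) ^ (-ρ)‖ ^ 2 =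
      (K : ℝ) ^ (-(2 * σ)) * ((K : ℝ) ^ (2 * σ) * ∑ ρ ∈ Z, ‖∑ k ∈ S, a k * (k : ℂ) ^ (-ρ)‖ ^ 2) := by
    rw [← mul_assoc, ← Real.rpow_add hK0]
    simp
  rw [h9]
  calc _ ≤ (K : ℝ) ^ (-(2 * σ)) * (Real.exp 1 * (Real.exp 1 * D)) :=
        mul_le_mul_of_nonneg_left h8 (by positivity)
    _ = _ := by rw [hD]; ring

end Pool.Agent.OX
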