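import Mathlib
import Pool.Agent.Lib.OX.Defs

/-!
# PROJECT OX (MP_bf4c7f_nt), row ZAP: approximation of zeta by its partial sums
-/

set_option autoImplicit false

namespace Pool.Agent.OX

open Finset Filter Topology

namespace ZAPr

/-- the error of one step, times `s - 1`. -/
noncomputable def e1 (n : ℕ) (s : ℂ) : ℂ :=
  (s - 1) * ((n : ℂ) + 1) ^ (-s) + (((n : ℂ) + 1) ^ (1 - s) - (n : ℂ) ^ (1 - s))

lemma hasDerivAt_cpow_real {u : ℝ} (hu : 0 < u) (c : ℂ) :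
    HasDerivAt (fun v : ℝ => (v : ℂ) ^ c) (c * (u : ℂ) ^ (c - 1)) u := by
  rcases eq_or_ne c 0 with rfl | hc
  · simp only [Complex.cpow_zero, zero_mul]
    exact hasDerivAt_const u (1 : ℂ)
  · exact hasDerivAt_ofReal_cpow_const hu.ne' hc

lemma e1_bound {n : ℕ} (hn : 1 ≤ n) {s : ℂ} (hs : 0 ≤ s.re) :
    ‖e1 n s‖ ≤ ‖s - 1‖ * ‖s‖ * (n : ℝ) ^ (-s.re - 1) := by
  have hn0 : (0 : ℝ) < n := by exact_mod_cast hn
  have hnn : (n : ℝ) ≤ n + 1 := by linarith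
  -- `u ↦ u ^ (-s)`
  have hpow : ∀ u ∈ Set.Icc (n : ℝ) (n + 1),
      ‖((n : ℂ) + 1) ^ (-s) - (u : ℂ) ^ (-s)‖ ≤ ‖s‖ * (n : ℝ) ^ (-s.re - 1) := by
    intro u hu
    have hu0 : 0 < u := lt_of_lt_of_le hn0 hu.1
    have h := norm_image_sub_le_of_norm_deriv_le_segment' (f := fun v : ℝ => (v : ℂ) ^ (-s))
      (a := u) (b := n + 1) (C := ‖s‖ * (n : ℝ) ^ (-s.re - 1))
      (f' := fun v => (-s) * (v : ℂ) ^ (-s - 1))
      (fun v hv => (hasDerivAt_cpow_real (lt_of_lt_of_le hu0 hv.1) (-s)).hasDerivWithinAt) ?_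
      (n + 1) ⟨hu.2, le_rfl⟩
    · have h1 : ((((n : ℝ) + 1 : ℝ)) : ℂ) = (n : ℂ) + 1 := by push_cast; ring
      simp only [h1] at h
      refine h.trans ?_
      have h2 : (n : ℝ) + 1 - u ≤ 1 := by linarith [hu.1]
      have h3 : 0 ≤ ‖s‖ * (n : ℝ) ^ (-s.re - 1) := by positivity
      nlinarith
    · intro v hv
      have hv0 : 0 < v := lt_of_lt_of_le hu0 hv.1
      rw [norm_mul, norm_neg, Complex.norm_cpow_eq_rpow_re_of_pos hv0]
      have e1 : (-s - 1 : ℂ).re = -s.re - 1 := by simp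
      rw [e1]
      have e2 : v ^ (-s.re - 1) ≤ (n : ℝ) ^ (-s.re - 1) :=
        Real.rpow_le_rpow_of_nonpos hn0 (hu.1.trans hv.1) (by linarith)
      gcongr
  set h : ℝ → ℂ := fun u => (s - 1) * ((n : ℂ) + 1) ^ (-s) * (u - n) +
    ((u : ℂ) ^ (1 - s) - (n : ℂ) ^ (1 - s)) with hh
  have hd : ∀ u : ℝ, 0 < u →
      HasDerivAt h ((s - 1) * (((n : ℂ) + 1) ^ (-s) - (u : ℂ) ^ (-s))) u := by
    intro u hu
    have h2 := hasDerivAt_cpow_real hu (1 - s)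
    have h3 : HasDerivAt (fun v : ℝ => ((v : ℂ) - n)) 1 u :=
      (Complex.ofRealCLM.hasDerivAt (x := u)).sub_const (n : ℂ)
    have h4 := (h3.const_mul ((s - 1) * ((n : ℂ) + 1) ^ (-s))).add (h2.sub_const ((n : ℂ) ^ (1 - s)))
    refine h4.congr_deriv ?_
    have : (1 : ℂ) - s - 1 = -s := by ring
    rw [this]
    ring
  have hb := norm_image_sub_le_of_norm_deriv_le_segment' (f := h) (a := n) (b := n + 1)
    (C := ‖s - 1‖ * (‖s‖ * (n : ℝ) ^ (-s.re - 1)))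
    (f' := fun u => (s - 1) * (((n : ℂ) + 1) ^ (-s) - (u : ℂ) ^ (-s)))
    (fun v hv => (hd v (lt_of_lt_of_le hn0 hv.1)).hasDerivWithinAt) ?_ (n + 1) ⟨hnn, le_rfl⟩
  · have h0 : h n = 0 := by simp [hh]
    have h1 : h (n + 1) = e1 n s := by
      simp only [hh, e1]
      push_cast
      ring
    rw [h0, h1, sub_zero] at hb
    refine hb.trans (le_of_eq ?_)
    ring
  · intro v hv
    rw [norm_mul]
    have := hpow v ⟨hv.1, hv.2.le⟩
    gcongr

lemma e1_differentiable {n : ℕ} (hn : 1 ≤ n) : Differentiable ℂ (e1 n) := by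
  intro s
  have h0 : (n : ℂ) ≠ 0 := by exact_mod_cast (by omega : n ≠ 0)
  have h1 : (n : ℂ) + 1 ≠ 0 := by exact_mod_cast (Nat.succ_ne_zero n)
  unfold e1
  refine DifferentiableAt.add (DifferentiableAt.mul ?_ ?_) (DifferentiableAt.sub ?_ ?_)
  · exact differentiableAt_id.sub_const _
  · exact (differentiableAt_id.neg).const_cpow (Or.inl h1)
  · exact ((differentiableAt_const _).sub differentiableAt_id).const_cpow (Or.inl h1)
  · exact ((differentiableAt_const _).sub differentiableAt_id).const_cpow (Or.inl h0)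

lemma summable_shift {σ : ℝ} (hσ : 0 < σ) (M : ℕ) :
    Summable fun n : ℕ => ((n + M : ℕ) : ℝ) ^ (-σ - 1) := by
  have h : Summable fun n : ℕ => ((n : ℕ) : ℝ) ^ (-σ - 1) :=
    Real.summable_nat_rpow.2 (by linarith)
  exact (summable_nat_add_iff M).2 h

lemma summable_e1 {s : ℂ} (hs : 0 < s.re) {M : ℕ} (hM : 1 ≤ M) :
    Summable fun n : ℕ => e1 (n + M) s := by
  refine Summable.of_norm_bounded
    (g := fun n : ℕ => ‖s - 1‖ * ‖s‖ * ((n + M : ℕ) : ℝ) ^ (-s.re - 1))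
    ((summable_shift hs M).mul_left _) fun n => ?_
  exact e1_bound (by omega) hs.le

/-- the right half plane. -/
def hp : Set ℂ := {s : ℂ | 0 < s.re}

lemma hp_open : IsOpen hp := isOpen_lt continuous_const Complex.continuous_re

lemma hp_convex : Convex ℝ hp := convex_halfSpace_re_gt 0

lemma tsum_differentiable {M : ℕ} (hM : 1 ≤ M) :
    DifferentiableOn ℂ (fun s => ∑' n : ℕ, e1 (n + M) s) hp := by
  intro s hs
  have hs' : 0 < s.re := hs
  set V : Set ℂ := {w : ℂ | s.re / 2 < w.re} ∩ Metric.ball s 1 with hV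
  have hVo : IsOpen V :=
    (isOpen_lt continuous_const Complex.continuous_re).inter Metric.isOpen_ball
  have hsV : s ∈ V := ⟨by change s.re / 2 < s.re; linarith, Metric.mem_ball_self one_pos⟩
  have key : DifferentiableOn ℂ (fun s => ∑' n : ℕ, e1 (n + M) s) V := by
    refine Complex.differentiableOn_tsum_of_summable_norm
      (u := fun n : ℕ => (‖s‖ + 2) * (‖s‖ + 1) * ((n + M : ℕ) : ℝ) ^ (-(s.re / 2) - 1))
      ((summable_shift (by linarith) M).mul_left _) ?_ hVo ?_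
    · intro n
      exact (e1_differentiable (by omega)).differentiableOn
    · intro n w hw
      have hwre : s.re / 2 < w.re := hw.1
      refine (e1_bound (by omega) (by linarith)).trans ?_
      have h1 : ‖w‖ ≤ ‖s‖ + 1 := by
        have : ‖w - s‖ < 1 := by simpa [dist_eq_norm] using hw.2
        calc ‖w‖ = ‖s + (w - s)‖ := by ring_nf
          _ ≤ ‖s‖ + ‖w - s‖ := norm_add_le _ _
          _ ≤ _ := by linarith
      have h2 : ‖w - 1‖ ≤ ‖s‖ + 2 := by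
        calc ‖w - 1‖ ≤ ‖w‖ + ‖(1 : ℂ)‖ := norm_sub_le _ _
          _ ≤ _ := by rw [norm_one]; linarith
      have h3 : ((n + M : ℕ) : ℝ) ^ (-w.re - 1) ≤ ((n + M : ℕ) : ℝ) ^ (-(s.re / 2) - 1) := by
        refine Real.rpow_le_rpow_of_exponent_le ?_ (by linarith)
        exact_mod_cast (by omega : 1 ≤ n + M)
      gcongr
  exact ((key s hsV).differentiableAt (hVo.mem_nhds hsV)).differentiableWithinAt

/-- the right side of the identity. -/
noncomputable def rhs (M : ℕ) (s : ℂ) : ℂ :=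
  (s - 1) * ∑ n ∈ Icc 1 M, (n : ℂ) ^ (-s) + (M : ℂ) ^ (1 - s) + ∑' n : ℕ, e1 (n + M) s

lemma sum_e1 (M N : ℕ) (s : ℂ) : ∑ n ∈ range N, e1 (n + M) s =
    (s - 1) * (∑ n ∈ Icc 1 (N + M), (n : ℂ) ^ (-s) - ∑ n ∈ Icc 1 M, (n : ℂ) ^ (-s)) +
      (((N + M : ℕ) : ℂ) ^ (1 - s) - (M : ℂ) ^ (1 - s)) := by
  induction N with
  | zero => simp
  | succ N ih =>
    rw [sum_range_succ, ih, e1]
    have h : N + 1 + M = (N + M) + 1 := by ring
    rw [h, Finset.sum_Icc_succ_top (by omega : 1 ≤ N + M + 1)]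
    push_cast
    ring

lemma rhs_of_one_lt {s : ℂ} (hs : 1 < s.re) {M : ℕ} (hM : 1 ≤ M) :
    riemannZeta₁ s = rhs M s := by
  have hs1 : s ≠ 1 := by
    rintro rfl
    simp at hs
  have hA : Tendsto (fun N : ℕ => ∑ n ∈ range N, e1 (n + M) s) atTop
      (𝓝 (∑' n : ℕ, e1 (n + M) s)) :=
    (summable_e1 (by linarith) hM).hasSum.tendsto_sum_nat
  have hB0 : Tendsto (fun N : ℕ => ∑ n ∈ Icc 1 N, (n : ℂ) ^ (-s)) atTop
      (𝓝 (riemannZeta s)) := by
    rw [zeta_eq_tsum_one_div_nat_add_one_cpow hs]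
    have h1 : Summable (fun n : ℕ => 1 / ((n + 1 : ℕ) : ℂ) ^ s) := by
      have := Complex.summable_one_div_nat_cpow.mpr hs
      exact (summable_nat_add_iff (f := fun n : ℕ => 1 / ((n : ℕ) : ℂ) ^ s) 1).mpr this
    have h2 := h1.hasSum.tendsto_sum_nat
    have h3 : (fun N : ℕ => ∑ n ∈ Icc 1 N, (n : ℂ) ^ (-s)) =
        fun N : ℕ => ∑ n ∈ range N, 1 / ((n + 1 : ℕ) : ℂ) ^ s := by
      funext N
      rw [Finset.range_eq_Ico, Finset.sum_Ico_add' (fun n : ℕ => 1 / ((n : ℕ) : ℂ) ^ s) 0 N 1]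
      refine sum_congr ?_ fun n _ => ?_
      · ext x; simp only [mem_Icc, mem_Ico]; omega
      · rw [Complex.cpow_neg, one_div]
    rw [h3]
    simpa using h2
  have hB : Tendsto (fun N : ℕ => ∑ n ∈ Icc 1 (N + M), (n : ℂ) ^ (-s)) atTop
      (𝓝 (riemannZeta s)) := hB0.comp (tendsto_add_atTop_nat M)
  have hD : Tendsto (fun N : ℕ => ((N + M : ℕ) : ℂ) ^ (1 - s)) atTop (𝓝 0) := by
    rw [tendsto_zero_iff_norm_tendsto_zero]
    have h1 : ∀ N : ℕ, ‖((N + M : ℕ) : ℂ) ^ (1 - s)‖ = ((N + M : ℕ) : ℝ) ^ (-(s.re - 1)) := by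
      intro N
      rw [Complex.norm_natCast_cpow_of_pos (by omega)]
      simp
    simp_rw [h1]
    exact (tendsto_rpow_neg_atTop (by linarith)).comp
      (tendsto_natCast_atTop_atTop.comp (tendsto_add_atTop_nat M))
  have hF : Tendsto (fun N : ℕ => ∑ n ∈ range N, e1 (n + M) s) atTop
      (𝓝 ((s - 1) * (riemannZeta s - ∑ n ∈ Icc 1 M, (n : ℂ) ^ (-s)) +
        (0 - (M : ℂ) ^ (1 - s)))) := by
    simp_rw [sum_e1]
    exact ((hB.sub_const _).const_mul _).add (hD.sub_const _)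
  have hG := tendsto_nhds_unique hA hF
  have h1 : riemannZeta₁ s = (s - 1) * riemannZeta s := by
    rw [riemannZeta_eq_inv_sub_mul hs1, ← mul_assoc, mul_inv_cancel₀ (sub_ne_zero.2 hs1), one_mul]
  rw [rhs, hG, h1]
  ring

lemma rhs_eq {s : ℂ} (hs : 0 < s.re) {M : ℕ} (hM : 1 ≤ M) : riemannZeta₁ s = rhs M s := by
  have hf : AnalyticOnNhd ℂ riemannZeta₁ hp :=
    DifferentiableOn.analyticOnNhd differentiable_riemannZeta₁.differentiableOn hp_open
  have hg : AnalyticOnNhd ℂ (rhs M) hp := by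
    refine DifferentiableOn.analyticOnNhd ?_ hp_open
    refine DifferentiableOn.add ?_ (tsum_differentiable hM)
    intro w _
    have hM0 : (M : ℂ) ≠ 0 := by exact_mod_cast (by omega : M ≠ 0)
    refine DifferentiableAt.differentiableWithinAt ?_
    refine DifferentiableAt.add (DifferentiableAt.mul (differentiableAt_id.sub_const _) ?_) ?_
    · refine DifferentiableAt.fun_sum fun n hn => ?_
      have hn0 : (n : ℂ) ≠ 0 := by
        have := (mem_Icc.1 hn).1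
        exact_mod_cast (by omega : n ≠ 0)
      exact (differentiableAt_id.neg).const_cpow (Or.inl hn0)
    · exact ((differentiableAt_const _).sub differentiableAt_id).const_cpow (Or.inl hM0)
  have h0 : (2 : ℂ) ∈ hp := by simp [hp]
  have hev : riemannZeta₁ =ᶠ[𝓝 (2 : ℂ)] rhs M := by
    have ho : IsOpen {s : ℂ | 1 < s.re} := isOpen_lt continuous_const Complex.continuous_re
    have hm : (2 : ℂ) ∈ {s : ℂ | 1 < s.re} := by simp
    filter_upwards [ho.mem_nhds hm] with w hw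
    exact rhs_of_one_lt hw hM
  exact hf.eqOn_of_preconnected_of_eventuallyEq hg hp_convex.isPreconnected h0 hev hs

/-! ### the tail -/

lemma step {n : ℕ} (hn : 1 ≤ n) {σ : ℝ} (h1 : 1 / 2 ≤ σ) (h3 : σ ≤ 3) :
    (n : ℝ) ^ (-σ - 1) ≤ 24 * ((n : ℝ) ^ (-σ) - ((n + 1 : ℕ) : ℝ) ^ (-σ)) := by
  have hn0 : (0 : ℝ) < n := by exact_mod_cast hn
  have hn1 : (1 : ℝ) ≤ n := by exact_mod_cast hn
  have hx0 : 0 < 1 / (n : ℝ) := by positivity
  have hx1 : 1 / (n : ℝ) ≤ 1 := by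
    rw [div_le_one hn0]; exact hn1
  set x : ℝ := 1 / (n : ℝ) with hx
  have e1 : ((n + 1 : ℕ) : ℝ) = n * (1 + x) := by
    rw [hx]; push_cast; field_simp
  have e2 : 1 + x / 3 ≤ (1 + x) ^ σ := by
    have h4 : (1 + x) ^ (1 / 2 : ℝ) ≤ (1 + x) ^ σ :=
      Real.rpow_le_rpow_of_exponent_le (by linarith) h1
    have h5 : 1 + x / 3 ≤ (1 + x) ^ (1 / 2 : ℝ) := by
      rw [← Real.sqrt_eq_rpow]
      refine Real.le_sqrt_of_sq_le ?_
      nlinarith
    exact h5.trans h4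
  have hy0 : 0 < (1 + x) ^ σ := by positivity
  have e3 : (1 + x) ^ σ ≤ 8 := by
    have h4 : (1 + x) ^ σ ≤ (2 : ℝ) ^ σ :=
      Real.rpow_le_rpow (by linarith) (by linarith) (by linarith)
    have h5 : (2 : ℝ) ^ σ ≤ (2 : ℝ) ^ (3 : ℝ) :=
      Real.rpow_le_rpow_of_exponent_le (by norm_num) h3
    have h6 : (2 : ℝ) ^ (3 : ℝ) = 8 := by
      rw [show (3 : ℝ) = ((3 : ℕ) : ℝ) by norm_num, Real.rpow_natCast]
      norm_num
    linarith
  have hnσ : 0 < (n : ℝ) ^ (-σ) := by positivity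
  have e4 : (n : ℝ) ^ (-σ - 1) = (n : ℝ) ^ (-σ) * x := by
    rw [Real.rpow_sub_one hn0.ne', hx]
    ring
  have e5 : ((n + 1 : ℕ) : ℝ) ^ (-σ) = (n : ℝ) ^ (-σ) * ((1 + x) ^ σ)⁻¹ := by
    rw [e1, Real.mul_rpow hn0.le (by linarith), Real.rpow_neg (by linarith : (0 : ℝ) ≤ 1 + x)]
  rw [e4, e5]
  have e6 : x ≤ 24 * (1 - ((1 + x) ^ σ)⁻¹) := by
    have h7 : ((1 + x) ^ σ)⁻¹ * (1 + x) ^ σ = 1 := inv_mul_cancel₀ hy0.ne'
    have h8 : (1 : ℝ) / 8 ≤ ((1 + x) ^ σ)⁻¹ := by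
      rw [one_div]
      exact inv_anti₀ hy0 e3
    set z : ℝ := ((1 + x) ^ σ)⁻¹ with hz
    have hz0 : 0 < z := by linarith
    have h9 := mul_le_mul_of_nonneg_left e2 hz0.le
    rw [h7] at h9
    nlinarith
  nlinarith

lemma hasSum_tel {M : ℕ} (hM : 1 ≤ M) {σ : ℝ} (hσ : 0 < σ) :
    HasSum (fun n : ℕ => ((n + M : ℕ) : ℝ) ^ (-σ) - ((n + M + 1 : ℕ) : ℝ) ^ (-σ))
      ((M : ℝ) ^ (-σ)) := by
  have hanti : ∀ n : ℕ, ((n + M + 1 : ℕ) : ℝ) ^ (-σ) ≤ ((n + M : ℕ) : ℝ) ^ (-σ) := by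
    intro n
    have h0 : (0 : ℝ) < ((n + M : ℕ) : ℝ) := by exact_mod_cast (by omega : 0 < n + M)
    refine Real.rpow_le_rpow_of_nonpos h0 ?_ (by linarith)
    push_cast
    linarith
  rw [hasSum_iff_tendsto_nat_of_nonneg fun n => sub_nonneg.2 (hanti n)]
  have h1 : ∀ N : ℕ, ∑ n ∈ range N,
      (((n + M : ℕ) : ℝ) ^ (-σ) - ((n + M + 1 : ℕ) : ℝ) ^ (-σ)) =
      (M : ℝ) ^ (-σ) - ((N + M : ℕ) : ℝ) ^ (-σ) := by
    intro N
    induction N with
    | zero => simp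
    | succ N ih =>
      rw [sum_range_succ, ih, (by ring : N + 1 + M = N + M + 1)]
      ring
  simp_rw [h1]
  have h2 : Tendsto (fun N : ℕ => ((N + M : ℕ) : ℝ) ^ (-σ)) atTop (𝓝 0) :=
    (tendsto_rpow_neg_atTop hσ).comp
      (tendsto_natCast_atTop_atTop.comp (tendsto_add_atTop_nat M))
  simpa using (tendsto_const_nhds (x := (M : ℝ) ^ (-σ))).sub h2

end ZAPr

open ZAPr in
/-- Row ZAP. -/
theorem zap : ZAP := by
  refine ⟨24, by norm_num, fun s M h1 h3 hs1 hM => ?_⟩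
  have hs0 : 0 < s.re := by linarith
  have hne : s - 1 ≠ 0 := sub_ne_zero.2 hs1
  have hr := rhs_eq hs0 hM
  have hz : riemannZeta₁ s = (s - 1) * riemannZeta s := by
    rw [riemannZeta_eq_inv_sub_mul hs1, ← mul_assoc, mul_inv_cancel₀ hne, one_mul]
  rw [hz, rhs] at hr
  have hM0 : 0 < (M : ℝ) := by exact_mod_cast hM
  have htail : ‖∑' n : ℕ, e1 (n + M) s‖ ≤ ‖s - 1‖ * ‖s‖ * 24 * (M : ℝ) ^ (-s.re) := by
    refine tsum_of_norm_bounded ((hasSum_tel hM hs0).mul_left (‖s - 1‖ * ‖s‖ * 24)) fun n => ?_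
    refine (e1_bound (by omega) hs0.le).trans ?_
    have h4 := step (n := n + M) (by omega) h1 h3
    have h5 : 0 ≤ ‖s - 1‖ * ‖s‖ := by positivity
    calc ‖s - 1‖ * ‖s‖ * ((n + M : ℕ) : ℝ) ^ (-s.re - 1) ≤ ‖s - 1‖ * ‖s‖ *
        (24 * (((n + M : ℕ) : ℝ) ^ (-s.re) - ((n + M + 1 : ℕ) : ℝ) ^ (-s.re))) := by gcongr
      _ = _ := by ring
  have hid : riemannZeta s - (∑ n ∈ Icc 1 M, (n : ℂ) ^ (-s) + (M : ℂ) ^ (1 - s) / (s - 1)) =
      (∑' n : ℕ, e1 (n + M) s) / (s - 1) := by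
    rw [eq_div_iff hne]
    have h6 : (M : ℂ) ^ (1 - s) / (s - 1) * (s - 1) = (M : ℂ) ^ (1 - s) := div_mul_cancel₀ _ hne
    linear_combination hr - h6
  rw [hid, norm_div]
  have hn0 : 0 < ‖s - 1‖ := norm_pos_iff.2 hne
  rw [div_le_iff₀ hn0]
  linarith

end Pool.Agent.OX
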