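import Pool.Agent.Lib.OX.Defs
import Pool.Agent.Lib.MP_af3d17_nt_h98.Jen
import Pool.Agent.Lib.MRL.FLb

/-!
# PROJECT OX, row ZF: zero-free region and the logarithmic derivative (Landau).  helper59.
-/

set_option autoImplicit false

namespace Pool.Agent.OX

namespace ZF

open Complex Filter Topology Metric

/-! ### the Dirichlet series of `-ζ'/ζ` -/

open ArithmeticFunction in
lemma neg_logDeriv {s : ℂ} (hs : 1 < s.re) :
    -logDeriv riemannZeta s = LSeries (fun n => (vonMangoldt n : ℂ)) s := by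
  rw [LSeries_vonMangoldt_eq_deriv_riemannZeta_div hs, logDeriv_apply, neg_div]

open ArithmeticFunction in
/-- the terms of the series. -/
lemma term_eq (a t : ℝ) (n : ℕ) : ∃ (v : ℝ) (z : ℂ), 0 ≤ v ∧ ‖z‖ ≤ 1 ∧ (v ≠ 0 → ‖z‖ = 1) ∧
    LSeries.term (fun n => (vonMangoldt n : ℂ)) ((1 + a : ℝ) : ℂ) n = (v : ℂ) ∧
    LSeries.term (fun n => (vonMangoldt n : ℂ)) (1 + a + t * I) n = v * z ∧
    LSeries.term (fun n => (vonMangoldt n : ℂ)) (1 + a + 2 * t * I) n = v * z ^ 2 := by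
  rcases Nat.eq_zero_or_pos n with rfl | hn
  · exact ⟨0, 0, le_rfl, by simp, by simp, by simp [LSeries.term], by simp [LSeries.term],
      by simp [LSeries.term]⟩
  have hn0 : n ≠ 0 := hn.ne'
  have hnc : (n : ℂ) ≠ 0 := by exact_mod_cast hn0
  refine ⟨vonMangoldt n / (n : ℝ) ^ (1 + a : ℝ), (n : ℂ) ^ (-(t * I : ℂ)), ?_, ?_, ?_, ?_, ?_, ?_⟩
  · exact div_nonneg vonMangoldt_nonneg (Real.rpow_nonneg (Nat.cast_nonneg n) _)
  · rw [Complex.norm_natCast_cpow_of_pos hn]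
    simp
  · intro _
    rw [Complex.norm_natCast_cpow_of_pos hn]
    simp
  · rw [LSeries.term_of_ne_zero hn0]
    push_cast [Complex.ofReal_cpow (Nat.cast_nonneg n)]
    rfl
  · rw [LSeries.term_of_ne_zero hn0]
    rw [show (1 + a + t * I : ℂ) = ((1 + a : ℝ) : ℂ) + t * I by push_cast; ring,
      Complex.cpow_add _ _ hnc, Complex.cpow_neg]
    push_cast [Complex.ofReal_cpow (Nat.cast_nonneg n)]
    rw [div_mul_eq_div_div, div_eq_mul_inv _ ((n : ℂ) ^ (t * I : ℂ))]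
  · rw [LSeries.term_of_ne_zero hn0]
    rw [show (1 + a + 2 * t * I : ℂ) = ((1 + a : ℝ) : ℂ) + (t * I + t * I) by push_cast; ring,
      Complex.cpow_add _ _ hnc, Complex.cpow_add _ _ hnc, Complex.cpow_neg]
    push_cast [Complex.ofReal_cpow (Nat.cast_nonneg n)]
    rw [div_mul_eq_div_div, div_eq_mul_inv _ ((n : ℂ) ^ (t * I : ℂ) * (n : ℂ) ^ (t * I : ℂ)),
      pow_two, mul_inv]

open ArithmeticFunction in
lemma summ {s : ℂ} (hs : 1 < s.re) :
    Summable (LSeries.term (fun n => (vonMangoldt n : ℂ)) s) := LSeriesSummable_vonMangoldt hs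

open ArithmeticFunction in
/-- `3-4-1`. -/
lemma comb {a : ℝ} (ha : 0 < a) (t : ℝ) :
    0 ≤ 3 * (-logDeriv riemannZeta ((1 + a : ℝ) : ℂ)).re +
      4 * (-logDeriv riemannZeta (1 + a + t * I)).re +
      (-logDeriv riemannZeta (1 + a + 2 * t * I)).re := by
  have h1 : 1 < (((1 + a : ℝ) : ℂ)).re := by simp [ha]
  have h2 : 1 < (1 + a + t * I : ℂ).re := by simp [ha]
  have h3 : 1 < (1 + a + 2 * t * I : ℂ).re := by simp [ha]
  rw [neg_logDeriv h1, neg_logDeriv h2, neg_logDeriv h3]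
  unfold LSeries
  rw [Complex.re_tsum (summ h1), Complex.re_tsum (summ h2), Complex.re_tsum (summ h3),
    ← tsum_mul_left, ← tsum_mul_left]
  have s1 := (Complex.hasSum_re (summ h1).hasSum).summable
  have s2 := (Complex.hasSum_re (summ h2).hasSum).summable
  have s3 := (Complex.hasSum_re (summ h3).hasSum).summable
  rw [← Summable.tsum_add (s1.mul_left 3) (s2.mul_left 4),
    ← Summable.tsum_add ((s1.mul_left 3).add (s2.mul_left 4)) s3]
  refine tsum_nonneg fun n => ?_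
  obtain ⟨v, z, hv, hz, hz1, e1, e2, e3⟩ := term_eq a t n
  rw [e1, e2, e3]
  have hre : (z ^ 2).re = 2 * z.re ^ 2 - ‖z‖ ^ 2 := by
    rw [← Complex.normSq_eq_norm_sq, Complex.normSq_apply, pow_two, Complex.mul_re]
    ring
  rw [Complex.re_ofReal_mul, Complex.re_ofReal_mul, Complex.ofReal_re, hre]
  have hz2 : ‖z‖ ^ 2 ≤ 1 := by
    have := norm_nonneg z
    nlinarith
  have : 0 ≤ v * (2 * (1 + z.re) ^ 2 + (1 - ‖z‖ ^ 2)) := by 
    exact mul_nonneg hv (by nlinarith [sq_nonneg (1 + z.re)])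
  nlinarith

open ArithmeticFunction in
lemma norm_le {a : ℝ} (ha : 0 < a) (t : ℝ) :
    ‖logDeriv riemannZeta (1 + a + t * I)‖ ≤ (-logDeriv riemannZeta ((1 + a : ℝ) : ℂ)).re := by
  have h1 : 1 < (((1 + a : ℝ) : ℂ)).re := by simp [ha]
  have h2 : 1 < (1 + a + t * I : ℂ).re := by simp [ha]
  rw [← norm_neg, neg_logDeriv h1, neg_logDeriv h2]
  unfold LSeries
  rw [Complex.re_tsum (summ h1)]
  have s1 := (Complex.hasSum_re (summ h1).hasSum).summable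
  have s2 := (summ h2).norm
  refine (norm_tsum_le_tsum_norm s2).trans (s2.tsum_le_tsum (fun n => ?_) s1)
  obtain ⟨v, z, hv, hz, hz1, e1, e2, e3⟩ := term_eq a t n
  rw [e1, e2, norm_mul, Complex.norm_real, Real.norm_eq_abs, abs_of_nonneg hv, Complex.ofReal_re]
  nlinarith

lemma ne_zero_of_one_le {s : ℂ} (hs : 1 ≤ s.re) : riemannZeta₁ s ≠ 0 := by
  rcases eq_or_ne s 1 with rfl | h
  · simp
  · intro h0
    have := riemannZeta_ne_zero_of_one_le_re hs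
    rw [riemannZeta_eq_inv_sub_mul h, h0, mul_zero] at this
    exact this rfl

lemma zeta1_eq {s : ℂ} (hs : s ≠ 1) : riemannZeta₁ s = (s - 1) * riemannZeta s := by
  rw [riemannZeta_eq_inv_sub_mul hs, ← mul_assoc, mul_inv_cancel₀ (sub_ne_zero.2 hs), one_mul]

lemma ld1 {s : ℂ} (hs : s ≠ 1) (h0 : riemannZeta s ≠ 0) :
    logDeriv riemannZeta₁ s = 1 / (s - 1) + logDeriv riemannZeta s := by
  have h1 : riemannZeta₁ =ᶠ[𝓝 s] fun z => (z - 1) * riemannZeta z := by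
    filter_upwards [isOpen_ne.mem_nhds hs] with z hz using zeta1_eq hz
  have hs' : s - 1 ≠ 0 := sub_ne_zero.2 hs
  rw [(logDeriv_congr_nhds h1).eq_of_nhds,
    logDeriv_mul (f := fun z => z - 1) s hs' h0 (by fun_prop) (differentiableAt_riemannZeta hs)]
  congr 1
  rw [logDeriv_apply, deriv_sub_const, deriv_id'']

lemma pole : ∃ C : ℝ, 0 < C ∧ ∀ a : ℝ, 0 < a → a ≤ 2 →
    (-logDeriv riemannZeta ((1 + a : ℝ) : ℂ)).re ≤ 1 / a + C := by
  have hcont : ContinuousOn (fun x : ℝ => ‖logDeriv riemannZeta₁ ((x : ℝ) : ℂ)‖) (Set.Icc 1 3) := by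
    intro x hx
    have h1 : riemannZeta₁ (x : ℂ) ≠ 0 := ne_zero_of_one_le (by simpa using hx.1)
    have h2 : ContinuousAt (logDeriv riemannZeta₁) (x : ℂ) := by
      refine ContinuousAt.div ?_ differentiable_riemannZeta₁.continuous.continuousAt h1
      exact differentiable_riemannZeta₁.deriv.continuous.continuousAt
    exact ((ContinuousAt.comp (f := fun x : ℝ => (x : ℂ)) h2
      Complex.continuous_ofReal.continuousAt).norm).continuousWithinAt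
  obtain ⟨B, hB⟩ := (isCompact_Icc.image_of_continuousOn hcont).bddAbove
  refine ⟨max B 1, by positivity, fun a ha ha2 => ?_⟩
  have hne : ((1 + a : ℝ) : ℂ) ≠ 1 := by
    intro h
    have : (1 + a : ℝ) = 1 := by exact_mod_cast h
    linarith
  have h0 : riemannZeta ((1 + a : ℝ) : ℂ) ≠ 0 :=
    riemannZeta_ne_zero_of_one_le_re (by simp [ha.le])
  have h1 : ‖logDeriv riemannZeta₁ ((1 + a : ℝ) : ℂ)‖ ≤ B :=
    hB ⟨1 + a, ⟨by linarith, by linarith⟩, rfl⟩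
  have h2 := ld1 hne h0
  have h3 : -logDeriv riemannZeta ((1 + a : ℝ) : ℂ) = ((1 / a : ℝ) : ℂ) -
      logDeriv riemannZeta₁ ((1 + a : ℝ) : ℂ) := by
    rw [h2]
    push_cast
    ring
  rw [h3, Complex.sub_re, Complex.ofReal_re]
  have h4 := Complex.abs_re_le_norm (logDeriv riemannZeta₁ ((1 + a : ℝ) : ℂ))
  have h5 := neg_abs_le (logDeriv riemannZeta₁ ((1 + a : ℝ) : ℂ)).re
  have h6 := le_max_left B 1
  linarith

/-! ### the local formula -/

/-- points of the disc. -/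
lemma pt {γ a ℓ : ℝ} {s : ℂ} (hγ : 11 ≤ |γ|) (hℓ : ℓ = Real.log |γ|) (h1 : 1 ≤ ℓ) (ha : 0 < a)
    (ha1 : a ≤ 1) (hs : ‖s - (1 + a + γ * I)‖ ≤ 1 / 2 * ℓ ^ (-(9 / 10) : ℝ)) :
    |s.im - γ| ≤ 1 / 2 ∧ 10 ≤ |s.im| ∧ Real.log |s.im| ≤ 2 * ℓ ∧
      1 - (Real.log |s.im|) ^ (-(9 / 10 : ℝ)) ≤ s.re ∧ s.re ≤ 3 := by
  have hp1 : ℓ ^ (-(9 / 10) : ℝ) ≤ 1 := Real.rpow_le_one_of_one_le_of_nonpos h1 (by norm_num)
  have hp0 : 0 < ℓ ^ (-(9 / 10) : ℝ) := by positivity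
  have him : |s.im - γ| ≤ 1 / 2 * ℓ ^ (-(9 / 10) : ℝ) := by
    refine le_trans ?_ hs
    have := Complex.abs_im_le_norm (s - (1 + a + γ * I))
    simpa using this
  have hre : |s.re - (1 + a)| ≤ 1 / 2 * ℓ ^ (-(9 / 10) : ℝ) := by
    refine le_trans ?_ hs
    have := Complex.abs_re_le_norm (s - (1 + a + γ * I))
    simpa using this
  have him' : |s.im - γ| ≤ 1 / 2 := by linarith
  have h2 : |γ| - 1 / 2 ≤ |s.im| := by
    have := abs_sub_abs_le_abs_sub γ s.im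
    rw [abs_sub_comm] at this
    linarith
  have h3 : |s.im| ≤ |γ| + 1 / 2 := by
    have := abs_sub_abs_le_abs_sub s.im γ
    linarith
  have h10 : 10 ≤ |s.im| := by linarith
  have h4 : Real.log |s.im| ≤ 2 * ℓ := by
    rw [hℓ, ← Nat.cast_two, ← Real.log_pow]
    refine Real.log_le_log (by linarith) (h3.trans ?_)
    nlinarith
  have h5 : 1 ≤ Real.log |s.im| := by
    rw [Real.le_log_iff_exp_le (by linarith)]
    have := Real.exp_one_lt_d9
    linarith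
  refine ⟨him', h10, h4, ?_, ?_⟩
  · have h6 : (2 * ℓ) ^ (-(9 / 10 : ℝ)) ≤ (Real.log |s.im|) ^ (-(9 / 10 : ℝ)) :=
      Real.rpow_le_rpow_of_nonpos (by linarith) h4 (by norm_num)
    have h7 : 1 / 2 * ℓ ^ (-(9 / 10) : ℝ) ≤ (2 * ℓ) ^ (-(9 / 10 : ℝ)) := by
      rw [Real.mul_rpow (by norm_num) (by linarith)]
      refine mul_le_mul_of_nonneg_right ?_ hp0.le
      rw [show (1 / 2 : ℝ) = 2 ^ (-1 : ℝ) by rw [Real.rpow_neg_one]; norm_num]
      exact Real.rpow_le_rpow_of_exponent_le (by norm_num) (by norm_num)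
    have := (abs_le.1 hre).1
    linarith
  · have := (abs_le.1 hre).2
    linarith

lemma loc (hG : GR) : ∃ C T0 : ℝ, 0 < C ∧ 11 ≤ T0 ∧ ∀ γ ℓ : ℝ, T0 ≤ |γ| → ℓ = Real.log |γ| →
    3 ≤ ℓ ∧ ∃ (k : ℕ) (w : Fin k → ℂ), (k : ℝ) ≤ C * Real.log ℓ ∧
      (∀ i, riemannZeta (w i) = 0 ∧ |(w i).im - γ| ≤ 1 / 2) ∧
      (∀ s : ℂ, ‖s - (1 + ((ℓ ^ (-(19 / 20) : ℝ) : ℝ) : ℂ) + γ * I)‖ ≤
          1 / 4 * ℓ ^ (-(9 / 10) : ℝ) → riemannZeta s ≠ 0 →
        ‖logDeriv riemannZeta s - ∑ i, 1 / (s - w i)‖ ≤ C * ℓ ^ (9 / 10 : ℝ) * Real.log ℓ) ∧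
      (∀ s : ℂ, ‖s - (1 + ((ℓ ^ (-(19 / 20) : ℝ) : ℝ) : ℂ) + γ * I)‖ ≤
          1 / 4 * ℓ ^ (-(9 / 10) : ℝ) → riemannZeta s = 0 → ∃ i, w i = s) := by
  obtain ⟨C0, hC0, hloc⟩ := ZP.local_factor (r := 1 / 2) (r' := 3 / 4) (R := 1) (by norm_num)
    (by norm_num) (by norm_num)
  obtain ⟨C1, hC1, hgr⟩ := hG
  obtain ⟨Cp, hCp, hpole⟩ := MRL.FL.zeta_pole
  set K : ℝ := 2 * C1 + Cp with hK
  refine ⟨4 * C0, max 11 (Real.exp (K + 3)), by positivity, le_max_left _ _, fun γ ℓ hγ hℓ => ?_⟩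
  have hγ11 : 11 ≤ |γ| := (le_max_left _ _).trans hγ
  have hℓK : K + 3 ≤ ℓ := by
    rw [hℓ, Real.le_log_iff_exp_le (by linarith)]
    exact (le_max_right _ _).trans hγ
  have hℓ3 : 3 ≤ ℓ := by linarith [show (0 : ℝ) < K by positivity]
  have hℓ0 : 0 < ℓ := by linarith
  refine ⟨hℓ3, ?_⟩
  set a : ℝ := ℓ ^ (-(19 / 20) : ℝ) with ha
  have ha0 : 0 < a := by positivity
  have ha1 : a ≤ 1 := Real.rpow_le_one_of_one_le_of_nonpos (by linarith) (by norm_num)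
  obtain ⟨ρ, hρ⟩ : ∃ ρ : ℝ, ρ = 1 / 2 * ℓ ^ (-(9 / 10) : ℝ) := ⟨_, rfl⟩
  have hρ0 : 0 < ρ := by rw [hρ]; positivity
  have hρc : (ρ : ℂ) ≠ 0 := by exact_mod_cast hρ0.ne'
  obtain ⟨s0, hs0⟩ : ∃ s0 : ℂ, s0 = 1 + (a : ℂ) + γ * I := ⟨_, rfl⟩
  rw [← hs0]
  have hpt : ∀ z : ℂ, ‖z‖ ≤ 1 → ‖(s0 + ρ * z) - (1 + a + γ * I)‖ ≤ 1 / 2 * ℓ ^ (-(9 / 10) : ℝ) := by
    intro z hz
    rw [← hs0, add_sub_cancel_left, norm_mul, Complex.norm_real, Real.norm_eq_abs,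
      abs_of_pos hρ0, ← hρ]
    nlinarith
  have hin : ∀ z : ℂ, ‖z‖ ≤ 1 → s0 + ρ * z ≠ 1 := by
    intro z hz h
    have h1 := (pt hγ11 hℓ (by linarith) ha0 ha1 (hpt z hz)).2.1
    rw [h] at h1
    simp at h1
    linarith
  have hbd : ∀ z : ℂ, ‖z‖ ≤ 1 → ‖riemannZeta (s0 + ρ * z)‖ ≤ ℓ ^ 2 := by
    intro z hz
    obtain ⟨-, h1, h2, h3, h4⟩ := pt hγ11 hℓ (by linarith) ha0 ha1 (hpt z hz)
    refine (hgr _ h1 h3 h4).trans ?_
    calc C1 * Real.log |(s0 + ρ * z).im| ≤ C1 * (2 * ℓ) := by gcongr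
      _ = (2 * C1) * ℓ := by ring
      _ ≤ ℓ * ℓ := by gcongr; linarith
      _ = ℓ ^ 2 := by ring
  have hlow : 1 / ℓ ^ 2 ≤ ‖riemannZeta s0‖ := by
    have hP : ‖riemannZeta (1 + a)‖ ≤ K * ℓ := by
      refine (hpole a ha0 ha1).trans ?_
      have h1 : 1 / a = ℓ ^ (19 / 20 : ℝ) := by
        rw [ha, Real.rpow_neg hℓ0.le, one_div, inv_inv]
      have h2 : ℓ ^ (19 / 20 : ℝ) ≤ ℓ := by
        calc ℓ ^ (19 / 20 : ℝ) ≤ ℓ ^ (1 : ℝ) :=
              Real.rpow_le_rpow_of_exponent_le (by linarith) (by norm_num)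
          _ = ℓ := Real.rpow_one _
      calc Cp / a = Cp * (1 / a) := by ring
        _ ≤ Cp * ℓ := by rw [h1]; gcongr
        _ ≤ K * ℓ := by gcongr; linarith
    have hZ : ‖riemannZeta (1 + a + ((2 * γ : ℝ) : ℂ) * I)‖ ≤ K * ℓ := by
      have e1 : (1 + a + ((2 * γ : ℝ) : ℂ) * I).im = 2 * γ := by simp
      have e2 : (1 + a + ((2 * γ : ℝ) : ℂ) * I).re = 1 + a := by simp
      have h1 : Real.log |2 * γ| ≤ 2 * ℓ := by
        have h2 : Real.log |2 * γ| ≤ Real.log (|γ| ^ 2) := by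
          rw [abs_mul, abs_of_pos (by norm_num : (0 : ℝ) < 2)]
          refine Real.log_le_log (by linarith) ?_
          nlinarith
        rw [Real.log_pow, ← hℓ] at h2
        exact_mod_cast h2
      have h2 : 0 ≤ (Real.log |2 * γ|) ^ (-(9 / 10 : ℝ)) := by
        refine Real.rpow_nonneg (Real.log_nonneg ?_) _
        rw [abs_mul]
        norm_num
        linarith
      refine (hgr _ ?_ ?_ ?_).trans ?_
      · rw [e1, abs_mul]
        norm_num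
        linarith
      · rw [e1, e2]
        linarith
      · rw [e2]
        linarith
      · rw [e1]
        calc C1 * Real.log |2 * γ| ≤ C1 * (2 * ℓ) := by gcongr
          _ = (2 * C1) * ℓ := by ring
          _ ≤ K * ℓ := by gcongr; linarith
    have h1 := MRL.FL.inv_zeta_le ha0 γ hP hZ
    rw [← hs0] at h1
    have hKℓ : 0 < K * ℓ := by positivity
    have h2 : (K * ℓ) ^ (3 / 4 : ℝ) * ‖riemannZeta s0‖ * (K * ℓ) ^ (1 / 4 : ℝ) =
        K * ℓ * ‖riemannZeta s0‖ := by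
      have : (K * ℓ) ^ (3 / 4 : ℝ) * (K * ℓ) ^ (1 / 4 : ℝ) = K * ℓ := by
        rw [← Real.rpow_add hKℓ]
        norm_num
      calc _ = ((K * ℓ) ^ (3 / 4 : ℝ) * (K * ℓ) ^ (1 / 4 : ℝ)) * ‖riemannZeta s0‖ := by ring
        _ = _ := by rw [this]
    rw [h2] at h1
    rw [div_le_iff₀ (by positivity)]
    calc 1 ≤ K * ℓ * ‖riemannZeta s0‖ := h1
      _ ≤ ℓ * ℓ * ‖riemannZeta s0‖ := by gcongr; linarith
      _ = ‖riemannZeta s0‖ * ℓ ^ 2 := by ring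
  obtain ⟨f, hf⟩ : ∃ f : ℂ → ℂ, f = fun z => riemannZeta (s0 + ρ * z) := ⟨_, rfl⟩
  have hfd : ∀ z : ℂ, ‖z‖ ≤ 1 → DifferentiableAt ℂ f z := by
    intro z hz
    rw [hf]
    exact DifferentiableAt.comp (f := fun z : ℂ => s0 + ρ * z) z
      (differentiableAt_riemannZeta (hin z hz)) (by fun_prop)
  have hfa : AnalyticOnNhd ℂ f (closedBall 0 1) := by
    have hopen : IsOpen {z : ℂ | s0 + ρ * z ≠ 1} := by
      have : Continuous fun z : ℂ => s0 + ρ * z := by fun_prop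
      exact isOpen_ne.preimage this
    have hd : DifferentiableOn ℂ f {z : ℂ | s0 + ρ * z ≠ 1} := by
      intro z hz
      rw [hf]
      exact (DifferentiableAt.comp (f := fun z : ℂ => s0 + ρ * z) z
        (differentiableAt_riemannZeta hz) (by fun_prop)).differentiableWithinAt
    refine (hd.analyticOnNhd hopen).mono fun z hz => ?_
    exact hin z (by simpa using hz)
  have hM : Real.exp 1 ≤ ℓ ^ 2 := by
    have := Real.exp_one_lt_d9
    nlinarith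
  obtain ⟨k, z, g, hk, hz, hg, hfac, hg0, hgl, -⟩ := hloc f 0 (ℓ ^ 2) hM hfa
    (fun z hz => by rw [hf]; exact hbd z (by simpa using hz))
    (by rw [hf]; simpa using hlow)
  have hlogM : Real.log (ℓ ^ 2) = 2 * Real.log ℓ := by
    rw [Real.log_pow]
    norm_num
  rw [hlogM] at hk hgl
  have hlogℓ : 0 < Real.log ℓ := Real.log_pos (by linarith)
  have hzz : ∀ i, ‖z i‖ ≤ 3 / 4 := fun i => by simpa using (hz i).1
  refine ⟨k, fun i => s0 + ρ * z i, hk.trans (by nlinarith), fun i => ⟨?_, ?_⟩, fun s hs hs1 => ?_,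
    fun s hs hs1 => ?_⟩
  · have := (hz i).2
    rw [hf] at this
    exact this
  · exact (pt hγ11 hℓ (by linarith) ha0 ha1 (hpt (z i) ((hzz i).trans (by norm_num)))).1
  · obtain ⟨y, hy⟩ : ∃ y : ℂ, s = s0 + ρ * y := ⟨(s - s0) / ρ, by field_simp; ring⟩
    have hy2 : ‖y‖ ≤ 1 / 2 := by
      rw [hy, add_sub_cancel_left, norm_mul, Complex.norm_real, Real.norm_eq_abs,
        abs_of_pos hρ0] at hs
      have : ρ * ‖y‖ ≤ ρ * (1 / 2) := by rw [hρ] at hs ⊢; linarith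
      exact le_of_mul_le_mul_left this hρ0
    have hfy : f y ≠ 0 := by
      rw [hf]
      simpa [hy] using hs1
    have hyball : closedBall (0 : ℂ) 1 ∈ 𝓝 y := by
      refine mem_of_superset (isOpen_ball.mem_nhds (?_ : y ∈ ball (0 : ℂ) 1)) ball_subset_closedBall
      simpa using lt_of_le_of_lt hy2 (by norm_num)
    have hyb : y ∈ closedBall (0 : ℂ) 1 := mem_of_mem_nhds hyball
    have hfe : f =ᶠ[𝓝 y] fun x => (∏ i, (x - z i)) * g x := by
      filter_upwards [hyball] with x hx using hfac x hx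
    have hprod : (∏ i, (y - z i)) * g y ≠ 0 := by rw [← hfac y hyb]; exact hfy
    have hpr1 : (∏ i, (y - z i)) ≠ 0 := left_ne_zero_of_mul hprod
    have hgy : g y ≠ 0 := right_ne_zero_of_mul hprod
    have hyz : ∀ i, y - z i ≠ 0 := fun i => (Finset.prod_ne_zero_iff.1 hpr1) i (Finset.mem_univ i)
    have hl1 : logDeriv f y = ∑ i, 1 / (y - z i) + logDeriv g y := by
      rw [(logDeriv_congr_nhds hfe).eq_of_nhds,
        logDeriv_mul (f := fun x => ∏ i, (x - z i)) y hpr1 hgy (by fun_prop)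
          (hg y hyb).differentiableAt]
      congr 1
      have := logDeriv_prod (s := Finset.univ) (f := fun (i : Fin k) (x : ℂ) => x - z i) (x := y)
        (fun i _ => hyz i) (fun i _ => by fun_prop)
      rw [this]
      refine Finset.sum_congr rfl fun i _ => ?_
      rw [logDeriv_apply, deriv_sub_const, deriv_id'']
    have hl2 : logDeriv f y = logDeriv riemannZeta s * ρ := by
      have h1 : f = riemannZeta ∘ (fun x : ℂ => s0 + ρ * x) := by rw [hf]; rfl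
      rw [h1, logDeriv_comp (f := riemannZeta) (g := fun x : ℂ => s0 + ρ * x) (x := y)
        (differentiableAt_riemannZeta (hin y (by simpa using hyb))) (by fun_prop), ← hy]
      congr 1
      rw [deriv_const_add, deriv_const_mul_field, deriv_id'']
      simp
    have hl3 : logDeriv riemannZeta s - ∑ i, 1 / (s - (s0 + ρ * z i)) = logDeriv g y / ρ := by
      have h1 : logDeriv riemannZeta s = (∑ i, 1 / (y - z i) + logDeriv g y) / ρ := by
        rw [← hl1, hl2, mul_div_assoc, div_self hρc, mul_one]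
      rw [h1, add_div, Finset.sum_div]
      have h2 : ∀ i, 1 / (s - (s0 + ρ * z i)) = 1 / (y - z i) / ρ := by
        intro i
        rw [hy, show s0 + ρ * y - (s0 + ρ * z i) = (y - z i) * ρ by ring, div_div]
      rw [Finset.sum_congr rfl fun i _ => h2 i]
      ring
    rw [hl3, norm_div, Complex.norm_real, Real.norm_eq_abs, abs_of_pos hρ0]
    rw [div_le_iff₀ hρ0]
    have h1 := hgl y (by simpa using hy2)
    refine h1.trans (le_of_eq ?_)
    rw [hρ]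
    have h2 : ℓ ^ (9 / 10 : ℝ) * ℓ ^ (-(9 / 10) : ℝ) = 1 := by
      rw [← Real.rpow_add hℓ0]
      norm_num
    calc C0 * (2 * Real.log ℓ) = 4 * C0 * Real.log ℓ * (1 / 2) * 1 := by ring
      _ = 4 * C0 * Real.log ℓ * (1 / 2) * (ℓ ^ (9 / 10 : ℝ) * ℓ ^ (-(9 / 10) : ℝ)) := by rw [h2]
      _ = _ := by ring
  · obtain ⟨y, hy⟩ : ∃ y : ℂ, s = s0 + ρ * y := ⟨(s - s0) / ρ, by field_simp; ring⟩
    have hy2 : ‖y‖ ≤ 1 / 2 := by
      rw [hy, add_sub_cancel_left, norm_mul, Complex.norm_real, Real.norm_eq_abs,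
        abs_of_pos hρ0] at hs
      have : ρ * ‖y‖ ≤ ρ * (1 / 2) := by rw [hρ] at hs ⊢; linarith
      exact le_of_mul_le_mul_left this hρ0
    have hfy : f y = 0 := by
      rw [hf]
      simpa [hy] using hs1
    have h1 := hfac y (by simpa using hy2.trans (by norm_num : (1 / 2 : ℝ) ≤ 1))
    rw [hfy] at h1
    have h2 := hg0 y (by simpa using hy2.trans (by norm_num : (1 / 2 : ℝ) ≤ 3 / 4))
    have h3 : (∏ i, (y - z i)) = 0 := by
      rcases mul_eq_zero.1 h1.symm with h | h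
      · exact h
      · exact absurd h h2
    obtain ⟨i, -, hi⟩ := Finset.prod_eq_zero_iff.1 h3
    refine ⟨i, ?_⟩
    rw [hy, sub_eq_zero.1 hi]

/-! ### the zero-free region -/

lemma re_lt_one {w : ℂ} (h : riemannZeta w = 0) : w.re < 1 := by
  by_contra h1
  exact riemannZeta_ne_zero_of_one_le_re (not_lt.1 h1) h

lemma inv_re_nonneg {z : ℂ} (hz : 0 ≤ z.re) : 0 ≤ (1 / z).re := by
  rw [one_div, Complex.inv_re]
  exact div_nonneg hz (Complex.normSq_nonneg z)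

/-- thresholds. -/
lemma thr (A B : ℝ) (hB : 0 < B) : ∃ L : ℝ, 3 ≤ L ∧ ∀ ℓ : ℝ, L ≤ ℓ →
    A ≤ ℓ ^ (1 / 20 : ℝ) ∧ Real.log ℓ ≤ B * ℓ ^ (1 / 20 : ℝ) := by
  have h1 : ∀ᶠ ℓ : ℝ in atTop, A ≤ ℓ ^ (1 / 20 : ℝ) :=
    (tendsto_rpow_atTop (by norm_num : (0 : ℝ) < 1 / 20)).eventually_ge_atTop A
  have h2 := (isLittleO_log_rpow_atTop (by norm_num : (0 : ℝ) < 1 / 20)).bound hB
  obtain ⟨L, hL⟩ := (h1.and (h2.and (eventually_ge_atTop 3))).exists_forall_of_atTop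
  refine ⟨max L 3, le_max_right _ _, fun ℓ hℓ => ?_⟩
  obtain ⟨h3, h4, h5⟩ := hL ℓ ((le_max_left _ _).trans hℓ)
  refine ⟨h3, (le_abs_self _).trans (h4.trans (le_of_eq ?_))⟩
  rw [Real.norm_eq_abs, abs_of_nonneg (Real.rpow_nonneg (by linarith) _)]

lemma zfr (hG : GR) : ∃ T1 : ℝ, 11 ≤ T1 ∧ ∀ γ ℓ β : ℝ, T1 ≤ |γ| → ℓ = Real.log |γ| →
    1 - 1 / 10 * ℓ ^ (-(19 / 20) : ℝ) ≤ β → riemannZeta (β + γ * I) ≠ 0 := by
  obtain ⟨C, T0, hC, hT0, hloc⟩ := loc hG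
  obtain ⟨C1, hC1, hpole⟩ := pole
  obtain ⟨L, hL3, hL⟩ := thr (12 * C1 + 20) (1 / (80 * C)) (by positivity)
  refine ⟨max T0 (Real.exp L), hT0.trans (le_max_left _ _), fun γ ℓ β hγ hℓ hβ h0 => ?_⟩
  have hγ0 : T0 ≤ |γ| := (le_max_left _ _).trans hγ
  have hγ11 : 11 ≤ |γ| := hT0.trans hγ0
  have hLℓ : L ≤ ℓ := by
    rw [hℓ, Real.le_log_iff_exp_le (by linarith)]
    exact (le_max_right _ _).trans hγ
  obtain ⟨hu1, hu2⟩ := hL ℓ hLℓ
  have hℓ3 : 3 ≤ ℓ := hL3.trans hLℓ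
  have hℓ0 : 0 < ℓ := by linarith
  obtain ⟨u, hu⟩ : ∃ u : ℝ, u = ℓ ^ (1 / 20 : ℝ) := ⟨_, rfl⟩
  obtain ⟨v, hv⟩ : ∃ v : ℝ, v = ℓ ^ (9 / 10 : ℝ) := ⟨_, rfl⟩
  rw [← hu] at hu1 hu2
  have hu0 : 0 < u := by rw [hu]; positivity
  have hv0 : 0 < v := by rw [hv]; positivity
  have hv1 : 1 ≤ v := by rw [hv]; exact Real.one_le_rpow (by linarith) (by norm_num)
  have huv : ℓ ^ (19 / 20 : ℝ) = u * v := by
    rw [hu, hv, ← Real.rpow_add hℓ0]
    norm_num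
  have hvi : ℓ ^ (-(9 / 10) : ℝ) = v⁻¹ := by rw [Real.rpow_neg hℓ0.le, hv]
  obtain ⟨a, ha⟩ : ∃ a : ℝ, a = ℓ ^ (-(19 / 20) : ℝ) := ⟨_, rfl⟩
  have hai : a = (u * v)⁻¹ := by rw [ha, Real.rpow_neg hℓ0.le, huv]
  have ha0 : 0 < a := by rw [hai]; positivity
  have ha1 : a ≤ 1 := by
    rw [ha]; exact Real.rpow_le_one_of_one_le_of_nonpos (by linarith) (by norm_num)
  have ha8 : 2 * a ≤ 1 / 8 * ℓ ^ (-(9 / 10) : ℝ) := by
    rw [hvi, hai, mul_inv]
    have h16 : 16 ≤ u := by linarith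
    have : u⁻¹ ≤ 1 / 16 := by
      rw [inv_le_comm₀ hu0 (by norm_num)]
      norm_num
      exact h16
    have hvi0 : 0 < v⁻¹ := by positivity
    nlinarith
  have hlogℓ : 0 < Real.log ℓ := Real.log_pos (by linarith)
  rw [← ha] at hβ
  have hβ1 : β < 1 := by simpa using re_lt_one h0
  -- at height γ
  obtain ⟨-, k, w, hk, hw, hld, hzero⟩ := hloc γ ℓ hγ0 hℓ
  rw [← ha] at hld hzero
  have hd : ‖((β : ℂ) + γ * I) - (1 + a + γ * I)‖ ≤ 1 / 4 * ℓ ^ (-(9 / 10) : ℝ) := by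
    have e : ((β : ℂ) + γ * I) - (1 + a + γ * I) = ((β - 1 - a : ℝ) : ℂ) := by push_cast; ring
    rw [e, Complex.norm_real, Real.norm_eq_abs, abs_of_nonpos (by linarith)]
    have : 0 < ℓ ^ (-(9 / 10) : ℝ) := by positivity
    linarith
  obtain ⟨i0, hi0⟩ := hzero _ hd h0
  have hne1 : riemannZeta (1 + a + γ * I) ≠ 0 :=
    riemannZeta_ne_zero_of_one_le_re (by simp [ha0.le])
  have hb1 := hld (1 + a + γ * I) (by
    rw [sub_self, norm_zero]
    positivity) hne1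
  have hR1 : (-logDeriv riemannZeta (1 + a + γ * I)).re ≤
      -(1 / (a + 1 - β)) + C * ℓ ^ (9 / 10 : ℝ) * Real.log ℓ := by
    have h1 := Complex.abs_re_le_norm
      (logDeriv riemannZeta (1 + a + γ * I) - ∑ i, 1 / (1 + a + γ * I - w i))
    rw [Complex.sub_re, Complex.re_sum] at h1
    have h2 : 1 / (a + 1 - β) ≤ ∑ i, (1 / (1 + a + γ * I - w i)).re := by
      have h3 : (1 / (1 + a + γ * I - w i0)).re = 1 / (a + 1 - β) := by
        rw [hi0, show (1 + a + γ * I - (β + γ * I) : ℂ) = ((a + 1 - β : ℝ) : ℂ) by push_cast; ring]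
        rw [← Complex.ofReal_one, ← Complex.ofReal_div, Complex.ofReal_re]
      rw [← h3]
      exact Finset.single_le_sum (f := fun i => (1 / (1 + a + γ * I - w i)).re)
        (fun i _ => inv_re_nonneg (by
          have := re_lt_one (hw i).1
          simp
          linarith)) (Finset.mem_univ i0)
    have h4 := (abs_le.1 (h1.trans hb1)).1
    rw [Complex.neg_re]
    linarith
  -- at height 2γ
  have h2γ : |2 * γ| = 2 * |γ| := by rw [abs_mul, abs_of_pos (by norm_num : (0 : ℝ) < 2)]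
  obtain ⟨ℓ', hℓ'⟩ : ∃ ℓ' : ℝ, ℓ' = Real.log |2 * γ| := ⟨_, rfl⟩
  have hℓℓ : ℓ ≤ ℓ' := by
    rw [hℓ, hℓ', h2γ]
    exact Real.log_le_log (by linarith) (by linarith)
  have hℓ2 : ℓ' ≤ 2 * ℓ := by
    have h2 : ℓ' ≤ Real.log (|γ| ^ 2) := by
      rw [hℓ', h2γ]
      refine Real.log_le_log (by linarith) ?_
      nlinarith
    rw [Real.log_pow, ← hℓ] at h2
    exact_mod_cast h2
  obtain ⟨-, k', w', hk', hw', hld', -⟩ := hloc (2 * γ) ℓ' (by rw [h2γ]; linarith) hℓ'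
  obtain ⟨a', ha'⟩ : ∃ a' : ℝ, a' = ℓ' ^ (-(19 / 20) : ℝ) := ⟨_, rfl⟩
  rw [← ha'] at hld'
  have ha'0 : 0 < a' := by rw [ha']; exact Real.rpow_pos_of_pos (by linarith) _
  have ha'a : a' ≤ a := by
    rw [ha', ha]
    exact Real.rpow_le_rpow_of_nonpos hℓ0 hℓℓ (by norm_num)
  have e2 : (((2 * γ : ℝ) : ℂ)) = 2 * γ := by push_cast; ring
  have hne2 : riemannZeta (1 + a + 2 * γ * I) ≠ 0 :=
    riemannZeta_ne_zero_of_one_le_re (by simp [ha0.le])
  have hb2 := hld' (1 + a + 2 * γ * I) (by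
    have e : (1 + a + 2 * γ * I : ℂ) - (1 + a' + ((2 * γ : ℝ) : ℂ) * I) = ((a - a' : ℝ) : ℂ) := by
      push_cast; ring
    rw [e, Complex.norm_real, Real.norm_eq_abs, abs_of_nonneg (by linarith)]
    have h3 : 1 / 2 * ℓ ^ (-(9 / 10) : ℝ) ≤ ℓ' ^ (-(9 / 10) : ℝ) := by
      have h4 : (2 * ℓ) ^ (-(9 / 10) : ℝ) ≤ ℓ' ^ (-(9 / 10) : ℝ) :=
        Real.rpow_le_rpow_of_nonpos (by linarith) hℓ2 (by norm_num)
      refine le_trans ?_ h4
      rw [Real.mul_rpow (by norm_num) (by linarith)]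
      refine mul_le_mul_of_nonneg_right ?_ (Real.rpow_nonneg hℓ0.le _)
      rw [show (1 / 2 : ℝ) = 2 ^ (-1 : ℝ) by rw [Real.rpow_neg_one]; norm_num]
      exact Real.rpow_le_rpow_of_exponent_le (by norm_num) (by norm_num)
    linarith) hne2
  have hR2 : (-logDeriv riemannZeta (1 + a + 2 * γ * I)).re ≤
      4 * (C * ℓ ^ (9 / 10 : ℝ) * Real.log ℓ) := by
    have h1 := Complex.abs_re_le_norm
      (logDeriv riemannZeta (1 + a + 2 * γ * I) - ∑ i, 1 / (1 + a + 2 * γ * I - w' i))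
    rw [Complex.sub_re, Complex.re_sum] at h1
    have h2 : 0 ≤ ∑ i, (1 / (1 + a + 2 * γ * I - w' i)).re :=
      Finset.sum_nonneg fun i _ => inv_re_nonneg (by
          have := re_lt_one (hw' i).1
          simp
          linarith)
    have h4 := (abs_le.1 (h1.trans hb2)).1
    have h5 : C * ℓ' ^ (9 / 10 : ℝ) * Real.log ℓ' ≤ 4 * (C * ℓ ^ (9 / 10 : ℝ) * Real.log ℓ) := by
      have h6 : ℓ' ^ (9 / 10 : ℝ) ≤ 2 * ℓ ^ (9 / 10 : ℝ) := by
        calc ℓ' ^ (9 / 10 : ℝ) ≤ (2 * ℓ) ^ (9 / 10 : ℝ) :=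
              Real.rpow_le_rpow (by linarith) hℓ2 (by norm_num)
          _ = 2 ^ (9 / 10 : ℝ) * ℓ ^ (9 / 10 : ℝ) := Real.mul_rpow (by norm_num) hℓ0.le
          _ ≤ 2 ^ (1 : ℝ) * ℓ ^ (9 / 10 : ℝ) := by
              gcongr
              · norm_num
              · norm_num
          _ = 2 * ℓ ^ (9 / 10 : ℝ) := by rw [Real.rpow_one]
      have h7 : Real.log ℓ' ≤ 2 * Real.log ℓ := by
        have h8 : Real.log ℓ' ≤ Real.log (ℓ ^ 2) :=
          Real.log_le_log (by linarith) (by nlinarith)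
        rw [Real.log_pow] at h8
        exact_mod_cast h8
      have h9 : 0 ≤ Real.log ℓ' := Real.log_nonneg (by linarith)
      calc C * ℓ' ^ (9 / 10 : ℝ) * Real.log ℓ' ≤ C * (2 * ℓ ^ (9 / 10 : ℝ)) * (2 * Real.log ℓ) := by
            gcongr
        _ = _ := by ring
    rw [Complex.neg_re]
    linarith
  have hR0 := hpole a ha0 (by linarith)
  have hc := comb ha0 γ
  have h1a : 1 / a = u * v := by rw [hai, one_div, inv_inv]
  have hdd : 10 / 11 * (u * v) ≤ 1 / (a + 1 - β) := by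
    rw [← h1a, le_div_iff₀ (by linarith)]
    have h3 : a + 1 - β ≤ 11 / 10 * a := by linarith
    calc 10 / 11 * (1 / a) * (a + 1 - β) ≤ 10 / 11 * (1 / a) * (11 / 10 * a) := by gcongr
      _ = 1 := by field_simp
  have hE : C * ℓ ^ (9 / 10 : ℝ) * Real.log ℓ ≤ 1 / 80 * (u * v) := by
    rw [← hv]
    calc C * v * Real.log ℓ ≤ C * v * (1 / (80 * C) * u) := by gcongr
      _ = 1 / 80 * (u * v) := by field_simp
  have hC1u : 12 * C1 ≤ u * v := by nlinarith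
  have huv0 : 0 < u * v := by positivity
  rw [h1a] at hR0
  linarith

lemma big (hG : GR) : ∃ C T : ℝ, 0 < C ∧ 11 ≤ T ∧ ∀ (s : ℂ) (ℓ : ℝ), T ≤ |s.im| →
    ℓ = Real.log |s.im| → 1 - 1 / 40 * ℓ ^ (-(19 / 20) : ℝ) ≤ s.re → s.re ≤ 3 →
    riemannZeta s ≠ 0 ∧ ‖logDeriv riemannZeta s‖ ≤ C * ℓ ^ 2 := by
  obtain ⟨C, T0, hC, hT0, hloc⟩ := loc hG
  obtain ⟨T1, hT1, hzf⟩ := zfr hG
  obtain ⟨C1, hC1, hpole⟩ := pole
  obtain ⟨L, hL3, hL⟩ := thr 20 1 (by norm_num)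
  refine ⟨41 * C + C1 + 1, max (max T0 (Real.exp L)) (T1 + 1), by positivity,
    hT0.trans ((le_max_left _ _).trans (le_max_left _ _)), fun s ℓ hγ hℓ hs1 hs3 => ?_⟩
  obtain ⟨γ, hγe⟩ : ∃ γ : ℝ, γ = s.im := ⟨_, rfl⟩
  obtain ⟨σ, hσe⟩ : ∃ σ : ℝ, σ = s.re := ⟨_, rfl⟩
  rw [← hγe] at hγ hℓ
  rw [← hσe] at hs1 hs3
  have hse : s = (σ : ℂ) + γ * I := by rw [hγe, hσe, Complex.re_add_im]
  have hγ0 : T0 ≤ |γ| := ((le_max_left _ _).trans (le_max_left _ _)).trans hγ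
  have hγ1 : T1 + 1 ≤ |γ| := (le_max_right _ _).trans hγ
  have hγ11 : 11 ≤ |γ| := hT0.trans hγ0
  have hLℓ : L ≤ ℓ := by
    rw [hℓ, Real.le_log_iff_exp_le (by linarith)]
    exact ((le_max_right _ _).trans (le_max_left _ _)).trans hγ
  obtain ⟨hu1, -⟩ := hL ℓ hLℓ
  have hℓ3 : 3 ≤ ℓ := hL3.trans hLℓ
  have hℓ0 : 0 < ℓ := by linarith
  obtain ⟨u, hu⟩ : ∃ u : ℝ, u = ℓ ^ (1 / 20 : ℝ) := ⟨_, rfl⟩
  obtain ⟨v, hv⟩ : ∃ v : ℝ, v = ℓ ^ (9 / 10 : ℝ) := ⟨_, rfl⟩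
  rw [← hu] at hu1
  have hu0 : 0 < u := by rw [hu]; positivity
  have hv0 : 0 < v := by rw [hv]; positivity
  have huv : ℓ ^ (19 / 20 : ℝ) = u * v := by
    rw [hu, hv, ← Real.rpow_add hℓ0]
    norm_num
  have hvi : ℓ ^ (-(9 / 10) : ℝ) = v⁻¹ := by rw [Real.rpow_neg hℓ0.le, hv]
  obtain ⟨a, ha⟩ : ∃ a : ℝ, a = ℓ ^ (-(19 / 20) : ℝ) := ⟨_, rfl⟩
  have hai : a = (u * v)⁻¹ := by rw [ha, Real.rpow_neg hℓ0.le, huv]
  have ha0 : 0 < a := by rw [hai]; positivity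
  have ha1 : a ≤ 1 := by
    rw [ha]; exact Real.rpow_le_one_of_one_le_of_nonpos (by linarith) (by norm_num)
  have ha8 : 2 * a ≤ 1 / 8 * ℓ ^ (-(9 / 10) : ℝ) := by
    rw [hvi, hai, mul_inv]
    have h16 : 16 ≤ u := by linarith
    have : u⁻¹ ≤ 1 / 16 := by
      rw [inv_le_comm₀ hu0 (by norm_num)]
      norm_num
      exact h16
    have hvi0 : 0 < v⁻¹ := by positivity
    nlinarith
  have hlogℓ : 0 < Real.log ℓ := Real.log_pos (by linarith)
  have hlogℓ1 : Real.log ℓ ≤ ℓ := (Real.log_le_sub_one_of_pos hℓ0).trans (by linarith)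
  have h1a : 1 / a = ℓ ^ (19 / 20 : ℝ) := by rw [hai, one_div, inv_inv, huv]
  have hℓp : ℓ ^ (19 / 20 : ℝ) ≤ ℓ := by
    calc ℓ ^ (19 / 20 : ℝ) ≤ ℓ ^ (1 : ℝ) :=
          Real.rpow_le_rpow_of_exponent_le (by linarith) (by norm_num)
      _ = ℓ := Real.rpow_one _
  have hvp : v ≤ ℓ := by
    rw [hv]
    calc ℓ ^ (9 / 10 : ℝ) ≤ ℓ ^ (1 : ℝ) :=
          Real.rpow_le_rpow_of_exponent_le (by linarith) (by norm_num)
      _ = ℓ := Real.rpow_one _
  rw [← ha] at hs1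
  have hne : riemannZeta s ≠ 0 := by
    rw [hse]
    exact hzf γ ℓ σ (by linarith) hℓ (by rw [← ha]; linarith)
  refine ⟨hne, ?_⟩
  rcases le_or_gt σ (1 + a) with hσ | hσ
  · obtain ⟨-, k, w, hk, hw, hld, -⟩ := hloc γ ℓ hγ0 hℓ
    rw [← ha] at hld
    have hb := hld s (by
      have e : s - (1 + a + γ * I) = ((σ - 1 - a : ℝ) : ℂ) := by rw [hse]; push_cast; ring
      rw [e, Complex.norm_real, Real.norm_eq_abs, abs_of_nonpos (by linarith)]
      have : 0 < ℓ ^ (-(9 / 10) : ℝ) := by positivity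
      linarith) hne
    have hw1 : ∀ i, ‖1 / (s - w i)‖ ≤ 40 * ℓ ^ (19 / 20 : ℝ) := by
      intro i
      obtain ⟨h1, h2⟩ := hw i
      have h3 : |γ| - 1 / 2 ≤ |(w i).im| := by
        have := abs_sub_abs_le_abs_sub γ (w i).im
        rw [abs_sub_comm] at this
        linarith
      have h4 : |(w i).im| ≤ |γ| + 1 / 2 := by
        have := abs_sub_abs_le_abs_sub (w i).im γ
        linarith
      obtain ⟨ℓ', hℓ'⟩ : ∃ ℓ' : ℝ, ℓ' = Real.log |(w i).im| := ⟨_, rfl⟩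
      have hℓ2 : ℓ' ≤ 2 * ℓ := by
        have h2 : ℓ' ≤ Real.log (|γ| ^ 2) := by
          rw [hℓ']
          refine Real.log_le_log (by linarith) ?_
          nlinarith
        rw [Real.log_pow, ← hℓ] at h2
        exact_mod_cast h2
      have hℓ'1 : 0 < ℓ' := by
        rw [hℓ']
        exact Real.log_pos (by linarith)
      have h5 : 1 / 2 * a ≤ ℓ' ^ (-(19 / 20) : ℝ) := by
        have h4 : (2 * ℓ) ^ (-(19 / 20) : ℝ) ≤ ℓ' ^ (-(19 / 20) : ℝ) :=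
          Real.rpow_le_rpow_of_nonpos hℓ'1 hℓ2 (by norm_num)
        refine le_trans ?_ h4
        rw [Real.mul_rpow (by norm_num) (by linarith), ha]
        refine mul_le_mul_of_nonneg_right ?_ (Real.rpow_nonneg hℓ0.le _)
        rw [show (1 / 2 : ℝ) = 2 ^ (-1 : ℝ) by rw [Real.rpow_neg_one]; norm_num]
        exact Real.rpow_le_rpow_of_exponent_le (by norm_num) (by norm_num)
      have h6 : (w i).re < 1 - 1 / 10 * ℓ' ^ (-(19 / 20) : ℝ) := by
        by_contra h7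
        refine hzf (w i).im ℓ' (w i).re (by linarith) hℓ' (not_lt.1 h7) ?_
        rw [Complex.re_add_im]
        exact h1
      have h8 : a / 40 ≤ ‖s - w i‖ := by
        refine le_trans ?_ (Complex.re_le_norm _)
        rw [Complex.sub_re, ← hσe]
        linarith
      rw [norm_div, norm_one]
      calc 1 / ‖s - w i‖ ≤ 1 / (a / 40) := one_div_le_one_div_of_le (by positivity) h8
        _ = 40 * (1 / a) := by field_simp
        _ = _ := by rw [h1a]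
    have hsum : ‖∑ i, 1 / (s - w i)‖ ≤ k * (40 * ℓ ^ (19 / 20 : ℝ)) := by
      refine (norm_sum_le _ _).trans ?_
      refine (Finset.sum_le_sum fun i _ => hw1 i).trans ?_
      simp
    have h1 : ‖logDeriv riemannZeta s‖ ≤ k * (40 * ℓ ^ (19 / 20 : ℝ)) +
        C * ℓ ^ (9 / 10 : ℝ) * Real.log ℓ := by
      calc ‖logDeriv riemannZeta s‖ = ‖∑ i, 1 / (s - w i) +
            (logDeriv riemannZeta s - ∑ i, 1 / (s - w i))‖ := by congr 1; ring
        _ ≤ _ := (norm_add_le _ _).trans (add_le_add hsum hb)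
    refine h1.trans ?_
    rw [← hv]
    have h2 : (k : ℝ) * (40 * ℓ ^ (19 / 20 : ℝ)) ≤ C * ℓ * (40 * ℓ) := by
      have : (k : ℝ) ≤ C * ℓ := hk.trans (by gcongr)
      gcongr
    have h3 : C * v * Real.log ℓ ≤ C * ℓ * ℓ := by gcongr
    calc (k : ℝ) * (40 * ℓ ^ (19 / 20 : ℝ)) + C * v * Real.log ℓ ≤ C * ℓ * (40 * ℓ) + C * ℓ * ℓ :=
          add_le_add h2 h3
      _ = 41 * C * ℓ ^ 2 := by ring
      _ ≤ (41 * C + C1 + 1) * ℓ ^ 2 := by gcongr; linarith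
  · have h0 : 0 < σ - 1 := by linarith
    have h1 := norm_le h0 γ
    have e1 : (1 + ((σ - 1 : ℝ) : ℂ) + γ * I) = s := by rw [hse]; push_cast; ring
    rw [e1] at h1
    have h2 := hpole (σ - 1) h0 (by linarith)
    have h3 : 1 / (σ - 1) ≤ ℓ := by
      calc 1 / (σ - 1) ≤ 1 / a := one_div_le_one_div_of_le ha0 (by linarith)
        _ = ℓ ^ (19 / 20 : ℝ) := h1a
        _ ≤ ℓ := hℓp
    have h4 : ℓ ≤ ℓ ^ 2 := by nlinarith
    have h5 : 1 ≤ ℓ ^ 2 := by nlinarith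
    calc ‖logDeriv riemannZeta s‖ ≤ 1 / (σ - 1) + C1 := h1.trans h2
      _ ≤ ℓ ^ 2 + C1 * ℓ ^ 2 := by nlinarith
      _ = (0 + C1 + 1) * ℓ ^ 2 := by ring
      _ ≤ (41 * C + C1 + 1) * ℓ ^ 2 := by gcongr; positivity

/-- bounded heights. -/
lemma small (T : ℝ) : ∃ δ C : ℝ, 0 < δ ∧ 0 < C ∧ ∀ s : ℂ, |s.im| ≤ T → 1 - δ ≤ s.re → s.re ≤ 3 →
    riemannZeta₁ s ≠ 0 ∧ ‖logDeriv riemannZeta₁ s‖ ≤ C := by
  have hbox : ∀ x : ℝ, IsCompact {s : ℂ | x ≤ s.re ∧ s.re ≤ 3 ∧ |s.im| ≤ T} := by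
    intro x
    have h1 : {s : ℂ | x ≤ s.re ∧ s.re ≤ 3 ∧ |s.im| ≤ T} = Set.Icc x 3 ×ℂ Set.Icc (-T) T := by
      ext s
      simp only [Set.mem_ofPred_eq, Complex.mem_reProdIm, Set.mem_Icc, abs_le]
      tauto
    rw [h1]
    exact isCompact_Icc.reProdIm isCompact_Icc
  have hcont : Continuous riemannZeta₁ := differentiable_riemannZeta₁.continuous
  obtain ⟨δ, hδ, hδ0⟩ : ∃ δ : ℝ, 0 < δ ∧ ∀ s : ℂ, |s.im| ≤ T → 1 - δ ≤ s.re → s.re ≤ 3 →
      riemannZeta₁ s ≠ 0 := by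
    have hK : IsCompact ({s : ℂ | 0 ≤ s.re ∧ s.re ≤ 3 ∧ |s.im| ≤ T} ∩
        riemannZeta₁ ⁻¹' {0}) := (hbox 0).inter_right (isClosed_singleton.preimage hcont)
    rcases Set.eq_empty_or_nonempty ({s : ℂ | 0 ≤ s.re ∧ s.re ≤ 3 ∧ |s.im| ≤ T} ∩
        riemannZeta₁ ⁻¹' {0}) with h | h
    · refine ⟨1, one_pos, fun s h1 h2 h3 h4 => ?_⟩
      have : s ∈ ({s : ℂ | 0 ≤ s.re ∧ s.re ≤ 3 ∧ |s.im| ≤ T} ∩ riemannZeta₁ ⁻¹' {0}) :=
        ⟨⟨by linarith, h3, h1⟩, h4⟩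
      rw [h] at this
      exact this
    · obtain ⟨s1, hs1, hmax⟩ := hK.exists_isMaxOn h Complex.continuous_re.continuousOn
      have hs1' : s1.re < 1 := by
        by_contra h1
        exact ne_zero_of_one_le (not_lt.1 h1) hs1.2
      have hs10 : 0 ≤ s1.re := hs1.1.1
      refine ⟨(1 - s1.re) / 2, by linarith, fun s h1 h2 h3 h4 => ?_⟩
      have h5 : s.re ≤ s1.re := hmax ⟨⟨by linarith, h3, h1⟩, h4⟩
      linarith
  have hK := hbox (1 - δ)
  have hc : ContinuousOn (fun s => ‖logDeriv riemannZeta₁ s‖)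
      {s : ℂ | 1 - δ ≤ s.re ∧ s.re ≤ 3 ∧ |s.im| ≤ T} := by
    intro s hs
    have h1 := hδ0 s hs.2.2 hs.1 hs.2.1
    have h2 : ContinuousAt (logDeriv riemannZeta₁) s :=
      ContinuousAt.div differentiable_riemannZeta₁.deriv.continuous.continuousAt
        hcont.continuousAt h1
    exact h2.norm.continuousWithinAt
  obtain ⟨B, hB⟩ := (hK.image_of_continuousOn hc).bddAbove
  refine ⟨δ, max B 1, hδ, by positivity, fun s h1 h2 h3 => ⟨hδ0 s h1 h2 h3, ?_⟩⟩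
  exact (hB ⟨s, ⟨h2, h3, h1⟩, rfl⟩).trans (le_max_left _ _)

end ZF

/-- ROW ZF. -/
theorem zf (hG : GR) : ZF := by
  obtain ⟨C, T, hC, hT, hbig⟩ := ZF.big hG
  obtain ⟨δ, C', hδ, hC', hsm⟩ := ZF.small T
  refine ⟨min δ (1 / 40), C + C' + 1, by positivity, by positivity, fun s hs hs3 => ?_⟩
  have hlog1 : 1 ≤ Real.log (3 + |s.im|) := by
    rw [Real.le_log_iff_exp_le (by positivity)]
    have := Real.exp_one_lt_d9
    linarith [abs_nonneg s.im]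
  rcases le_or_gt |s.im| T with h | h
  · have h1 : 1 - δ ≤ s.re := by
      refine le_trans ?_ hs
      have h2 : min δ (1 / 40) / Real.log (3 + |s.im|) ^ (19 / 20 : ℝ) ≤ δ := by
        rw [div_le_iff₀ (by positivity)]
        have h3 : 1 ≤ Real.log (3 + |s.im|) ^ (19 / 20 : ℝ) :=
          Real.one_le_rpow hlog1 (by norm_num)
        have h4 := min_le_left δ (1 / 40)
        nlinarith
      linarith
    obtain ⟨h2, h3⟩ := hsm s h h1 hs3
    refine ⟨h2, h3.trans ?_⟩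
    have h4 : 1 ≤ Real.log (3 + |s.im|) ^ 2 := one_le_pow₀ hlog1
    calc C' ≤ (C + C' + 1) * 1 := by linarith
      _ ≤ (C + C' + 1) * Real.log (3 + |s.im|) ^ 2 := by gcongr
  · obtain ⟨ℓ, hℓ⟩ : ∃ ℓ : ℝ, ℓ = Real.log |s.im| := ⟨_, rfl⟩
    have hℓ1 : 1 ≤ ℓ := by
      rw [hℓ, Real.le_log_iff_exp_le (by linarith)]
      have := Real.exp_one_lt_d9
      linarith
    have hℓ2 : ℓ ≤ Real.log (3 + |s.im|) := by
      rw [hℓ]
      exact Real.log_le_log (by linarith) (by linarith)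
    have hne1 : s ≠ 1 := by
      intro h1
      rw [h1] at h
      simp at h
      linarith
    have h1 : 1 - 1 / 40 * ℓ ^ (-(19 / 20) : ℝ) ≤ s.re := by
      refine le_trans ?_ hs
      have h2 : min δ (1 / 40) / Real.log (3 + |s.im|) ^ (19 / 20 : ℝ) ≤
          1 / 40 * ℓ ^ (-(19 / 20) : ℝ) := by
        rw [div_eq_mul_inv, ← Real.rpow_neg (by linarith)]
        refine mul_le_mul (min_le_right _ _) ?_ (Real.rpow_nonneg (by linarith) _) (by norm_num)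
        exact Real.rpow_le_rpow_of_nonpos (by linarith) hℓ2 (by norm_num)
      linarith
    obtain ⟨h2, h3⟩ := hbig s ℓ h.le hℓ h1 hs3
    refine ⟨?_, ?_⟩
    · rw [ZF.zeta1_eq hne1]
      exact mul_ne_zero (sub_ne_zero.2 hne1) h2
    · rw [ZF.ld1 hne1 h2]
      have h4 : ‖1 / (s - 1)‖ ≤ 1 := by
        rw [norm_div, norm_one, div_le_one (norm_pos_iff.2 (sub_ne_zero.2 hne1))]
        have h5 := Complex.abs_im_le_norm (s - 1)
        rw [Complex.sub_im, Complex.one_im, sub_zero] at h5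
        linarith
      have h6 : ℓ ^ 2 ≤ Real.log (3 + |s.im|) ^ 2 := by gcongr
      have h7 : 1 ≤ Real.log (3 + |s.im|) ^ 2 := one_le_pow₀ hlog1
      calc ‖1 / (s - 1) + logDeriv riemannZeta s‖ ≤ 1 + C * ℓ ^ 2 :=
            (norm_add_le _ _).trans (add_le_add h4 h3)
        _ ≤ Real.log (3 + |s.im|) ^ 2 + C * Real.log (3 + |s.im|) ^ 2 := by gcongr
        _ = (C + 0 + 1) * Real.log (3 + |s.im|) ^ 2 := by ring
        _ ≤ (C + C' + 1) * Real.log (3 + |s.im|) ^ 2 := by gcongr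

end Pool.Agent.OX
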