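import Pool.Agent.Lib.OX.Defs
import Pool.Agent.Lib.MP_af3d17_nt_h98.Jen
import Pool.Agent.Lib.MP_af3d17_nt_h98.Growth
import Pool.Agent.Lib.MRL.FLa
import Pool.Agent.Lib.MRL.FLb

/-!
# PROJECT OX, row ZG: the logarithmic derivative of `(s - 1) ζ(s)` to the right of a rectangle
without zeros
-/

set_option autoImplicit false

namespace Pool.Agent.OX

open Metric

namespace ZG

/-- growth of `ζ₁` -/
lemma growth (hA : ZAP) : ∃ C : ℝ, 1 ≤ C ∧ ∀ s : ℂ, 1 / 2 ≤ s.re →
    ‖riemannZeta₁ s‖ ≤ C * (1 + ‖s‖) ^ 2 := by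
  obtain ⟨C, hC, hA⟩ := hA
  refine ⟨C + 2, by linarith, fun s hs => ?_⟩
  have h0 : 0 ≤ ‖s‖ := norm_nonneg s
  have h1 : 1 ≤ (1 + ‖s‖) ^ 2 := one_le_pow₀ (by linarith)
  by_cases hs1 : s = 1
  · subst hs1
    rw [riemannZeta₁_one]
    simp only [norm_one]
    nlinarith
  have hne : s - 1 ≠ 0 := sub_ne_zero.2 hs1
  have hz : riemannZeta₁ s = (s - 1) * riemannZeta s := by
    rw [riemannZeta_eq_inv_sub_mul hs1, ← mul_assoc, mul_inv_cancel₀ hne, one_mul]
  have h2 : ‖s - 1‖ ≤ 1 + ‖s‖ := by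
    have := norm_sub_le s 1
    rw [norm_one] at this
    linarith
  by_cases h3 : s.re ≤ 3
  · have h4 := hA s 1 hs h3 hs1 le_rfl
    simp only [Finset.Icc_self, Finset.sum_singleton, Nat.cast_one, Complex.one_cpow, one_div,
      Real.one_rpow, mul_one] at h4
    have e : riemannZeta₁ s = (s - 1) * (riemannZeta s - (1 + (s - 1)⁻¹)) + s := by
      rw [hz]
      field_simp
      ring
    rw [e]
    calc ‖(s - 1) * (riemannZeta s - (1 + (s - 1)⁻¹)) + s‖
        ≤ ‖s - 1‖ * ‖riemannZeta s - (1 + (s - 1)⁻¹)‖ + ‖s‖ := by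
          rw [← norm_mul]; exact norm_add_le _ _
      _ ≤ (1 + ‖s‖) * (C * ‖s‖) + ‖s‖ := by gcongr
      _ ≤ (C + 2) * (1 + ‖s‖) ^ 2 := by
          have h5 := mul_nonneg hC.le h0
          have h6 := mul_nonneg hC.le (mul_nonneg h0 h0)
          have h7 := mul_nonneg h0 h0
          nlinarith
  · push Not at h3
    have h4 : ‖riemannZeta s‖ ≤ 2 := Pool.Agent.MRL.FL.norm_zeta_two_le (by linarith)
    rw [hz, norm_mul]
    calc ‖s - 1‖ * ‖riemannZeta s‖ ≤ (1 + ‖s‖) * 2 := by gcongr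
      _ ≤ (C + 2) * (1 + ‖s‖) ^ 2 := by nlinarith [mul_nonneg hC.le (sq_nonneg (1 + ‖s‖))]

/-- `1 ≤ |ζ(s)| |ζ(σ)|`. -/
lemma one_le_zeta_mul {s : ℂ} (hs : 1 < s.re) :
    1 ≤ ‖riemannZeta s‖ * ‖riemannZeta (s.re : ℂ)‖ := by
  have h1 := ArithmeticFunction.LSeries_zeta_mul_Lseries_moebius hs
  rw [ArithmeticFunction.LSeries_zeta_eq_riemannZeta hs] at h1
  have hsum : Summable fun n : ℕ => 1 / (n : ℝ) ^ s.re := Real.summable_one_div_nat_rpow.2 hs
  have h2 : ‖LSeries (fun n => ((ArithmeticFunction.moebius n : ℤ) : ℂ)) s‖ ≤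
      ∑' n : ℕ, 1 / (n : ℝ) ^ s.re := by
    refine tsum_of_norm_bounded hsum.hasSum fun n => ?_
    rw [LSeries.norm_term_eq]
    split_ifs with h
    · positivity
    · have h3 : ‖((ArithmeticFunction.moebius n : ℤ) : ℂ)‖ ≤ 1 := by
        rw [Complex.norm_intCast]
        exact_mod_cast ArithmeticFunction.abs_moebius_le_one
      gcongr
  have h3 : riemannZeta (s.re : ℂ) = ((∑' n : ℕ, 1 / (n : ℝ) ^ s.re : ℝ) : ℂ) := by
    rw [zeta_eq_tsum_one_div_nat_cpow (by simpa using hs), Complex.ofReal_tsum]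
    refine tsum_congr fun n => ?_
    push_cast
    rw [Complex.ofReal_cpow (Nat.cast_nonneg n)]
    simp
  have h4 : ‖riemannZeta (s.re : ℂ)‖ = ∑' n : ℕ, 1 / (n : ℝ) ^ s.re := by
    rw [h3, Complex.norm_real, Real.norm_of_nonneg (tsum_nonneg fun n => by positivity)]
  have h5 := congrArg norm h1
  rw [norm_mul, norm_one] at h5
  rw [h4]
  calc (1 : ℝ) = _ := h5.symm
    _ ≤ _ := mul_le_mul_of_nonneg_left h2 (norm_nonneg _)

/-- lower bound for `ζ₁` to the right of the line `1` -/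
lemma lower : ∃ c : ℝ, 0 < c ∧ ∀ (δ : ℝ) (s : ℂ), 0 < δ → δ ≤ 1 → 1 + δ ≤ s.re →
    c * δ ^ 2 ≤ ‖riemannZeta₁ s‖ := by
  obtain ⟨C, hC, hpole⟩ := Pool.Agent.MRL.FL.zeta_pole
  obtain ⟨c, hc, hlow⟩ := Pool.Agent.ZP.zeta_lower
  refine ⟨min (1 / C) c, by positivity, fun δ s hδ hδ1 hs => ?_⟩
  have hs1 : s ≠ 1 := by
    intro h
    rw [h, Complex.one_re] at hs
    linarith
  have hne : s - 1 ≠ 0 := sub_ne_zero.2 hs1
  have hz : riemannZeta₁ s = (s - 1) * riemannZeta s := by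
    rw [riemannZeta_eq_inv_sub_mul hs1, ← mul_assoc, mul_inv_cancel₀ hne, one_mul]
  have h1 : s.re - 1 ≤ ‖s - 1‖ := by
    have := Complex.re_le_norm (s - 1)
    simpa using this
  rw [hz, norm_mul]
  by_cases h2 : s.re ≤ 2
  · set a := s.re - 1 with ha
    have ha0 : 0 < a := by linarith
    have h3 := hpole a ha0 (by linarith)
    have h4 := one_le_zeta_mul (s := s) (by linarith)
    have e : (s.re : ℂ) = 1 + (a : ℂ) := by rw [ha]; push_cast; ring
    rw [e] at h4
    have h5 : 1 ≤ ‖riemannZeta s‖ * (C / a) :=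
      h4.trans (mul_le_mul_of_nonneg_left h3 (norm_nonneg _))
    have h6 : a / C ≤ ‖riemannZeta s‖ := by
      rw [div_le_iff₀ hC]
      rw [mul_div_assoc', le_div_iff₀ ha0] at h5
      linarith
    have h7 : δ ^ 2 ≤ a ^ 2 := pow_le_pow_left₀ hδ.le (by linarith) 2
    calc min (1 / C) c * δ ^ 2 ≤ 1 / C * a ^ 2 :=
          mul_le_mul (min_le_left _ _) h7 (by positivity) (by positivity)
      _ = a * (a / C) := by ring
      _ ≤ ‖s - 1‖ * ‖riemannZeta s‖ := mul_le_mul h1 h6 (by positivity) (norm_nonneg _)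
  · push Not at h2
    have h3 := hlow s h2.le
    have h4 : δ ^ 2 ≤ 1 := pow_le_one₀ hδ.le hδ1
    calc min (1 / C) c * δ ^ 2 ≤ c * 1 :=
          mul_le_mul (min_le_right _ _) h4 (by positivity) hc.le
      _ = 1 * c := by ring
      _ ≤ ‖s - 1‖ * ‖riemannZeta s‖ := mul_le_mul (by linarith) h3 hc.le (norm_nonneg _)

end ZG

/-- ROW ZG -/
theorem zg (hA : ZAP) : ZG := by
  obtain ⟨C₁, hC₁, hgr⟩ := ZG.growth hA
  obtain ⟨c, hc, hlow⟩ := ZG.lower
  obtain ⟨C₂, hC₂, hloc⟩ := Pool.Agent.ZP.local_factor (r := 2) (r' := 29 / 10) (R := 7 / 2)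
    (by norm_num) (by norm_num) (by norm_num)
  -- the constant in `M = K X ^ 3`
  set K : ℝ := C₁ * 16 + 1 / c + 1 with hK
  have hK1 : 1 ≤ K := by
    rw [hK]
    have : 0 < 1 / c := by positivity
    linarith
  refine ⟨C₂ * (Real.log K + 3), by
    have := Real.log_nonneg hK1
    positivity, ?_⟩
  intro X δ t₀ hX hδX hδ hX0 hno s hst hs1 hs3
  have hX0' : (0 : ℝ) < X := by linarith
  have hlX : 1 < Real.log X := by
    rw [Real.lt_log_iff_exp_lt hX0']
    linarith [Real.exp_one_lt_d9]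
  have hδ0 : 0 < δ := lt_of_lt_of_le (by positivity) hδX
  have hlX16 : 16 ≤ Real.log X := by
    have h1 := hδX.trans hδ
    rw [div_le_div_iff₀ (by linarith) (by norm_num)] at h1
    linarith
  set M : ℝ := K * X ^ 3 with hM
  have hX3 : 1 ≤ X ^ 3 := one_le_pow₀ (by linarith)
  have hM0 : 0 < M := by positivity
  have hMe : Real.exp 1 ≤ M := by
    have h1 : Real.exp 1 ≤ 3 := by linarith [Real.exp_one_lt_d9]
    have h2 : (3 : ℝ) ≤ X ^ 3 := by nlinarith [mul_self_nonneg X]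
    calc Real.exp 1 ≤ X ^ 3 := h1.trans h2
      _ ≤ K * X ^ 3 := le_mul_of_one_le_left (by positivity) hK1
  have hlM : Real.log M ≤ (Real.log K + 3) * Real.log X := by
    rw [hM, Real.log_mul (by positivity) (by positivity), Real.log_pow]
    have := Real.log_nonneg hK1
    push_cast
    nlinarith
  have hlM0 : 0 ≤ Real.log M := Real.log_nonneg ((Real.one_le_exp (by norm_num)).trans hMe)
  -- the scaled function
  set w : ℂ := s + ((2 * δ : ℝ) : ℂ) with hw
  set f : ℂ → ℂ := fun z => riemannZeta₁ (w + (δ : ℂ) * z) with hf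
  have hpt : ∀ z : ℂ, ‖z‖ ≤ 7 / 2 → 1 / 2 ≤ (w + (δ : ℂ) * z).re ∧
      ‖w + (δ : ℂ) * z‖ ≤ X + 5 := by
    intro z hz
    have h1 := Complex.abs_re_le_norm z
    have h2 : |z.re| ≤ 7 / 2 := h1.trans hz
    have h3 := neg_le_of_abs_le h2
    constructor
    · rw [hw]
      simp only [Complex.add_re, Complex.ofReal_re, Complex.mul_re, Complex.ofReal_im, zero_mul,
        sub_zero]
      nlinarith
    · have h4 : ‖s‖ ≤ 3 + X := by
        have h5 := Complex.norm_le_abs_re_add_abs_im s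
        have h6 : |s.re| ≤ 3 := abs_le.2 ⟨by linarith, hs3⟩
        rw [hst] at h5
        linarith
      have h7 : ‖((2 * δ : ℝ) : ℂ)‖ ≤ 1 := by
        rw [Complex.norm_real, Real.norm_of_nonneg (by positivity)]
        linarith
      have h8 : ‖(δ : ℂ) * z‖ ≤ 1 := by
        rw [norm_mul, Complex.norm_real, Real.norm_of_nonneg hδ0.le]
        calc δ * ‖z‖ ≤ 1 / 16 * (7 / 2) := by gcongr
          _ ≤ 1 := by norm_num
      rw [hw]
      calc ‖s + ((2 * δ : ℝ) : ℂ) + (δ : ℂ) * z‖ ≤ ‖s‖ + ‖((2 * δ : ℝ) : ℂ)‖ + ‖(δ : ℂ) * z‖ :=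
            norm_add₃_le
        _ ≤ X + 5 := by linarith
  have hdiff : Differentiable ℂ f := by
    rw [hf]
    exact differentiable_riemannZeta₁.comp (by fun_prop)
  have hfan : AnalyticOnNhd ℂ f (closedBall 0 (7 / 2)) := fun z _ =>
    hdiff.analyticAt z
  have hfM : ∀ z ∈ closedBall (0 : ℂ) (7 / 2), ‖f z‖ ≤ M := by
    intro z hz
    rw [mem_closedBall, dist_zero_right] at hz
    obtain ⟨h1, h2⟩ := hpt z hz
    have h3 := hgr _ h1
    have h4 : (1 + ‖w + (δ : ℂ) * z‖) ^ 2 ≤ 16 * X ^ 3 := by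
      calc (1 + ‖w + (δ : ℂ) * z‖) ^ 2 ≤ (X + 6) ^ 2 :=
            pow_le_pow_left₀ (by positivity) (by linarith) 2
        _ ≤ 16 * X ^ 3 := by nlinarith [mul_self_nonneg X]
    calc ‖f z‖ ≤ C₁ * (1 + ‖w + (δ : ℂ) * z‖) ^ 2 := h3
      _ ≤ C₁ * (16 * X ^ 3) := by gcongr
      _ = C₁ * 16 * X ^ 3 := by ring
      _ ≤ K * X ^ 3 := by
          gcongr
          rw [hK]
          have : 0 < 1 / c := by positivity
          linarith
  have hfc : 1 / M ≤ ‖f 0‖ := by
    have h1 : 1 + δ ≤ w.re := by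
      rw [hw]
      simp only [Complex.add_re, Complex.ofReal_re]
      linarith
    have h2 := hlow δ w hδ0 (by linarith) h1
    have h3 : f 0 = riemannZeta₁ w := by simp [hf]
    rw [h3]
    refine le_trans ?_ h2
    rw [div_le_iff₀ hM0]
    -- `1 ≤ c δ² M`
    have h4 : 1 / X ≤ δ ^ 2 := by
      have h5 : (1 / Real.log X) ^ 2 ≤ δ ^ 2 :=
        pow_le_pow_left₀ (one_div_nonneg.2 (by linarith)) hδX 2
      refine le_trans ?_ h5
      rw [div_pow, one_pow]
      refine one_div_le_one_div_of_le (by positivity) ?_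
      -- `(log X)² ≤ X`
      have h6 := Real.add_one_le_exp (Real.log X / 4)
      have h7 : Real.exp (Real.log X / 4) ^ 4 = X := by
        rw [← Real.exp_nat_mul]
        push_cast
        rw [show 4 * (Real.log X / 4) = Real.log X by ring, Real.exp_log hX0']
      have h8 : (Real.log X / 4 + 1) ^ 4 ≤ X :=
        (pow_le_pow_left₀ (by linarith) h6 4).trans_eq h7
      refine le_trans ?_ h8
      have h9 : Real.log X ≤ (Real.log X / 4 + 1) ^ 2 := by nlinarith [sq_nonneg (Real.log X / 4 - 1)]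
      calc Real.log X ^ 2 ≤ ((Real.log X / 4 + 1) ^ 2) ^ 2 :=
            pow_le_pow_left₀ (by linarith) h9 2
        _ = (Real.log X / 4 + 1) ^ 4 := by ring
    have h9 : 1 / c ≤ K := by
      rw [hK]
      linarith
    calc (1 : ℝ) = c * (1 / X) * (1 / c * X) := by field_simp
      _ ≤ c * δ ^ 2 * (K * X ^ 3) := by
          have h10 : X ≤ X ^ 3 := le_self_pow₀ (by linarith) (by norm_num)
          refine mul_le_mul (mul_le_mul_of_nonneg_left h4 hc.le)
            (mul_le_mul h9 h10 hX0'.le (by positivity)) (by positivity) (by positivity)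
  obtain ⟨k, z, g, -, hz, hgan, hfg, -, hgb, -⟩ := hloc f 0 M hMe hfan hfM hfc
  -- there are no zeros
  have hk : k = 0 := by
    by_contra hk
    have hk' : 0 < k := Nat.pos_of_ne_zero hk
    obtain ⟨h1, h2⟩ := hz ⟨0, hk'⟩
    set z₀ := z ⟨0, hk'⟩ with hz₀
    rw [mem_closedBall, dist_zero_right] at h1
    refine hno (w + (δ : ℂ) * z₀) ?_ ?_ h2
    · have h3 := neg_le_of_abs_le ((Complex.abs_re_le_norm z₀).trans h1)
      rw [hw]
      simp only [Complex.add_re, Complex.ofReal_re, Complex.mul_re, Complex.ofReal_im, zero_mul,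
        sub_zero]
      nlinarith
    · have h3 := (Complex.abs_im_le_norm z₀).trans h1
      have e : (w + (δ : ℂ) * z₀).im - t₀ = δ * z₀.im := by
        rw [hw]
        simp only [Complex.add_im, Complex.ofReal_im, Complex.mul_im, Complex.ofReal_re, zero_mul,
          add_zero]
        rw [hst]
        ring
      rw [e, abs_mul, abs_of_pos hδ0]
      nlinarith [abs_nonneg z₀.im]
  subst hk
  have hfg' : ∀ z ∈ closedBall (0 : ℂ) (7 / 2), f z = g z := by
    intro z hz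
    have := hfg z hz
    simpa using this
  -- the point
  have h2b : (-2 : ℂ) ∈ closedBall (0 : ℂ) 2 := by
    rw [mem_closedBall, dist_zero_right, norm_neg]
    norm_num
  have hld : logDeriv f (-2) = logDeriv g (-2) := by
    have hev : f =ᶠ[nhds (-2 : ℂ)] g := by
      have h3 : ball (0 : ℂ) (7 / 2) ∈ nhds (-2 : ℂ) := by
        refine isOpen_ball.mem_nhds ?_
        rw [mem_ball, dist_zero_right, norm_neg]
        norm_num
      filter_upwards [h3] with z hz
      exact hfg' z (ball_subset_closedBall hz)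
    rw [logDeriv_apply, logDeriv_apply, hev.deriv_eq, hev.self_of_nhds]
  have hs : w + (δ : ℂ) * (-2) = s := by
    rw [hw]
    push_cast
    ring
  have hchain : logDeriv f (-2) = (δ : ℂ) * logDeriv riemannZeta₁ s := by
    have h3 : HasDerivAt (fun z : ℂ => w + (δ : ℂ) * z) (δ : ℂ) (-2) := by
      have := ((hasDerivAt_id (-2 : ℂ)).const_mul (δ : ℂ)).const_add w
      simpa using this
    have h4 : HasDerivAt f (deriv riemannZeta₁ s * (δ : ℂ)) (-2) := by
      have h5 : HasDerivAt riemannZeta₁ (deriv riemannZeta₁ s) (w + (δ : ℂ) * (-2)) := by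
        rw [hs]
        exact (differentiable_riemannZeta₁ s).hasDerivAt
      exact HasDerivAt.comp (h₂ := riemannZeta₁) (h := fun z : ℂ => w + (δ : ℂ) * z) (-2 : ℂ) h5 h3
    rw [logDeriv_apply, logDeriv_apply, h4.deriv]
    have h6 : f (-2) = riemannZeta₁ s := by
      simp only [hf]
      rw [hs]
    rw [h6]
    ring
  have h7 := hgb (-2) h2b
  rw [← hld, hchain, norm_mul, Complex.norm_real, Real.norm_of_nonneg hδ0.le] at h7
  have h8 : 1 ≤ δ * Real.log X := by
    rw [div_le_iff₀ (by linarith)] at hδX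
    exact hδX
  calc ‖logDeriv riemannZeta₁ s‖ = 1 * ‖logDeriv riemannZeta₁ s‖ := (one_mul _).symm
    _ ≤ (δ * Real.log X) * ‖logDeriv riemannZeta₁ s‖ :=
        mul_le_mul_of_nonneg_right h8 (norm_nonneg _)
    _ = (δ * ‖logDeriv riemannZeta₁ s‖) * Real.log X := by ring
    _ ≤ (C₂ * Real.log M) * Real.log X := mul_le_mul_of_nonneg_right h7 (by linarith)
    _ ≤ (C₂ * ((Real.log K + 3) * Real.log X)) * Real.log X := by gcongr
    _ = C₂ * (Real.log K + 3) * Real.log X ^ 2 := by ring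

end Pool.Agent.OX
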