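import Mathlib
import Pool.Agent.Lib.OX.ZAP
import Pool.Agent.Lib.OX.GR
import Pool.Agent.Lib.OX.ZF
import Pool.Agent.Lib.OX.ZG
import Pool.Agent.Lib.OX.PG
import Pool.Agent.Lib.OX.PP
import Pool.Agent.Lib.OX.SZ1
import Pool.Agent.Lib.OX.SZ2
import Pool.Agent.Lib.OX.SZD
import Pool.Agent.Lib.OX.SQL
import Pool.Agent.Lib.OX.SQH
import Pool.Agent.Lib.OX.SQ
import Pool.Agent.Lib.OX.ME
import Pool.Agent.Lib.OX.CNT
import Pool.Agent.Lib.OX.RD
import Pool.Agent.Lib.OX.LB
import Pool.Agent.Lib.OX.MT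
import Pool.Agent.Lib.OX.BADI
import Pool.Agent.Lib.OX.INT
import Pool.Agent.Lib.OX.CORE
import Pool.Agent.Lib.OX.FIN
import Pool.Agent.Lib.OX.KF
import Pool.Agent.Lib.MR2.HI
import Pool.Agent.Lib.MRL.LC
import Pool.Agent.Lib.MRL.VD
import Pool.Agent.Lib.MRL.MV
import Pool.Agent.Lib.VMV.All

/-!
# PROJECT OX: the assembly without hypotheses.  helper31.
-/

set_option autoImplicit false

namespace Pool.Agent.OX

open Pool.Agent.MRL Pool.Agent.MR2

theorem zf_all : ZF := zf (gr zap Pool.Agent.VMV.zsumS_all)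

theorem szd_all : SZD := szd (sz1 zap vdc_row) (sz2 vdc_row)

theorem sq_all : SQ := sq (sql (pp zf_all pg)) (sqh (zg zap) pg zf_all szd_all)

theorem int_all : INT := int_row (rd cnt) me sq_all (hmInt vdc_row) (LC.largeCount meanValue)

theorem final3_all : Final3 := fin (core (badi mt) int_all lb)

theorem finalAll_all : FinalAll := finalAll_of final3_all

end Pool.Agent.OX
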