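import Mathlib
import Pool.Agent.Lib.OX.Defs2

/-!
# PROJECT OX, second part: uniform in the relative length `δ`, with a lower bound for the number
of products.  helper31.
-/

set_option autoImplicit false

namespace Pool.Agent.OX

open Finset Pool.Agent.MRL Pool.Agent.MRF

noncomputable section

/-- the height for intervals of length `δ √N`. -/
def TD (δ N : ℝ) : ℝ := √N * (Real.log N) ^ (3 : ℝ) / δ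

/-- the length of the polynomial grouped with the shifts. -/
def QD (A δ N : ℝ) : ℝ := δ * √N / (Real.log N) ^ (A + 4)

/-- the integers in `(y, y + h)` which are products of three primes `p q s`, `p ≤ Z`, `q, s ≥ w`. -/
def Set3 (y h Z w : ℝ) : Set ℕ := {n : ℕ | y < n ∧ (n : ℝ) < y + h ∧
  ∃ p q s : ℕ, p.Prime ∧ q.Prime ∧ s.Prime ∧ (p : ℝ) ≤ Z ∧ w ≤ q ∧ w ≤ s ∧ n = p * q * s}

/-- the integers `2^(k-3) p q s` in `(y, y + h)`: exactly `k` prime factors. -/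
def SetK (k : ℕ) (y h Z w : ℝ) : Set ℕ := {n : ℕ | y < n ∧ (n : ℝ) < y + h ∧
  ArithmeticFunction.cardFactors n = k ∧
  ∃ p q s : ℕ, p.Prime ∧ q.Prime ∧ s.Prime ∧ (p : ℝ) ≤ Z ∧ w ≤ q ∧ w ≤ s ∧
    n = 2 ^ (k - 3) * (p * q * s)}

/-- ROW BADI2: an interval with few products makes the error integral large. -/
def BADI2 : Prop := ∀ A : ℝ, 1 ≤ A → ∃ c N₀ : ℝ, 0 < c ∧ ∀ δ N Q : ℝ, N₀ ≤ N →
  N ^ (-(1 / 8) : ℝ) ≤ δ → δ ≤ 1 → (Q = QD A δ N ∨ Q = 2 * QD A δ N) →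
  ∀ y₀ : ℝ, N ≤ y₀ → y₀ ≤ 3 * N →
  ((Set3 y₀ (δ * √N) ((Real.log N) ^ (A + 1)) (δ * √N / (Real.log N) ^ (A + 5))).ncard : ℝ) ≤
    δ * √N / (Real.log N) ^ (8 : ℝ) →
  c * (∑ p ∈ W 1 (vP A N), 1 / (p : ℝ)) *
      (∑ q ∈ (Ioc ⌊Q⌋₊ ⌊2 * Q⌋₊).filter Nat.Prime, 1 / (q : ℝ)) ≤
    ‖∫ t : ℝ, MRL.Q 1 (vP A N) t * AF pr Q t * Ey (yP A N Q) t *
      Complex.exp (((t * Real.log (y₀ + δ * √N / 2) : ℝ) : ℂ) * Complex.I) *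
      (g (TD δ N) t : ℂ)‖ + (Real.log N) ^ (-(3 : ℝ))

/-- ROW INT2: the integral of the error term against few well spaced shifts. -/
def INT2 : Prop := ∃ A C N₀ : ℝ, 1 ≤ A ∧ 0 < C ∧ ∀ δ N Q : ℝ, N₀ ≤ N →
  N ^ (-(1 / 8) : ℝ) ≤ δ → δ ≤ 1 → (Q = QD A δ N ∨ Q = 2 * QD A δ N) →
  ∀ (J : Finset ℝ) (c : ℝ → ℂ), (∀ x ∈ J, N ≤ x ∧ x ≤ 4 * N) →
  (∀ x ∈ J, ∀ x' ∈ J, x ≠ x' → δ * √N / Real.log N ≤ |x - x'|) → (∀ x, ‖c x‖ ≤ 1) →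
  ∫ t : ℝ, ‖MRL.Q 1 (vP A N) t * (AF pr Q t *
      ∑ x ∈ J, c x * Complex.exp (((t * Real.log x : ℝ) : ℂ) * Complex.I)) *
      Ey (yP A N Q) t‖ * g (TD δ N) t ≤
    C * (J.card * (Real.log N) ^ (-(3 : ℝ)) + √(J.card) * ((Real.log N) ^ C / δ ^ 2))

/-- ROW CORE2: few well spaced bad points. -/
def CORE2 : Prop := ∃ C : ℝ, 0 < C ∧ ∃ N₀ : ℝ, ∀ δ N : ℝ, N₀ ≤ N →
  N ^ (-(1 / 8) : ℝ) ≤ δ → δ ≤ 1 → ∀ Y : Finset ℝ, (∀ y ∈ Y, N ≤ y ∧ y ≤ 3 * N) →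
  (∀ y ∈ Y, ∀ y' ∈ Y, y ≠ y' → δ * √N / Real.log N ≤ |y - y'|) →
  (∀ y ∈ Y, ((Set3 y (δ * √N) ((Real.log N) ^ C) (δ * √N / (Real.log N) ^ C)).ncard : ℝ) ≤
    δ * √N / (Real.log N) ^ (8 : ℝ)) →
  (Y.card : ℝ) ≤ (Real.log N) ^ C / δ ^ 4

/-- THE THEOREM: for all but `(log X)^C / δ^4` integers `x ≤ X` every interval of length `δ x`
inside `(x² - x, x² + x)` contains at least `δ x / (log x)^C` integers with exactly `k` prime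
factors. -/
def FinalU : Prop := ∃ C : ℝ, 0 < C ∧ ∀ k : ℕ, 3 ≤ k → ∃ X₀ : ℕ, ∀ (X : ℕ) (δ : ℝ), X₀ ≤ X →
  0 < δ → δ ≤ 1 →
  ({x : ℕ | 1 < x ∧ x ≤ X ∧ ¬ ∀ y : ℝ, (x : ℝ) ^ 2 - x ≤ y → y + δ * x ≤ (x : ℝ) ^ 2 + x →
      δ * x / (Real.log x) ^ C ≤
        ((SetK k y (δ * x) ((Real.log x) ^ C) (δ * x / (Real.log x) ^ C)).ncard : ℝ)}.ncard : ℝ) ≤
    (Real.log X) ^ C / δ ^ 4

end

end Pool.Agent.OX
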