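import Mathlib
import Pool.Agent.Lib.OX.Defs3
import Pool.Agent.Lib.OX.BADI

/-!
# PROJECT OX, row BADI2: an interval with few products makes the error integral large.  helper50.
-/

set_option autoImplicit false

namespace Pool.Agent.OX

open Finset MeasureTheory Pool.Agent.MRL Pool.Agent.MRF

namespace BADI2

noncomputable section

open scoped Classical in
/-- `Wx` is at most a tiny term plus the terms inside the interval -/
theorem Wx_le {v : ℕ} {Q y T x E B : ℝ} (P : ℕ × ℕ × ℕ → Prop) (hy : 0 ≤ y)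
    (h : ∀ p ∈ W 1 v, ∀ q ∈ (Ioc ⌊Q⌋₊ ⌊2 * Q⌋₊).filter Nat.Prime, ∀ s ∈ SP y, ¬ P (p, q, s) →
      Real.exp (-(T * Real.log (p * q * s / x)) ^ 2 / 4) ≤ E) (hE : 0 ≤ E)
    (h' : ∀ p ∈ W 1 v, ∀ q ∈ (Ioc ⌊Q⌋₊ ⌊2 * Q⌋₊).filter Nat.Prime, ∀ s ∈ SP y, P (p, q, s) →
      Real.log s / (p * q * s) ≤ B) :
    Wx v Q y T x ≤ (∑ p ∈ W 1 v, 1 / (p : ℝ)) *
      (∑ q ∈ (Ioc ⌊Q⌋₊ ⌊2 * Q⌋₊).filter Nat.Prime, 1 / (q : ℝ)) * (y ^ 2 * E) +
      B * (((W 1 v) ×ˢ ((Ioc ⌊Q⌋₊ ⌊2 * Q⌋₊).filter Nat.Prime) ×ˢ (SP y)).filter P).card := by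
  have key : Wx v Q y T x ≤ ∑ p ∈ W 1 v, ∑ q ∈ (Ioc ⌊Q⌋₊ ⌊2 * Q⌋₊).filter Nat.Prime,
      ∑ s ∈ SP y, (1 / (p : ℝ) * (1 / (q : ℝ)) * E * (Real.log s / s) +
        if P (p, q, s) then B else 0) := by
    unfold Wx
    refine Finset.sum_le_sum fun p hp => Finset.sum_le_sum fun q hq =>
      Finset.sum_le_sum fun s hs => ?_
    have hs1 : 1 ≤ s := (Finset.mem_Icc.1 (Finset.mem_filter.1 hs).1).1
    have hl : 0 ≤ Real.log s := Real.log_nonneg (by exact_mod_cast hs1)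
    have e1 : Real.exp (-(Real.log ((s : ℝ) / y)) ^ 2 / 4) ≤ 1 := by
      rw [Real.exp_le_one_iff]
      have := sq_nonneg (Real.log ((s : ℝ) / y))
      linarith
    have hs0 : (0 : ℝ) < s := by exact_mod_cast hs1
    have hp0 : (0 : ℝ) ≤ p := Nat.cast_nonneg p
    have hq0 : (0 : ℝ) ≤ q := Nat.cast_nonneg q
    have e3 : Real.log s * Real.exp (-(Real.log ((s : ℝ) / y)) ^ 2 / 4) / (p * q * s) ≤
        Real.log s / (p * q * s) := by
      refine div_le_div_of_nonneg_right ?_ (by positivity)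
      exact mul_le_of_le_one_right hl e1
    have hpos : 0 ≤ 1 / (p : ℝ) * (1 / (q : ℝ)) * E * (Real.log s / s) := by positivity
    by_cases hP : P (p, q, s)
    · rw [if_pos hP]
      have e2 : Real.exp (-(T * Real.log (p * q * s / x)) ^ 2 / 4) ≤ 1 := by
        rw [Real.exp_le_one_iff]
        have := sq_nonneg (T * Real.log ((p : ℝ) * q * s / x))
        linarith
      have e4 := h' p hp q hq s hs hP
      have e5 : Real.log s * Real.exp (-(Real.log ((s : ℝ) / y)) ^ 2 / 4) / (p * q * s) *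
            Real.exp (-(T * Real.log (p * q * s / x)) ^ 2 / 4) ≤
          Real.log s / (p * q * s) * 1 :=
        mul_le_mul e3 e2 (Real.exp_pos _).le (by positivity)
      linarith
    · rw [if_neg hP, add_zero]
      have e2 := h p hp q hq s hs hP
      calc Real.log s * Real.exp (-(Real.log ((s : ℝ) / y)) ^ 2 / 4) / (p * q * s) *
            Real.exp (-(T * Real.log (p * q * s / x)) ^ 2 / 4)
          ≤ Real.log s / (p * q * s) * E :=
            mul_le_mul e3 e2 (Real.exp_pos _).le (by positivity)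
        _ = 1 / (p : ℝ) * (1 / (q : ℝ)) * E * (Real.log s / s) := by
            rw [div_mul_div_comm, mul_comm (p : ℝ) q]
            simp only [div_eq_mul_inv, mul_inv]
            ring
  refine key.trans ?_
  simp only [Finset.sum_add_distrib]
  refine add_le_add ?_ (le_of_eq ?_)
  · have h2 := BADI.sum_SP_le hy
    rw [Finset.sum_mul_sum, Finset.sum_mul]
    refine Finset.sum_le_sum fun p _ => ?_
    rw [Finset.sum_mul]
    refine Finset.sum_le_sum fun q _ => ?_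
    rw [← Finset.mul_sum]
    have h3 : 0 ≤ 1 / (p : ℝ) * (1 / (q : ℝ)) * E := by positivity
    calc 1 / (p : ℝ) * (1 / (q : ℝ)) * E * ∑ s ∈ SP y, Real.log s / s
        ≤ 1 / (p : ℝ) * (1 / (q : ℝ)) * E * y ^ 2 := mul_le_mul_of_nonneg_left h2 h3
      _ = _ := by ring
  · rw [Finset.card_filter, Nat.cast_sum, Finset.mul_sum, Finset.sum_product]
    refine Finset.sum_congr rfl fun p _ => ?_
    rw [Finset.sum_product]
    refine Finset.sum_congr rfl fun q _ => Finset.sum_congr rfl fun s _ => ?_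
    by_cases hP : P (p, q, s)
    · simp [hP]
    · simp [hP]

/-- the number of triples with product in a finite set of integers with three prime factors -/
theorem card_le (I : Finset (ℕ × ℕ × ℕ)) (S : Set ℕ) (hS : S.Finite)
    (hI : ∀ z ∈ I, z.1.Prime ∧ z.2.1.Prime ∧ z.2.2.Prime ∧ z.1 * z.2.1 * z.2.2 ∈ S)
    (hS3 : ∀ n ∈ S, ∃ p q s : ℕ, p.Prime ∧ q.Prime ∧ s.Prime ∧ n = p * q * s) :
    I.card ≤ 9 * S.ncard := by
  have h1 : I.card ≤ 9 * (I.image (fun z => z.1 * z.2.1 * z.2.2)).card := by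
    refine Finset.card_le_mul_card_image I 9 fun n hn => ?_
    obtain ⟨z, hz, rfl⟩ := Finset.mem_image.1 hn
    obtain ⟨p, q, s, hp, hq, hs, he⟩ := hS3 _ (hI z hz).2.2.2
    have h3 : (z.1 * z.2.1 * z.2.2).primeFactors.card ≤ 3 := by
      rw [he, Nat.primeFactors_mul (Nat.mul_ne_zero hp.ne_zero hq.ne_zero) hs.ne_zero,
        Nat.primeFactors_mul hp.ne_zero hq.ne_zero, hp.primeFactors, hq.primeFactors,
        hs.primeFactors]
      refine (Finset.card_union_le _ _).trans ?_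
      have := Finset.card_union_le ({p} : Finset ℕ) {q}
      simp only [Finset.card_singleton] at this ⊢
      omega
    obtain ⟨n, hn'⟩ : ∃ n, n = z.1 * z.2.1 * z.2.2 := ⟨_, rfl⟩
    rw [← hn'] at h3 ⊢
    have h4 : (I.filter (fun w => w.1 * w.2.1 * w.2.2 = n)).card ≤
        (n.primeFactors ×ˢ n.primeFactors).card := by
      refine Finset.card_le_card_of_injOn (fun w => (w.1, w.2.1)) ?_ ?_
      · intro w hw
        obtain ⟨hw1, hw2⟩ := Finset.mem_filter.1 hw
        obtain ⟨a1, a2, a3, -⟩ := hI w hw1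
        have hn0 : n ≠ 0 := by
          rw [← hw2]
          exact Nat.mul_ne_zero (Nat.mul_ne_zero a1.ne_zero a2.ne_zero) a3.ne_zero
        refine Finset.mem_coe.2 (Finset.mem_product.2 ⟨?_, ?_⟩)
        · refine Nat.mem_primeFactors.2 ⟨a1, ?_, hn0⟩
          rw [← hw2]
          exact Dvd.dvd.mul_right (Dvd.intro _ rfl) _
        · refine Nat.mem_primeFactors.2 ⟨a2, ?_, hn0⟩
          rw [← hw2]
          exact Dvd.dvd.mul_right (Dvd.intro_left _ rfl) _
      · intro w hw w' hw' hww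
        obtain ⟨hw1, hw2⟩ := Finset.mem_filter.1 (Finset.mem_coe.1 hw)
        obtain ⟨hw1', hw2'⟩ := Finset.mem_filter.1 (Finset.mem_coe.1 hw')
        obtain ⟨a1, a2, a3, -⟩ := hI w hw1
        have hww' := Prod.mk.inj hww
        obtain ⟨b1, b2⟩ := hww'
        have h5 : w.2.2 = w'.2.2 := by
          have h6 : w.1 * w.2.1 * w.2.2 = w.1 * w.2.1 * w'.2.2 := by
            rw [hw2, ← hw2', b1, b2]
          exact Nat.eq_of_mul_eq_mul_left (Nat.mul_pos a1.pos a2.pos) h6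
        exact Prod.ext b1 (Prod.ext b2 h5)
    refine h4.trans ?_
    rw [Finset.card_product]
    exact Nat.mul_le_mul h3 h3
  refine h1.trans (Nat.mul_le_mul_left 9 ?_)
  rw [← Set.ncard_coe_finset]
  refine Set.ncard_le_ncard ?_ hS
  intro n hn
  obtain ⟨z, hz, rfl⟩ := Finset.mem_image.1 (Finset.mem_coe.1 hn)
  exact (hI z hz).2.2.2

/-- `Set3` is finite -/
theorem finite_Set3 (y h Z w : ℝ) : (Set3 y h Z w).Finite := by
  refine Set.Finite.subset (Set.finite_Iio (⌈y + h⌉₊)) ?_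
  intro n hn
  exact Set.mem_Iio.2 (Nat.lt_ceil.2 hn.2.1)

/-- the conditions on a large `N` -/
theorem large (A c : ℝ) (hc : 0 < c) : ∃ N₀ : ℝ, ∀ N : ℝ, N₀ ≤ N → 1 ≤ N ∧ 36 ≤ Real.log N ∧
    (Real.log N) ^ (A + 5) ≤ (N ^ (1 / 8 : ℝ)) ^ 3 ∧
    4 * Real.exp (3 * Real.log N - (Real.log N) ^ 6 / 1024) ≤ c := by
  obtain ⟨N₁, hN₁⟩ := BADI.large 1 1 c hc
  have h2 : ∀ᶠ N : ℝ in Filter.atTop, 36 ≤ Real.log N :=
    Real.tendsto_log_atTop.eventually_ge_atTop 36
  have h3 : ∀ᶠ N : ℝ in Filter.atTop, 1 ≤ N → 36 ≤ Real.log N →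
      (Real.log N) ^ (A + 5) ≤ (N ^ (1 / 8 : ℝ)) ^ 3 := by
    have h := (isLittleO_log_rpow_rpow_atTop (A + 5) (by norm_num : (0 : ℝ) < 3 / 8)).bound
      (show (0 : ℝ) < 1 by norm_num)
    filter_upwards [h] with N hN hN1 hN2
    rw [one_mul, Real.norm_of_nonneg (by positivity), Real.norm_of_nonneg (by positivity)] at hN
    rw [← Real.rpow_natCast, ← Real.rpow_mul (by linarith)]
    refine hN.trans (le_of_eq ?_)
    congr 1
    norm_num
  obtain ⟨N₂, hN₂⟩ := Filter.eventually_atTop.1 (h2.and h3)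
  refine ⟨max N₁ N₂, fun N hN => ?_⟩
  obtain ⟨a1, -, -, a4⟩ := hN₁ N ((le_max_left _ _).trans hN)
  obtain ⟨b1, b2⟩ := hN₂ N ((le_max_right _ _).trans hN)
  exact ⟨a1, b1, b2 a1 b1, a4⟩

end

end BADI2

open BADI2 in
open scoped Classical in
/-- ROW BADI2. -/
theorem badi2 (hM : MT) : BADI2 := by
  obtain ⟨c, hc, hMT⟩ := hM
  intro A hA
  obtain ⟨N₀, hN₀⟩ := large A c hc
  refine ⟨c / 2, N₀, by positivity, ?_⟩
  intro δ N Q hN hδ hδ1 hQ y₀ hy1 hy2 hbad
  obtain ⟨hN1, hL36, hsq, hE⟩ := hN₀ N hN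
  set L : ℝ := Real.log N with hL
  have hL0 : 0 < L := by linarith
  have hN0 : 0 < N := by linarith
  have hL1 : 1 ≤ L := by linarith
  -- `r = N^(1/8)`
  obtain ⟨r, hr⟩ : ∃ r : ℝ, r = N ^ (1 / 8 : ℝ) := ⟨_, rfl⟩
  rw [← hr] at hsq
  have hr0 : 0 < r := by
    rw [hr]
    exact Real.rpow_pos_of_pos hN0 _
  have hr1 : 1 ≤ r := by
    rw [hr]
    exact Real.one_le_rpow hN1 (by norm_num)
  have hr8 : r ^ 8 = N := by
    rw [hr, ← Real.rpow_natCast, ← Real.rpow_mul hN0.le]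
    norm_num
  have hrs : √N = r ^ 4 := by
    rw [← hr8, show r ^ 8 = (r ^ 4) ^ 2 by ring]
    exact Real.sqrt_sq (by positivity)
  have hδ0 : 0 < δ := lt_of_lt_of_le (Real.rpow_pos_of_pos hN0 _) hδ
  have hδr : 1 ≤ δ * r := by
    have h1 : N ^ (-(1 / 8) : ℝ) * r = 1 := by
      rw [hr, ← Real.rpow_add hN0]
      norm_num
    rw [← h1]
    exact mul_le_mul_of_nonneg_right hδ hr0.le
  have hδi : 1 / δ ≤ r := by
    rw [div_le_iff₀ hδ0]
    linarith [mul_comm δ r]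
  -- the window
  obtain ⟨v, hv⟩ : ∃ v : ℕ, v = vP A N := ⟨_, rfl⟩
  have hAl : 0 ≤ A * Real.log L := mul_nonneg (by linarith) (Real.log_nonneg hL1)
  have hv1 : L ^ A ≤ Real.exp v := by
    rw [hv, Real.rpow_def_of_pos hL0]
    refine Real.exp_le_exp.2 ?_
    rw [mul_comm]
    exact Nat.le_ceil _
  have hv2 : Real.exp v ≤ Real.exp 1 * L ^ A := by
    rw [hv, Real.rpow_def_of_pos hL0, ← Real.exp_add]
    refine Real.exp_le_exp.2 ?_
    have := (Nat.ceil_lt_add_one hAl).le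
    unfold vP
    rw [← hL]
    linarith [mul_comm A (Real.log L)]
  have he : Real.exp 1 < 2.7182818286 := Real.exp_one_lt_d9
  -- `Q`
  obtain ⟨Q0, hQ0⟩ : ∃ Q0 : ℝ, Q0 = QD A δ N := ⟨_, rfl⟩
  have hQ0e : Q0 = δ * r ^ 4 / L ^ (A + 4) := by
    rw [hQ0, ← hrs]
    rfl
  have hP : 0 < L ^ (A + 4) := Real.rpow_pos_of_pos hL0 _
  have hP3 : L ^ (A + 4) ≤ r ^ 3 :=
    (Real.rpow_le_rpow_of_exponent_le hL1 (by linarith)).trans hsq
  have hδr4 : r ^ 3 ≤ δ * r ^ 4 := by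
    calc r ^ 3 = 1 * r ^ 3 := by ring
      _ ≤ (δ * r) * r ^ 3 := mul_le_mul_of_nonneg_right hδr (by positivity)
      _ = _ := by ring
  have hQ01 : 1 ≤ Q0 := by
    rw [hQ0e, le_div_iff₀ hP, one_mul]
    exact hP3.trans hδr4
  have hQ1 : Q0 ≤ Q ∧ Q ≤ 2 * Q0 := by
    rw [hQ0]
    rcases hQ with h | h <;> rw [h]
    · exact ⟨le_rfl, by rw [← hQ0]; linarith⟩
    · exact ⟨by rw [← hQ0]; linarith, le_rfl⟩
  have hQpos : 0 < Q := by linarith
  -- `y`
  obtain ⟨y, hy⟩ : ∃ y : ℝ, y = yP A N Q := ⟨_, rfl⟩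
  have hye : y = N / (Real.exp v * Q) := by
    rw [hy, hv]
    rfl
  have hypos : 0 < y := by
    rw [hye]
    positivity
  have hmul : Real.exp v * Q * y = N := by
    rw [hye]
    field_simp
  have hLA : 0 < L ^ A := Real.rpow_pos_of_pos hL0 _
  have hsplit : L ^ (A + 4) = L ^ A * L ^ 4 := by
    rw [Real.rpow_add hL0]
    congr 1
    rw [← Real.rpow_natCast]
    norm_num
  have hL4 : (4096 : ℝ) ≤ L ^ 4 := by
    calc (4096 : ℝ) = 8 ^ 4 := by norm_num
      _ ≤ _ := pow_le_pow_left₀ (by norm_num) (by linarith) 4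
  have hL4r : L ^ 4 ≤ r ^ 3 := by
    refine le_trans ?_ hP3
    rw [hsplit]
    exact le_mul_of_one_le_left (by positivity) (Real.one_le_rpow hL1 (by linarith))
  have hylow : r ^ 4 * L ^ 4 / (2 * Real.exp 1) ≤ y := by
    rw [hye, div_le_div_iff₀ (by positivity) (by positivity)]
    have h1 : Real.exp v * Q ≤ (Real.exp 1 * L ^ A) * (2 * (1 * r ^ 4 / (L ^ A * L ^ 4))) := by
      refine mul_le_mul hv2 (hQ1.2.trans ?_) hQpos.le (by positivity)
      rw [hQ0e, hsplit]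
      refine mul_le_mul_of_nonneg_left ?_ (by norm_num)
      refine div_le_div_of_nonneg_right ?_ (by positivity)
      exact mul_le_mul_of_nonneg_right hδ1 (by positivity)
    calc r ^ 4 * L ^ 4 * (Real.exp v * Q)
        ≤ r ^ 4 * L ^ 4 * ((Real.exp 1 * L ^ A) * (2 * (1 * r ^ 4 / (L ^ A * L ^ 4)))) :=
          mul_le_mul_of_nonneg_left h1 (by positivity)
      _ = r ^ 8 * (2 * Real.exp 1) := by
          field_simp
      _ = _ := by rw [hr8]
  have hyup : y ≤ r ^ 5 * L ^ 4 := by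
    rw [hye, div_le_iff₀ (by positivity)]
    have h1 : L ^ A * (δ * r ^ 4 / (L ^ A * L ^ 4)) ≤ Real.exp v * Q := by
      rw [← hsplit, ← hQ0e]
      exact mul_le_mul hv1 hQ1.1 (by linarith) (by positivity)
    calc N = r ^ 8 * 1 := by rw [hr8, mul_one]
      _ ≤ r ^ 8 * (δ * r) := mul_le_mul_of_nonneg_left hδr (by positivity)
      _ = r ^ 5 * L ^ 4 * (L ^ A * (δ * r ^ 4 / (L ^ A * L ^ 4))) := by
          field_simp
      _ ≤ _ := mul_le_mul_of_nonneg_left h1 (by positivity)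
  have hr4 : (4096 : ℝ) ≤ r ^ 4 := by
    have h1 : r ^ 3 * 1 ≤ r ^ 3 * r := mul_le_mul_of_nonneg_left hr1 (by positivity)
    have h2 : r ^ 3 * r = r ^ 4 := by ring
    linarith
  have hy3 : 3 ≤ y := by
    refine le_trans ?_ hylow
    rw [le_div_iff₀ (by positivity)]
    have h1 : (4096 : ℝ) * 4096 ≤ r ^ 4 * L ^ 4 := mul_le_mul hr4 hL4 (by norm_num) (by positivity)
    linarith
  have hyN : y ≤ N := by
    refine (hyup.trans (mul_le_mul_of_nonneg_left hL4r (by positivity))).trans (le_of_eq ?_)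
    rw [← hr8]
    ring
  -- `T`
  obtain ⟨T, hT⟩ : ∃ T : ℝ, T = TD δ N := ⟨_, rfl⟩
  have hTe : T = r ^ 4 * L ^ 3 / δ := by
    rw [hT, ← hrs, ← Real.rpow_natCast L 3]
    norm_num [TD, hL]
  have hL31 : 1 ≤ L ^ 3 := one_le_pow₀ hL1
  have hT1 : 1 ≤ T := by
    rw [hTe, le_div_iff₀ hδ0, one_mul]
    refine hδ1.trans ?_
    have : (1 : ℝ) * 1 ≤ r ^ 4 * L ^ 3 := mul_le_mul (by linarith) hL31 (by norm_num) (by positivity)
    linarith
  have hTN : T ≤ N := by
    have h1 : L ^ 3 ≤ r ^ 3 := (pow_le_pow_right₀ hL1 (by norm_num : 3 ≤ 4)).trans hL4r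
    have h2 : T = r ^ 4 * L ^ 3 * (1 / δ) := by
      rw [hTe]
      ring
    rw [h2, ← hr8]
    calc r ^ 4 * L ^ 3 * (1 / δ) ≤ r ^ 4 * r ^ 3 * r := by
          refine mul_le_mul ?_ hδi (by positivity) (by positivity)
          exact mul_le_mul_of_nonneg_left h1 (by positivity)
      _ = r ^ 8 := by ring
  -- `h`, `x`
  obtain ⟨h, hh⟩ : ∃ h : ℝ, h = δ * r ^ 4 := ⟨_, rfl⟩
  have hh0 : 0 < h := by
    rw [hh]
    positivity
  have hhN : h ≤ N := by
    rw [hh, ← hr8]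
    calc δ * r ^ 4 ≤ 1 * r ^ 4 := mul_le_mul_of_nonneg_right hδ1 (by positivity)
      _ = r ^ 4 := one_mul _
      _ ≤ r ^ 8 := pow_le_pow_right₀ hr1 (by norm_num)
  rw [hrs, ← hh] at hbad
  rw [hrs, ← hh]
  obtain ⟨x, hx⟩ : ∃ x : ℝ, x = y₀ + h / 2 := ⟨_, rfl⟩
  have hx0 : 0 < x := by linarith
  have hx4 : x ≤ 4 * N := by linarith
  have hxN : N ≤ x := by linarith
  have hxr : x / (Real.exp v * Q * y) = x / N := by rw [hmul]
  have hr1' : 1 ≤ x / N := by
    rw [le_div_iff₀ hN0]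
    linarith
  have hr2 : x / N ≤ 4 := by
    rw [div_le_iff₀ hN0]
    exact hx4
  have hmt := hMT v Q y T x (by linarith) hy3 hT1 hx0 (by
      rw [hxr]
      refine le_trans ?_ hr1'
      rw [Real.exp_le_one_iff]
      norm_num) (by
      rw [hxr]
      refine hr2.trans ?_
      have h1 := Real.add_one_le_exp (3 : ℝ)
      linarith)
  -- the terms of `Wx` outside the interval are tiny
  have hTh : T * (h / (16 * N)) = L ^ 3 / 16 := by
    rw [hTe, hh, ← hr8]
    field_simp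
  have hranges : ∀ p ∈ W 1 v, ∀ q ∈ (Ioc ⌊Q⌋₊ ⌊2 * Q⌋₊).filter Nat.Prime, ∀ s ∈ SP y,
      p.Prime ∧ q.Prime ∧ s.Prime ∧ (p : ℝ) ≤ Real.exp 1 * Real.exp v ∧ Q < q ∧ (q : ℝ) ≤ 2 * Q ∧
      (s : ℝ) ≤ y ^ 2 := by
    intro p hp q hq s hs
    refine ⟨(Finset.mem_filter.1 hp).2, (Finset.mem_filter.1 hq).2,
      (Finset.mem_filter.1 hs).2.1, ?_, ?_, ?_, ?_⟩
    · have h1 := (Finset.mem_Ioc.1 (Finset.mem_filter.1 hp).1).2
      have h2 : (p : ℝ) ≤ (⌊Real.exp (((v : ℝ) + 1) / (1 : ℕ))⌋₊ : ℝ) := by exact_mod_cast h1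
      refine h2.trans ((Nat.floor_le (Real.exp_pos _).le).trans (le_of_eq ?_))
      rw [← Real.exp_add]
      congr 1
      push_cast
      ring
    · have h1 := (Finset.mem_Ioc.1 (Finset.mem_filter.1 hq).1).1
      exact (Nat.floor_lt hQpos.le).1 h1
    · have h1 := (Finset.mem_Ioc.1 (Finset.mem_filter.1 hq).1).2
      exact (Nat.le_floor_iff (by positivity)).1 h1
    · have h1 := (Finset.mem_Icc.1 (Finset.mem_filter.1 hs).1).2
      exact (Nat.le_floor_iff (by positivity)).1 h1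
  obtain ⟨P, hPd⟩ : ∃ P : ℕ × ℕ × ℕ → Prop, P = fun z =>
      y₀ < (z.1 : ℝ) * z.2.1 * z.2.2 ∧ (z.1 : ℝ) * z.2.1 * z.2.2 < y₀ + h := ⟨_, rfl⟩
  have hterm : ∀ p ∈ W 1 v, ∀ q ∈ (Ioc ⌊Q⌋₊ ⌊2 * Q⌋₊).filter Nat.Prime, ∀ s ∈ SP y,
      ¬ P (p, q, s) →
      Real.exp (-(T * Real.log (p * q * s / x)) ^ 2 / 4) ≤ Real.exp (-(L ^ 6 / 1024)) := by
    intro p hp q hq s hs hnP
    obtain ⟨hpp, hqp, hsp, -, -, -, -⟩ := hranges p hp q hq s hs
    have hp0 : (0 : ℝ) < p := by exact_mod_cast hpp.pos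
    have hq0 : (0 : ℝ) < q := by exact_mod_cast hqp.pos
    have hs0' : (0 : ℝ) < s := by exact_mod_cast hsp.pos
    have hn0 : (0 : ℝ) < p * q * s := by positivity
    have hdist : h / 2 ≤ |(p : ℝ) * q * s - x| := by
      by_contra hcon
      have hcon' := abs_lt.1 (not_le.1 hcon)
      apply hnP
      rw [hPd]
      exact ⟨by show y₀ < (p : ℝ) * q * s; linarith [hcon'.1],
        by show (p : ℝ) * q * s < y₀ + h; linarith [hcon'.2]⟩
    have hfar := BADI.far hN0 hx0 hx4 hh0 hhN hn0 hdist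
    refine Real.exp_le_exp.2 ?_
    have h1 : L ^ 3 / 16 ≤ |T * Real.log (p * q * s / x)| := by
      rw [abs_mul, abs_of_nonneg (by linarith : (0 : ℝ) ≤ T), ← hTh]
      exact mul_le_mul_of_nonneg_left hfar (by linarith)
    have h2 : (L ^ 3 / 16) ^ 2 ≤ (T * Real.log (p * q * s / x)) ^ 2 := by
      rw [← sq_abs (T * Real.log (p * q * s / x))]
      exact pow_le_pow_left₀ (by positivity) h1 2
    have h3 : (L ^ 3 / 16) ^ 2 = L ^ 6 / 256 := by ring
    rw [h3] at h2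
    linarith
  have hins : ∀ p ∈ W 1 v, ∀ q ∈ (Ioc ⌊Q⌋₊ ⌊2 * Q⌋₊).filter Nat.Prime, ∀ s ∈ SP y,
      P (p, q, s) → Real.log s / (p * q * s) ≤ 2 * L / N := by
    intro p hp q hq s hs hPp
    obtain ⟨hpp, hqp, hsp, -, -, -, hsy⟩ := hranges p hp q hq s hs
    have hs0' : (0 : ℝ) < s := by exact_mod_cast hsp.pos
    rw [hPd] at hPp
    have h1 : y₀ < (p : ℝ) * q * s := hPp.1
    have h2 : N ≤ (p : ℝ) * q * s := by linarith
    have h3 : Real.log s ≤ 2 * L := by
      have h4 : (s : ℝ) ≤ N ^ 2 := hsy.trans (pow_le_pow_left₀ hypos.le hyN 2)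
      have h5 := Real.log_le_log hs0' h4
      rw [Real.log_pow] at h5
      push_cast at h5
      linarith
    exact div_le_div₀ (by positivity) h3 hN0 h2
  have hW := Wx_le (v := v) (Q := Q) (T := T) (x := x) P hypos.le hterm (Real.exp_pos _).le hins
  -- the number of triples inside
  have hcard : ((((W 1 v) ×ˢ ((Ioc ⌊Q⌋₊ ⌊2 * Q⌋₊).filter Nat.Prime) ×ˢ (SP y)).filter P).card : ℝ)
      ≤ 9 * (h / L ^ 8) := by
    have h1 := card_le (((W 1 v) ×ˢ ((Ioc ⌊Q⌋₊ ⌊2 * Q⌋₊).filter Nat.Prime) ×ˢ (SP y)).filter P)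
      (Set3 y₀ h (L ^ (A + 1)) (h / L ^ (A + 5))) (finite_Set3 _ _ _ _) (by
        rintro ⟨p, q, s⟩ hz
        obtain ⟨hz1, hz2⟩ := Finset.mem_filter.1 hz
        obtain ⟨hp, hz3⟩ := Finset.mem_product.1 hz1
        obtain ⟨hq, hs⟩ := Finset.mem_product.1 hz3
        obtain ⟨hpp, hqp, hsp, hpup, hqlo, hqup, hsy⟩ := hranges p hp q hq s hs
        have hp0 : (0 : ℝ) < p := by exact_mod_cast hpp.pos
        have hq0 : (0 : ℝ) < q := by exact_mod_cast hqp.pos
        have hs0' : (0 : ℝ) < s := by exact_mod_cast hsp.pos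
        rw [hPd] at hz2
        have hlow : y₀ < (p : ℝ) * q * s := hz2.1
        have hupp : (p : ℝ) * q * s < y₀ + h := hz2.2
        refine ⟨hpp, hqp, hsp, ?_, ?_, p, q, s, hpp, hqp, hsp, ?_, ?_, ?_, rfl⟩
        · show y₀ < ((p * q * s : ℕ) : ℝ)
          push_cast
          exact hlow
        · show ((p * q * s : ℕ) : ℝ) < y₀ + h
          push_cast
          exact hupp
        · -- p small
          refine hpup.trans ?_
          have h1 : Real.exp 1 * Real.exp v ≤ Real.exp 1 * (Real.exp 1 * L ^ A) :=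
            mul_le_mul_of_nonneg_left hv2 (Real.exp_pos _).le
          refine h1.trans ?_
          rw [Real.rpow_add hL0, Real.rpow_one]
          have h2 : Real.exp 1 * Real.exp 1 ≤ L := by
            have h3 : Real.exp 1 * Real.exp 1 ≤ 2.7182818286 * 2.7182818286 :=
              mul_le_mul he.le he.le (Real.exp_pos _).le (by norm_num)
            norm_num at h3
            linarith
          calc Real.exp 1 * (Real.exp 1 * L ^ A) = (Real.exp 1 * Real.exp 1) * L ^ A := by ring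
            _ ≤ L * L ^ A := mul_le_mul_of_nonneg_right h2 hLA.le
            _ = _ := by ring
        · -- q large
          refine le_trans ?_ (hQ1.1.trans hqlo.le)
          rw [hQ0e, hh]
          apply div_le_div_of_nonneg_left (by positivity) hP
          exact Real.rpow_le_rpow_of_exponent_le hL1 (by linarith)
        · -- s large
          have h1 : N < (Real.exp 1 * Real.exp v) * (2 * Q) * s := by
            calc N ≤ y₀ := hy1
              _ < (p : ℝ) * q * s := hlow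
              _ ≤ (Real.exp 1 * Real.exp v) * (2 * Q) * s := by
                  refine mul_le_mul_of_nonneg_right ?_ hs0'.le
                  exact mul_le_mul hpup hqup hq0.le (by positivity)
          have h2 : y < 2 * Real.exp 1 * s := by
            have h3 : N < (Real.exp v * Q) * (2 * Real.exp 1 * s) := by
              refine h1.trans_le (le_of_eq ?_)
              ring
            have h4 : (Real.exp v * Q) * y < (Real.exp v * Q) * (2 * Real.exp 1 * s) := by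
              rw [hmul]
              exact h3
            exact lt_of_mul_lt_mul_left h4 (by positivity)
          have h3 : r ^ 4 * L ^ 4 < (2 * Real.exp 1 * s) * (2 * Real.exp 1) := by
            have h4 := hylow.trans_lt h2
            rwa [div_lt_iff₀ (by positivity)] at h4
          have h4 : (2 * Real.exp 1) * (2 * Real.exp 1) ≤ 4096 := by
            nlinarith [Real.exp_pos 1]
          have h5 : r ^ 4 * L ^ 4 < 4096 * s := by
            refine h3.trans_le ?_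
            calc (2 * Real.exp 1 * s) * (2 * Real.exp 1)
                = ((2 * Real.exp 1) * (2 * Real.exp 1)) * s := by ring
              _ ≤ 4096 * s := mul_le_mul_of_nonneg_right h4 hs0'.le
          have h6 : r ^ 4 < s := by
            have h7 : r ^ 4 * 4096 ≤ r ^ 4 * L ^ 4 :=
              mul_le_mul_of_nonneg_left hL4 (by positivity)
            linarith
          refine le_trans ?_ h6.le
          rw [div_le_iff₀ (Real.rpow_pos_of_pos hL0 _)]
          have h8 : 1 ≤ L ^ (A + 5) := Real.one_le_rpow hL1 (by linarith)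
          have h9 : h ≤ r ^ 4 := by
            rw [hh]
            exact mul_le_of_le_one_left (by positivity) hδ1
          exact h9.trans (le_mul_of_one_le_right (by positivity) h8))
      (by
        rintro n ⟨-, -, p, q, s, hp, hq, hs, -, -, -, he'⟩
        exact ⟨p, q, s, hp, hq, hs, he'⟩)
    have h2 : ((((W 1 v) ×ˢ ((Ioc ⌊Q⌋₊ ⌊2 * Q⌋₊).filter Nat.Prime) ×ˢ (SP y)).filter P).card : ℝ)
        ≤ 9 * ((Set3 y₀ h (L ^ (A + 1)) (h / L ^ (A + 5))).ncard : ℝ) := by exact_mod_cast h1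
    have h3 : L ^ (8 : ℝ) = L ^ 8 := by
      rw [← Real.rpow_natCast]
      norm_num
    rw [h3] at hbad
    linarith
  obtain ⟨m, hm⟩ : ∃ m : ℝ, m =
      ((((W 1 v) ×ˢ ((Ioc ⌊Q⌋₊ ⌊2 * Q⌋₊).filter Nat.Prime) ×ˢ (SP y)).filter P).card : ℝ) :=
    ⟨_, rfl⟩
  rw [← hm] at hW hcard
  obtain ⟨Sp, hSp⟩ : ∃ Sp : ℝ, Sp = ∑ p ∈ W 1 v, 1 / (p : ℝ) := ⟨_, rfl⟩
  obtain ⟨Sq, hSq⟩ : ∃ Sq : ℝ, Sq = ∑ q ∈ (Ioc ⌊Q⌋₊ ⌊2 * Q⌋₊).filter Nat.Prime, 1 / (q : ℝ) :=
    ⟨_, rfl⟩
  rw [← hSp, ← hSq] at hW hmt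
  have hSp0 : 0 ≤ Sp := by
    rw [hSp]
    exact Finset.sum_nonneg fun p _ => by positivity
  have hSq0 : 0 ≤ Sq := by
    rw [hSq]
    exact Finset.sum_nonneg fun p _ => by positivity
  have hpi : √Real.pi ≤ 2 := by
    rw [Real.sqrt_le_left (by norm_num)]
    linarith [Real.pi_lt_four]
  have hsmall : √Real.pi * T * (y ^ 2 * Real.exp (-(L ^ 6 / 1024))) ≤ c / 2 := by
    have h2 : Real.exp (3 * L) = N ^ 3 := by
      have h3 : Real.exp L = N := by
        rw [hL]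
        exact Real.exp_log hN0
      have h4 : Real.exp (3 * L) = Real.exp L ^ 3 := by
        rw [← Real.exp_nat_mul]
        norm_num
      rw [h4, h3]
    have h3 : Real.exp (3 * L - L ^ 6 / 1024) = N ^ 3 * Real.exp (-(L ^ 6 / 1024)) := by
      rw [← h2, ← Real.exp_add]
      congr 1
    rw [h3] at hE
    have h4 : T * y ^ 2 ≤ N ^ 3 := by
      have h5 : y ^ 2 ≤ N ^ 2 := pow_le_pow_left₀ hypos.le hyN 2
      calc T * y ^ 2 ≤ N * N ^ 2 := mul_le_mul hTN h5 (by positivity) hN0.le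
        _ = N ^ 3 := by ring
    have h5 : √Real.pi * (T * y ^ 2) ≤ 2 * N ^ 3 :=
      mul_le_mul hpi h4 (by positivity) (by norm_num)
    calc √Real.pi * T * (y ^ 2 * Real.exp (-(L ^ 6 / 1024)))
        = (√Real.pi * (T * y ^ 2)) * Real.exp (-(L ^ 6 / 1024)) := by ring
      _ ≤ 2 * N ^ 3 * Real.exp (-(L ^ 6 / 1024)) :=
          mul_le_mul_of_nonneg_right h5 (Real.exp_pos _).le
      _ ≤ c / 2 := by linarith
  have hinside : √Real.pi * T * (2 * L / N * m) ≤ L ^ (-(3 : ℝ)) := by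
    have hm0 : 0 ≤ m := by
      rw [hm]
      positivity
    have h1 : T * (2 * L / N * m) ≤ 18 / L ^ 4 := by
      calc T * (2 * L / N * m) ≤ T * (2 * L / N * (9 * (h / L ^ 8))) := by
            refine mul_le_mul_of_nonneg_left ?_ (by linarith)
            exact mul_le_mul_of_nonneg_left hcard (by positivity)
        _ = 18 / L ^ 4 := by
            rw [hTe, hh, ← hr8]
            field_simp
            ring
    have h2 : √Real.pi * (T * (2 * L / N * m)) ≤ 2 * (18 / L ^ 4) :=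
      mul_le_mul hpi h1 (by positivity) (by norm_num)
    have h3 : L ^ (-(3 : ℝ)) = 1 / L ^ 3 := by
      rw [Real.rpow_neg hL0.le, one_div]
      congr 1
      rw [← Real.rpow_natCast]
      norm_num
    rw [h3]
    have h4 : 2 * (18 / L ^ 4) ≤ 1 / L ^ 3 := by
      have h5 : 2 * (18 / L ^ 4) = 36 / L ^ 4 := by ring
      rw [h5, div_le_div_iff₀ (by positivity) (by positivity)]
      have h6 : L ^ 4 = L * L ^ 3 := by ring
      rw [h6]
      have := mul_le_mul_of_nonneg_right hL36 (show 0 ≤ L ^ 3 by positivity)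
      linarith
    calc √Real.pi * T * (2 * L / N * m) = √Real.pi * (T * (2 * L / N * m)) := by ring
      _ ≤ 2 * (18 / L ^ 4) := h2
      _ ≤ _ := h4
  have hfin : √Real.pi * T * Wx v Q y T x ≤ c / 2 * Sp * Sq + L ^ (-(3 : ℝ)) := by
    calc √Real.pi * T * Wx v Q y T x
        ≤ √Real.pi * T * (Sp * Sq * (y ^ 2 * Real.exp (-(L ^ 6 / 1024))) + 2 * L / N * m) :=
          mul_le_mul_of_nonneg_left hW (by positivity)
      _ = Sp * Sq * (√Real.pi * T * (y ^ 2 * Real.exp (-(L ^ 6 / 1024)))) +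
          √Real.pi * T * (2 * L / N * m) := by ring
      _ ≤ Sp * Sq * (c / 2) + L ^ (-(3 : ℝ)) :=
          add_le_add (mul_le_mul_of_nonneg_left hsmall (by positivity)) hinside
      _ = _ := by ring
  rw [← hv, ← hy, ← hT, ← hSp, ← hSq, ← hx]
  linarith

end Pool.Agent.OX
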