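import Mathlib
import Pool.Agent.Lib.OX.Defs3

/-!
# PROJECT OX, second part: the statement uniform in `k` and `δ`.  helper31.
-/

set_option autoImplicit false

namespace Pool.Agent.OX

/-- THE THEOREM: for all but `8^k (log X)^C / δ^4` integers `x ≤ X` every interval of length `δ x`
inside `(x² - x, x² + x)` contains at least `δ x / (2^k (log x)^C)` integers with exactly `k` prime
factors. -/
def FinalV : Prop := ∃ C : ℝ, 0 < C ∧ ∃ X₀ : ℕ, ∀ (k X : ℕ) (δ : ℝ), 3 ≤ k → X₀ ≤ X →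
  0 < δ → δ ≤ 1 →
  ({x : ℕ | 1 < x ∧ x ≤ X ∧ ¬ ∀ y : ℝ, (x : ℝ) ^ 2 - x ≤ y → y + δ * x ≤ (x : ℝ) ^ 2 + x →
      δ * x / (2 ^ k * (Real.log x) ^ C) ≤
        ((SetK k y (δ * x) ((Real.log x) ^ C)
          (δ * x / (2 ^ k * (Real.log x) ^ C))).ncard : ℝ)}.ncard : ℝ) ≤
    8 ^ k * (Real.log X) ^ C / δ ^ 4

end Pool.Agent.OX
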