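import Mathlib
import Pool.Agent.Lib.OX.CORE2
import Pool.Agent.Lib.OX.KF
import Pool.Agent.Lib.OX.Defs4

/-!
# PROJECT OX, row FIN2: from well spaced bad points to Oppermann's intervals, uniformly in the
length and in the number of prime factors.  helper31 (after row FIN of helper55).
-/

set_option autoImplicit false

namespace Pool.Agent.OX

open Finset

namespace FIN2r

theorem logs {x : ℕ} (hx : 100 ≤ x) {j : ℕ} {M N r : ℝ} (hM1 : M ≤ (x : ℝ) ^ 2 - x)
    (hM2 : (x : ℝ) ^ 2 - x < 2 * M) (hN : N = M / 2 ^ j) (hN3 : 3 ≤ N) (hr : r = √(2 ^ j)) :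
    2 ≤ Real.log x ∧ Real.log N ≤ 2 * Real.log x ∧ 1 ≤ Real.log N ∧ √N ≤ x / r ∧
      x / (2 * r) ≤ √N ∧ ((x : ℝ) ^ 2 + x) / 2 ^ j ≤ 3 * N ∧ N ≤ ((x : ℝ) ^ 2 - x) / 2 ^ j ∧
      1 ≤ r ∧ r * r = 2 ^ j := by
  have hx' : (100 : ℝ) ≤ x := by exact_mod_cast hx
  have hxpos : (0 : ℝ) < x := by linarith
  have h2j : (1 : ℝ) ≤ 2 ^ j := one_le_pow₀ (by norm_num)
  have h2j0 : (0 : ℝ) < 2 ^ j := by positivity
  have hrr : r * r = 2 ^ j := by rw [hr]; exact Real.mul_self_sqrt h2j0.le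
  have hr1 : 1 ≤ r := by rw [hr]; exact Real.one_le_sqrt.2 h2j
  have hr0 : 0 < r := by linarith
  have hNle : N ≤ ((x : ℝ) ^ 2 - x) / 2 ^ j := by
    rw [hN]
    exact div_le_div_of_nonneg_right hM1 h2j0.le
  have hNx : N ≤ (x : ℝ) ^ 2 := by
    refine hNle.trans ((div_le_self (by nlinarith) h2j).trans (by linarith))
  have e3 := Real.exp_one_lt_d9
  refine ⟨?_, ?_, ?_, ?_, ?_, ?_, hNle, hr1, hrr⟩
  · rw [Real.le_log_iff_exp_le hxpos]
    have h1 : Real.exp 2 = Real.exp 1 * Real.exp 1 := by rw [← Real.exp_add]; norm_num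
    have h3 := Real.exp_pos 1
    nlinarith
  · have h1 : Real.log N ≤ Real.log ((x : ℝ) ^ 2) := Real.log_le_log (by linarith) hNx
    rw [Real.log_pow] at h1
    exact_mod_cast h1
  · rw [Real.le_log_iff_exp_le (by linarith)]
    linarith
  · rw [Real.sqrt_le_left (by positivity), div_pow, pow_two r, hrr, le_div_iff₀ h2j0]
    rw [le_div_iff₀ h2j0] at hNle
    linarith
  · refine Real.le_sqrt_of_sq_le ?_
    rw [div_pow, mul_pow, pow_two r, hrr, div_le_iff₀ (by positivity), hN]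
    have : M / 2 ^ j * (2 ^ 2 * 2 ^ j) = 4 * M := by field_simp; norm_num
    rw [this]
    nlinarith
  · rw [hN, div_le_iff₀ h2j0]
    have : 3 * (M / 2 ^ j) * 2 ^ j = 3 * M := by field_simp
    rw [this]
    nlinarith

theorem SetK.finite (k : ℕ) (y h Z w : ℝ) : (SetK k y h Z w).Finite := by
  refine (Set.finite_Iic ⌊y + h⌋₊).subset fun n hn => ?_
  rw [Set.mem_Iic]
  exact Nat.le_floor hn.2.1.le

/-- an interval with few `2^j p q s` gives a scaled interval with few `p q s`. -/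
theorem few {C : ℝ} (hC : 0 < C) {x : ℕ} (hx : 100 ≤ x) {j : ℕ} {M N r δ : ℝ}
    (hδ : 0 < δ) (hM1 : M ≤ (x : ℝ) ^ 2 - x)
    (hM2 : (x : ℝ) ^ 2 - x < 2 * M) (hN : N = M / 2 ^ j) (hN3 : 3 ≤ N) (hr : r = √(2 ^ j))
    {y : ℝ} (h : ((SetK (j + 3) y (δ * x) ((Real.log x) ^ (2 * C + 16))
      (δ * x / (2 ^ (j + 3) * (Real.log x) ^ (2 * C + 16)))).ncard : ℝ) <
        δ * x / (2 ^ (j + 3) * (Real.log x) ^ (2 * C + 16))) :
    ((Set3 (y / 2 ^ j) (δ / r * √N) ((Real.log N) ^ C)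
      (δ / r * √N / (Real.log N) ^ C)).ncard : ℝ) ≤ δ / r * √N / (Real.log N) ^ (8 : ℝ) := by
  obtain ⟨l2, lN, l1, s1, s2, -, -, r1, rr⟩ := logs hx hM1 hM2 hN hN3 hr
  have hx' : (100 : ℝ) ≤ x := by exact_mod_cast hx
  have hxpos : (0 : ℝ) < x := by linarith
  have h2j0 : (0 : ℝ) < 2 ^ j := by positivity
  have hr0 : 0 < r := by linarith
  set l := Real.log x with hl
  set L := Real.log N with hL
  have hl0 : 0 < l := by linarith
  have hL0 : 0 < L := by linarith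
  set h' := δ / r * √N with hh'
  have hh1 : h' ≤ δ * x / 2 ^ j := by
    calc h' ≤ δ / r * (x / r) := mul_le_mul_of_nonneg_left s1 (by positivity)
      _ = δ * x / 2 ^ j := by rw [← rr]; field_simp
  have hh2 : δ * x / (2 * 2 ^ j) ≤ h' := by
    calc δ * x / (2 * 2 ^ j) = δ / r * (x / (2 * r)) := by rw [← rr]; field_simp
      _ ≤ h' := mul_le_mul_of_nonneg_left s2 (by positivity)
  have hLl : L ≤ l ^ (2 : ℝ) := by
    rw [Real.rpow_two]
    nlinarith
  have hp1 : L ^ C ≤ l ^ (2 * C) := by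
    have h8 : L ^ C ≤ (l ^ (2 : ℝ)) ^ C := Real.rpow_le_rpow hL0.le hLl hC.le
    rwa [← Real.rpow_mul hl0.le] at h8
  have hp8 : L ^ (8 : ℝ) ≤ l ^ (16 : ℝ) := by
    have h8 : L ^ (8 : ℝ) ≤ (l ^ (2 : ℝ)) ^ (8 : ℝ) := Real.rpow_le_rpow hL0.le hLl (by norm_num)
    rw [← Real.rpow_mul hl0.le] at h8
    norm_num at h8 ⊢
    exact h8
  have hl1 : 1 ≤ l := by linarith
  have hC2 : l ^ (2 * C) ≤ l ^ (2 * C + 16) := Real.rpow_le_rpow_of_exponent_le hl1 (by linarith)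
  have hC16 : l ^ (16 : ℝ) ≤ l ^ (2 * C + 16) :=
    Real.rpow_le_rpow_of_exponent_le hl1 (by linarith)
  have hlC0 : 0 < l ^ (2 * C + 16) := Real.rpow_pos_of_pos hl0 _
  have hLC0 : 0 < L ^ C := Real.rpow_pos_of_pos hL0 _
  have hL80 : 0 < L ^ (8 : ℝ) := Real.rpow_pos_of_pos hL0 _
  have hδx : 0 < δ * x := by positivity
  -- comparison of the thresholds
  have hw : δ * x / (2 ^ (j + 3) * l ^ (2 * C + 16)) ≤ h' / L ^ C := by
    calc δ * x / (2 ^ (j + 3) * l ^ (2 * C + 16)) ≤ δ * x / ((2 * 2 ^ j) * L ^ C) := by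
          refine div_le_div_of_nonneg_left hδx.le (by positivity) ?_
          refine mul_le_mul ?_ (hp1.trans hC2) hLC0.le (by positivity)
          rw [pow_succ, pow_succ, pow_succ]
          nlinarith
      _ = δ * x / (2 * 2 ^ j) / L ^ C := by rw [div_div]
      _ ≤ h' / L ^ C := div_le_div_of_nonneg_right hh2 hLC0.le
  have hw8 : δ * x / (2 ^ (j + 3) * l ^ (2 * C + 16)) ≤ h' / L ^ (8 : ℝ) := by
    calc δ * x / (2 ^ (j + 3) * l ^ (2 * C + 16)) ≤ δ * x / ((2 * 2 ^ j) * L ^ (8 : ℝ)) := by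
          refine div_le_div_of_nonneg_left hδx.le (by positivity) ?_
          refine mul_le_mul ?_ (hp8.trans hC16) hL80.le (by positivity)
          rw [pow_succ, pow_succ, pow_succ]
          nlinarith
      _ = δ * x / (2 * 2 ^ j) / L ^ (8 : ℝ) := by rw [div_div]
      _ ≤ h' / L ^ (8 : ℝ) := div_le_div_of_nonneg_right hh2 hL80.le
  refine le_trans ?_ (h.le.trans hw8)
  rw [Nat.cast_le]
  refine Set.ncard_le_ncard_of_injOn (fun n => 2 ^ j * n) ?_ ?_ (SetK.finite _ _ _ _ _)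
  · rintro n ⟨n1, n2, p, q, s, hp, hq, hs, e1, e2, e3, rfl⟩
    refine ⟨?_, ?_, ?_, p, q, s, hp, hq, hs, e1.trans (hp1.trans hC2), hw.trans e2,
      hw.trans e3, ?_⟩
    · rw [div_lt_iff₀ h2j0] at n1
      push_cast at n1 ⊢
      linarith
    · have h5 : ((p * q * s : ℕ) : ℝ) < y / 2 ^ j + δ * x / 2 ^ j := n2.trans_le (by linarith)
      rw [← add_div, lt_div_iff₀ h2j0] at h5
      push_cast at h5 ⊢
      linarith
    · exact KF.card3 hp hq hs j
    · simp
  · intro a _ b _ hab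
    exact Nat.eq_of_mul_eq_mul_left (by positivity) hab

/-- the bad numbers in one dyadic range and one parity class. -/
theorem block {C : ℝ} (hC : 0 < C) {j : ℕ} {M N r δ : ℝ} (hδ : 0 < δ) (hδ1 : δ ≤ 1)
    (hN : N = M / 2 ^ j) (hN3 : 3 ≤ N) (hr : r = √(2 ^ j))
    (hcore : ∀ Y : Finset ℝ, (∀ y ∈ Y, N ≤ y ∧ y ≤ 3 * N) →
      (∀ y ∈ Y, ∀ y' ∈ Y, y ≠ y' → δ / r * √N / Real.log N ≤ |y - y'|) →
      (∀ y ∈ Y, ((Set3 y (δ / r * √N) ((Real.log N) ^ C)
        (δ / r * √N / (Real.log N) ^ C)).ncard : ℝ) ≤ δ / r * √N / (Real.log N) ^ (8 : ℝ)) →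
      (Y.card : ℝ) ≤ (Real.log N) ^ C / (δ / r) ^ 4) {X : ℕ} (B : Finset ℕ) (b : ℕ)
    (hB : ∀ x ∈ B, 100 ≤ x ∧ x ≤ X ∧ x % 2 = b ∧ M ≤ (x : ℝ) ^ 2 - x ∧
      (x : ℝ) ^ 2 - x < 2 * M ∧ ∃ y : ℝ, (x : ℝ) ^ 2 - x ≤ y ∧
        y + δ * x ≤ (x : ℝ) ^ 2 + x ∧ ((SetK (j + 3) y (δ * x) ((Real.log x) ^ (2 * C + 16))
      (δ * x / (2 ^ (j + 3) * (Real.log x) ^ (2 * C + 16)))).ncard : ℝ) <
        δ * x / (2 ^ (j + 3) * (Real.log x) ^ (2 * C + 16))) :
    (B.card : ℝ) ≤ 4 ^ j * (2 * Real.log X) ^ C / δ ^ 4 := by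
  classical
  rcases B.eq_empty_or_nonempty with rfl | ⟨x₁, hx₁⟩
  · simp only [Finset.card_empty, Nat.cast_zero]
    have : 0 ≤ Real.log X := Real.log_natCast_nonneg X
    positivity
  choose! yy hyy using fun x (hx : x ∈ B) => (hB x hx).2.2.2.2.2
  have h2j0 : (0 : ℝ) < 2 ^ j := by positivity
  have hsep : ∀ x ∈ B, ∀ x' ∈ B, x < x' →
      δ / r * √N / Real.log N ≤ yy x' / 2 ^ j - yy x / 2 ^ j := by
    intro x hx x' hx' hlt
    obtain ⟨h100, -, hpar, hM1, hM2, -⟩ := hB x hx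
    obtain ⟨-, -, hpar', -, -, -⟩ := hB x' hx'
    obtain ⟨l2, lN, l1, s1, s2, -, -, r1, rr⟩ := logs h100 hM1 hM2 hN hN3 hr
    have hr0 : 0 < r := by linarith
    have h3 : x + 2 ≤ x' := by omega
    have h3' : (x : ℝ) + 2 ≤ x' := by exact_mod_cast h3
    have hx0 : (100 : ℝ) ≤ x := by exact_mod_cast h100
    have h4 : 0 ≤ δ * x := by positivity
    have h5 := (hyy x hx).2.1
    have h6 := (hyy x' hx').1
    have h7 : δ / r * √N / Real.log N ≤ x / 2 ^ j := by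
      calc δ / r * √N / Real.log N ≤ δ / r * √N := div_le_self (by positivity) l1
        _ ≤ δ / r * (x / r) := mul_le_mul_of_nonneg_left s1 (by positivity)
        _ = δ * x / 2 ^ j := by rw [← rr]; field_simp
        _ ≤ x / 2 ^ j := div_le_div_of_nonneg_right (by nlinarith) h2j0.le
    refine h7.trans ?_
    rw [← sub_div]
    refine div_le_div_of_nonneg_right ?_ h2j0.le
    nlinarith
  have hpos : 0 < δ / r * √N / Real.log N := by
    obtain ⟨h100, -, hpar, hM1, hM2, -⟩ := hB x₁ hx₁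
    obtain ⟨l2, lN, l1, s1, s2, -, -, r1, rr⟩ := logs h100 hM1 hM2 hN hN3 hr
    have : 0 < √N := Real.sqrt_pos.2 (by linarith)
    positivity
  have hinj : Set.InjOn (fun x => yy x / 2 ^ j) B := by
    intro x hx x' hx' he
    by_contra hne
    simp only at he
    rcases lt_or_gt_of_ne hne with h | h
    · have := hsep x hx x' hx' h
      rw [he] at this
      linarith
    · have := hsep x' hx' x hx h
      rw [he] at this
      linarith
  have key := hcore (B.image (fun x => yy x / 2 ^ j)) ?_ ?_ ?_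
  · rw [Finset.card_image_of_injOn hinj] at key
    obtain ⟨h100, hxX, hpar, hM1, hM2, -⟩ := hB x₁ hx₁
    obtain ⟨l2, lN, l1, s1, s2, -, -, r1, rr⟩ := logs h100 hM1 hM2 hN hN3 hr
    have hx0 : (100 : ℝ) ≤ x₁ := by exact_mod_cast h100
    have hr0 : 0 < r := by linarith
    refine key.trans ?_
    have h8 : Real.log x₁ ≤ Real.log X := Real.log_le_log (by linarith) (by exact_mod_cast hxX)
    have h9 : (Real.log N) ^ C ≤ (2 * Real.log X) ^ C :=
      Real.rpow_le_rpow (by linarith) (by linarith) hC.le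
    have h10 : (4 : ℝ) ^ j = r ^ 4 := by
      have : r ^ 4 = (r * r) * (r * r) := by ring
      rw [this, rr, ← mul_pow]
      norm_num
    calc (Real.log N) ^ C / (δ / r) ^ 4 ≤ (2 * Real.log X) ^ C / (δ / r) ^ 4 :=
          div_le_div_of_nonneg_right h9 (by positivity)
      _ = 4 ^ j * (2 * Real.log X) ^ C / δ ^ 4 := by
          rw [h10]
          field_simp
  · intro y hy
    obtain ⟨x, hx, rfl⟩ := Finset.mem_image.1 hy
    obtain ⟨h100, -, -, hM1, hM2, -⟩ := hB x hx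
    obtain ⟨l2, lN, l1, s1, s2, u1, u2, r1, rr⟩ := logs h100 hM1 hM2 hN hN3 hr
    have hx0 : (100 : ℝ) ≤ x := by exact_mod_cast h100
    have h4 : 0 ≤ δ * x := by positivity
    have h5 := (hyy x hx).2.1
    have h6 := (hyy x hx).1
    refine ⟨u2.trans (div_le_div_of_nonneg_right h6 h2j0.le), le_trans ?_ u1⟩
    exact div_le_div_of_nonneg_right (by linarith) h2j0.le
  · intro y hy y' hy' hne
    obtain ⟨x, hx, rfl⟩ := Finset.mem_image.1 hy
    obtain ⟨x', hx', rfl⟩ := Finset.mem_image.1 hy'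
    have hne' : x ≠ x' := by rintro rfl; exact hne rfl
    rcases lt_or_gt_of_ne hne' with h | h
    · rw [abs_sub_comm]
      exact (hsep x hx x' hx' h).trans (le_abs_self _)
    · exact (hsep x' hx' x hx h).trans (le_abs_self _)
  · intro y hy
    obtain ⟨x, hx, rfl⟩ := Finset.mem_image.1 hy
    obtain ⟨h100, -, -, hM1, hM2, -⟩ := hB x hx
    exact few hC h100 hδ hM1 hM2 hN hN3 hr (hyy x hx).2.2

end FIN2r

open FIN2r in
/-- **Row FIN2.** -/
theorem fin2 (hC : CORE2) : FinalV := by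
  classical
  obtain ⟨C, hC0, N₀, hcore⟩ := hC
  set n₀ : ℝ := max N₀ 3 with hn₀
  have hn3 : 3 ≤ n₀ := le_max_right _ _
  set D : ℝ := 120 + 16 * n₀ + 8 * 2 ^ C with hD
  refine ⟨2 * C + 16, by linarith, ⌈Real.exp (D + 10)⌉₊, fun k X δ hk hX hδ hδ1 => ?_⟩
  obtain ⟨j, rfl⟩ : ∃ j, k = j + 3 := ⟨k - 3, by omega⟩
  have h2C : 0 < (2 : ℝ) ^ C := Real.rpow_pos_of_pos (by norm_num) _
  have hD0 : 0 < D := by positivity
  have hXe : Real.exp (D + 10) ≤ X := (Nat.le_ceil _).trans (by exact_mod_cast hX)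
  have hXpos : (0 : ℝ) < X := (Real.exp_pos _).trans_le hXe
  have hLX : D + 10 ≤ Real.log X := by rwa [Real.le_log_iff_exp_le hXpos]
  set L := Real.log X with hL
  set r : ℝ := √(2 ^ j) with hr
  have h2j0 : (0 : ℝ) < 2 ^ j := by positivity
  have h2j1 : (1 : ℝ) ≤ 2 ^ j := one_le_pow₀ (by norm_num)
  have hrr : r * r = 2 ^ j := Real.mul_self_sqrt h2j0.le
  have hr1 : 1 ≤ r := Real.one_le_sqrt.2 h2j1
  have hr0 : 0 < r := by linarith
  have hδ4 : δ ^ 4 ≤ 1 := pow_le_one₀ hδ.le hδ1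
  have hδ40 : 0 < δ ^ 4 := by positivity
  set S : Set ℕ := {x : ℕ | 1 < x ∧ x ≤ X ∧ ¬ ∀ y : ℝ, (x : ℝ) ^ 2 - x ≤ y →
      y + δ * x ≤ (x : ℝ) ^ 2 + x → δ * x / (2 ^ (j + 3) * (Real.log x) ^ (2 * C + 16)) ≤
        ((SetK (j + 3) y (δ * x) ((Real.log x) ^ (2 * C + 16))
          (δ * x / (2 ^ (j + 3) * (Real.log x) ^ (2 * C + 16)))).ncard : ℝ)} with hS
  set B : Finset ℕ := (Finset.range (X + 1)).filter (fun x => x ∈ S) with hBdef
  have hSB : S = (B : Set ℕ) := by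
    ext x
    rw [hBdef, Finset.coe_filter]
    refine ⟨fun h => ⟨Finset.mem_range.2 ?_, h⟩, fun h => h.2⟩
    have := h.2.1
    omega
  rw [hSB, Set.ncard_coe_finset]
  set KK := Nat.log 2 (X ^ 2) + 1 with hKK
  set Z : ℝ := 100 + 2 * 2 ^ j * n₀ + 2 * 8 ^ j / δ ^ 4 with hZ
  set z₀ : ℕ := ⌈Z⌉₊ with hz₀
  set Gd : ℕ → Prop := fun a => n₀ ≤ (2 : ℝ) ^ a / 2 ^ j ∧
    ((2 : ℝ) ^ a / 2 ^ j) ^ (-(1 / 8) : ℝ) ≤ δ / r with hGd
  have hcover : B ⊆ Finset.range z₀ ∪ (Finset.range KK ×ˢ Finset.range 2).biUnion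
      (fun kb => B.filter (fun x => 100 ≤ x ∧ Gd kb.1 ∧ x % 2 = kb.2 ∧ 2 ^ kb.1 ≤ x ^ 2 - x ∧
        x ^ 2 - x < 2 ^ (kb.1 + 1))) := by
    intro x hx
    rcases lt_or_ge x z₀ with h | h
    · exact Finset.mem_union_left _ (Finset.mem_range.2 h)
    · refine Finset.mem_union_right _ ?_
      rw [Finset.mem_biUnion]
      have hxX : x ≤ X := by
        have := Finset.mem_range.1 (Finset.mem_filter.1 hx).1
        omega
      have hZx : Z ≤ x := (Nat.le_ceil Z).trans (by exact_mod_cast h)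
      have p1 : 0 ≤ 2 * 2 ^ j * n₀ := by positivity
      have p2 : 0 ≤ 2 * 8 ^ j / δ ^ 4 := by positivity
      have hx100 : (100 : ℝ) ≤ x := by linarith
      have h100 : 100 ≤ x := by exact_mod_cast hx100
      have hle : x ≤ x ^ 2 := by rw [pow_two]; exact Nat.le_mul_self x
      have hne : x ^ 2 - x ≠ 0 := by
        have : x * 2 ≤ x ^ 2 := by rw [pow_two]; exact Nat.mul_le_mul_left _ (by omega)
        omega
      set a := Nat.log 2 (x ^ 2 - x) with ha
      have a1 : 2 ^ a ≤ x ^ 2 - x := Nat.pow_log_le_self 2 hne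
      have a2 : x ^ 2 - x < 2 ^ (a + 1) := Nat.lt_pow_succ_log_self (by norm_num) _
      have hcast : ((x ^ 2 - x : ℕ) : ℝ) = (x : ℝ) ^ 2 - x := by
        rw [Nat.cast_sub hle, Nat.cast_pow]
      have a2' : (x : ℝ) ^ 2 - x < 2 * 2 ^ a := by
        rw [← hcast]
        have h6 : ((x ^ 2 - x : ℕ) : ℝ) < ((2 ^ (a + 1) : ℕ) : ℝ) := by exact_mod_cast a2
        refine h6.trans_le ?_
        push_cast
        rw [pow_succ]
        linarith
      have a3 : (x : ℝ) ^ 2 < 4 * 2 ^ a := by nlinarith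
      set N : ℝ := 2 ^ a / 2 ^ j with hNdef
      have hN0 : 0 < N := by positivity
      have a4 : (x : ℝ) ^ 2 < 4 * (2 ^ j * N) := by
        have : (2 : ℝ) ^ j * N = 2 ^ a := by rw [hNdef]; field_simp
        rwa [this]
      refine ⟨(a, x % 2), ?_, ?_⟩
      · rw [Finset.mem_product, Finset.mem_range, Finset.mem_range]
        refine ⟨?_, Nat.mod_lt _ (by norm_num)⟩
        have h3 : x ^ 2 - x ≤ X ^ 2 := (Nat.sub_le _ _).trans (Nat.pow_le_pow_left hxX 2)
        have := Nat.log_mono_right (b := 2) h3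
        change Nat.log 2 (x ^ 2 - x) < KK
        omega
      · rw [Finset.mem_filter]
        refine ⟨hx, h100, ⟨?_, ?_⟩, rfl, a1, a2⟩
        · -- N is large
          change n₀ ≤ N
          by_contra hcon
          rw [not_le] at hcon
          have h7 : (2 * 2 ^ j * n₀) ^ 2 ≤ (x : ℝ) ^ 2 := by
            refine pow_le_pow_left₀ p1 (by linarith) 2
          have h8 : 4 * (2 ^ j * N) < 4 * (2 ^ j * n₀) := by gcongr
          have h9 : 4 * (2 ^ j * n₀) ≤ (2 * 2 ^ j * n₀) ^ 2 := by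
            have h10 : 1 ≤ 2 ^ j * n₀ := by nlinarith
            nlinarith
          linarith
        · -- δ' is large
          change N ^ (-(1 / 8) : ℝ) ≤ δ / r
          by_contra hcon
          rw [not_le] at hcon
          have hN8 : N * (δ / r) ^ 8 < 1 := by
            have h7 : (δ / r) ^ 8 < (N ^ (-(1 / 8) : ℝ)) ^ 8 :=
              pow_lt_pow_left₀ hcon (by positivity) (by norm_num)
            have h8 : (N ^ (-(1 / 8) : ℝ)) ^ 8 = N⁻¹ := by
              rw [← Real.rpow_natCast, ← Real.rpow_mul hN0.le]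
              norm_num
              rw [Real.rpow_neg_one]
            rw [h8] at h7
            calc N * (δ / r) ^ 8 < N * N⁻¹ := mul_lt_mul_of_pos_left h7 hN0
              _ = 1 := mul_inv_cancel₀ hN0.ne'
          have hr8 : r ^ 8 = (2 ^ j) ^ 4 := by
            rw [← hrr]; ring
          have h7 : N * δ ^ 8 < (2 ^ j) ^ 4 := by
            have h8 : N * (δ / r) ^ 8 = N * δ ^ 8 / r ^ 8 := by rw [div_pow]; ring
            rw [h8, hr8, div_lt_one (by positivity)] at hN8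
            exact hN8
          have h8 : (2 * 8 ^ j / δ ^ 4) ^ 2 ≤ (x : ℝ) ^ 2 :=
            pow_le_pow_left₀ p2 (by linarith) 2
          have h9 : (2 * 8 ^ j / δ ^ 4) ^ 2 = 4 * (2 ^ j) ^ 6 / δ ^ 8 := by
            have h10 : (8 : ℝ) ^ j = (2 ^ j) ^ 3 := by
              rw [← pow_mul, mul_comm, pow_mul]; norm_num
            rw [h10]
            field_simp
            ring
          rw [h9, div_le_iff₀ (by positivity)] at h8
          have h10 : (x : ℝ) ^ 2 * δ ^ 8 < 4 * 2 ^ j * (2 ^ j) ^ 4 := by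
            calc (x : ℝ) ^ 2 * δ ^ 8 < 4 * (2 ^ j * N) * δ ^ 8 :=
                  mul_lt_mul_of_pos_right a4 (by positivity)
              _ = 4 * 2 ^ j * (N * δ ^ 8) := by ring
              _ < 4 * 2 ^ j * (2 ^ j) ^ 4 := mul_lt_mul_of_pos_left h7 (by positivity)
          have h11 : 4 * 2 ^ j * ((2 : ℝ) ^ j) ^ 4 ≤ 4 * (2 ^ j) ^ 6 := by
            have h12 : ((2 : ℝ) ^ j) ^ 5 ≤ (2 ^ j) ^ 6 :=
              pow_le_pow_right₀ h2j1 (by norm_num)
            calc 4 * 2 ^ j * ((2 : ℝ) ^ j) ^ 4 = 4 * (2 ^ j) ^ 5 := by ring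
              _ ≤ _ := by linarith
          linarith
  have hpiece : ∀ kb ∈ Finset.range KK ×ˢ Finset.range 2,
      ((B.filter (fun x => 100 ≤ x ∧ Gd kb.1 ∧ x % 2 = kb.2 ∧ 2 ^ kb.1 ≤ x ^ 2 - x ∧
        x ^ 2 - x < 2 ^ (kb.1 + 1))).card : ℝ) ≤ 4 ^ j * (2 * L) ^ C / δ ^ 4 := by
    intro kb _
    by_cases hG : Gd kb.1
    · refine block hC0 (M := (2 : ℝ) ^ kb.1) (N := (2 : ℝ) ^ kb.1 / 2 ^ j) (r := r) hδ hδ1 rfl
        (hn3.trans hG.1) hr ?_ _ kb.2 ?_
      · intro Y h1 h2 h3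
        refine hcore (δ / r) _ ((le_max_left _ _).trans hG.1) hG.2 ?_ Y h1 h2 h3
        rw [div_le_one hr0]
        linarith
      · intro x hx
        obtain ⟨hxB, h100, -, hpar, hk1, hk2⟩ := Finset.mem_filter.1 hx
        obtain ⟨hxr, hxS⟩ := Finset.mem_filter.1 hxB
        have hle : x ≤ x ^ 2 := by rw [pow_two]; exact Nat.le_mul_self x
        have hcast : ((x ^ 2 - x : ℕ) : ℝ) = (x : ℝ) ^ 2 - x := by
          rw [Nat.cast_sub hle, Nat.cast_pow]
        refine ⟨h100, by have := Finset.mem_range.1 hxr; omega, hpar, ?_, ?_, ?_⟩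
        · rw [← hcast]
          exact_mod_cast hk1
        · rw [← hcast]
          have h6 : ((x ^ 2 - x : ℕ) : ℝ) < ((2 ^ (kb.1 + 1) : ℕ) : ℝ) := by exact_mod_cast hk2
          refine h6.trans_le ?_
          push_cast
          rw [pow_succ]
          linarith
        · have h7 := hxS.2.2
          push Not at h7
          obtain ⟨y, hy1, hy2, hy3⟩ := h7
          exact ⟨y, hy1, hy2, hy3⟩
    · have h8 : B.filter (fun x => 100 ≤ x ∧ Gd kb.1 ∧ x % 2 = kb.2 ∧ 2 ^ kb.1 ≤ x ^ 2 - x ∧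
        x ^ 2 - x < 2 ^ (kb.1 + 1)) = ∅ := by
        refine Finset.filter_eq_empty_iff.2 fun x _ hx => hG hx.2.1
      rw [h8, Finset.card_empty, Nat.cast_zero]
      have hLpos : 0 < L := by linarith
      positivity
  have h1 : (B.card : ℝ) ≤ z₀ + (KK * 2 : ℕ) * (4 ^ j * (2 * L) ^ C / δ ^ 4) := by
    have h2 := Finset.card_le_card hcover
    have h3 := h2.trans (Finset.card_union_le _ _)
    rw [Finset.card_range] at h3
    have h4 : (((Finset.range KK ×ˢ Finset.range 2).biUnion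
      (fun kb => B.filter (fun x => 100 ≤ x ∧ Gd kb.1 ∧ x % 2 = kb.2 ∧ 2 ^ kb.1 ≤ x ^ 2 - x ∧
        x ^ 2 - x < 2 ^ (kb.1 + 1)))).card : ℝ) ≤
        (KK * 2 : ℕ) * (4 ^ j * (2 * L) ^ C / δ ^ 4) := by
      refine (Nat.cast_le.2 Finset.card_biUnion_le).trans ?_
      push_cast
      refine (Finset.sum_le_card_nsmul _ _ _ hpiece).trans ?_
      rw [Finset.card_product, Finset.card_range, Finset.card_range, nsmul_eq_mul]
      push_cast
      exact le_refl _
    calc (B.card : ℝ) ≤ ((z₀ + ((Finset.range KK ×ˢ Finset.range 2).biUnion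
      (fun kb => B.filter (fun x => 100 ≤ x ∧ Gd kb.1 ∧ x % 2 = kb.2 ∧ 2 ^ kb.1 ≤ x ^ 2 - x ∧
        x ^ 2 - x < 2 ^ (kb.1 + 1)))).card : ℕ) : ℝ) := by exact_mod_cast h3
      _ ≤ _ := by
        rw [Nat.cast_add]
        linarith
  have hKKle : (KK : ℝ) ≤ 4 * L := by
    have h5 : (Nat.log 2 (X ^ 2) : ℝ) ≤ Real.log ((X : ℝ) ^ 2) / Real.log 2 := by
      rw [le_div_iff₀ (Real.log_pos (by norm_num)), ← Real.log_pow]
      refine Real.log_le_log (by positivity) ?_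
      have h6 := Nat.pow_log_le_self 2 (x := X ^ 2) (by
        have : 0 < X := by exact_mod_cast hXpos
        positivity)
      exact_mod_cast h6
    rw [Real.log_pow] at h5
    have h7 := Real.log_two_gt_d9
    have h8 : ((2 : ℕ) : ℝ) * Real.log X / Real.log 2 ≤ 3 * L := by
      rw [div_le_iff₀ (by linarith)]
      push_cast
      nlinarith
    rw [hKK]
    push_cast
    linarith
  have hL1 : 1 ≤ L := by linarith
  have hLpos : 0 < L := by linarith
  refine h1.trans ?_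
  have h9 : (2 * L) ^ C = 2 ^ C * L ^ C := Real.mul_rpow (by norm_num) hLpos.le
  have hLC : 0 < L ^ C := Real.rpow_pos_of_pos hLpos _
  have hLC1 : 1 ≤ L ^ C := Real.one_le_rpow hL1 hC0.le
  have h8j : (1 : ℝ) ≤ 8 ^ j := one_le_pow₀ (by norm_num)
  have h28 : (2 : ℝ) ^ j ≤ 8 ^ j := pow_le_pow_left₀ (by norm_num) (by norm_num) j
  have h48 : (4 : ℝ) ^ j ≤ 8 ^ j := pow_le_pow_left₀ (by norm_num) (by norm_num) j
  set G : ℝ := 8 ^ j / δ ^ 4 with hG
  have hG1 : 1 ≤ G := by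
    rw [hG, le_div_iff₀ hδ40]
    linarith
  have hG8 : 8 ^ j ≤ G := by
    rw [hG, le_div_iff₀ hδ40]
    nlinarith
  have hz : (z₀ : ℝ) ≤ (104 + 2 * n₀) * G := by
    have h11 : (z₀ : ℝ) ≤ Z + 1 := by
      have hZ0 : 0 ≤ Z := by positivity
      exact (Nat.ceil_lt_add_one hZ0).le
    have h12 : Z = 100 + 2 * 2 ^ j * n₀ + 2 * G := by rw [hZ, hG]; ring
    have h13 : 2 * 2 ^ j * n₀ ≤ 2 * n₀ * G := by nlinarith [h28.trans hG8]
    rw [h12] at h11
    nlinarith
  have hb : 4 ^ j * (2 * L) ^ C / δ ^ 4 ≤ 2 ^ C * L ^ C * G := by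
    rw [h9, hG, ← mul_div_assoc]
    refine div_le_div_of_nonneg_right ?_ hδ40.le
    have : 0 < 2 ^ C * L ^ C := by positivity
    nlinarith
  have hLL : L ^ (C + 2) = L * (L * L ^ C) := by
    rw [Real.rpow_add hLpos, Real.rpow_two]
    ring
  calc (z₀ : ℝ) + (KK * 2 : ℕ) * (4 ^ j * (2 * L) ^ C / δ ^ 4)
      ≤ (104 + 2 * n₀) * G + 8 * L * (2 ^ C * L ^ C * G) := by
        push_cast
        have h14 : (KK : ℝ) * 2 ≤ 8 * L := by linarith
        have h15 : 0 ≤ 4 ^ j * (2 * L) ^ C / δ ^ 4 := by positivity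
        have h16 := mul_le_mul h14 hb h15 (by positivity)
        linarith
    _ ≤ (104 + 2 * n₀) * (G * (L * L ^ C)) + 8 * L * (2 ^ C * L ^ C * G) := by
        have h17 : (1 : ℝ) ≤ L * L ^ C := by nlinarith
        have h18 : G ≤ G * (L * L ^ C) := le_mul_of_one_le_right (by positivity) h17
        have h19 : 0 ≤ 104 + 2 * n₀ := by linarith
        have := mul_le_mul_of_nonneg_left h18 h19
        linarith
    _ = (104 + 2 * n₀ + 8 * 2 ^ C) * (L * L ^ C) * G := by ring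
    _ ≤ D * (L * L ^ C) * G := by
        refine mul_le_mul_of_nonneg_right ?_ (by positivity)
        refine mul_le_mul_of_nonneg_right ?_ (by positivity)
        rw [hD]
        linarith
    _ ≤ L * (L * L ^ C) * G := by
        refine mul_le_mul_of_nonneg_right ?_ (by positivity)
        exact mul_le_mul_of_nonneg_right (by linarith) (by positivity)
    _ = L ^ (C + 2) * G := by rw [hLL]
    _ ≤ L ^ (2 * C + 16) * G := by
        refine mul_le_mul_of_nonneg_right ?_ (by positivity)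
        exact Real.rpow_le_rpow_of_exponent_le hL1 (by linarith)
    _ ≤ 8 ^ (j + 3) * L ^ (2 * C + 16) / δ ^ 4 := by
        rw [hG, ← mul_div_assoc]
        refine div_le_div_of_nonneg_right ?_ hδ40.le
        have h20 : 0 < L ^ (2 * C + 16) := Real.rpow_pos_of_pos hLpos _
        have h21 : (8 : ℝ) ^ (j + 3) = 512 * 8 ^ j := by rw [pow_add]; norm_num; ring
        rw [h21]
        nlinarith [mul_pos h20 (show (0 : ℝ) < 8 ^ j by positivity)]

end Pool.Agent.OX
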