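import Pool.Agent.Lib.OX.Defs3
import Pool.Agent.Lib.OX.INT

/-!
# PROJECT OX (MP_bf4c7f_nt), row INT2: the integral of the error term against few well spaced
shifts, uniform in the relative length.  helper89.
-/

set_option autoImplicit false

namespace Pool.Agent.OX

open Finset MeasureTheory Pool.Agent.MRL Pool.Agent.MRF Pool.Agent.MR2

namespace INT2

theorem aux1 {s t : ℝ} (hs : 0 < s) (h : 256 < t) : 256 * (1 * s) < s * t := by
  nlinarith

theorem aux2 {s t : ℝ} (hs : 0 < s) (h : 2 ≤ t) : 2 * (1 * s) ≤ s * t := by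
  nlinarith

theorem aux3 {n L x : ℝ} (hn : 0 < n) (hL : 129 ≤ L) (hx : x = n * L ^ 2) :
    128 * n * L < x := by
  rw [hx]
  nlinarith [mul_pos hn (by linarith : (0 : ℝ) < L)]

theorem aux4 {x : ℝ} (hx : 1 ≤ x) : x ≤ x ^ 2 := by
  nlinarith

theorem aux5 {x : ℝ} (hx : 9 ≤ x) : √x ≤ x / 3 := by
  rw [Real.sqrt_le_left (by linarith), div_pow, le_div_iff₀ (by norm_num)]
  nlinarith

/-- all elementary inequalities between the parameters. -/
theorem num {A δ : ℝ} (hA : 1 ≤ A) {N Q : ℝ} (h1 : 129 ≤ Real.log N)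
    (h2 : (Real.log N) ^ (4 * (A + (3 * A + 15) + 5)) ≤ √N)
    (hδ1 : N ^ (-(1 / 8) : ℝ) ≤ δ) (hδ2 : δ ≤ 1)
    (hQ : Q = QD A δ N ∨ Q = 2 * QD A δ N) :
    0 < δ ∧ 0 < N ∧ 1 ≤ TD δ N ∧ 1 ≤ Q ∧ 128 * Real.log N * Q < TD δ N ∧ TD δ N ≤ Q ^ 2 ∧
    128 * N * Real.log N < TD δ N * (δ * √N / Real.log N) ∧
    √N ≤ TD δ N * Real.log N ∧ TD δ N * Real.log N ≤ N ∧ TD δ N ≤ N ∧
    √(TD δ N * Real.log N) ≤ Q ∧
    Q ≤ TD δ N * Real.log N ∧ TD δ N / Q ≤ (Real.log N) ^ (A + 7) / δ ^ 2 ∧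
    3 ≤ yP A N Q ∧ TD δ N ≤ 4 * yP A N Q ∧ yP A N Q ≤ TD δ N * Real.log N ∧
    √(TD δ N * Real.log N) / 2 ≤ yP A N Q ∧ yP A N Q ≤ (TD δ N * Real.log N) ^ 2 := by
  have hN0 : 0 < N := by
    by_contra h
    have h3 : √N = 0 := Real.sqrt_eq_zero_of_nonpos (not_lt.mp h)
    rw [h3] at h2
    have h4 : 0 < (Real.log N) ^ (4 * (A + (3 * A + 15) + 5)) :=
      Real.rpow_pos_of_pos (by linarith) _
    linarith
  have hδ0 : 0 < δ := lt_of_lt_of_le (Real.rpow_pos_of_pos hN0 _) hδ1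
  obtain ⟨L, hL⟩ : ∃ L : ℝ, L = Real.log N := ⟨_, rfl⟩
  obtain ⟨s, hs⟩ : ∃ s : ℝ, s = √N := ⟨_, rfl⟩
  have hs2 : s * s = N := by rw [hs]; exact Real.mul_self_sqrt hN0.le
  have hs0 : 0 < s := by rw [hs]; exact Real.sqrt_pos.mpr hN0
  rw [← hL] at h1 h2
  rw [← hs] at h2
  have hL0 : 0 < L := by linarith
  have hL1 : 1 ≤ L := by linarith
  obtain ⟨p, hp⟩ : ∃ p : ℝ, p = L ^ A := ⟨_, rfl⟩
  have hp1 : 1 ≤ p := by rw [hp]; exact Real.one_le_rpow hL1 (by linarith)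
  have hp0 : 0 < p := by linarith
  -- powers
  have e1 : L ^ (3 : ℝ) = L ^ 3 := by norm_cast
  have e2 : L ^ (A + 4) = p * L ^ 4 := by
    rw [Real.rpow_add hL0, ← hp]
    norm_cast
  have e4 : L ^ (A + 7) = p * L ^ 7 := by
    rw [Real.rpow_add hL0, ← hp]
    norm_cast
  have e5 : L ^ (4 * (A + (3 * A + 15) + 5)) = ((p * L ^ 5) ^ 4) ^ 4 := by
    have h3 : p * L ^ 5 = L ^ (A + 5) := by
      rw [Real.rpow_add hL0, ← hp]
      norm_cast
    rw [h3, ← pow_mul, ← Real.rpow_natCast, ← Real.rpow_mul hL0.le]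
    congr 1
    push_cast
    ring
  rw [e5] at h2
  -- the fourth root of s and of delta
  obtain ⟨w, hw⟩ : ∃ w : ℝ, w = √(√s) := ⟨_, rfl⟩
  have hw0 : 0 < w := by rw [hw]; exact Real.sqrt_pos.mpr (Real.sqrt_pos.mpr hs0)
  have hw4 : w ^ 4 = s := by
    have h3 : w ^ 2 = √s := by rw [hw]; exact Real.sq_sqrt (Real.sqrt_nonneg _)
    calc w ^ 4 = (w ^ 2) ^ 2 := by ring
      _ = s := by rw [h3]; exact Real.sq_sqrt hs0.le
  have hwp : (p * L ^ 5) ^ 4 ≤ w := by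
    rw [← hw4] at h2
    exact le_of_pow_le_pow_left₀ (by norm_num) hw0.le h2
  have hwδ : 1 ≤ w * δ := by
    have h3 : N ^ (-(1 / 8) : ℝ) = w⁻¹ := by
      have h4 : w = N ^ (1 / 8 : ℝ) := by
        rw [hw, hs, Real.sqrt_eq_rpow, Real.sqrt_eq_rpow, Real.sqrt_eq_rpow,
          ← Real.rpow_mul hN0.le, ← Real.rpow_mul hN0.le]
        congr 1
        norm_num
      rw [h4, Real.rpow_neg hN0.le]
    rw [h3] at hδ1
    calc (1 : ℝ) = w * w⁻¹ := by field_simp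
      _ ≤ w * δ := by gcongr
  have hT : TD δ N = s * L ^ 3 / δ := by
    unfold TD
    rw [← hL, ← hs, e1]
  have hQP : QD A δ N = δ * s / (p * L ^ 4) := by
    unfold QD
    rw [← hL, ← hs, e2]
  have hX : TD δ N * L = s * L ^ 4 / δ := by rw [hT]; ring
  -- size of powers
  have hLn : ∀ n : ℕ, 1 ≤ L ^ n := fun n => one_le_pow₀ hL1
  have f1 : p ^ 2 * L ^ 12 ≤ w := by
    refine le_trans ?_ hwp
    have h3 : (p * L ^ 5) ^ 4 = p ^ 4 * L ^ 20 := by ring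
    rw [h3]
    gcongr <;> first | assumption | norm_num
  have f3 : L ^ 4 ≤ w := by
    refine le_trans ?_ f1
    have h3 : L ^ 4 = 1 * L ^ 4 := by ring
    have h4 : 1 ≤ p ^ 2 := one_le_pow₀ hp1
    rw [h3]
    gcongr <;> first | assumption | norm_num
  have hLw : L ≤ w := by
    refine le_trans ?_ f3
    calc L = L ^ 1 := (pow_one L).symm
      _ ≤ L ^ 4 := pow_le_pow_right₀ hL1 (by norm_num)
  have hw1 : 1 ≤ w := hL1.trans hLw
  have hws : w ≤ s := by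
    rw [← hw4]
    calc w = w ^ 1 := (pow_one w).symm
      _ ≤ w ^ 4 := pow_le_pow_right₀ hw1 (by norm_num)
  have hsL : L ≤ s := hLw.trans hws
  -- w ≤ δ ^ 3 s
  have hδs : w ≤ δ ^ 3 * s := by
    have h3 : 1 ≤ (w * δ) ^ 3 := one_le_pow₀ hwδ
    calc w = w * 1 := by ring
      _ ≤ w * (w * δ) ^ 3 := by gcongr
      _ = δ ^ 3 * s := by rw [← hw4]; ring
  have hδs1 : w ≤ δ * s := by
    refine hδs.trans ?_
    have h3 : δ ^ 3 ≤ δ := by
      calc δ ^ 3 ≤ δ ^ 1 := pow_le_pow_of_le_one hδ0.le hδ2 (by norm_num)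
        _ = δ := pow_one δ
    gcongr
  -- Q
  have hm0 : 0 < p * L ^ 4 := by positivity
  have hQl : δ * s / (p * L ^ 4) ≤ Q := by
    rcases hQ with h | h
    · rw [h, hQP]
    · rw [h, hQP]
      have : 0 < δ * s / (p * L ^ 4) := by positivity
      linarith
  have hQu : Q ≤ 2 * (δ * s / (p * L ^ 4)) := by
    rcases hQ with h | h
    · rw [h, hQP]
      have : 0 < δ * s / (p * L ^ 4) := by positivity
      linarith
    · rw [h, hQP]
  have hQ0 : 0 < Q := lt_of_lt_of_le (by positivity) hQl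
  have hQsq : (δ * s / (p * L ^ 4)) ^ 2 ≤ Q ^ 2 := by
    gcongr
  have g1 : s * L ^ 4 / δ ≤ (δ * s / (p * L ^ 4)) ^ 2 := by
    rw [div_pow, div_le_div_iff₀ hδ0 (by positivity)]
    calc s * L ^ 4 * (p * L ^ 4) ^ 2 = s * (p ^ 2 * L ^ 12) := by ring
      _ ≤ s * (δ ^ 3 * s) := by
          have := f1.trans hδs
          gcongr
      _ = (δ * s) ^ 2 * δ := by ring
  have hT0 : 0 < TD δ N := by rw [hT]; positivity
  have hTX : TD δ N ≤ TD δ N * L := le_mul_of_one_le_right hT0.le hL1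
  have hXN : TD δ N * L ≤ N := by
    rw [hX, ← hs2, div_le_iff₀ hδ0]
    calc s * L ^ 4 ≤ s * (δ * s) := by
          have := f3.trans hδs1
          gcongr
      _ = s * s * δ := by ring
  have hXs : s ≤ TD δ N * L := by
    rw [hX, le_div_iff₀ hδ0]
    exact mul_le_mul_of_nonneg_left (hδ2.trans (hLn 4)) hs0.le
  have hXs2 : s * L ^ 4 ≤ TD δ N * L := by
    rw [hX, le_div_iff₀ hδ0]
    exact mul_le_of_le_one_right (by positivity) hδ2
  -- v
  have hv1 : p ≤ Real.exp (vP A N) := by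
    unfold vP
    rw [hp, ← hL, Real.rpow_def_of_pos hL0]
    apply Real.exp_le_exp.mpr
    rw [mul_comm]
    exact Nat.le_ceil _
  have hv2 : Real.exp (vP A N) ≤ 3 * p := by
    unfold vP
    rw [← hL]
    have h3 : 0 ≤ A * Real.log L := mul_nonneg (by linarith) (Real.log_nonneg hL1)
    have h4 := (Nat.ceil_lt_add_one h3).le
    calc Real.exp (⌈A * Real.log L⌉₊ : ℝ) ≤ Real.exp (A * Real.log L + 1) :=
          Real.exp_le_exp.mpr h4
      _ = Real.exp 1 * p := by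
          rw [hp, Real.rpow_def_of_pos hL0, mul_comm A, Real.exp_add]
          ring
      _ ≤ 3 * p := by
          have := Real.exp_one_lt_d9
          gcongr
          linarith
  have hv0 : 0 < Real.exp (vP A N) := Real.exp_pos _
  have hy1 : s * L ^ 4 / δ / 6 ≤ yP A N Q := by
    unfold yP
    rw [le_div_iff₀ (by positivity)]
    calc s * L ^ 4 / δ / 6 * (Real.exp (vP A N) * Q)
        ≤ s * L ^ 4 / δ / 6 * ((3 * p) * (2 * (δ * s / (p * L ^ 4)))) := by gcongr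
      _ = s * s := by field_simp; ring
      _ = N := hs2
  have hy2 : yP A N Q ≤ s * L ^ 4 / δ := by
    unfold yP
    rw [div_le_iff₀ (by positivity)]
    calc N = s * s := hs2.symm
      _ = s * L ^ 4 / δ * (p * (δ * s / (p * L ^ 4))) := by field_simp
      _ ≤ s * L ^ 4 / δ * (Real.exp (vP A N) * Q) := by gcongr
  have hXsq : (9 : ℝ) ≤ TD δ N * L := by linarith
  have hsqX : √(TD δ N * L) ≤ (TD δ N * L) / 3 := by
    obtain ⟨x, hx⟩ : ∃ x : ℝ, x = TD δ N * L := ⟨_, rfl⟩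
    rw [← hx] at hXsq ⊢
    exact aux5 hXsq
  refine ⟨hδ0, hN0, ?_, ?_, ?_, ?_, ?_, ?_, ?_, ?_, ?_, ?_, ?_, ?_, ?_, ?_, ?_, ?_⟩
  · rw [hT, le_div_iff₀ hδ0, one_mul]
    have h3 : (1 : ℝ) ≤ s * L ^ 3 :=
      one_le_mul_of_one_le_of_one_le (hL1.trans hsL) (hLn 3)
    exact hδ2.trans h3
  · refine le_trans ?_ hQl
    rw [le_div_iff₀ hm0, one_mul]
    refine le_trans (le_trans ?_ f1) hδs1
    have h3 : p * L ^ 4 = p ^ 1 * L ^ 4 := by ring
    rw [h3]
    gcongr <;> first | assumption | norm_num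
  · rw [← hL, hT]
    have h4 : (129 : ℝ) ^ 3 ≤ L ^ 3 := by gcongr
    calc 128 * L * Q ≤ 128 * L * (2 * (δ * s / (p * L ^ 4))) := by gcongr
      _ = 256 * (δ * s / (p * L ^ 3)) := by field_simp; ring
      _ ≤ 256 * (δ * s) := by
          gcongr
          apply div_le_self (by positivity)
          exact one_le_mul_of_one_le_of_one_le hp1 (hLn 3)
      _ ≤ 256 * (1 * s) := by gcongr
      _ < s * L ^ 3 := aux1 hs0 (by linarith)
      _ ≤ s * L ^ 3 / δ := by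
          rw [le_div_iff₀ hδ0]
          exact mul_le_of_le_one_right (by positivity) hδ2
  · refine le_trans hTX (le_trans ?_ hQsq)
    rw [hX]
    exact g1
  · rw [← hL, ← hs, hT, ← hs2]
    have h3 : s * L ^ 3 / δ * (δ * s / L) = s * s * L ^ 2 := by field_simp
    rw [h3]
    exact aux3 (by positivity) (by linarith) (by ring)
  · rw [← hs, ← hL]
    exact hXs
  · rw [← hL]
    exact hXN
  · exact hTX.trans hXN
  · rw [← hL, Real.sqrt_le_left hQ0.le]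
    refine le_trans ?_ hQsq
    rw [hX]
    exact g1
  · rw [← hL]
    refine (hQu.trans ?_).trans hXs2
    have h4 : (129 : ℝ) ^ 4 ≤ L ^ 4 := by gcongr
    calc 2 * (δ * s / (p * L ^ 4)) ≤ 2 * (δ * s) := by
          gcongr
          apply div_le_self (by positivity)
          exact one_le_mul_of_one_le_of_one_le hp1 (hLn 4)
      _ ≤ 2 * (1 * s) := by gcongr
      _ ≤ s * L ^ 4 := aux2 hs0 (by linarith)
  · rw [← hL, e4, div_le_iff₀ hQ0, hT]
    calc s * L ^ 3 / δ = p * L ^ 7 / δ ^ 2 * (δ * s / (p * L ^ 4)) := by field_simp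
      _ ≤ p * L ^ 7 / δ ^ 2 * Q := by gcongr
  · refine le_trans ?_ hy1
    rw [← hX]
    linarith
  · rw [hX] at *
    have h3 : TD δ N ≤ 4 * (s * L ^ 4 / δ / 6) := by
      rw [hT]
      have h4 : 0 < s * L ^ 3 / δ := by positivity
      have h5 : 4 * (s * L ^ 4 / δ / 6) = s * L ^ 3 / δ * (2 / 3 * L) := by ring
      rw [h5]
      exact le_mul_of_one_le_right h4.le (by linarith)
    linarith
  · rw [← hL, hX]
    exact hy2
  · rw [← hL]
    rw [hX] at hsqX ⊢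
    linarith
  · rw [← hL]
    rw [← hX] at hy2
    exact hy2.trans (aux4 (by linarith))

end INT2

open INT in
/-- ROW INT2. -/
theorem int2 (hR : RD) (hM : ME) (hS : SQ) (hH : HMInt) (hL : LargeCount) : INT2 := by
  classical
  obtain ⟨CR, hCR, hR⟩ := hR
  obtain ⟨CM, hCM, hM⟩ := hM
  obtain ⟨θ1, hθ1, hθ1', hS⟩ := hS
  obtain ⟨θ2, hθ2, hθ2', CH, hCH, XH, hH⟩ := hH
  obtain ⟨CS, XS, hCS, hS⟩ := hS 20
  obtain ⟨θ, hθ⟩ : ∃ θ : ℝ, θ = min θ1 θ2 := ⟨_, rfl⟩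
  have hθ0 : 0 < θ := by rw [hθ]; exact lt_min hθ1 hθ2
  have hθle1 : θ ≤ θ1 := by rw [hθ]; exact min_le_left _ _
  have hθle2 : θ ≤ θ2 := by rw [hθ]; exact min_le_right _ _
  have hθ1 : θ ≤ 1 := hθle1.trans hθ1'
  obtain ⟨XL, hL⟩ := hL θ hθ0 hθ1
  obtain ⟨A, hA⟩ : ∃ A : ℝ, A = 192 / θ := ⟨_, rfl⟩
  have hA1 : 1 ≤ A := by
    rw [hA, le_div_iff₀ hθ0]
    linarith
  obtain ⟨N₀, hN₀⟩ := ev (3 * A + 15) A θ (max (max XS XH) (max XL 600)) hθ0 hA1
  obtain ⟨C, hC⟩ : ∃ C : ℝ, C = (CR + 16 * CM) + 3 * (2 * (CH + CS)) + 1 + (A + 7) :=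
    ⟨_, rfl⟩
  have hCa : (CR + 16 * CM) + 3 * (2 * (CH + CS)) + 1 ≤ C := by
    rw [hC]
    linarith
  have hCb : A + 7 ≤ C := by
    rw [hC]
    linarith [mul_pos (by norm_num : (0 : ℝ) < 16) hCM]
  have hC0 : 0 < C := by linarith
  refine ⟨A, C, N₀, hA1, hC0, ?_⟩
  intro δ' N Q hN hδ1 hδ2 hQ J c hJ hsep hc
  obtain ⟨h1, h2, h3, h4, h5, h6⟩ := hN₀ N hN
  have hnum := INT2.num hA1 h1 h2 hδ1 hδ2 hQ
  obtain ⟨L, hLdef⟩ : ∃ L : ℝ, L = Real.log N := ⟨_, rfl⟩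
  obtain ⟨T, hTdef⟩ : ∃ T : ℝ, T = TD δ' N := ⟨_, rfl⟩
  obtain ⟨y, hydef⟩ : ∃ y : ℝ, y = yP A N Q := ⟨_, rfl⟩
  obtain ⟨v, hvdef⟩ : ∃ v : ℕ, v = vP A N := ⟨_, rfl⟩
  rw [← hLdef, ← hTdef, ← hydef] at hnum
  obtain ⟨hδ0', hN0, hT1, hQ1, n1, n2, n3, n4, n5, n6, n7, n8, n9, n10, n11, n12, n13, n14⟩ := hnum
  rw [← hTdef, ← hydef, ← hvdef, ← hLdef]
  rw [← hLdef] at h1 h4 h5 h6 hsep
  have hL0 : 0 < L := by linarith
  have hL1 : 1 ≤ L := by linarith
  have hNexp : N = Real.exp L := by rw [hLdef, Real.exp_log hN0]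
  have hlogsq : Real.log (√N) = L / 2 := by rw [Real.log_sqrt hN0.le, hLdef]
  have hT0 : 0 < T := by linarith
  have hQ0 : 0 < Q := by linarith
  have hN1 : 1 ≤ N := by linarith
  have hpow : 0 < L ^ (-(3 : ℝ)) := Real.rpow_pos_of_pos hL0 _
  -- thresholds
  obtain ⟨X, hX⟩ : ∃ X : ℝ, X = T * L := ⟨_, rfl⟩
  rw [← hX] at n4 n5 n7 n8 n12 n13 n14
  have hXT : max (max XS XH) (max XL 600) ≤ X := h3.trans n4
  have hXS : XS ≤ X := (le_max_left _ _).trans ((le_max_left _ _).trans hXT)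
  have hXH : XH ≤ X := (le_max_right _ _).trans ((le_max_left _ _).trans hXT)
  have hX600 : 600 ≤ X := (le_max_right _ _).trans ((le_max_right _ _).trans hXT)
  have hX0 : 0 < X := by linarith
  have hlX1 : L / 2 ≤ Real.log X := by
    rw [← hlogsq]
    exact Real.log_le_log (Real.sqrt_pos.mpr hN0) n4
  have hlX2 : Real.log X ≤ L := by
    rw [hLdef]
    exact Real.log_le_log hX0 n5
  -- the case of no points
  rcases Finset.eq_empty_or_nonempty J with hJe | hJne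
  · subst hJe
    simp
  have hj1 : (1 : ℝ) ≤ J.card := by
    exact_mod_cast Finset.card_pos.mpr hJne
  obtain ⟨j, hj⟩ : ∃ j : ℝ, j = (J.card : ℝ) := ⟨_, rfl⟩
  rw [← hj] at hj1
  have hj0 : 0 < j := by linarith
  -- v
  have hlogL : 0 ≤ Real.log L := Real.log_nonneg hL1
  have hv1 : A * Real.log L ≤ v := by
    rw [hvdef, hLdef]
    exact Nat.le_ceil _
  have hv2 : (v : ℝ) < A * Real.log L + 1 := by
    rw [hvdef]
    unfold vP
    rw [← hLdef]
    exact Nat.ceil_lt_add_one (mul_nonneg (by linarith) hlogL)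
  have hv600 : 600 ≤ (v : ℝ) :=
    ((le_max_right _ _).trans ((le_max_right _ _).trans h6)).trans hv1
  have hv1' : 1 ≤ v := by
    have : (1 : ℝ) ≤ v := by linarith
    exact_mod_cast this
  -- the functions
  obtain ⟨D, hD⟩ : ∃ D : ℝ → ℂ, D = fun t => AF pr Q t *
      ∑ x ∈ J, c x * Complex.exp (((t * Real.log x : ℝ) : ℂ) * Complex.I) := ⟨_, rfl⟩
  have hDc : Continuous D := by
    rw [hD]
    refine (continuous_AF pr Q).mul (continuous_finsetSum _ fun x _ => ?_)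
    fun_prop
  have hDle' : ∀ t, ‖D t‖ ≤ ‖AF pr Q t‖ * j := by
    intro t
    rw [hD]
    simp only
    rw [norm_mul]
    refine mul_le_mul_of_nonneg_left ?_ (norm_nonneg _)
    have hx : ∀ x ∈ J, ‖c x * Complex.exp (((t * Real.log x : ℝ) : ℂ) * Complex.I)‖ ≤ 1 := by
      intro x _
      rw [norm_mul, Complex.norm_exp_ofReal_mul_I, mul_one]
      exact hc x
    refine (norm_sum_le _ _).trans ((Finset.sum_le_card_nsmul _ _ _ hx).trans ?_)
    rw [nsmul_eq_mul, mul_one, hj]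
  have hAF2 : ∀ t, ‖AF pr Q t‖ ≤ 2 := fun t => norm_AF_le2 norm_pr_le hQ1 t
  have hDle : ∀ t, ‖D t‖ ≤ 2 * j := by
    intro t
    refine (hDle' t).trans ?_
    exact mul_le_mul_of_nonneg_right (hAF2 t) hj0.le
  have hint : ∀ t, ‖MRL.Q 1 v t * (AF pr Q t *
      ∑ x ∈ J, c x * Complex.exp (((t * Real.log x : ℝ) : ℂ) * Complex.I)) * Ey y t‖ * g T t =
      ‖MRL.Q 1 v t‖ * ‖D t‖ * ‖Ey y t‖ * g T t := by
    intro t
    rw [hD, norm_mul, norm_mul]
  simp only [hint]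
  rw [← hj]
  -- the threshold
  obtain ⟨α, hα⟩ : ∃ α : ℝ, α = θ / 16 := ⟨_, rfl⟩
  obtain ⟨δ, hδ⟩ : ∃ δ : ℝ, δ = Real.exp (-(α * v / ((1 : ℕ) : ℝ))) := ⟨_, rfl⟩
  have hδ0 : 0 < δ := by rw [hδ]; exact Real.exp_pos _
  have hδL : δ * L ^ 12 ≤ 1 := by
    have hL12 : L ^ 12 = Real.exp (12 * Real.log L) := by
      have := Real.exp_nat_mul (Real.log L) 12
      rw [Real.exp_log hL0] at this
      rw [← this]
      norm_num
    rw [hδ, hL12, ← Real.exp_add, Real.exp_le_one_iff]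
    rw [Nat.cast_one, div_one, hα]
    have h7 : 12 * Real.log L = θ / 16 * (A * Real.log L) := by
      rw [hA]
      field_simp
      ring
    have h8 : θ / 16 * (A * Real.log L) ≤ θ / 16 * v := by gcongr
    linarith
  -- the cells
  obtain ⟨R, hRdef⟩ : ∃ R : Finset ℤ, R = (Finset.Icc (-⌈2 * X⌉) ⌈2 * X⌉).filter
      (fun i : ℤ => |(i : ℝ)| ≤ 2 * X ∧ ∃ t ∈ Set.Icc (i : ℝ) (i + 1),
        ¬ Good 1 v (v + 1) α t) := ⟨_, rfl⟩
  have hR1 : ∀ i ∈ R, |(i : ℝ)| ≤ 2 * X := by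
    intro i hi
    rw [hRdef, Finset.mem_filter] at hi
    exact hi.2.1
  have hR2 : ∀ i ∈ R, ∃ t ∈ Set.Icc (i : ℝ) (i + 1), ¬ Good 1 v (v + 1) α t := by
    intro i hi
    rw [hRdef, Finset.mem_filter] at hi
    exact hi.2.2
  have hbad : ∀ t, |t| ≤ T * L → ¬ ‖MRL.Q 1 v t‖ ≤ δ →
      ∃ i ∈ R, t ∈ Set.Icc (i : ℝ) (i + 1) := by
    intro t ht hb
    rw [← hX] at ht
    have hf1 := Int.floor_le t
    have hf2 := (Int.lt_floor_add_one t).le
    have hi : |((⌊t⌋ : ℤ) : ℝ)| ≤ 2 * X := by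
      rw [abs_le] at ht ⊢
      constructor
      · linarith [ht.1]
      · linarith [ht.2]
    refine ⟨⌊t⌋, ?_, hf1, hf2⟩
    rw [hRdef, Finset.mem_filter, Finset.mem_Icc]
    refine ⟨⟨?_, ?_⟩, hi, t, ⟨hf1, hf2⟩, ?_⟩
    · have h7 : (((-⌈2 * X⌉ : ℤ)) : ℝ) ≤ ((⌊t⌋ : ℤ) : ℝ) := by
        push_cast
        have := Int.le_ceil (2 * X)
        linarith [(abs_le.mp hi).1]
      exact_mod_cast h7
    · have h7 : ((⌊t⌋ : ℤ) : ℝ) ≤ ((⌈2 * X⌉ : ℤ) : ℝ) := by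
        have := Int.le_ceil (2 * X)
        linarith [(abs_le.mp hi).2]
      exact_mod_cast h7
    · intro hg
      apply hb
      rw [hδ]
      exact hg v (Finset.mem_Ico.mpr ⟨le_rfl, Nat.lt_succ_self v⟩)
  -- their number
  have hcount : ∀ T' : ℝ, Real.exp (√(Real.log X)) ≤ T' → T' ≤ X →
      ((R.filter (fun i : ℤ => |(i : ℝ)| ≤ 2 * T')).card : ℝ) ≤ T' ^ θ := by
    intro T' hT' hT'X
    have hs1 : √(L / 2) ≤ √(Real.log X) := Real.sqrt_le_sqrt hlX1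
    have hT'0 : 0 < T' := lt_of_lt_of_le (Real.exp_pos _) hT'
    have hlT' : √(Real.log X) ≤ Real.log T' := by
      rw [Real.le_log_iff_exp_le hT'0]
      exact hT'
    have hlT'0 : 0 < Real.log T' := by
      have : 0 < √(L / 2) := Real.sqrt_pos.mpr (by linarith)
      linarith
    have hlT'L : Real.log T' ≤ L := (Real.log_le_log hT'0 hT'X).trans hlX2
    refine hL T' ?_ 1 v (v + 1) α le_rfl hv1' (Nat.le_succ v) ?_ ?_ ?_ ?_ ?_ _ ?_ ?_
    · refine (le_trans ((le_max_left _ _).trans (le_max_right _ _)) h4).trans ?_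
      exact (Real.exp_le_exp.mpr hs1).trans hT'
    · rw [hα]; positivity
    · rw [hα]
    · push_cast
      rw [div_one]
      have h7 : θ / 16 * √(L / 2) ≤ θ / 16 * Real.log T' := by
        have := hs1.trans hlT'
        gcongr
      linarith
    · rw [Nat.cast_one, div_one]
      have h7 : Real.log (Real.log T') ≤ Real.log L := Real.log_le_log hlT'0 hlT'L
      have h8 : 16 / θ * Real.log (Real.log T') ≤ 16 / θ * Real.log L := by gcongr
      have h9 : 16 / θ * Real.log L ≤ A * Real.log L := by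
        rw [hA]
        gcongr
        norm_num
      linarith
    · rw [Nat.cast_one, div_one]
      push_cast
      exact log_small hv600
    · intro i hi
      exact (Finset.mem_filter.mp hi).2
    · intro i hi
      exact hR2 i (Finset.mem_filter.mp hi).1
  have hRcard : (R.card : ℝ) ≤ X ^ θ2 := by
    have hXX : Real.exp (√(Real.log X)) ≤ X := by
      have h7 : √(Real.log X) ≤ Real.log X := sqrt_le_me (by linarith)
      calc Real.exp (√(Real.log X)) ≤ Real.exp (Real.log X) := Real.exp_le_exp.mpr h7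
        _ = X := Real.exp_log hX0
    have h7 := hcount X hXX le_rfl
    have h8 : R.filter (fun i : ℤ => |(i : ℝ)| ≤ 2 * X) = R :=
      Finset.filter_true_of_mem hR1
    rw [h8] at h7
    exact h7.trans (Real.rpow_le_rpow_of_exponent_le (by linarith) hθle2)
  -- the cells: estimate
  have hcell : ∀ τ : ℤ → ℝ, (∀ i ∈ R, τ i ∈ Set.Icc (i : ℝ) (i + 1)) →
      ∑ i ∈ R, ‖MRL.Q 1 v (τ i)‖ * ‖D (τ i)‖ * ‖Ey y (τ i)‖ ≤
        3 * j * ((CH + CS) * L ^ (-(3 : ℝ))) := by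
    intro τ hτ
    have h7 : ∑ i ∈ R, ‖AF pr Q (τ i)‖ ^ 2 ≤ CH * Real.log X :=
      hH X hXH pr norm_pr_le Q n7 n8 R τ hR1 hRcard hτ
    have h8 : ∑ i ∈ R, ‖Ey y (τ i)‖ ^ 2 ≤ CS * (Real.log X) ^ (-(20 : ℝ)) := by
      refine hS X y hXS n13 n14 R τ hR1 ?_ hτ
      intro T' hT' hT'X
      refine (hcount T' hT' hT'X).trans ?_
      refine Real.rpow_le_rpow_of_exponent_le ?_ hθle1
      exact (Real.one_le_exp (Real.sqrt_nonneg _)).trans hT'
    have hl0 : 0 < Real.log X := by linarith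
    have h9 := css R (fun i => ‖AF pr Q (τ i)‖) (fun i => ‖Ey y (τ i)‖)
      (μ := ((Real.log X) ^ 10)⁻¹) (by positivity)
    have h10 := cell_num h1 hlX1 hCH.le hCS.le h7 h8
    calc ∑ i ∈ R, ‖MRL.Q 1 v (τ i)‖ * ‖D (τ i)‖ * ‖Ey y (τ i)‖
        ≤ ∑ i ∈ R, 3 * j * (‖AF pr Q (τ i)‖ * ‖Ey y (τ i)‖) := by
          refine Finset.sum_le_sum fun i _ => ?_
          have h11 := norm_Q_le v (τ i)
          have h12 := hDle' (τ i)
          calc ‖MRL.Q 1 v (τ i)‖ * ‖D (τ i)‖ * ‖Ey y (τ i)‖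
              ≤ 3 * (‖AF pr Q (τ i)‖ * j) * ‖Ey y (τ i)‖ := by gcongr
            _ = 3 * j * (‖AF pr Q (τ i)‖ * ‖Ey y (τ i)‖) := by ring
      _ = 3 * j * ∑ i ∈ R, ‖AF pr Q (τ i)‖ * ‖Ey y (τ i)‖ := by rw [Finset.mul_sum]
      _ ≤ 3 * j * ((CH + CS) * L ^ (-(3 : ℝ))) := by
          have h13 := h9.trans h10
          gcongr
  -- splitting
  have hy0 : 0 ≤ y := by linarith
  have hsplit := split (a := fun t => ‖MRL.Q 1 v t‖) (b := fun t => ‖D t‖)
    (e := fun t => ‖Ey y t‖) (Bas.continuous_Q 1 v).norm hDc.norm (continuous_Ey y).norm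
    (fun t => norm_nonneg _) (fun t => norm_nonneg _) (fun t => norm_nonneg _)
    (fun t => norm_Q_le v t) hDle (norm_Ey_le y) hT0 hL0.le hδ0.le R hbad hcell
  -- the good part
  have hM0 : 0 ≤ T / Q := by positivity
  have hsj : 0 < √j := Real.sqrt_pos.mpr hj0
  have hμ : 0 < j + √j * (T / Q) := by positivity
  have hcs := csi (b := fun t => ‖D t‖) (e := fun t => ‖Ey y t‖) hDc.norm
    (continuous_Ey y).norm (fun t => norm_nonneg _) (fun t => norm_nonneg _) hDle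
    (norm_Ey_le y) hT0 hμ
  have hI1 : ∫ t, ‖D t‖ ^ 2 * g T t ≤ CR * (j ^ 2 * L + j * (T / Q) ^ 2) := by
    have h7 := hR N T Q L (δ' * √N / L) J c pr hL1 hN1 hT1 hQ1 hJ hsep hc norm_pr_le n1 n2
      n3 ?_
    · rw [← hj] at h7
      rw [hD]
      exact h7
    · refine n6.trans ?_
      rw [hNexp]
      exact Real.exp_le_exp.mpr (le_sq_me hL1)
  have hI2 : ∫ t, ‖Ey y t‖ ^ 2 * g T t ≤ (16 * CM) * L ^ 4 := by
    refine (hM y T n10 hT1 n11).trans ?_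
    have h7 : Real.log y ≤ L := by
      rw [hLdef]
      exact Real.log_le_log (by linarith) (n12.trans n5)
    have h8 : 0 ≤ Real.log y := Real.log_nonneg (by linarith)
    have h9 : (Real.log y) ^ 4 ≤ L ^ 4 := by gcongr
    have h10 : 0 ≤ CM * L ^ 4 := by positivity
    calc CM * (Real.log y) ^ 4 ≤ CM * L ^ 4 := by gcongr
      _ ≤ (16 * CM) * L ^ 4 := by linarith
  have hI : ∫ t, ‖D t‖ * ‖Ey y t‖ * g T t ≤
      CR * (j ^ 2 * L + j * (T / Q) ^ 2) / (j + √j * (T / Q)) +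
        (j + √j * (T / Q)) * ((16 * CM) * L ^ 4) := by
    refine hcs.trans ?_
    gcongr
  have hgood := good_num (C1 := CR) (C2 := 16 * CM) hL1 hj1 hM0 hCR.le (by positivity) hδ0.le
    hδL hI
  have htail := tail_num (j := j) h1 hNexp hT0.le n6 hy0 (n12.trans n5) hj0.le
  -- the end
  have hLC : T / Q ≤ L ^ C / δ' ^ 2 := by
    refine n9.trans ?_
    have := Real.rpow_le_rpow_of_exponent_le hL1 hCb
    gcongr
  have e1 : √j * (T / Q) ≤ √j * (L ^ C / δ' ^ 2) := by gcongr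
  have e2 : 0 ≤ √j * (T / Q) := by positivity
  have e3 : 0 ≤ j * L ^ (-(3 : ℝ)) := by positivity
  have e4 : 0 ≤ √j * (L ^ C / δ' ^ 2) := by positivity
  calc ∫ t, ‖MRL.Q 1 v t‖ * ‖D t‖ * ‖Ey y t‖ * g T t
      ≤ (CR + 16 * CM) * (j * L ^ (-(3 : ℝ)) + √j * (T / Q)) +
          3 * j * ((CH + CS) * L ^ (-(3 : ℝ))) + j * L ^ (-(3 : ℝ)) := by
        linarith [hsplit, hgood, htail]
    _ ≤ (CR + 16 * CM) * (j * L ^ (-(3 : ℝ)) + √j * (L ^ C / δ' ^ 2)) +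
          3 * j * ((CH + CS) * L ^ (-(3 : ℝ))) + j * L ^ (-(3 : ℝ)) := by gcongr
    _ = ((CR + 16 * CM) + 3 * (CH + CS) + 1) * (j * L ^ (-(3 : ℝ))) +
          (CR + 16 * CM) * (√j * (L ^ C / δ' ^ 2)) := by ring
    _ ≤ C * (j * L ^ (-(3 : ℝ))) + C * (√j * (L ^ C / δ' ^ 2)) := by
        have f1 : (CR + 16 * CM) + 3 * (CH + CS) + 1 ≤ C := by linarith
        have f2 : CR + 16 * CM ≤ C := by linarith
        gcongr
    _ = C * (j * L ^ (-(3 : ℝ)) + √j * (L ^ C / δ' ^ 2)) := by ring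

end Pool.Agent.OX
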