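import Mathlib
import Pool.Agent.Lib.OX.Top
import Pool.Agent.Lib.OX.BADI2
import Pool.Agent.Lib.OX.INT2
import Pool.Agent.Lib.OX.CORE2
import Pool.Agent.Lib.OX.FIN2

/-!
# PROJECT OX, second part: the assembly without hypotheses.  helper31.
-/

set_option autoImplicit false

namespace Pool.Agent.OX

open Pool.Agent.MRL Pool.Agent.MR2

theorem int2_all : INT2 := int2 (rd cnt) me sq_all (hmInt vdc_row) (LC.largeCount meanValue)

theorem core2_all : CORE2 := core2 (badi2 mt) int2_all lb

theorem finalV_all : FinalV := fin2 core2_all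

end Pool.Agent.OX
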